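import Pool.Agent.MP_fc1aea_an.H30.Dyad

-- part MP_fc1aea_an.H30.Noise
section

namespace Pool.Agent.MP_fc1aea_an.H30
open Filter Topology MeasureTheory

noncomputable section

def sg (b : Bool) : ℝ := if b then 1 else -1

/-- transition kernel of the noise with correlations `ρ d, ρ (d+1), ...` (lists of equal length) -/
def pk (ρ : ℕ → ℝ) (d : ℕ) : List Bool → List Bool → ℝ
  | b :: B, b' :: B' => pk ρ d B B' * ((1 + ρ (d + B.length) * sg b * sg b') / 2)
  | _, _ => 1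

/-- Riesz products -/
def R (ρ : ℕ → ℝ) (B : List Bool) : L := ∑ B' ∈ lev B.length, pk ρ 0 B B' • h B'

theorem pk_cons (ρ : ℕ → ℝ) (d : ℕ) (b b' : Bool) (B B' : List Bool) :
    pk ρ d (b :: B) (b' :: B') = pk ρ d B B' * ((1 + ρ (d + B.length) * sg b * sg b') / 2) := rfl

theorem pk_nil (ρ : ℕ → ℝ) (d : ℕ) (B' : List Bool) : pk ρ d [] B' = 1 := by
  cases B' <;> rfl

theorem pk_nonneg {ρ : ℕ → ℝ} (hρ : ∀ i, |ρ i| ≤ 1) (d : ℕ) (B B' : List Bool) :
    0 ≤ pk ρ d B B' := by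
  induction B generalizing B' with
  | nil => rw [pk_nil]; norm_num
  | cons b B ih =>
    cases B' with
    | nil => show (0:ℝ) ≤ 1; norm_num
    | cons b' B' =>
      rw [pk_cons]
      have := abs_le.1 (hρ (d + B.length))
      refine mul_nonneg (ih B') ?_
      cases b <;> cases b' <;> simp [sg] <;> linarith

theorem sum_pk (ρ : ℕ → ℝ) (d : ℕ) (B : List Bool) : ∑ B' ∈ lev B.length, pk ρ d B B' = 1 := by
  induction B with
  | nil => simp [pk_nil, card_lev]
  | cons b B ih =>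
    rw [List.length_cons, sum_lev_succ, ← ih]
    refine Finset.sum_congr rfl fun B' _ => ?_
    simp only [pk_cons, sg]
    cases b <;> simp <;> ring

theorem norm_R_le {ρ : ℕ → ℝ} (hρ : ∀ i, |ρ i| ≤ 1) (B : List Bool) : ‖R ρ B‖ ≤ 1 := by
  rw [R, ← sum_pk ρ 0 B]
  refine (norm_sum_le _ _).trans (Finset.sum_le_sum fun B' _ => ?_)
  rw [norm_smul, norm_h, mul_one, Real.norm_of_nonneg (pk_nonneg hρ _ _ _)]

theorem R_split (ρ : ℕ → ℝ) (B : List Bool) :
    R ρ B = (1 / 2 : ℝ) • (R ρ (false :: B) + R ρ (true :: B)) := by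
  simp only [R, List.length_cons, sum_lev_succ, ← Finset.sum_add_distrib, Finset.smul_sum]
  refine Finset.sum_congr rfl fun B' _ => ?_
  rw [h_split B']
  simp only [pk_cons, sg]
  simp only [Bool.false_eq_true, if_false, if_true]
  module

/-- the correlations: they tend to zero, but all the sums of their powers diverge -/
def rho (i : ℕ) : ℝ := 1 / (1 + Real.log (i + 1))

theorem rho_pos (i : ℕ) : 0 < rho i := by
  have : 0 ≤ Real.log ((i:ℝ) + 1) := Real.log_nonneg (by linarith [Nat.cast_nonneg (α := ℝ) i])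
  unfold rho; positivity

theorem rho_le_one (i : ℕ) : rho i ≤ 1 := by
  have : 0 ≤ Real.log ((i:ℝ) + 1) := Real.log_nonneg (by linarith [Nat.cast_nonneg (α := ℝ) i])
  unfold rho; rw [div_le_one (by linarith)]; linarith

theorem abs_rho_le (i : ℕ) : |rho i| ≤ 1 := by
  rw [abs_of_pos (rho_pos i)]; exact rho_le_one i

theorem exists_S : ∃ T : L →L[ℝ] L, (∀ B, T (h B) = R rho B) ∧ ∀ f, ‖T f‖ ≤ 1 * ‖f‖ :=
  exists_ext (R rho) 1 (norm_R_le abs_rho_le) (R_split rho)

/-- the noise operator -/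
def S : L →L[ℝ] L := Classical.choose exists_S

theorem S_h (B : List Bool) : S (h B) = R rho B := (Classical.choose_spec exists_S).1 B

theorem norm_S_le (f : L) : ‖S f‖ ≤ ‖f‖ := by
  have := (Classical.choose_spec exists_S).2 f
  rwa [one_mul] at this

end

end Pool.Agent.MP_fc1aea_an.H30

namespace Pool.Agent.MP_fc1aea_an.H30
open Filter Topology MeasureTheory

noncomputable section

theorem noisea_var (N : ℕ) (y : List Bool → ℝ) :
    (∑ C ∈ lev N, wt C * y C) ^ 2 ≤ ∑ C ∈ lev N, wt C * y C ^ 2 := by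
  have key : ∀ m : ℝ, 0 ≤ ∑ C ∈ lev N, wt C * y C ^ 2 - 2 * m * ∑ C ∈ lev N, wt C * y C
      + m ^ 2 * ∑ C ∈ lev N, wt C := by
    intro m
    rw [Finset.mul_sum, Finset.mul_sum, ← Finset.sum_sub_distrib, ← Finset.sum_add_distrib]
    refine Finset.sum_nonneg fun C _ => ?_
    nlinarith [mul_nonneg (wt_pos C).le (sq_nonneg (y C - m))]
  have h0 := key (∑ C ∈ lev N, wt C * y C)
  rw [sum_wt] at h0
  nlinarith

theorem noisea_l2 {ρ : ℕ → ℝ} {r : ℝ} (hr : 0 ≤ r) (hr1 : r ≤ 1) (d : ℕ)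
    (hρ : ∀ i, d ≤ i → |ρ i| ≤ r) (N : ℕ) (x : List Bool → ℝ) :
    ∑ C' ∈ lev N, wt C' * (∑ C ∈ lev N, x C * pk ρ d C C') ^ 2 ≤
      (∑ C ∈ lev N, wt C * x C) ^ 2 +
        r ^ 2 * (∑ C ∈ lev N, wt C * x C ^ 2 - (∑ C ∈ lev N, wt C * x C) ^ 2) := by
  induction N generalizing x with
  | zero => simp [pk_nil]
  | succ N ih =>
    set p : List Bool → ℝ := fun C => (x (false :: C) + x (true :: C)) / 2 with hp
    set n : List Bool → ℝ := fun C => (x (true :: C) - x (false :: C)) / 2 with hn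
    have hN : ∀ (b' : Bool) (C' : List Bool), ∑ C ∈ lev (N + 1), x C * pk ρ d C (b' :: C') =
        ∑ C ∈ lev N, p C * pk ρ d C C' + ρ (d + N) * sg b' * ∑ C ∈ lev N, n C * pk ρ d C C' := by
      intro b' C'
      rw [sum_lev_succ, Finset.mul_sum, ← Finset.sum_add_distrib]
      refine Finset.sum_congr rfl fun C hC => ?_
      rw [pk_cons, pk_cons, mem_lev.1 hC]
      simp only [hp, hn, sg, Bool.false_eq_true, if_false, if_true]
      ring
    have hE : ∑ C ∈ lev (N + 1), wt C * x C = ∑ C ∈ lev N, wt C * p C := by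
      rw [sum_lev_succ]
      refine Finset.sum_congr rfl fun C _ => ?_
      simp only [wt_cons, hp]; ring
    have hE2 : ∑ C ∈ lev (N + 1), wt C * x C ^ 2 =
        ∑ C ∈ lev N, wt C * p C ^ 2 + ∑ C ∈ lev N, wt C * n C ^ 2 := by
      rw [sum_lev_succ, ← Finset.sum_add_distrib]
      refine Finset.sum_congr rfl fun C _ => ?_
      simp only [wt_cons, hp, hn]; ring
    have hL : ∑ C' ∈ lev (N + 1), wt C' * (∑ C ∈ lev (N + 1), x C * pk ρ d C C') ^ 2 =
        ∑ C' ∈ lev N, wt C' * (∑ C ∈ lev N, p C * pk ρ d C C') ^ 2 +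
        ρ (d + N) ^ 2 * ∑ C' ∈ lev N, wt C' * (∑ C ∈ lev N, n C * pk ρ d C C') ^ 2 := by
      rw [sum_lev_succ N (fun C' => wt C' * (∑ C ∈ lev (N + 1), x C * pk ρ d C C') ^ 2),
        Finset.mul_sum, ← Finset.sum_add_distrib]
      refine Finset.sum_congr rfl fun C' _ => ?_
      rw [hN, hN]
      simp only [wt_cons, sg, Bool.false_eq_true, if_false, if_true]
      ring
    rw [hL, hE, hE2]
    have h1 := ih p
    have h2 := ih n
    have h3 := noisea_var N n
    have h4 : ρ (d + N) ^ 2 ≤ r ^ 2 := by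
      have := hρ (d + N) (Nat.le_add_right _ _)
      rw [← sq_abs]; exact pow_le_pow_left₀ (abs_nonneg _) this 2
    have h5 : r ^ 2 ≤ 1 := pow_le_one₀ hr hr1
    have h6 : 0 ≤ ∑ C' ∈ lev N, wt C' * (∑ C ∈ lev N, n C * pk ρ d C C') ^ 2 :=
      Finset.sum_nonneg fun C _ => mul_nonneg (wt_pos C).le (sq_nonneg _)
    have h7 : ∑ C' ∈ lev N, wt C' * (∑ C ∈ lev N, n C * pk ρ d C C') ^ 2 ≤
        ∑ C ∈ lev N, wt C * n C ^ 2 := by
      nlinarith [mul_le_mul_of_nonneg_right h5 (sub_nonneg.2 h3)]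
    have h8 := mul_le_mul h4 h7 h6 (sq_nonneg r)
    nlinarith

/-- Maximal correlation bound.  Plan: prove by induction on `N` (for all `x`), with `E x = ∑ C ∈ lev N, wt C * x C`,
`∑ C', wt C' * (∑ C, x C * pk ρ d C C')^2 ≤ (E x)^2 + r^2 * (E (x^2) - (E x)^2)`:
with `p C = (x (false :: C) + x (true :: C))/2`, `n C = (x (true :: C) - x (false :: C))/2` one has
`∑ C ∈ lev (N+1), x C * pk C (b' :: C') = N p C' + ρ (d+N) * sg b' * N n C'` where `N p C' = ∑ C ∈ lev N, p C * pk C C'`.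
Then Cauchy-Schwarz (`∑ wt = 1`). -/
theorem maxcorr {ρ : ℕ → ℝ} {r : ℝ} (hr : 0 ≤ r) (hr1 : r ≤ 1) (d N : ℕ)
    (hρ : ∀ i, d ≤ i → |ρ i| ≤ r) (x : List Bool → ℝ) (hx : ∀ C ∈ lev N, |x C| ≤ 1)
    (hx0 : ∑ C ∈ lev N, wt C * x C = 0) :
    ∑ C' ∈ lev N, wt C' * |∑ C ∈ lev N, x C * pk ρ d C C'| ≤ r := by
  have h1 := noisea_l2 hr hr1 d hρ N x
  have h2 := noisea_var N (fun C' => |∑ C ∈ lev N, x C * pk ρ d C C'|)
  simp only [sq_abs] at h2
  have h3 : ∑ C ∈ lev N, wt C * x C ^ 2 ≤ 1 := by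
    rw [← sum_wt N]
    refine Finset.sum_le_sum fun C hC => ?_
    have : x C ^ 2 ≤ 1 := by
      rw [← sq_abs]; exact pow_le_one₀ (abs_nonneg _) (hx C hC)
    nlinarith [wt_pos C]
  rw [hx0] at h1
  have h4 : (∑ C' ∈ lev N, wt C' * |∑ C ∈ lev N, x C * pk ρ d C C'|) ^ 2 ≤ r ^ 2 := by
    nlinarith [mul_le_mul_of_nonneg_left h3 (sq_nonneg r)]
  exact (abs_le_of_sq_le_sq' h4 hr).2

theorem noisea_pk_append (ρ : ℕ → ℝ) (A A' : List Bool) (C C' : List Bool)
    (hC : C.length = C'.length) :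
    pk ρ 0 (C ++ A) (C' ++ A') = pk ρ 0 A A' * pk ρ A.length C C' := by
  induction C generalizing C' with
  | nil =>
    cases C' with
    | nil => simp [pk_nil]
    | cons b C' => simp at hC
  | cons b C ih =>
    cases C' with
    | nil => simp at hC
    | cons b' C' =>
      have hl : C.length = C'.length := by simpa using hC
      rw [List.cons_append, List.cons_append, pk_cons, pk_cons, ih C' hl, List.length_append,
        zero_add, add_comm C.length A.length]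
      ring

theorem noisea_R_desc (ρ : ℕ → ℝ) (N : ℕ) (A : List Bool) :
    R ρ A = ∑ C ∈ lev N, wt C • R ρ (C ++ A) := by
  have h1 := sum_desc (φ := fun B => wt B • R ρ B) (fun B => by
    rw [R_split ρ B, wt_cons, wt_cons]; module) N A
  have h2 : R ρ A = (wt A)⁻¹ • (wt A • R ρ A) := by
    rw [smul_smul, inv_mul_cancel₀ (wt_pos A).ne', one_smul]
  rw [h2, ← h1, Finset.smul_sum]
  refine Finset.sum_congr rfl fun C _ => ?_
  rw [smul_smul, wt_append]
  congr 1
  field_simp [(wt_pos A).ne']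

theorem noisea_R_append (ρ : ℕ → ℝ) (N : ℕ) (A C : List Bool) (hC : C ∈ lev N) :
    R ρ (C ++ A) = ∑ A' ∈ lev A.length, ∑ C' ∈ lev N,
      (pk ρ 0 A A' * pk ρ A.length C C') • h (C' ++ A') := by
  rw [R, List.length_append, mem_lev.1 hC, add_comm N, sum_lev_add]
  refine Finset.sum_congr rfl fun A' _ => Finset.sum_congr rfl fun C' hC' => ?_
  rw [noisea_pk_append ρ A A' C C' (by rw [mem_lev.1 hC, mem_lev.1 hC'])]

theorem noisea_bound {ρ : ℕ → ℝ} (hρ1 : ∀ i, |ρ i| ≤ 1) {r : ℝ} (hr : 0 ≤ r) (hr1 : r ≤ 1)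
    (A : List Bool) (hρ : ∀ i, A.length ≤ i → |ρ i| ≤ r) (N : ℕ) (x : List Bool → ℝ)
    (hx : ∀ C ∈ lev N, |x C| ≤ 1) (hx0 : ∑ C ∈ lev N, wt C * x C = 0) :
    ‖∑ C ∈ lev N, (wt C * x C) • R ρ (C ++ A)‖ ≤ r := by
  have h1 : ∑ C ∈ lev N, (wt C * x C) • R ρ (C ++ A) = ∑ A' ∈ lev A.length, ∑ C' ∈ lev N,
      (pk ρ 0 A A' * (wt C' * ∑ C ∈ lev N, x C * pk ρ A.length C C')) • h (C' ++ A') := by
    rw [Finset.sum_congr rfl fun C hC => by rw [noisea_R_append ρ N A C hC]]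
    simp only [Finset.smul_sum]
    rw [Finset.sum_comm]
    refine Finset.sum_congr rfl fun A' _ => ?_
    rw [Finset.sum_comm]
    refine Finset.sum_congr rfl fun C' hC' => ?_
    rw [Finset.mul_sum, Finset.mul_sum, Finset.sum_smul]
    refine Finset.sum_congr rfl fun C hC => ?_
    rw [smul_smul, wt_of_mem hC, wt_of_mem hC']
    congr 1
    ring
  rw [h1]
  have h2 := maxcorr hr hr1 A.length N hρ x hx hx0
  calc _ ≤ ∑ A' ∈ lev A.length, ∑ C' ∈ lev N,
        pk ρ 0 A A' * (wt C' * |∑ C ∈ lev N, x C * pk ρ A.length C C'|) := by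
        refine (norm_sum_le _ _).trans (Finset.sum_le_sum fun A' _ => ?_)
        refine (norm_sum_le _ _).trans (Finset.sum_le_sum fun C' _ => ?_)
        rw [norm_smul, norm_h, mul_one, Real.norm_eq_abs, abs_mul, abs_mul,
          abs_of_nonneg (pk_nonneg hρ1 _ _ _), abs_of_pos (wt_pos C')]
    _ ≤ ∑ A' ∈ lev A.length, pk ρ 0 A A' * r := by
        refine Finset.sum_le_sum fun A' _ => ?_
        rw [← Finset.mul_sum]
        exact mul_le_mul_of_nonneg_left h2 (pk_nonneg hρ1 _ _ _)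
    _ = r := by rw [← Finset.sum_mul, sum_pk, one_mul]

theorem noisea_rho_tendsto : Tendsto rho atTop (𝓝 0) := by
  have h1 : Tendsto (fun i : ℕ => 1 + Real.log ((i:ℝ) + 1)) atTop atTop :=
    tendsto_atTop_add_const_left _ _ (Real.tendsto_log_atTop.comp
      (tendsto_atTop_add_const_right _ _ tendsto_natCast_atTop_atTop))
  have h2 := h1.inv_tendsto_atTop
  refine h2.congr fun i => ?_
  simp [rho]

/-- The noise operator is small from `L∞` to `L1` on mean zero functions in deep nodes.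
Plan: `rho → 0`; choose `n0` with `rho i ≤ min η 1` for `i ≥ n0`.  `S (P A F)` is the limit of
`∑ C ∈ lev N, ms (C ++ A) F • R rho (C ++ A)` (`step_tendsto`), `R rho A = ∑ C ∈ lev N, wt C • R rho (C ++ A)`
(`sum_desc`, `R_split`), `pk ρ 0 (C ++ A) (C' ++ A') = pk ρ 0 A A' * pk ρ A.length C C'` for equal lengths
(induction on `C`).  With `x C = ms (C ++ A) F / wt (C ++ A) - ms A F / wt A ∈ [-1, 1]` the difference is
`wt A • ∑ A' C', (pk A A' * wt C' * ∑ C, x C * pk C C') • h (C' ++ A')` (`sum_lev_add`; `wt C = wt C'` on `lev N`). -/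
theorem S_smooth {η : ℝ} (hη : 0 < η) : ∃ n0 : ℕ, ∀ A : List Bool, n0 ≤ A.length → ∀ F : L,
    0 ≤ F → F ≤ one → ‖S (P A F) - ms A F • S (h A)‖ ≤ η * wt A := by
  have hr : 0 < min η 1 := lt_min hη one_pos
  obtain ⟨n0, hn0⟩ := eventually_atTop.1 (noisea_rho_tendsto.eventually (gt_mem_nhds hr))
  refine ⟨n0, fun A hA F hF0 hF1 => ?_⟩
  have hlim : Tendsto (fun N => S (∑ C ∈ lev N, ms (C ++ A) F • h (C ++ A)) - ms A F • S (h A))
      atTop (𝓝 (S (P A F) - ms A F • S (h A))) :=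
    ((S.continuous.tendsto _).comp (step_tendsto A F)).sub_const _
  refine le_of_tendsto' hlim.norm fun N => ?_
  set x : List Bool → ℝ := fun C => ms (C ++ A) F / wt (C ++ A) - ms A F / wt A with hx
  have hq : ∀ B : List Bool, 0 ≤ ms B F / wt B ∧ ms B F / wt B ≤ 1 := fun B =>
    ⟨div_nonneg ((addi_ms hF0).nn B) (wt_pos B).le, (div_le_one (wt_pos B)).2 (ms_le_wt B hF1)⟩
  have hx1 : ∀ C ∈ lev N, |x C| ≤ 1 := fun C _ => by
    have h1 := hq (C ++ A)
    have h2 := hq A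
    rw [abs_le]; constructor <;> simp only [hx] <;> linarith [h1.1, h1.2, h2.1, h2.2]
  have hxe : ∀ C, wt A * (wt C * x C) = ms (C ++ A) F - ms A F * wt C := fun C => by
    simp only [hx, wt_append]
    field_simp [(wt_pos A).ne', (wt_pos C).ne']
  have hx0 : ∑ C ∈ lev N, wt C * x C = 0 := by
    have h1 : wt A * ∑ C ∈ lev N, wt C * x C = 0 := by
      rw [Finset.mul_sum, Finset.sum_congr rfl fun C _ => hxe C, Finset.sum_sub_distrib,
        ← Finset.mul_sum, sum_wt, sum_desc (φ := fun B => ms B F) (fun B => ms_add B F)]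
      ring
    exact (mul_eq_zero.1 h1).resolve_left (wt_pos A).ne'
  have hb := noisea_bound abs_rho_le hr.le (min_le_right _ _) A
    (fun i hi => by rw [abs_of_pos (rho_pos i)]; exact (hn0 i (hA.trans hi)).le) N x hx1 hx0
  have he : S (∑ C ∈ lev N, ms (C ++ A) F • h (C ++ A)) - ms A F • S (h A) =
      wt A • ∑ C ∈ lev N, (wt C * x C) • R rho (C ++ A) := by
    rw [map_sum, S_h, noisea_R_desc rho N A, Finset.smul_sum, Finset.smul_sum,
      ← Finset.sum_sub_distrib]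
    refine Finset.sum_congr rfl fun C _ => ?_
    rw [map_smul, S_h, smul_smul, smul_smul, hxe, sub_smul]
  rw [he, norm_smul, Real.norm_of_nonneg (wt_pos A).le, mul_comm]
  exact mul_le_mul_of_nonneg_right (hb.trans (min_le_left _ _)) (wt_pos A).le

end

end Pool.Agent.MP_fc1aea_an.H30

namespace Pool.Agent.MP_fc1aea_an.H30
open Filter Topology MeasureTheory

noncomputable section

theorem noiseb_le_of_sq {a b : ℝ} (h : a ^ 2 ≤ b ^ 2) (hb : 0 ≤ b) : a ≤ b :=
  (abs_le_of_sq_le_sq' h hb).2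

theorem noiseb_sqrt {x : ℝ} (hx : |x| ≤ 1) :
    (Real.sqrt (1 + x) + Real.sqrt (1 - x)) / 2 ≤ Real.exp (-x ^ 2 / 8) := by
  obtain ⟨h1, h2⟩ := abs_le.1 hx
  have ha := Real.sq_sqrt (show 0 ≤ 1 + x by linarith)
  have hb := Real.sq_sqrt (show 0 ≤ 1 - x by linarith)
  have ha0 := Real.sqrt_nonneg (1 + x)
  have hb0 := Real.sqrt_nonneg (1 - x)
  set a := Real.sqrt (1 + x)
  set b := Real.sqrt (1 - x)
  have hx2 : x ^ 2 ≤ 1 := by nlinarith
  have hab : a * b ≤ 1 - x ^ 2 / 2 := by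
    refine noiseb_le_of_sq ?_ (by linarith)
    rw [mul_pow, ha, hb]; nlinarith [sq_nonneg (x ^ 2)]
  have hs : a + b ≤ 2 - x ^ 2 / 4 := by
    refine noiseb_le_of_sq ?_ (by linarith)
    nlinarith [sq_nonneg (x ^ 2)]
  have := Real.add_one_le_exp (-x ^ 2 / 8)
  linarith

/-- Hellinger affinity.  Plan: induction on `B` (`sum_lev_succ`, `Real.sqrt_mul`);
`(√(1+x) + √(1-x))/2 ≤ 1 - x^2/8 ≤ exp (-x^2/8)` for `|x| ≤ 1`. -/
theorem affinity_le {ρ : ℕ → ℝ} (hρ : ∀ i, |ρ i| ≤ 1) (B : List Bool) :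
    ∑ B' ∈ lev B.length, Real.sqrt (pk ρ 0 B B' * wt B') ≤
      Real.exp (-(∑ i ∈ Finset.range B.length, ρ i ^ 2) / 8) := by
  induction B with
  | nil => simp [pk_nil]
  | cons b B ih =>
    rw [List.length_cons, sum_lev_succ, Finset.sum_range_succ]
    have hx : |ρ B.length * sg b| ≤ 1 := by
      cases b <;> simpa [sg] using hρ B.length
    have hsq : (ρ B.length * sg b) ^ 2 = ρ B.length ^ 2 := by
      cases b <;> simp [sg]
    have key := noiseb_sqrt hx
    rw [hsq] at key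
    set x := ρ B.length * sg b with hxd
    have h4 : Real.sqrt 4 = 2 := by
      rw [show (4:ℝ) = 2 ^ 2 by norm_num]; exact Real.sqrt_sq (by norm_num)
    have e : ∀ B' ∈ lev B.length,
        Real.sqrt (pk ρ 0 (b :: B) (false :: B') * wt (false :: B')) +
          Real.sqrt (pk ρ 0 (b :: B) (true :: B') * wt (true :: B')) =
        Real.sqrt (pk ρ 0 B B' * wt B') * ((Real.sqrt (1 + x) + Real.sqrt (1 - x)) / 2) := by
      intro B' _
      have hq : 0 ≤ pk ρ 0 B B' * wt B' := mul_nonneg (pk_nonneg hρ _ _ _) (wt_pos _).le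
      have e1 : pk ρ 0 (b :: B) (false :: B') * wt (false :: B') =
          pk ρ 0 B B' * wt B' * ((1 - x) / 4) := by
        rw [pk_cons, wt_cons, zero_add, ← hxd]; simp only [sg]; norm_num; ring
      have e2 : pk ρ 0 (b :: B) (true :: B') * wt (true :: B') =
          pk ρ 0 B B' * wt B' * ((1 + x) / 4) := by
        rw [pk_cons, wt_cons, zero_add, ← hxd]; simp only [sg]; norm_num; ring
      rw [e1, e2, Real.sqrt_mul hq, Real.sqrt_mul hq, Real.sqrt_div' _ (by norm_num),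
        Real.sqrt_div' _ (by norm_num), h4]
      ring
    rw [Finset.sum_congr rfl e, ← Finset.sum_mul]
    refine (mul_le_mul ih key (by positivity) (Real.exp_pos _).le).trans (le_of_eq ?_)
    rw [← Real.exp_add]; congr 1; ring

/-- Plan: `(1 + log (i+1))^j ≤ i + 1` eventually (`Real.isLittleO_pow_log_id_atTop`), harmonic series. -/
theorem sum_rho_pow (j : ℕ) :
    Tendsto (fun n => ∑ i ∈ Finset.range n, rho i ^ j) atTop atTop := by
  rw [← not_summable_iff_tendsto_nat_atTop_of_nonneg fun i => (pow_pos (rho_pos i) j).le]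
  intro hs
  have h1 : Summable fun i : ℕ => 1 / ((i + 1 : ℕ) : ℝ) := by
    refine Summable.of_nonneg_of_le (fun i => by positivity) (fun i => ?_)
      (hs.mul_left ((j.factorial : ℝ) * Real.exp 1))
    have hi : (0:ℝ) < (i:ℝ) + 1 := by positivity
    have hl : 0 ≤ Real.log ((i:ℝ) + 1) := Real.log_nonneg (by linarith [Nat.cast_nonneg (α := ℝ) i])
    have h2 := Real.pow_div_factorial_le_exp (1 + Real.log ((i:ℝ) + 1)) (by linarith) j
    rw [Real.exp_add, Real.exp_log hi, div_le_iff₀ (by positivity)] at h2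
    rw [rho, one_div_pow, mul_one_div, Nat.cast_add, Nat.cast_one,
      div_le_div_iff₀ hi (by positivity)]
    linarith
  exact Real.not_summable_one_div_natCast ((summable_nat_add_iff 1).1 h1)

theorem noiseb_conv (τ ρ : ℕ → ℝ) (d : ℕ) (B B'' : List Bool) (hl : B''.length = B.length) :
    ∑ B' ∈ lev B.length, pk τ d B B' * pk ρ d B' B'' = pk (fun i => τ i * ρ i) d B B'' := by
  induction B generalizing B'' with
  | nil => simp [pk_nil]
  | cons b B ih =>
    cases B'' with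
    | nil => simp at hl
    | cons c C =>
      have hC : C.length = B.length := by simpa using hl
      rw [List.length_cons, sum_lev_succ, pk_cons, ← ih C hC, Finset.sum_mul]
      refine Finset.sum_congr rfl fun B' hB' => ?_
      simp only [pk_cons, mem_lev.1 hB', sg]
      cases b <;> cases c <;> simp <;> ring

theorem noiseb_pk_one (d : ℕ) (B B' : List Bool) (hl : B'.length = B.length) :
    pk (fun _ => 1) d B B' = if B' = B then 1 else 0 := by
  induction B generalizing B' with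
  | nil => simp [pk_nil, List.length_eq_zero_iff.1 hl]
  | cons b B ih =>
    cases B' with
    | nil => simp at hl
    | cons c C =>
      rw [pk_cons, ih C (by simpa using hl)]
      by_cases hC : C = B <;> cases b <;> cases c <;> simp [sg, hC]

/-- Plan: `∑ B', pk τ B B' * pk ρ B' B'' = pk (τ ρ) B B''` by induction; `pk 1 B B' = δ`. -/
theorem S_pow_h (j : ℕ) (B : List Bool) : (S ^ j) (h B) = R (fun i => rho i ^ j) B := by
  induction j with
  | zero =>
    simp only [pow_zero, one_apply_eq_self, R]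
    rw [Finset.sum_eq_single_of_mem B (mem_lev.2 rfl)]
    · rw [noiseb_pk_one _ _ _ rfl]; simp
    · intro B' hB' hne
      rw [noiseb_pk_one _ _ _ (mem_lev.1 hB')]; simp [hne]
  | succ j ih =>
    rw [pow_succ', mul_apply_eq_comp, ih, R, map_sum]
    have e : ∀ B' ∈ lev B.length, S (pk (fun i => rho i ^ j) 0 B B' • h B') =
        ∑ C ∈ lev B.length, (pk (fun i => rho i ^ j) 0 B B' * pk rho 0 B' C) • h C := by
      intro B' hB'
      rw [map_smul, S_h, R, mem_lev.1 hB', Finset.smul_sum]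
      simp only [smul_smul]
    rw [Finset.sum_congr rfl e, Finset.sum_comm, R]
    refine Finset.sum_congr rfl fun C hC => ?_
    rw [← Finset.sum_smul, noiseb_conv _ _ _ _ _ (mem_lev.1 hC)]
    simp only [pow_succ]

theorem noiseb_ms_R (τ : ℕ → ℝ) {B B' : List Bool} (hl : B'.length = B.length) :
    ms B' (R τ B) = pk τ 0 B B' := by
  rw [R, map_sum, Finset.sum_eq_single_of_mem B' (mem_lev.2 hl)]
  · rw [map_smul, ms_h_self, smul_eq_mul, mul_one]
  · intro C hC hne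
    rw [map_smul, ms_h_ne (hl.trans (mem_lev.1 hC).symm) hne.symm, smul_zero]

theorem noiseb_ms_R_le {τ : ℕ → ℝ} (hτ : ∀ i, |τ i| ≤ 1) (C B' : List Bool) :
    |ms B' (R τ C)| ≤ (wt C)⁻¹ * wt B' := by
  rw [R, map_sum]
  refine (Finset.abs_sum_le_sum_abs _ _).trans ?_
  rw [← one_mul ((wt C)⁻¹ * wt B'), ← sum_pk τ 0 C, Finset.sum_mul]
  refine Finset.sum_le_sum fun C' hC' => ?_
  rw [map_smul, smul_eq_mul, abs_mul, abs_of_nonneg (pk_nonneg hτ _ _ _)]
  refine mul_le_mul_of_nonneg_left ?_ (pk_nonneg hτ _ _ _)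
  have : wt C' = wt C := by rw [wt, wt, mem_lev.1 hC']
  rw [← this, ← div_eq_inv_mul]
  exact abs_ms_h_le _ _

theorem noiseb_abs_pow (j i : ℕ) : |rho i ^ j| ≤ 1 := by
  rw [abs_pow]; exact pow_le_one₀ (abs_nonneg _) (abs_rho_le i)

theorem noiseb_norm_pow (j : ℕ) (f : L) : ‖(S ^ j) f‖ ≤ ‖f‖ := by
  induction j with
  | zero => simp
  | succ j ih => rw [pow_succ', mul_apply_eq_comp]; exact (norm_S_le _).trans ih

theorem noiseb_min {p : ℕ → ℝ} (hp : ∀ j, 0 ≤ p j) {c : ℝ} (hc : 0 ≤ c) (N : ℕ) :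
    min (∑ j ∈ Finset.range N, p j) c ≤ ∑ j ∈ Finset.range N, Real.sqrt (p j * c) := by
  induction N with
  | zero => simp
  | succ N ih =>
    rw [Finset.sum_range_succ, Finset.sum_range_succ]
    have h0 : 0 ≤ ∑ j ∈ Finset.range N, p j := Finset.sum_nonneg fun j _ => hp j
    have h1 : min (p N) c ≤ Real.sqrt (p N * c) := by
      refine Real.le_sqrt_of_sq_le ?_
      rw [sq]
      exact mul_le_mul (min_le_left _ _) (min_le_right _ _) (le_min (hp N) hc) (hp N)
    refine le_trans ?_ (add_le_add ih h1)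
    have := hp N
    rcases le_total (∑ j ∈ Finset.range N, p j) c with h2 | h2 <;>
      rcases le_total (p N) c with h3 | h3
    · rw [min_eq_left h2, min_eq_left h3]; exact min_le_left _ _
    · rw [min_eq_left h2, min_eq_right h3]; exact (min_le_right _ _).trans (by linarith)
    · rw [min_eq_right h2, min_eq_left h3]; exact (min_le_right _ _).trans (by linarith)
    · rw [min_eq_right h2, min_eq_right h3]; exact (min_le_right _ _).trans (by linarith)

/-- the sum of the first powers of the noise operator is far from functions bounded by `D` -/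
theorem noiseb_far (N : ℕ) {D : ℝ} (hD : 0 ≤ D) (B : List Bool) (g : L)
    (hg : ∀ B', |ms B' g| ≤ D * wt B') :
    N - N * (Real.sqrt D *
      Real.exp (-(∑ i ∈ Finset.range B.length, rho i ^ (2 * N)) / 8)) ≤
      ‖(∑ j ∈ Finset.range N, S ^ j) (h B) - g‖ := by
  refine le_trans ?_ (sum_abs_ms_le B.length _)
  have h1 : ∀ B' ∈ lev B.length,
      ∑ j ∈ Finset.range N, pk (fun i => rho i ^ j) 0 B B' -
        ∑ j ∈ Finset.range N, Real.sqrt D * Real.sqrt (pk (fun i => rho i ^ j) 0 B B' * wt B') ≤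
      |ms B' ((∑ j ∈ Finset.range N, S ^ j) (h B) - g)| := by
    intro B' hB'
    have e : ms B' ((∑ j ∈ Finset.range N, S ^ j) (h B)) =
        ∑ j ∈ Finset.range N, pk (fun i => rho i ^ j) 0 B B' := by
      rw [sum_apply, map_sum]
      exact Finset.sum_congr rfl fun j _ => by rw [S_pow_h, noiseb_ms_R _ (mem_lev.1 hB')]
    have h2 := noiseb_min (p := fun j => pk (fun i => rho i ^ j) 0 B B')
      (fun j => pk_nonneg (noiseb_abs_pow j) _ _ _) (mul_nonneg hD (wt_pos B').le) N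
    have e2 : ∀ j ∈ Finset.range N, Real.sqrt (pk (fun i => rho i ^ j) 0 B B' * (D * wt B')) =
        Real.sqrt D * Real.sqrt (pk (fun i => rho i ^ j) 0 B B' * wt B') := fun j _ => by
      rw [← Real.sqrt_mul hD]; congr 1; ring
    rw [Finset.sum_congr rfl e2] at h2
    rw [map_sub, e]
    have h3 := (abs_le.1 (hg B')).2
    rcases min_le_iff.1 h2 with h4 | h4
    · exact le_trans (by linarith) (abs_nonneg _)
    · exact le_trans (by linarith) (le_abs_self _)
  refine le_trans ?_ (Finset.sum_le_sum h1)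
  rw [Finset.sum_sub_distrib, Finset.sum_comm, Finset.sum_comm (s := lev B.length)]
  simp only [sum_pk, Finset.sum_const, Finset.card_range, nsmul_eq_mul, mul_one]
  refine sub_le_sub_left ?_ _
  refine (Finset.sum_le_card_nsmul _ _ (Real.sqrt D *
    Real.exp (-(∑ i ∈ Finset.range B.length, rho i ^ (2 * N)) / 8)) fun j hj => ?_).trans
    (by simp)
  rw [← Finset.mul_sum]
  refine mul_le_mul_of_nonneg_left ((affinity_le (noiseb_abs_pow j) B).trans ?_) (Real.sqrt_nonneg _)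
  refine Real.exp_le_exp.2 ?_
  have : ∑ i ∈ Finset.range B.length, rho i ^ (2 * N) ≤
      ∑ i ∈ Finset.range B.length, (rho i ^ j) ^ 2 := Finset.sum_le_sum fun i _ => by
    rw [← pow_mul]
    exact pow_le_pow_of_le_one (rho_pos i).le (rho_le_one i)
      (by have := Finset.mem_range.1 hj; omega)
  linarith

/-- uniform smallness of the averaged tails -/
theorem noiseb_tail (t : ℕ → L →L[ℝ] ℝ) (K : ℝ)
    (ht : ∀ f M, ∑ k ∈ Finset.range M, |t k f| ≤ K * ‖f‖) :
    ∃ n1 M1 : ℕ, ∀ n, n1 ≤ n → ∀ M, M1 ≤ M →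
      ∑ B ∈ lev n, wt B * ∑ k ∈ Finset.Ico M1 M, |t k (h B)| ≤ 1 / 4 := by
  set a : ℕ × ℕ → ℝ := fun q => ∑ B ∈ lev q.1, wt B * ∑ k ∈ Finset.range q.2, |t k (h B)| with ha
  have hb : ∀ q, a q ≤ K := fun q => by
    calc a q ≤ ∑ B ∈ lev q.1, wt B * K := Finset.sum_le_sum fun B _ =>
          mul_le_mul_of_nonneg_left (by simpa [norm_h] using ht (h B) q.2) (wt_pos B).le
      _ = K := by rw [← Finset.sum_mul, sum_wt, one_mul]
  have hbdd : BddAbove (Set.range a) := ⟨K, by rintro _ ⟨q, rfl⟩; exact hb q⟩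
  have hmono : ∀ M, Monotone fun n => a (n, M) := fun M => monotone_nat_of_le_succ fun n => by
    simp only [ha]
    rw [sum_lev_succ]
    refine Finset.sum_le_sum fun B _ => ?_
    rw [wt_cons, wt_cons, ← mul_add, ← Finset.sum_add_distrib, div_mul_eq_mul_div, mul_div_assoc,
      Finset.sum_div]
    refine mul_le_mul_of_nonneg_left (Finset.sum_le_sum fun k _ => ?_) (wt_pos B).le
    rw [h_split B, map_smul, map_add, smul_eq_mul, abs_mul, abs_of_pos (by norm_num : (0:ℝ) < 1 / 2)]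
    linarith [abs_add_le (t k (h (false :: B))) (t k (h (true :: B)))]
  obtain ⟨⟨n1, M1⟩, hq⟩ := exists_lt_of_lt_ciSup (show (⨆ q, a q) - 1 / 4 < ⨆ q, a q by linarith)
  refine ⟨n1, M1, fun n hn M hM => ?_⟩
  have h1 := le_ciSup hbdd (n, M)
  have h2 := hmono M1 hn
  have h3 : a (n, M1) + ∑ B ∈ lev n, wt B * ∑ k ∈ Finset.Ico M1 M, |t k (h B)| = a (n, M) := by
    simp only [ha]
    rw [← Finset.sum_add_distrib]
    refine Finset.sum_congr rfl fun B _ => ?_
    rw [← mul_add, Finset.sum_range_add_sum_Ico _ hM]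
  simp only at h2
  linarith

/-- `1 - S` has no right inverse modulo operators factoring through `ℓ1`.
Plan.  Let `U = ∑ j < N, S^j`, `N > 4 ‖T‖`.  Applying `U` to `hsum` gives
`HasSum (t k f • U (S (h (r k)))) (U f - (T f - S^N (T f)))`, and `‖T f - S^N (T f)‖ ≤ 2 ‖T‖ ‖f‖`, `‖U g‖ ≤ N ‖g‖`.
Tails: `a n M = ∑ k < M, ∑ B ∈ lev n, wt B * |t k (h B)|` is bounded by `K`, monotone in `M` and in `n`
(`h_split`); taking `(n1, M1)` within `1/4` of the supremum, for `n ≥ n1` and all `M ≥ M1` the part `M1 ≤ k < M` is `≤ 1/4`.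
The head `g B = ∑ k < M1, t k (h B) • U (S (h (r k)))` satisfies `|ms B' (g B)| ≤ D * wt B'` for all `B'`, with `D`
independent of `B` (`S_pow_h`, `abs_ms_h_le`, `|t k (h B)| ≤ K`).  For `B ∈ lev n`:
`ms B' (U (h B)) = ∑ j < N, pk (rho^j) B B'` and
`‖U (h B) - g B‖ ≥ ∑ B' ∈ lev n, |ms B' (..)| ≥ N - ∑ j B', min (pk (rho^j) B B') (D wt B') ≥ N - N √D α n`
(`|∑ p_j - g| ≥ ∑ p_j - ∑ min p_j c` if `g ≤ c`, `p_j ≥ 0`, `c ≥ 0`; `min a b ≤ √(a b)`), with
`α n = exp (-(∑ i < n, rho i ^ (2N))/8) → 0`.  Averaging over `B ∈ lev n` with weights `wt B`: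
`N - N/4 ≤ 2 ‖T‖ + N/4`, contradiction. -/
theorem S_nosplit (T : L →L[ℝ] L) (t : ℕ → L →L[ℝ] ℝ) (r : ℕ → List Bool) (K : ℝ)
    (ht : ∀ f M, ∑ k ∈ Finset.range M, |t k f| ≤ K * ‖f‖)
    (hsum : ∀ f, HasSum (fun k => t k f • S (h (r k))) (f - (T f - S (T f)))) : False := by
  obtain ⟨N, hN⟩ := exists_nat_gt (4 * ‖T‖)
  set U : L →L[ℝ] L := ∑ j ∈ Finset.range N, S ^ j with hU
  have hUn : ∀ g, ‖U g‖ ≤ N * ‖g‖ := fun g => by
    rw [hU, sum_apply]
    refine (norm_sum_le _ _).trans ?_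
    simpa using Finset.sum_le_card_nsmul (Finset.range N) _ ‖g‖ fun j _ => noiseb_norm_pow j g
  have hUS : ∀ g, U (g - S g) = g - (S ^ N) g := fun g => by
    have := congrArg (fun A : L →L[ℝ] L => A g) (geom_sum_mul_neg S N)
    simpa [hU] using this
  set u : ℕ → L := fun k => U (S (h (r k))) with hu
  have hun : ∀ k, ‖u k‖ ≤ N := fun k => (hUn _).trans (by
    have := norm_S_le (h (r k))
    rw [norm_h] at this
    nlinarith [Nat.cast_nonneg (α := ℝ) N])
  have hum : ∀ k B', |ms B' (u k)| ≤ N * (wt (r k))⁻¹ * wt B' := fun k B' => by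
    simp only [hu, hU]
    rw [sum_apply, map_sum]
    refine (Finset.abs_sum_le_sum_abs _ _).trans ?_
    refine (Finset.sum_le_card_nsmul _ _ ((wt (r k))⁻¹ * wt B') fun j _ => ?_).trans
      (by simp [mul_assoc])
    rw [← mul_apply_eq_comp, ← pow_succ, S_pow_h]
    exact noiseb_ms_R_le (noiseb_abs_pow _) _ _
  have hs : ∀ f, HasSum (fun k => t k f • u k) (U f - (T f - (S ^ N) (T f))) := fun f => by
    have := (hsum f).mapL U
    simpa only [map_smul, map_sub U f, hUS] using this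
  obtain ⟨n1, M1, htail⟩ := noiseb_tail t K ht
  set D : ℝ := ∑ k ∈ Finset.range M1, ‖t k‖ * (N * (wt (r k))⁻¹) with hD
  have hD0 : 0 ≤ D := Finset.sum_nonneg fun k _ => by have := wt_pos (r k); positivity
  set g : List Bool → L := fun B => ∑ k ∈ Finset.range M1, t k (h B) • u k with hg
  have hgm : ∀ B B', |ms B' (g B)| ≤ D * wt B' := fun B B' => by
    simp only [hg, hD]
    rw [map_sum, Finset.sum_mul]
    refine (Finset.abs_sum_le_sum_abs _ _).trans (Finset.sum_le_sum fun k _ => ?_)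
    rw [map_smul, smul_eq_mul, abs_mul, mul_assoc]
    refine mul_le_mul ?_ (hum k B') (abs_nonneg _) (norm_nonneg _)
    simpa [norm_h] using (t k).le_opNorm (h B)
  have hα : Tendsto (fun n => Real.sqrt D *
      Real.exp (-(∑ i ∈ Finset.range n, rho i ^ (2 * N)) / 8)) atTop (𝓝 (Real.sqrt D * 0)) :=
    (Real.tendsto_exp_atBot.comp ((tendsto_neg_atTop_atBot.comp
      (sum_rho_pow (2 * N))).atBot_div_const (by norm_num))).const_mul _
  rw [mul_zero] at hα
  obtain ⟨n, hn, hn1⟩ := ((hα.eventually (gt_mem_nhds (show (0:ℝ) < 1 / 4 by norm_num))).and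
    (eventually_ge_atTop n1)).exists
  have hN0 : (0:ℝ) ≤ N := Nat.cast_nonneg N
  have hup : ∑ B ∈ lev n, wt B * ‖U (h B) - (T (h B) - (S ^ N) (T (h B))) - g B‖ ≤ N * (1 / 4) := by
    have hlim : Tendsto (fun M => ∑ B ∈ lev n,
        wt B * ‖∑ k ∈ Finset.range M, t k (h B) • u k - g B‖) atTop
        (𝓝 (∑ B ∈ lev n, wt B * ‖U (h B) - (T (h B) - (S ^ N) (T (h B))) - g B‖)) :=
      tendsto_finsetSum _ fun B _ =>
        (((hs (h B)).tendsto_sum_nat.sub_const _).norm).const_mul _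
    refine le_of_tendsto hlim ?_
    filter_upwards [eventually_ge_atTop M1] with M hM
    refine le_trans ?_ (mul_le_mul_of_nonneg_left (htail n hn1 M hM) hN0)
    rw [Finset.mul_sum]
    refine Finset.sum_le_sum fun B _ => ?_
    rw [mul_left_comm]
    refine mul_le_mul_of_nonneg_left ?_ (wt_pos B).le
    simp only [hg]
    rw [← Finset.sum_Ico_eq_sub _ hM, Finset.mul_sum]
    refine (norm_sum_le _ _).trans (Finset.sum_le_sum fun k _ => ?_)
    rw [norm_smul, Real.norm_eq_abs, mul_comm]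
    exact mul_le_mul_of_nonneg_right (hun k) (abs_nonneg _)
  have hlow : ∑ B ∈ lev n, wt B * (N - N * (1 / 4) - 2 * ‖T‖) ≤
      ∑ B ∈ lev n, wt B * ‖U (h B) - (T (h B) - (S ^ N) (T (h B))) - g B‖ := by
    refine Finset.sum_le_sum fun B hB => mul_le_mul_of_nonneg_left ?_ (wt_pos B).le
    have h1 := noiseb_far N hD0 B (g B) (hgm B)
    rw [mem_lev.1 hB, ← hU] at h1
    have h2 : ‖T (h B)‖ ≤ ‖T‖ := by simpa [norm_h] using T.le_opNorm (h B)
    have h3 : ‖T (h B) - (S ^ N) (T (h B))‖ ≤ 2 * ‖T‖ := by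
      linarith [norm_sub_le (T (h B)) ((S ^ N) (T (h B))), noiseb_norm_pow N (T (h B))]
    have h4 := norm_sub_norm_le (U (h B) - g B) (T (h B) - (S ^ N) (T (h B)))
    rw [sub_right_comm] at h4
    have h5 := mul_le_mul_of_nonneg_left hn.le hN0
    linarith
  rw [← Finset.sum_mul, sum_wt] at hlow
  linarith

end

end Pool.Agent.MP_fc1aea_an.H30

end

-- part MP_fc1aea_an.H30.Final
section

namespace Pool.Agent.MP_fc1aea_an.H30
open Filter Topology MeasureTheory

noncomputable section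

/-- absolutely convergent series from bounded partial sums -/
theorem summable_of_range {Y : Type*} [NormedAddCommGroup Y] [CompleteSpace Y] {a : ℕ → Y} {K : ℝ}
    (hK : ∀ M, ∑ k ∈ Finset.range M, ‖a k‖ ≤ K) : Summable a ∧ ‖∑' k, a k‖ ≤ K := by
  have hs : Summable (fun k => ‖a k‖) := summable_of_sum_range_le (fun _ => norm_nonneg _) hK
  exact ⟨hs.of_norm, (norm_tsum_le_tsum_norm hs).trans (Real.tsum_le_of_sum_range_le (fun _ => norm_nonneg _) hK)⟩

/-- One layer.  Plan: `c = κ exp (-3/κ^2)`, `n0` from `S_smooth` with `η = κ c`,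
`ψ F = psi κ c n0 (fun A => ms A F) e`; `psi_norm`, `psi_lip` with `u A = ms A (G - F)`, `psi_map`,
`psi_err` with `Z A = S (P A F)`, `y B = Q (e B) = S (h B)`, `low_le`. -/
theorem lift0 (Q : L →L[ℝ] L) (e : List Bool → L) (he : ∀ B, ‖e B‖ ≤ 1)
    (hQ : ∀ B, Q (e B) = S (h B)) {κ : ℝ} (hκ : 0 < κ) (hκ1 : κ ≤ 1) :
    ∃ ψ : L → L, (∀ F, 0 ≤ F → ‖ψ F‖ ≤ ‖F‖) ∧
      (∀ F G, 0 ≤ F → F ≤ G → ∀ t : ℝ, 0 < t → t ≤ 1 →
        ‖ψ F - ψ G‖ ≤ 14 * ‖G - F‖ / t + 2 * κ * t * ‖F‖) ∧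
      (∀ F, 0 ≤ F → F ≤ one → ‖S F - Q (ψ F)‖ ≤ 8 * κ * ‖F‖ + ‖F ⊓ κ • one‖) := by
  set c := κ * Real.exp (-3 / κ ^ 2) with hc
  have hc0 : 0 < c := by positivity
  obtain ⟨n0, hn0⟩ := S_smooth (η := κ * c) (by positivity)
  refine ⟨fun F => psi κ c n0 (fun A => ms A F) e, fun F hF => ?_,
    fun F G hF hFG t ht ht1 => ?_, fun F hF hF1 => ?_⟩
  · exact (psi_norm hκ hκ1 hc0 n0 (addi_ms hF) he).trans (ms_nil hF).le
  · have := psi_lip hκ hκ1 hc0 n0 (addi_ms hF) (addi_ms (sub_nonneg.2 hFG)) he ht ht1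
    rw [ms_nil hF, ms_nil (sub_nonneg.2 hFG)] at this
    simpa only [map_sub, add_sub_cancel] using this
  · have hy : ∀ B, ‖Q (e B)‖ ≤ 1 := fun B => by
      rw [hQ]; exact (norm_S_le _).trans (norm_h B).le
    have := psi_err hκ hκ1 hc n0 (addi_ms hF) hy (Z := fun A => S (P A F))
      (fun A => by rw [← map_add, ← P_add])
      (fun A => (norm_S_le _).trans (ms_eq_norm A hF).ge)
      (fun A hA => by rw [hQ, ← mul_assoc]; exact hn0 A hA F hF hF1) (low_le hF hκ.le)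
    rw [P_nil, ms_nil hF, ← psi_map hκ hκ1 hc0 n0 (addi_ms hF) he Q hy] at this
    exact this

theorem lifta_smul_coe (c : ℝ) : ⇑(c • (one : L)) =ᵐ[mu0] fun _ => c := by
  filter_upwards [Lp.coeFn_smul c (one : L), one_coe] with x h1 h2
  rw [h1, Pi.smul_apply, h2, smul_eq_mul, mul_one]

theorem lifta_inf_coe (F : L) (c : ℝ) : ⇑(F ⊓ c • (one : L)) =ᵐ[mu0] fun x => min (F x) c := by
  filter_upwards [Lp.coeFn_inf F (c • (one : L)), lifta_smul_coe c] with x h1 h2
  rw [h1, Pi.inf_apply, h2]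

theorem lifta_norm_le {f g : L} (hf : 0 ≤ f) (hfg : f ≤ g) : ‖f‖ ≤ ‖g‖ :=
  norm_le_norm_of_abs_le_abs (by rw [abs_of_nonneg hf, abs_of_nonneg (hf.trans hfg)]; exact hfg)

/-- the layer between the heights `a` and `2 a` -/
def liftaLay (a : ℝ) (F : L) : L := F ⊓ (2 * a) • (one : L) - F ⊓ a • (one : L)

theorem lifta_lay_coe (a : ℝ) (F : L) :
    ⇑(liftaLay a F) =ᵐ[mu0] fun x => min (F x) (2 * a) - min (F x) a := by
  filter_upwards [Lp.coeFn_sub (F ⊓ (2 * a) • (one : L)) (F ⊓ a • (one : L)),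
    lifta_inf_coe F (2 * a), lifta_inf_coe F a] with x h1 h2 h3
  rw [liftaLay, h1, Pi.sub_apply, h2, h3]

theorem lifta_lay_nonneg {a : ℝ} (ha : 0 < a) (F : L) : 0 ≤ liftaLay a F := by
  rw [← Lp.coeFn_nonneg]
  filter_upwards [lifta_lay_coe a F] with x h1
  rw [h1]
  exact sub_nonneg.2 (min_le_min_left _ (by linarith))

theorem lifta_smul_nonneg {a : ℝ} (ha : 0 ≤ a) {f : L} (hf : 0 ≤ f) : 0 ≤ a • f := by
  rw [← Lp.coeFn_nonneg] at hf ⊢
  filter_upwards [Lp.coeFn_smul a f, hf] with x h1 h2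
  rw [h1]
  exact mul_nonneg ha h2

theorem lifta_lay_le {a : ℝ} (ha : 0 < a) (F : L) : a⁻¹ • liftaLay a F ≤ one := by
  rw [← Lp.coeFn_le]
  filter_upwards [lifta_lay_coe a F, Lp.coeFn_smul a⁻¹ (liftaLay a F), one_coe] with x h1 h2 h3
  rw [h2, Pi.smul_apply, h1, h3, smul_eq_mul, inv_mul_le_iff₀ ha]
  simp only [min_def]
  split_ifs <;> linarith

theorem lifta_lay_mono {a : ℝ} (ha : 0 < a) {F G : L} (h : F ≤ G) :
    liftaLay a F ≤ liftaLay a G := by
  rw [← Lp.coeFn_le] at h ⊢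
  filter_upwards [lifta_lay_coe a F, lifta_lay_coe a G, h] with x h1 h2 h3
  rw [h1, h2]
  simp only [min_def]
  split_ifs <;> linarith

theorem lifta_low {a κ : ℝ} (ha : 0 < a) (hκ : 0 < κ) (F : L) :
    (2 * a) * ‖((2 * a)⁻¹ • liftaLay (2 * a) F) ⊓ κ • (one : L)‖ ≤ 2 * κ * ‖liftaLay a F‖ := by
  have h2a : 0 < 2 * a := by linarith
  rw [← Real.norm_of_nonneg h2a.le, ← norm_smul, Real.norm_of_nonneg h2a.le,
    ← Real.norm_of_nonneg (show 0 ≤ 2 * κ by linarith), ← norm_smul]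
  refine lifta_norm_le (lifta_smul_nonneg h2a.le (le_inf
    (lifta_smul_nonneg (inv_pos.2 h2a).le (lifta_lay_nonneg h2a F))
    (lifta_smul_nonneg hκ.le one_nonneg))) ?_
  rw [← Lp.coeFn_le]
  filter_upwards [lifta_lay_coe a F, lifta_lay_coe (2 * a) F,
    Lp.coeFn_smul (2 * κ) (liftaLay a F), Lp.coeFn_smul (2 * a)⁻¹ (liftaLay (2 * a) F),
    lifta_inf_coe ((2 * a)⁻¹ • liftaLay (2 * a) F) κ,
    Lp.coeFn_smul (2 * a) (((2 * a)⁻¹ • liftaLay (2 * a) F) ⊓ κ • (one : L))]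
    with x h1 h2 h3 h4 h5 h6
  rw [h6, h3, Pi.smul_apply, Pi.smul_apply, h5, h4, Pi.smul_apply, h1, h2, smul_eq_mul,
    smul_eq_mul, smul_eq_mul]
  rcases le_total (F x) (2 * a) with h | h
  · rw [min_eq_left h, min_eq_left (show F x ≤ 2 * (2 * a) by linarith), sub_self, mul_zero,
      min_eq_left hκ.le, mul_zero]
    exact mul_nonneg (by linarith) (sub_nonneg.2 (min_le_left _ _))
  · rw [min_eq_right h, min_eq_right (show a ≤ F x by linarith)]
    calc _ ≤ 2 * a * κ := mul_le_mul_of_nonneg_left (min_le_right _ _) h2a.le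
      _ = _ := by ring

theorem lifta_tele (η : ℝ) (F : L) (M : ℕ) :
    ∑ k ∈ Finset.range M, liftaLay (η * 2 ^ k) F =
      F ⊓ (η * 2 ^ M) • (one : L) - F ⊓ η • (one : L) := by
  have := Finset.sum_range_sub (fun k : ℕ => F ⊓ (η * 2 ^ k) • (one : L)) M
  rw [pow_zero, mul_one] at this
  rw [← this]
  refine Finset.sum_congr rfl fun k _ => ?_
  rw [liftaLay, pow_succ, show 2 * (η * 2 ^ k) = η * (2 ^ k * 2) by ring]

theorem lifta_sum_norm {u : ℕ → L} (hu : ∀ k, 0 ≤ u k) (M : ℕ) :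
    ∑ k ∈ Finset.range M, ‖u k‖ = ‖∑ k ∈ Finset.range M, u k‖ := by
  rw [← I_eq_norm (Finset.sum_nonneg fun k _ => hu k), map_sum]
  exact Finset.sum_congr rfl fun k _ => (I_eq_norm (hu k)).symm

theorem lifta_sum_le {η : ℝ} (hη : 0 < η) {F : L} (hF : 0 ≤ F) (M : ℕ) :
    ∑ k ∈ Finset.range M, ‖liftaLay (η * 2 ^ k) F‖ ≤ ‖F‖ := by
  have h0 : ∀ k : ℕ, 0 ≤ liftaLay (η * 2 ^ k) F := fun k => lifta_lay_nonneg (by positivity) F
  rw [lifta_sum_norm h0]
  refine lifta_norm_le (Finset.sum_nonneg fun k _ => h0 k) ?_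
  rw [lifta_tele]
  exact (sub_le_self _ (le_inf hF (lifta_smul_nonneg hη.le one_nonneg))).trans inf_le_left

theorem lifta_sum_sub_le {η : ℝ} (hη : 0 < η) {F G : L} (hFG : F ≤ G) (M : ℕ) :
    ∑ k ∈ Finset.range M, ‖liftaLay (η * 2 ^ k) G - liftaLay (η * 2 ^ k) F‖ ≤ ‖G - F‖ := by
  have h0 : ∀ k : ℕ, 0 ≤ liftaLay (η * 2 ^ k) G - liftaLay (η * 2 ^ k) F := fun k =>
    sub_nonneg.2 (lifta_lay_mono (by positivity) hFG)
  rw [lifta_sum_norm h0]
  refine lifta_norm_le (Finset.sum_nonneg fun k _ => h0 k) ?_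
  rw [Finset.sum_sub_distrib, lifta_tele, lifta_tele]
  have h1 : F ⊓ η • (one : L) ≤ G ⊓ η • (one : L) := inf_le_inf_right _ hFG
  have h2 : G ⊓ (η * 2 ^ M) • (one : L) - F ⊓ (η * 2 ^ M) • (one : L) ≤ G - F := by
    rw [← Lp.coeFn_le] at hFG ⊢
    filter_upwards [Lp.coeFn_sub (G ⊓ (η * 2 ^ M) • (one : L)) (F ⊓ (η * 2 ^ M) • (one : L)),
      lifta_inf_coe F (η * 2 ^ M), lifta_inf_coe G (η * 2 ^ M), Lp.coeFn_sub G F, hFG]
      with x h1 h2 h3 h4 h5
    rw [h1, h4, Pi.sub_apply, Pi.sub_apply, h2, h3]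
    simp only [min_def]
    split_ifs <;> linarith
  calc _ = (G ⊓ (η * 2 ^ M) • (one : L) - F ⊓ (η * 2 ^ M) • (one : L)) -
        (G ⊓ η • (one : L) - F ⊓ η • (one : L)) := by abel
    _ ≤ _ := (sub_le_self _ (sub_nonneg.2 h1)).trans h2

theorem lifta_mul_norm {a : ℝ} (ha : 0 < a) (f : L) : a * ‖a⁻¹ • f‖ = ‖f‖ := by
  rw [norm_smul, Real.norm_of_nonneg (inv_pos.2 ha).le, mul_inv_cancel_left₀ ha.ne']

/-- Height layers.  Plan: `a k = η 2^k`, `ℓ k F = F ⊓ (a (k+1)) • one - F ⊓ (a k) • one`, pointwise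
`0 ≤ ℓ k F ≤ a k`, monotone in `F`; `ψ1 F = ∑' k, a k • ψ ((a k)⁻¹ • ℓ k F)` with `ψ` from `lift0`.
Norms of nonnegative elements add (`I_eq_norm`), so partial sums telescope:
`∑ k < M, ‖ℓ k F‖ ≤ ‖F‖`, `∑ k < M, ‖ℓ k G - ℓ k F‖ ≤ ‖G - F‖` for `F ≤ G`.
`HasSum (ℓ k F) (F - F ⊓ η • one)` by `inf_tendsto`, `‖F ⊓ η • one‖ ≤ η`.
Low parts: `ℓ 0 F ⊓ (κ a 0) • one ≤ η • one`, `ℓ (k+1) F ⊓ (κ a (k+1)) • one ≤ (2 κ) • ℓ k F` (pointwise: if
`F x > a (k+1)` then `ℓ k F x = a k`, else `ℓ (k+1) F x = 0`). -/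
theorem lift1 (Q : L →L[ℝ] L) (e : List Bool → L) (he : ∀ B, ‖e B‖ ≤ 1)
    (hQ : ∀ B, Q (e B) = S (h B)) {κ : ℝ} (hκ : 0 < κ) (hκ1 : κ ≤ 1) {η : ℝ} (hη : 0 < η) :
    ∃ ψ : L → L, (∀ F, 0 ≤ F → ‖ψ F‖ ≤ ‖F‖) ∧
      (∀ F G, 0 ≤ F → F ≤ G → ∀ t : ℝ, 0 < t → t ≤ 1 →
        ‖ψ F - ψ G‖ ≤ 14 * ‖G - F‖ / t + 2 * κ * t * ‖F‖) ∧
      (∀ F, 0 ≤ F → ‖S F - Q (ψ F)‖ ≤ 10 * κ * ‖F‖ + 2 * η) := by
  obtain ⟨ψ, h1, h2, h3⟩ := lift0 Q e he hQ hκ hκ1
  have ha : ∀ k : ℕ, 0 < η * 2 ^ k := fun k => by positivity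
  let u : ℕ → L → L := fun k F => (η * 2 ^ k)⁻¹ • liftaLay (η * 2 ^ k) F
  have u0 : ∀ k F, 0 ≤ u k F := fun k F =>
    lifta_smul_nonneg (inv_pos.2 (ha k)).le (lifta_lay_nonneg (ha k) F)
  have hs : ∀ F, 0 ≤ F → Summable (fun k : ℕ => (η * 2 ^ k) • ψ (u k F)) ∧
      ‖∑' k : ℕ, (η * 2 ^ k) • ψ (u k F)‖ ≤ ‖F‖ := fun F hF => by
    refine summable_of_range fun M => le_trans (Finset.sum_le_sum fun k _ => ?_)
      (lifta_sum_le hη hF M)
    rw [norm_smul, Real.norm_of_nonneg (ha k).le, ← lifta_mul_norm (ha k) (liftaLay _ F)]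
    exact mul_le_mul_of_nonneg_left (h1 _ (u0 k F)) (ha k).le
  refine ⟨fun F => ∑' k : ℕ, (η * 2 ^ k) • ψ (u k F), fun F hF => (hs F hF).2,
    fun F G hF hFG t ht ht1 => ?_, fun F hF => ?_⟩
  · rw [← (hs F hF).1.tsum_sub (hs G (hF.trans hFG)).1]
    refine (summable_of_range fun M => ?_).2
    have hk : ∀ k : ℕ, ‖(η * 2 ^ k) • ψ (u k F) - (η * 2 ^ k) • ψ (u k G)‖ ≤
        14 / t * ‖liftaLay (η * 2 ^ k) G - liftaLay (η * 2 ^ k) F‖ +
          2 * κ * t * ‖liftaLay (η * 2 ^ k) F‖ := fun k => by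
      have huu : u k G - u k F =
          (η * 2 ^ k)⁻¹ • (liftaLay (η * 2 ^ k) G - liftaLay (η * 2 ^ k) F) := (smul_sub _ _ _).symm
      have hle : u k F ≤ u k G := by
        rw [← sub_nonneg, huu]
        exact lifta_smul_nonneg (inv_pos.2 (ha k)).le (sub_nonneg.2 (lifta_lay_mono (ha k) hFG))
      have := mul_le_mul_of_nonneg_left (h2 _ _ (u0 k F) hle t ht ht1) (ha k).le
      rw [← smul_sub, norm_smul, Real.norm_of_nonneg (ha k).le,
        ← lifta_mul_norm (ha k) (liftaLay _ F),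
        ← lifta_mul_norm (ha k) (liftaLay (η * 2 ^ k) G - liftaLay (η * 2 ^ k) F), ← huu]
      refine this.trans (le_of_eq ?_)
      simp only [u]
      ring
    refine (Finset.sum_le_sum fun k _ => hk k).trans ?_
    rw [Finset.sum_add_distrib, ← Finset.mul_sum, ← Finset.mul_sum, mul_div_right_comm]
    exact add_le_add (mul_le_mul_of_nonneg_left (lifta_sum_sub_le hη hFG M) (by positivity))
      (mul_le_mul_of_nonneg_left (lifta_sum_le hη hF M) (by positivity))
  · have hl : HasSum (fun k : ℕ => liftaLay (η * 2 ^ k) F) (F - F ⊓ η • (one : L)) := by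
      rw [hasSum_iff_tendsto_nat_of_summable_norm
        (summable_of_sum_range_le (fun _ => norm_nonneg _) (lifta_sum_le hη hF))]
      simp only [lifta_tele]
      exact (inf_tendsto F hη).sub_const _
    have hS := (hl.mapL S).sub ((hs F hF).1.hasSum.mapL Q)
    have hlow : ∀ M, ∑ k ∈ Finset.range M, (η * 2 ^ k) * ‖u k F ⊓ κ • (one : L)‖ ≤
        η + 2 * κ * ‖F‖ := fun M => by
      cases M with
      | zero => rw [Finset.sum_range_zero]; positivity
      | succ M =>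
        rw [Finset.sum_range_succ', add_comm]
        refine add_le_add ?_ ?_
        · have := lifta_norm_le (le_inf (u0 0 F) (lifta_smul_nonneg hκ.le one_nonneg)) inf_le_right
          rw [norm_smul, norm_one, Real.norm_of_nonneg hκ.le] at this
          rw [pow_zero, mul_one]
          nlinarith
        · refine le_trans ?_ (mul_le_mul_of_nonneg_left (lifta_sum_le hη hF M) (by positivity))
          rw [Finset.mul_sum]
          refine Finset.sum_le_sum fun k _ => ?_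
          have := lifta_low (ha k) hκ F
          rw [show 2 * (η * 2 ^ k) = η * 2 ^ (k + 1) by ring] at this
          exact this
    have hb : ‖∑' k : ℕ, (S (liftaLay (η * 2 ^ k) F) - Q ((η * 2 ^ k) • ψ (u k F)))‖ ≤
        8 * κ * ‖F‖ + (η + 2 * κ * ‖F‖) := by
      refine (summable_of_range fun M => ?_).2
      have hk : ∀ k : ℕ, ‖S (liftaLay (η * 2 ^ k) F) - Q ((η * 2 ^ k) • ψ (u k F))‖ ≤
          8 * κ * ‖liftaLay (η * 2 ^ k) F‖ + (η * 2 ^ k) * ‖u k F ⊓ κ • (one : L)‖ := fun k => by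
        have e1 : liftaLay (η * 2 ^ k) F = (η * 2 ^ k) • u k F := (smul_inv_smul₀ (ha k).ne' _).symm
        have := mul_le_mul_of_nonneg_left (h3 _ (u0 k F) (lifta_lay_le (ha k) F)) (ha k).le
        rw [e1, map_smul S _ (u k F), map_smul Q, ← smul_sub, norm_smul, norm_smul _ (u k F),
          Real.norm_of_nonneg (ha k).le]
        refine this.trans (le_of_eq ?_)
        ring
      refine (Finset.sum_le_sum fun k _ => hk k).trans ?_
      rw [Finset.sum_add_distrib, ← Finset.mul_sum]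
      exact add_le_add (mul_le_mul_of_nonneg_left (lifta_sum_le hη hF M) (by positivity)) (hlow M)
    rw [hS.tsum_eq] at hb
    have h0 : ‖S (F ⊓ η • (one : L))‖ ≤ η := by
      have := lifta_norm_le (le_inf hF (lifta_smul_nonneg hη.le one_nonneg)) inf_le_right
      rw [norm_smul, norm_one, Real.norm_of_nonneg hη.le, mul_one] at this
      exact (norm_S_le _).trans this
    have e2 : S F - Q (∑' k : ℕ, (η * 2 ^ k) • ψ (u k F)) =
        (S (F - F ⊓ η • (one : L)) - Q (∑' k : ℕ, (η * 2 ^ k) • ψ (u k F))) +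
          S (F ⊓ η • (one : L)) := by rw [map_sub]; abel
    rw [e2]
    refine (norm_add_le _ _).trans ?_
    linarith

/-- Signs.  Plan: `ψ2 f = ψ f⁺ - ψ f⁻`; compare nonnegative `F`, `G` through `F ⊓ G`
(`‖F - F ⊓ G‖ ≤ ‖F - G‖`, `‖G - F ⊓ G‖ ≤ ‖F - G‖`, `‖F ⊓ G‖ ≤ ‖F‖`; solid norm),
`‖f⁺ - g⁺‖ ≤ ‖f - g‖`, `‖f⁺‖ ≤ ‖f‖`, same for `⁻`. -/
theorem lift2 (Q : L →L[ℝ] L) (e : List Bool → L) (he : ∀ B, ‖e B‖ ≤ 1)
    (hQ : ∀ B, Q (e B) = S (h B)) {κ : ℝ} (hκ : 0 < κ) (hκ1 : κ ≤ 1) {η : ℝ} (hη : 0 < η) :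
    ∃ ψ : L → L, (∀ f, ‖ψ f‖ ≤ 2 * ‖f‖) ∧
      (∀ f g, ∀ t : ℝ, 0 < t → t ≤ 1 →
        ‖ψ f - ψ g‖ ≤ 56 * ‖f - g‖ / t + 8 * κ * t * ‖f‖) ∧
      (∀ f, ‖S f - Q (ψ f)‖ ≤ 20 * κ * ‖f‖ + 4 * η) := by
  obtain ⟨ψ, h1, h2, h3⟩ := lift1 Q e he hQ hκ hκ1 hη
  have hp : ∀ f : L, ‖f ⊔ 0‖ ≤ ‖f‖ := fun f => by
    simpa using norm_sup_sub_sup_le_norm f 0 0
  have hn : ∀ f : L, ‖(-f) ⊔ 0‖ ≤ ‖f‖ := fun f => (hp (-f)).trans (norm_neg f).le
  have key : ∀ f g : L, ∀ t : ℝ, 0 < t → t ≤ 1 →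
      ‖ψ (f ⊔ 0) - ψ (g ⊔ 0)‖ ≤ 28 * ‖f - g‖ / t + 4 * κ * t * ‖f‖ := fun f g t ht ht1 => by
    set F := f ⊔ 0
    set G := g ⊔ 0
    have hF : 0 ≤ F := le_sup_right
    have hG : 0 ≤ G := le_sup_right
    have a1 := h2 (F ⊓ G) F (le_inf hF hG) inf_le_left t ht ht1
    have a2 := h2 (F ⊓ G) G (le_inf hF hG) inf_le_right t ht ht1
    have b0 : ‖F - G‖ ≤ ‖f - g‖ := norm_sup_sub_sup_le_norm f g 0
    have b1 : ‖F - F ⊓ G‖ ≤ ‖f - g‖ := by
      have := norm_inf_sub_inf_le_norm F G F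
      rw [inf_idem, inf_comm] at this
      exact this.trans b0
    have b2 : ‖G - F ⊓ G‖ ≤ ‖f - g‖ := by
      have := norm_inf_sub_inf_le_norm G F G
      rw [inf_idem, norm_sub_rev G F] at this
      exact this.trans b0
    have b3 : ‖F ⊓ G‖ ≤ ‖f‖ := (lifta_norm_le (le_inf hF hG) inf_le_left).trans (hp f)
    have c1 : 14 * ‖F - F ⊓ G‖ / t ≤ 14 * ‖f - g‖ / t := by gcongr
    have c2 : 14 * ‖G - F ⊓ G‖ / t ≤ 14 * ‖f - g‖ / t := by gcongr
    have c3 : 2 * κ * t * ‖F ⊓ G‖ ≤ 2 * κ * t * ‖f‖ := by gcongr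
    have d := norm_sub_le_norm_sub_add_norm_sub (ψ F) (ψ (F ⊓ G)) (ψ G)
    rw [norm_sub_rev (ψ F) (ψ (F ⊓ G))] at d
    have e1 : 28 * ‖f - g‖ / t = 14 * ‖f - g‖ / t + 14 * ‖f - g‖ / t := by ring
    linarith
  refine ⟨fun f => ψ (f ⊔ 0) - ψ ((-f) ⊔ 0), fun f => ?_, fun f g t ht ht1 => ?_, fun f => ?_⟩
  · have a1 := (h1 _ le_sup_right).trans (hp f)
    have a2 := (h1 _ le_sup_right).trans (hn f)
    have := norm_sub_le (ψ (f ⊔ 0)) (ψ ((-f) ⊔ 0))
    linarith
  · have a1 := key f g t ht ht1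
    have a2 := key (-f) (-g) t ht ht1
    rw [norm_neg, neg_sub_neg, norm_sub_rev g f] at a2
    have := norm_sub_le (ψ (f ⊔ 0) - ψ (g ⊔ 0)) (ψ ((-f) ⊔ 0) - ψ ((-g) ⊔ 0))
    rw [sub_sub_sub_comm] at this
    have e1 : 56 * ‖f - g‖ / t = 28 * ‖f - g‖ / t + 28 * ‖f - g‖ / t := by ring
    linarith
  · have a1 := h3 (f ⊔ 0) le_sup_right
    have a2 := h3 ((-f) ⊔ 0) le_sup_right
    have e0 : f ⊔ 0 - (-f) ⊔ 0 = f := posPart_sub_negPart f
    have := norm_sub_le (S (f ⊔ 0) - Q (ψ (f ⊔ 0))) (S ((-f) ⊔ 0) - Q (ψ ((-f) ⊔ 0)))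
    rw [sub_sub_sub_comm, ← map_sub, ← map_sub, e0] at this
    have c1 : 10 * κ * ‖f ⊔ 0‖ ≤ 10 * κ * ‖f‖ := by gcongr; exact hp f
    have c2 : 10 * κ * ‖(-f) ⊔ 0‖ ≤ 10 * κ * ‖f‖ := by gcongr; exact hn f
    linarith

end

end Pool.Agent.MP_fc1aea_an.H30

namespace Pool.Agent.MP_fc1aea_an.H30
open Filter Topology MeasureTheory

noncomputable section

/-- the antichain of nodes `[1 - 2^(-k), 1 - 2^(-k-1))` -/
def J (k : ℕ) : List Bool := false :: List.replicate k true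

theorem sum_J_le (y : L) (M : ℕ) :
    ∑ k ∈ Finset.range M, ‖P (J k) y‖ + ‖P (List.replicate M true) y‖ = ‖y‖ := by
  induction M with
  | zero => simp [P_nil]
  | succ M ih =>
    rw [Finset.sum_range_succ, ← ih, norm_P_add (List.replicate M true), List.replicate_succ, J]
    ring

theorem sum_ms_J_le (y : L) (M : ℕ) : ∑ k ∈ Finset.range M, |ms (J (k + 1)) y| ≤ ‖y‖ := by
  have h1 := sum_J_le y (M + 1)
  rw [Finset.sum_range_succ'] at h1
  have h2 : ∑ k ∈ Finset.range M, |ms (J (k + 1)) y| ≤ ∑ k ∈ Finset.range M, ‖P (J (k + 1)) y‖ :=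
    Finset.sum_le_sum fun k _ => abs_ms_le _ _
  linarith [norm_nonneg (P (J 0) y), norm_nonneg (P (List.replicate (M + 1) true) y)]

theorem J_eq (k l : ℕ) : J (k + l + 1) = J l ++ true :: List.replicate k true := by
  rw [J, J, show k + l + 1 = l + (k + 1) by ring, List.replicate_add, List.replicate_succ]; rfl

theorem ms_J_ne {k l : ℕ} (hkl : k ≠ l) : ms (J k) (h (J l)) = 0 := by
  rcases lt_or_gt_of_ne hkl with hlt | hlt
  · obtain ⟨j, rfl⟩ := Nat.exists_eq_add_of_lt hlt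
    rw [J_eq]
    exact ms_h_disj [] (J j) (List.replicate k true) false
  · obtain ⟨j, rfl⟩ := Nat.exists_eq_add_of_lt hlt
    rw [J_eq]
    exact ms_h_disj (J j) [] (List.replicate l true) true

theorem J_succ (k : ℕ) : J (k + 1) = J k ++ [true] := by
  rw [J, J, List.replicate_succ']; rfl

def dec (k : ℕ) : List Bool := (Encodable.decode (α := List Bool) k).getD []

theorem dec_enc (B : List Bool) : dec (Encodable.encode B) = B := by
  simp [dec, Encodable.encodek]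

theorem norm_Sh (B : List Bool) : ‖S (h B)‖ ≤ 1 := (norm_S_le _).trans (norm_h B).le

theorem q2_bound (y : L) (M : ℕ) :
    ∑ k ∈ Finset.range M, ‖ms (J (k + 1)) y • S (h (dec k))‖ ≤ ‖y‖ := by
  refine le_trans (Finset.sum_le_sum fun k _ => ?_) (sum_ms_J_le y M)
  rw [norm_smul, Real.norm_eq_abs]
  exact mul_le_of_le_one_right (abs_nonneg _) (norm_Sh _)

/-- the part of the quotient map that factors through `ℓ1` -/
def q2 : L →L[ℝ] L :=
  LinearMap.mkContinuous
    { toFun := fun y => ∑' k, ms (J (k + 1)) y • S (h (dec k))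
      map_add' := fun y z => by
        rw [← (summable_of_range (q2_bound y)).1.tsum_add (summable_of_range (q2_bound z)).1]
        simp only [map_add, add_smul]
      map_smul' := fun a y => by
        rw [RingHom.id_apply, ← (summable_of_range (q2_bound y)).1.tsum_const_smul]
        simp only [map_smul, smul_eq_mul, mul_smul] } 1
    (fun y => by
      rw [one_mul]
      exact (summable_of_range (q2_bound y)).2)

theorem q2_apply (y : L) : q2 y = ∑' k, ms (J (k + 1)) y • S (h (dec k)) := rfl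

theorem q2_hasSum (y : L) : HasSum (fun k => ms (J (k + 1)) y • S (h (dec k))) (q2 y) :=
  (summable_of_range (q2_bound y)).1.hasSum

theorem exists_i : ∃ T : L →L[ℝ] L, (∀ B, T (h B) = h (B ++ [false])) ∧ ∀ f, ‖T f‖ ≤ 1 * ‖f‖ :=
  exists_ext (fun B => h (B ++ [false])) 1 (fun _ => (norm_h _).le) (fun _ => h_split _)

def zz (C : List Bool) : L :=
  if C = [] then (1 / 2 : ℝ) • h [] else if C.getLast? = some false then h C.dropLast else 0

theorem zz_false (B : List Bool) : zz (B ++ [false]) = h B := by simp [zz]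

theorem zz_true (B : List Bool) : zz (B ++ [true]) = 0 := by simp [zz]

theorem exists_pi : ∃ T : L →L[ℝ] L, (∀ B, T (h B) = zz B) ∧ ∀ f, ‖T f‖ ≤ 1 * ‖f‖ := by
  refine exists_ext zz 1 (fun B => ?_) (fun B => ?_)
  · unfold zz
    split_ifs
    · rw [norm_smul, norm_h]; norm_num
    · exact (norm_h _).le
    · simp
  · rcases List.eq_nil_or_concat' B with rfl | ⟨D, b, rfl⟩
    · have h0 := zz_false []
      have h1 := zz_true []
      simp only [List.nil_append] at h0 h1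
      rw [h0, h1, add_zero]; simp [zz]
    · cases b
      · rw [← List.cons_append, ← List.cons_append, zz_false, zz_false, zz_false]
        exact h_split D
      · rw [← List.cons_append, ← List.cons_append, zz_true, zz_true, zz_true]
        simp

/-- a quotient map with a uniformly continuous section and no linear section -/
theorem exists_q : ∃ (q : L →L[ℝ] L) (Φ : L → L) (C : ℝ), UniformContinuous Φ ∧
    (∀ f, ‖Φ f‖ ≤ C * (‖f‖ + 2)) ∧ (∀ f, q (Φ f) = f) ∧
    ∀ T : L →L[ℝ] L, ¬ ∀ f, q (T f) = f := by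
  obtain ⟨i, hi, hin⟩ := exists_i
  obtain ⟨π, hπ, -⟩ := exists_pi
  set q : L →L[ℝ] L := π - S.comp π + q2 with hq
  have hqa : ∀ y, q y = π y - S (π y) + q2 y := fun y => rfl
  have hπi : π.comp i = ContinuousLinearMap.id ℝ L :=
    clm_ext fun B => by simp [hi, hπ, zz_false]
  have hJi : ∀ k, (ms (J (k + 1))).comp i = 0 := fun k =>
    clm_ext fun B => by
      simp only [ContinuousLinearMap.comp_apply, hi, J_succ, zero_apply]
      exact ms_h_disj (J k) B [] true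
  have hqi : ∀ f, q (i f) = f - S f := fun f => by
    have h1 : π (i f) = f := by simpa using congrArg (fun T : L →L[ℝ] L => T f) hπi
    have h2 : ∀ k, ms (J (k + 1)) (i f) = 0 := fun k => by
      simpa using congrArg (fun T : L →L[ℝ] ℝ => T f) (hJi k)
    rw [hqa, h1, q2_apply]
    simp [h2]
  set e : List Bool → L := fun B => h (J (Encodable.encode B + 1)) with he
  have hqe : ∀ B, q (e B) = S (h B) := fun B => by
    have h1 : π (e B) = 0 := by simp only [he, hπ, J_succ, zz_true]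
    rw [hqa, h1, q2_apply, tsum_eq_single (Encodable.encode B)]
    · simp [he, ms_h_self, dec_enc]
    · intro k hk
      rw [he]
      simp only
      rw [ms_J_ne (by omega), zero_smul]
  have hen : ∀ B, ‖e B‖ ≤ 1 := fun B => (norm_h _).le
  have H2 : ∀ ε : ℝ, 0 < ε → ∃ φ : L → L, UniformContinuous φ ∧ (∀ f, ‖φ f‖ ≤ 57 * ‖f‖) ∧
      ∀ f, ‖f - q (φ f)‖ ≤ ε := by
    intro ε hε
    obtain ⟨Ψ, hΨ1, hΨ2, hΨ3⟩ := glue S q (C := 56) (by norm_num) (fun κ hκ hκ1 => by
      obtain ⟨ψ, h1, h2, h3⟩ := lift2 q e hen hqe hκ hκ1 hκ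
      refine ⟨ψ, fun f => ?_, fun f g t ht ht1 => ?_, fun f => ?_⟩
      · linarith [h1 f, norm_nonneg f]
      · have : 0 ≤ κ * t * ‖f‖ := by positivity
        linarith [h2 f g t ht ht1]
      · have : 0 ≤ κ * ‖f‖ := by positivity
        linarith [h3 f]) hε
    refine ⟨fun f => i f + Ψ f, i.uniformContinuous.add hΨ1, fun f => ?_, fun f => ?_⟩
    · have := norm_add_le (i f) (Ψ f)
      linarith [hin f, hΨ2 f]
    · rw [map_add, hqi]
      have : f - (f - S f + q (Ψ f)) = S f - q (Ψ f) := by abel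
      rw [this]; exact hΨ3 f
  obtain ⟨Φ, h1, h2, h3⟩ := exact_section q (C := 57) (by norm_num) H2
  refine ⟨q, Φ, 57, h1, h2, h3, fun T hT => ?_⟩
  refine S_nosplit (π.comp T) (fun k => (ms (J (k + 1))).comp T) dec ‖T‖ (fun f M => ?_) (fun f => ?_)
  · exact (sum_ms_J_le (T f) M).trans (T.le_opNorm f)
  · have h4 := q2_hasSum (T f)
    have h5 : q2 (T f) = f - (π (T f) - S (π (T f))) := by
      have := hT f
      rw [hqa] at this
      exact eq_sub_of_add_eq' this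
    rw [h5] at h4
    exact h4

/-- Lindenstrauss lifting: if the kernel has a generalized limit, there is a linear section. -/
theorem split_of_lim (q : L →L[ℝ] L) (Φ : L → L) (C : ℝ) (hΦ : ∀ B, ‖Φ (h B)‖ ≤ C)
    (hq : ∀ f, q (Φ f) = f) (Λ : (ℕ → q.ker) → q.ker) (K : ℝ)
    (h1 : ∀ (u : ℕ → q.ker) (D : ℝ), (∀ n, ‖u n‖ ≤ D) → ‖Λ u‖ ≤ K * D)
    (h2 : ∀ (u v : ℕ → q.ker) (D : ℝ), (∀ n, ‖u n‖ ≤ D) → (∀ n, ‖v n‖ ≤ D) →
      Λ (u + v) = Λ u + Λ v)
    (h3 : ∀ (u : ℕ → q.ker) (v : q.ker), (∀ᶠ n in atTop, u n = v) → Λ u = v) :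
    ∃ T : L →L[ℝ] L, ∀ f, q (T f) = f := by
  have hadd : ∀ A : List Bool, wt A • h A = wt (false :: A) • h (false :: A) +
      wt (true :: A) • h (true :: A) := fun A => by
    rw [h_split A, wt_cons, wt_cons]; module
  have havg : ∀ (N : ℕ) (B : List Bool), ∑ D ∈ lev N, wt D • h (D ++ B) = h B := fun N B => by
    have := sum_desc (φ := fun A => wt A • h A) hadd N B
    simp only [wt_append, mul_comm _ (wt B), mul_smul, ← Finset.smul_sum] at this
    exact smul_right_injective L (wt_pos B).ne' this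
  set a : List Bool → ℕ → L := fun B n => ∑ D ∈ lev (n - B.length), wt D • Φ (h (D ++ B)) with ha
  have han : ∀ B n, ‖a B n‖ ≤ C := fun B n => by
    refine (norm_sum_le _ _).trans ?_
    rw [← one_mul C, ← sum_wt (n - B.length), Finset.sum_mul]
    refine Finset.sum_le_sum fun D _ => ?_
    rw [norm_smul, Real.norm_of_nonneg (wt_pos D).le]
    exact mul_le_mul_of_nonneg_left (hΦ _) (wt_pos D).le
  have hqa : ∀ B n, q (a B n) = h B := fun B n => by
    simp only [ha, map_sum, map_smul, hq, havg]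
  have hsp : ∀ (B : List Bool) n, B.length < n → a B n + a B n = a (false :: B) n + a (true :: B) n := by
    intro B n hn
    obtain ⟨j, rfl⟩ := Nat.exists_eq_add_of_lt hn
    have e1 : B.length + j + 1 - B.length = j + 1 := by omega
    have e2 : B.length + j + 1 - (B.length + 1) = j := by omega
    simp only [ha, List.length_cons, e1, e2]
    have := sum_lev_succ' j (fun D => wt D • Φ (h D)) B
    simp only [wt_append, wt_cons, mul_comm _ (wt B), mul_comm _ (wt B / 2), mul_smul,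
      ← Finset.smul_sum] at this
    refine smul_right_injective L (r := wt B / 2) (by have := wt_pos B; positivity) ?_
    simp only [smul_add]
    rw [← this]; module
  let u : List Bool → ℕ → q.ker := fun B n =>
    ⟨a B n - Φ (h B), by simp [LinearMap.mem_ker, hqa, hq]⟩
  have hun : ∀ B n, ‖u B n‖ ≤ 2 * C := fun B n => by
    have := norm_sub_le (a B n) (Φ (h B))
    show ‖a B n - Φ (h B)‖ ≤ 2 * C
    linarith [han B n, hΦ B]
  have hC : 0 ≤ C := (norm_nonneg _).trans (hΦ [])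
  obtain ⟨T, hT, -⟩ := exists_ext (fun B => Φ (h B) + (Λ (u B) : L)) (C + K * (2 * C))
    (fun B => (norm_add_le _ _).trans (add_le_add (hΦ B) (h1 _ _ (hun B)))) (fun B => by
      let v : q.ker := ⟨Φ (h (false :: B)) + Φ (h (true :: B)) - (Φ (h B) + Φ (h B)), by
        simp only [LinearMap.mem_ker, ContinuousLinearMap.coe_coe, map_sub, map_add, hq]
        rw [h_split B]; module⟩
      let w : ℕ → q.ker := u B + u B - (u (false :: B) + u (true :: B))
      have hw : Λ w = v := h3 w v (by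
        filter_upwards [eventually_gt_atTop B.length] with n hn
        apply Subtype.ext
        show a B n - Φ (h B) + (a B n - Φ (h B)) - (a (false :: B) n - Φ (h (false :: B)) +
          (a (true :: B) n - Φ (h (true :: B)))) =
          Φ (h (false :: B)) + Φ (h (true :: B)) - (Φ (h B) + Φ (h B))
        have := hsp B n hn
        rw [← sub_eq_zero] at this ⊢
        rw [← this]; abel)
      have hs : ∀ n, ‖(u (false :: B) + u (true :: B)) n‖ ≤ 8 * C := fun n => by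
        have := norm_add_le (u (false :: B) n) (u (true :: B) n)
        simp only [Pi.add_apply]
        linarith [hun (false :: B) n, hun (true :: B) n]
      have hwn : ∀ n, ‖w n‖ ≤ 8 * C := fun n => by
        have e1 := norm_add_le (u (false :: B) n) (u (true :: B) n)
        have e2 := norm_add_le (u B n) (u B n)
        have e3 := norm_sub_le (u B n + u B n) (u (false :: B) n + u (true :: B) n)
        show ‖u B n + u B n - (u (false :: B) n + u (true :: B) n)‖ ≤ 8 * C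
        linarith [hun (false :: B) n, hun (true :: B) n, hun B n]
      have e1 := h2 w _ _ hwn hs
      rw [show w + (u (false :: B) + u (true :: B)) = u B + u B from sub_add_cancel _ _,
        h2 _ _ _ (hun B) (hun B), h2 _ _ _ (hun _) (hun _), hw] at e1
      have e2 := congrArg (fun z : q.ker => (z : L)) e1
      simp only [Submodule.coe_add, v] at e2
      have e3 : (Λ (u B) : L) = (1 / 2 : ℝ) • ((Λ (u B) : L) + Λ (u B)) := by module
      rw [e3, e2]; module)
  refine ⟨T, fun f => ?_⟩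
  have : q.comp T = ContinuousLinearMap.id ℝ L := clm_ext fun B => by
    have := (Λ (u B)).2
    simp only [LinearMap.mem_ker, ContinuousLinearMap.coe_coe] at this
    simp [hT, hq, this]
  simpa using congrArg (fun T : L →L[ℝ] L => T f) this

theorem main : ∃ (X : Type) (_ : NormedAddCommGroup X) (_ : NormedSpace ℝ X) (_ : CompleteSpace X),
    Nonempty (UniformEquiv X L) ∧ ¬ Nonempty (X ≃L[ℝ] L) := by
  obtain ⟨q, Φ, C, hu, hb, hq, hno⟩ := exists_q
  have : CompleteSpace q.ker := q.isClosed_ker.completeSpace_coe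
  refine ⟨q.ker × L, inferInstance, inferInstance, inferInstance, ⟨?_⟩, ?_⟩
  · exact
      { toFun := fun x => (x.1 : L) + Φ x.2
        invFun := fun y => (⟨y - Φ (q y), by simp [LinearMap.mem_ker, hq]⟩, q y)
        left_inv := fun x => by
          have h0 : q (x.1 : L) = 0 := x.1.2
          have h1 : q ((x.1 : L) + Φ x.2) = x.2 := by rw [map_add, h0, hq, zero_add]
          refine Prod.ext (Subtype.ext ?_) h1
          simp only [h1, add_sub_cancel_right]
        right_inv := fun y => by simp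
        uniformContinuous_toFun :=
          (uniformContinuous_subtype_val.comp uniformContinuous_fst).add
            (hu.comp uniformContinuous_snd)
        uniformContinuous_invFun :=
          ((uniformContinuous_id.sub (hu.comp q.uniformContinuous)).subtype_mk
            (fun y => by simp [LinearMap.mem_ker, hq])).prodMk
            q.uniformContinuous }
  · rintro ⟨e⟩
    obtain ⟨Λ, h1, h2, h3⟩ := exists_Lam
    let j : q.ker →L[ℝ] L := (e : q.ker × L →L[ℝ] L).comp (ContinuousLinearMap.inl ℝ q.ker L)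
    let p : L →L[ℝ] q.ker :=
      (ContinuousLinearMap.fst ℝ q.ker L).comp (e.symm : L →L[ℝ] q.ker × L)
    have hpj : ∀ v, p (j v) = v := fun v => by simp [p, j]
    have hjn : ∀ (u : ℕ → q.ker) (D : ℝ), (∀ n, ‖u n‖ ≤ D) → ∀ n, ‖j (u n)‖ ≤ ‖j‖ * D :=
      fun u D hD n => (j.le_opNorm _).trans (mul_le_mul_of_nonneg_left (hD n) j.opNorm_nonneg)
    obtain ⟨T, hT⟩ := split_of_lim q Φ (C * 3) (fun B => by
        have := hb (h B)
        rwa [norm_h, show (1:ℝ) + 2 = 3 by norm_num] at this) hq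
      (fun u => p (Λ fun n => j (u n))) (‖p‖ * (4 * ‖j‖))
      (fun u D hD => by
        refine (p.le_opNorm _).trans ?_
        rw [mul_assoc, mul_assoc]
        exact mul_le_mul_of_nonneg_left (h1 _ _ (hjn u D hD)) p.opNorm_nonneg)
      (fun u v D hu' hv' => by
        rw [← map_add, ← h2 _ _ _ (hjn u D hu') (hjn v D hv')]
        congr 2
        funext n
        simp)
      (fun u v huv => by
        rw [h3 _ (j v) (huv.mono fun n hn => by rw [hn]), hpj])
    exact hno T hT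

end

end Pool.Agent.MP_fc1aea_an.H30

end
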