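import Mathlib

-- part MP_fc1aea_an.Noise
section

open scoped symmDiff

namespace Pool.Agent.MP_fc1aea_an

variable {α : Type*} [DecidableEq α]

/-- Probability that exactly the coordinates in `τ` are flipped. -/
def wt (δ : ℝ) (U τ : Finset α) : ℝ := δ ^ τ.card * (1 - δ) ^ (U.card - τ.card)

omit [DecidableEq α] in
theorem wt_nonneg {δ : ℝ} (h0 : 0 ≤ δ) (h1 : δ ≤ 1) (U τ : Finset α) : 0 ≤ wt δ U τ := by
  unfold wt
  have : 0 ≤ 1 - δ := by linarith
  positivity

section Module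

variable {E : Type*} [AddCommGroup E] [Module ℝ E]

/-- The noise operator: flip every coordinate of `U` independently with probability `δ`. -/
def T (δ : ℝ) (U : Finset α) (h : Finset α → E) (σ : Finset α) : E :=
  ∑ τ ∈ U.powerset, wt δ U τ • h (σ ∆ τ)

/-- The discrete derivative. -/
noncomputable def D (v : α) (h : Finset α → E) (σ : Finset α) : E :=
  (1 / 2 : ℝ) • (h σ - h (σ ∆ {v}))

/-- Invariance under flipping the coordinate `v`. -/
def Inv {β : Type*} (v : α) (h : Finset α → β) : Prop := ∀ σ, h (σ ∆ {v}) = h σ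

@[simp] theorem symmDiff_empty' (σ : Finset α) : σ ∆ ∅ = σ := symmDiff_bot σ

@[simp] theorem empty_symmDiff' (σ : Finset α) : ∅ ∆ σ = σ := bot_symmDiff σ

theorem T_empty (δ : ℝ) (h : Finset α → E) : T δ ∅ h = h := by
  funext σ
  simp [T, wt]

theorem symmDiff_insert {v : α} {τ : Finset α} (hv : v ∉ τ) (σ : Finset α) :
    σ ∆ insert v τ = (σ ∆ {v}) ∆ τ := by
  rw [symmDiff_assoc]
  congr 1
  ext x
  simp only [Finset.mem_insert, Finset.mem_symmDiff, Finset.mem_singleton]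
  constructor
  · rintro (rfl | h)
    · exact Or.inl ⟨rfl, hv⟩
    · exact Or.inr ⟨h, fun hx => hv (hx ▸ h)⟩
  · rintro (h | h)
    · exact Or.inl h.1
    · exact Or.inr h.1

theorem T_insert (δ : ℝ) {v : α} {U : Finset α} (hv : v ∉ U) (h : Finset α → E) (σ : Finset α) :
    T δ (insert v U) h σ = (1 - δ) • T δ U h σ + δ • T δ U h (σ ∆ {v}) := by
  unfold T
  rw [Finset.sum_powerset_insert hv, Finset.smul_sum, Finset.smul_sum]
  congr 1
  · refine Finset.sum_congr rfl fun τ hτ => ?_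
    have hc := Finset.card_le_card (Finset.mem_powerset.1 hτ)
    rw [smul_smul]
    congr 1
    unfold wt
    rw [Finset.card_insert_of_notMem hv, show U.card + 1 - τ.card = (U.card - τ.card) + 1 by omega]
    ring
  · refine Finset.sum_congr rfl fun τ hτ => ?_
    have hvτ : v ∉ τ := fun h => hv (Finset.mem_powerset.1 hτ h)
    rw [smul_smul, symmDiff_insert hvτ]
    congr 1
    unfold wt
    rw [Finset.card_insert_of_notMem hv, Finset.card_insert_of_notMem hvτ,
      show U.card + 1 - (τ.card + 1) = U.card - τ.card by omega]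
    ring

theorem T_shift (δ : ℝ) (U : Finset α) (h : Finset α → E) (σ ρ : Finset α) :
    T δ U h (σ ∆ ρ) = T δ U (fun s => h (s ∆ ρ)) σ := by
  unfold T
  refine Finset.sum_congr rfl fun τ _ => ?_
  rw [symmDiff_right_comm]

theorem T_map {F : Type*} [AddCommGroup F] [Module ℝ F] (ℓ : E →ₗ[ℝ] F) (δ : ℝ) (U : Finset α)
    (h : Finset α → E) (σ : Finset α) : ℓ (T δ U h σ) = T δ U (fun s => ℓ (h s)) σ := by
  simp [T]

theorem T_add (δ : ℝ) (U : Finset α) (h k : Finset α → E) (σ : Finset α) :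
    T δ U (fun s => h s + k s) σ = T δ U h σ + T δ U k σ := by
  simp [T, Finset.sum_add_distrib]

theorem T_sub (δ : ℝ) (U : Finset α) (h k : Finset α → E) (σ : Finset α) :
    T δ U (fun s => h s - k s) σ = T δ U h σ - T δ U k σ := by
  simp [T, smul_sub, Finset.sum_sub_distrib]

theorem T_smul (δ : ℝ) (U : Finset α) (c : ℝ) (h : Finset α → E) (σ : Finset α) :
    T δ U (fun s => c • h s) σ = c • T δ U h σ := by
  simp only [T, Finset.smul_sum]
  exact Finset.sum_congr rfl fun τ _ => smul_comm _ _ _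

theorem T_sum {ι : Type*} (δ : ℝ) (U : Finset α) (s : Finset ι) (h : ι → Finset α → E)
    (σ : Finset α) : T δ U (fun ρ => ∑ i ∈ s, h i ρ) σ = ∑ i ∈ s, T δ U (h i) σ := by
  simp only [T, Finset.smul_sum]
  exact Finset.sum_comm

theorem T_congr (δ : ℝ) (U : Finset α) {h k : Finset α → E} {σ : Finset α}
    (hh : ∀ τ ⊆ U, h (σ ∆ τ) = k (σ ∆ τ)) : T δ U h σ = T δ U k σ :=
  Finset.sum_congr rfl fun τ hτ => by rw [hh τ (Finset.mem_powerset.1 hτ)]

theorem T_const (δ : ℝ) (U : Finset α) (c : E) (σ : Finset α) : T δ U (fun _ => c) σ = c := by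
  induction U using Finset.induction_on generalizing σ with
  | empty => rw [T_empty]
  | insert v U hv ih => rw [T_insert δ hv, ih, ih, ← add_smul]; simp

theorem T_comm (δ δ' : ℝ) (U U' : Finset α) (h : Finset α → E) (σ : Finset α) :
    T δ U (T δ' U' h) σ = T δ' U' (T δ U h) σ := by
  simp only [T, Finset.smul_sum]
  rw [Finset.sum_comm]
  refine Finset.sum_congr rfl fun τ _ => Finset.sum_congr rfl fun ρ _ => ?_
  rw [smul_comm, symmDiff_right_comm]

theorem T_union (δ : ℝ) {U U' : Finset α} (hd : Disjoint U U') (h : Finset α → E)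
    (σ : Finset α) : T δ (U ∪ U') h σ = T δ U (T δ U' h) σ := by
  induction U using Finset.induction_on generalizing σ with
  | empty => simp [T_empty]
  | insert v U hv ih =>
    rw [Finset.disjoint_insert_left] at hd
    have : v ∉ U ∪ U' := by simp [hv, hd.1]
    rw [Finset.insert_union, T_insert δ this, T_insert δ hv, ih hd.2, ih hd.2]

theorem Inv.symmDiff {β : Type*} {h : Finset α → β} {τ : Finset α} (hh : ∀ v ∈ τ, Inv v h)
    (σ : Finset α) : h (σ ∆ τ) = h σ := by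
  induction τ using Finset.induction_on generalizing σ with
  | empty => simp
  | insert v τ hv ih =>
    rw [symmDiff_insert hv, ih (fun w hw => hh w (Finset.mem_insert_of_mem hw)),
      hh v (Finset.mem_insert_self _ _)]

theorem T_of_inv (δ : ℝ) {U : Finset α} {h : Finset α → E} (hh : ∀ v ∈ U, Inv v h)
    (σ : Finset α) : T δ U h σ = h σ := by
  rw [← T_const δ U (h σ) σ]
  exact T_congr δ U fun τ hτ => Inv.symmDiff (fun v hv => hh v (hτ hv)) σ

theorem Inv.T {v : α} {h : Finset α → E} (hh : Inv v h) (δ : ℝ) (U : Finset α) :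
    Inv v (T δ U h) := fun σ => by
  rw [T_shift]
  congr 1
  funext s
  exact hh s

theorem T_subset (δ : ℝ) {U V : Finset α} (hUV : U ⊆ V) {h : Finset α → E}
    (hh : ∀ v ∈ V, v ∉ U → Inv v h) (σ : Finset α) : T δ V h σ = T δ U h σ := by
  rw [← Finset.union_sdiff_of_subset hUV, T_union δ Finset.disjoint_sdiff]
  congr 1
  funext s
  exact T_of_inv δ (fun v hv => hh v (Finset.mem_sdiff.1 hv).1 (Finset.mem_sdiff.1 hv).2) s

theorem inv_M {v : α} {U : Finset α} (hv : v ∈ U) (h : Finset α → E) : Inv v (T (1 / 2) U h) := by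
  intro σ
  have hU : U = insert v (U.erase v) := (Finset.insert_erase hv).symm
  rw [hU, T_insert _ (Finset.notMem_erase v U), T_insert _ (Finset.notMem_erase v U),
    symmDiff_symmDiff_cancel_right, add_comm]
  norm_num

theorem M_shift {U τ : Finset α} (hτ : τ ⊆ U) (h : Finset α → E) (σ : Finset α) :
    T (1 / 2) U (fun s => h (s ∆ τ)) σ = T (1 / 2) U h σ := by
  rw [← T_shift]
  exact Inv.symmDiff (fun v hv => inv_M (hτ hv) h) σ

theorem M_T (δ : ℝ) {U V : Finset α} (hUV : U ⊆ V) (h : Finset α → E) (σ : Finset α) :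
    T (1 / 2) V (T δ U h) σ = T (1 / 2) V h σ := by
  rw [T_comm]
  exact T_of_inv δ (fun v hv => inv_M (hUV hv) h) σ

theorem D_T (δ : ℝ) (U : Finset α) (v : α) (h : Finset α → E) (σ : Finset α) :
    D v (T δ U h) σ = T δ U (D v h) σ := by
  unfold D
  rw [T_shift, ← T_sub, ← T_smul]

theorem D_of_inv {v : α} {h : Finset α → E} (hh : Inv v h) (σ : Finset α) : D v h σ = 0 := by
  simp [D, hh σ]

theorem D_sub (v : α) (h k : Finset α → E) (σ : Finset α) :
    D v (fun s => h s - k s) σ = D v h σ - D v k σ := by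
  simp only [D, smul_sub]
  abel

theorem D_flip (v : α) (h : Finset α → E) (σ : Finset α) : D v h (σ ∆ {v}) = - D v h σ := by
  simp only [D, symmDiff_symmDiff_cancel_right, smul_sub]
  abel

theorem D_map {F : Type*} [AddCommGroup F] [Module ℝ F] (ℓ : E →ₗ[ℝ] F) (v : α)
    (h : Finset α → E) (σ : Finset α) : ℓ (D v h σ) = D v (fun s => ℓ (h s)) σ := by
  simp [D]

theorem Inv.D {v w : α} {h : Finset α → E} (hh : Inv v h) : Inv v (D w h) := fun σ => by
  unfold Pool.Agent.MP_fc1aea_an.D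
  rw [symmDiff_right_comm, hh, hh]

end Module

section Real

theorem T_mul (δ : ℝ) (U : Finset α) (c : ℝ) (h : Finset α → ℝ) (σ : Finset α) :
    T δ U (fun s => c * h s) σ = c * T δ U h σ := T_smul δ U c h σ

theorem T_mul_inv (δ : ℝ) {U : Finset α} {k : Finset α → ℝ} (hk : ∀ v ∈ U, Inv v k)
    (h : Finset α → ℝ) (σ : Finset α) : T δ U (fun s => k s * h s) σ = k σ * T δ U h σ := by
  rw [← T_mul]
  exact T_congr δ U fun τ hτ => by rw [Inv.symmDiff (fun v hv => hk v (hτ hv)) σ]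

variable {δ : ℝ}

theorem T_mono' (h0 : 0 ≤ δ) (h1 : δ ≤ 1) (U : Finset α) {h k : Finset α → ℝ} {σ : Finset α}
    (hh : ∀ τ ⊆ U, h (σ ∆ τ) ≤ k (σ ∆ τ)) : T δ U h σ ≤ T δ U k σ :=
  Finset.sum_le_sum fun τ hτ =>
    mul_le_mul_of_nonneg_left (hh τ (Finset.mem_powerset.1 hτ)) (wt_nonneg h0 h1 U τ)

theorem T_mono (h0 : 0 ≤ δ) (h1 : δ ≤ 1) (U : Finset α) {h k : Finset α → ℝ} (σ : Finset α)
    (hh : ∀ s, h s ≤ k s) : T δ U h σ ≤ T δ U k σ :=
  T_mono' h0 h1 U fun _ _ => hh _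

theorem T_nonneg (h0 : 0 ≤ δ) (h1 : δ ≤ 1) (U : Finset α) {h : Finset α → ℝ} (σ : Finset α)
    (hh : ∀ s, 0 ≤ h s) : 0 ≤ T δ U h σ := by
  rw [← T_const δ U (0 : ℝ) σ]
  exact T_mono h0 h1 U σ hh

theorem T_le_const (h0 : 0 ≤ δ) (h1 : δ ≤ 1) (U : Finset α) {h : Finset α → ℝ} {σ : Finset α}
    {c : ℝ} (hh : ∀ τ ⊆ U, h (σ ∆ τ) ≤ c) : T δ U h σ ≤ c := by
  rw [← T_const δ U c σ]
  exact T_mono' h0 h1 U hh

theorem M_mono (U : Finset α) {h k : Finset α → ℝ} (σ : Finset α)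
    (hh : ∀ s, h s ≤ k s) : T (1 / 2) U h σ ≤ T (1 / 2) U k σ :=
  T_mono (by norm_num) (by norm_num) U σ hh

theorem M_nonneg (U : Finset α) {h : Finset α → ℝ} (σ : Finset α)
    (hh : ∀ s, 0 ≤ h s) : 0 ≤ T (1 / 2) U h σ :=
  T_nonneg (by norm_num) (by norm_num) U σ hh

theorem sum_wt (δ : ℝ) (U : Finset α) : ∑ τ ∈ U.powerset, wt δ U τ = 1 := by
  have := T_const δ U (1 : ℝ) ∅
  simpa [T] using this

theorem T_rpow_le (h0 : 0 ≤ δ) (h1 : δ ≤ 1) (U : Finset α) {h : Finset α → ℝ} (σ : Finset α)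
    (hh : ∀ s, 0 ≤ h s) {r : ℝ} (hr : 1 ≤ r) : T δ U h σ ^ r ≤ T δ U (fun s => h s ^ r) σ :=
  Real.rpow_arith_mean_le_arith_mean_rpow U.powerset (wt δ U) (fun τ => h (σ ∆ τ))
    (fun τ _ => wt_nonneg h0 h1 U τ) (sum_wt δ U) (fun _ _ => hh _) hr

theorem abs_T_le (h0 : 0 ≤ δ) (h1 : δ ≤ 1) (U : Finset α) (h : Finset α → ℝ) (σ : Finset α) :
    |T δ U h σ| ≤ T δ U (fun s => |h s|) σ := by
  refine (Finset.abs_sum_le_sum_abs _ _).trans (le_of_eq ?_)
  refine Finset.sum_congr rfl fun τ _ => ?_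
  rw [smul_eq_mul, abs_mul, abs_of_nonneg (wt_nonneg h0 h1 U τ), smul_eq_mul]

theorem abs_T_rpow_le (h0 : 0 ≤ δ) (h1 : δ ≤ 1) (U : Finset α) (h : Finset α → ℝ) (σ : Finset α)
    {r : ℝ} (hr : 1 ≤ r) : |T δ U h σ| ^ r ≤ T δ U (fun s => |h s| ^ r) σ :=
  (Real.rpow_le_rpow (abs_nonneg _) (abs_T_le h0 h1 U h σ) (by linarith)).trans
    (T_rpow_le h0 h1 U σ (fun _ => abs_nonneg _) hr)

theorem T_sq_le (h0 : 0 ≤ δ) (h1 : δ ≤ 1) (U : Finset α) (h : Finset α → ℝ) (σ : Finset α) :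
    T δ U h σ ^ 2 ≤ T δ U (fun s => h s ^ 2) σ := by
  have := abs_T_rpow_le h0 h1 U h σ (r := 2) (by norm_num)
  simpa using this

theorem exists_le_M (U : Finset α) (h : Finset α → ℝ) (σ : Finset α) :
    ∃ τ ⊆ U, h (σ ∆ τ) ≤ T (1 / 2) U h σ := by
  obtain ⟨τ, hτ, hmin⟩ := U.powerset.exists_min_image (fun τ => h (σ ∆ τ)) ⟨∅, by simp⟩
  refine ⟨τ, Finset.mem_powerset.1 hτ, ?_⟩
  rw [← T_const (1 / 2) U (h (σ ∆ τ)) σ]
  exact T_mono' (by norm_num) (by norm_num) U fun ρ hρ => hmin ρ (Finset.mem_powerset.2 hρ)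

/-- Reverse Poincaré inequality for the noise operator. -/
theorem reverse_poincare (h0 : 0 ≤ δ) (h1 : δ ≤ 1) (V : Finset α) (h : Finset α → ℝ)
    (σ : Finset α) :
    T δ V h σ ^ 2 + 4 * δ * (1 - δ) * ∑ v ∈ V, D v (T δ V h) σ ^ 2
      ≤ T δ V (fun s => h s ^ 2) σ := by
  induction V using Finset.induction_on generalizing σ with
  | empty => simp [T_empty]
  | insert w V hw ih =>
    have h1' : 0 ≤ 1 - δ := by linarith
    have hκ : 0 ≤ 4 * δ * (1 - δ) := by positivity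
    rw [Finset.sum_insert hw, T_insert δ hw (fun s => h s ^ 2)]
    have e1 := ih σ
    have e2 := ih (σ ∆ {w})
    have hD : ∀ v, D v (T δ (insert w V) h) σ
        = (1 - δ) * D v (T δ V h) σ + δ * D v (T δ V h) (σ ∆ {w}) := by
      intro v
      simp only [D, T_insert δ hw, smul_eq_mul]
      rw [symmDiff_right_comm σ {v} {w}]
      ring
    have e3 : ∑ v ∈ V, D v (T δ (insert w V) h) σ ^ 2
        ≤ (1 - δ) * ∑ v ∈ V, D v (T δ V h) σ ^ 2
          + δ * ∑ v ∈ V, D v (T δ V h) (σ ∆ {w}) ^ 2 := by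
      rw [Finset.mul_sum, Finset.mul_sum, ← Finset.sum_add_distrib]
      refine Finset.sum_le_sum fun v _ => ?_
      rw [hD]
      nlinarith [mul_nonneg (mul_nonneg h0 h1')
        (sq_nonneg (D v (T δ V h) σ - D v (T δ V h) (σ ∆ {w})))]
    have e4 : T δ (insert w V) h σ ^ 2 + 4 * δ * (1 - δ) * D w (T δ (insert w V) h) σ ^ 2
        ≤ (1 - δ) * T δ V h σ ^ 2 + δ * T δ V h (σ ∆ {w}) ^ 2 := by
      rw [hD, D_flip, T_insert δ hw]
      simp only [D, smul_eq_mul]
      set a := T δ V h σ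
      set b := T δ V h (σ ∆ {w})
      have : 0 ≤ δ * (1 - δ) * (δ * (1 - δ)) * (a - b) ^ 2 := by positivity
      nlinarith
    simp only [smul_eq_mul]
    nlinarith [mul_le_mul_of_nonneg_left e3 hκ, mul_le_mul_of_nonneg_left e1 h1',
      mul_le_mul_of_nonneg_left e2 h0]

/-- The Poincaré inequality on the cube. -/
theorem poincare (U : Finset α) (h : Finset α → ℝ) (σ : Finset α) :
    T (1 / 2) U (fun s => h s ^ 2) σ ≤ T (1 / 2) U h σ ^ 2 + T (1 / 2) U (fun s => ∑ v ∈ U, D v h s ^ 2) σ := by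
  induction U using Finset.induction_on generalizing σ with
  | empty => simp [T_empty]
  | insert w U hw ih =>
    have e1 := ih σ
    have e2 := ih (σ ∆ {w})
    simp only [Finset.sum_insert hw, T_add]
    have e3 : T (1 / 2) (insert w U) (fun s => D w h s ^ 2) σ = T (1 / 2) U (fun s => D w h s ^ 2) σ := by
      refine T_subset _ (Finset.subset_insert _ _) (fun v hv hv' s => ?_) σ
      have : v = w := by simpa [hv'] using hv
      subst this
      simp only [D_flip, neg_sq]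
    have e4 : D w (T (1 / 2) U h) σ ^ 2 ≤ T (1 / 2) U (fun s => D w h s ^ 2) σ := by
      rw [D_T]
      exact T_sq_le (by norm_num) (by norm_num) U _ σ
    rw [e3, T_insert _ hw, T_insert _ hw, T_insert _ hw]
    simp only [D, smul_eq_mul] at *
    nlinarith

end Real

end Pool.Agent.MP_fc1aea_an

end

-- part MP_fc1aea_an.Ineq
section

open scoped symmDiff

namespace Pool.Agent.MP_fc1aea_an

theorem young_eps {q θ : ℝ} (hq : 1 ≤ q) (hθ : 0 < θ) {x y : ℝ} (hx : 0 ≤ x) (hy : 0 ≤ y) :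
    x ^ (q - 1) * y ≤ θ * x ^ q + θ⁻¹ ^ (q - 1) * y ^ q := by
  have h1 : x ^ q = x ^ (q - 1) * x := by
    rw [← Real.rpow_add_one' hx (by linarith)]; congr 1; ring
  have h2 : y ^ q = y ^ (q - 1) * y := by
    rw [← Real.rpow_add_one' hy (by linarith)]; congr 1; ring
  rcases le_total y (θ * x) with h | h
  · have : x ^ (q - 1) * y ≤ x ^ (q - 1) * (θ * x) := by gcongr
    have h3 : 0 ≤ θ⁻¹ ^ (q - 1) * y ^ q := by positivity
    rw [h1]; nlinarith
  · have h3 : x ≤ θ⁻¹ * y := by rw [le_inv_mul_iff₀ hθ]; exact h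
    have h4 : x ^ (q - 1) ≤ θ⁻¹ ^ (q - 1) * y ^ (q - 1) := by
      rw [← Real.mul_rpow (by positivity) hy]
      exact Real.rpow_le_rpow hx h3 (by linarith)
    have h5 : 0 ≤ θ * x ^ q := by positivity
    rw [h2]; nlinarith [mul_le_mul_of_nonneg_right h4 hy]

theorem add_rpow_le {r a b : ℝ} (hr : 0 ≤ r) (ha : 0 ≤ a) (hb : 0 ≤ b) :
    (a + b) ^ r ≤ 2 ^ r * (a ^ r + b ^ r) := by
  have h1 : 0 ≤ a ^ r := by positivity
  have h2 : 0 ≤ b ^ r := by positivity
  have h3 : (0 : ℝ) < 2 ^ r := by positivity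
  rcases le_total a b with h | h
  · calc (a + b) ^ r ≤ (2 * b) ^ r := Real.rpow_le_rpow (by positivity) (by linarith) hr
      _ = 2 ^ r * b ^ r := Real.mul_rpow (by norm_num) hb
      _ ≤ _ := by nlinarith
  · calc (a + b) ^ r ≤ (2 * a) ^ r := Real.rpow_le_rpow (by positivity) (by linarith) hr
      _ = 2 ^ r * a ^ r := Real.mul_rpow (by norm_num) ha
      _ ≤ _ := by nlinarith

theorem abs_add_rpow_le {r : ℝ} (hr : 0 ≤ r) (a b : ℝ) :
    |a + b| ^ r ≤ 2 ^ r * (|a| ^ r + |b| ^ r) :=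
  (Real.rpow_le_rpow (abs_nonneg _) (abs_add_le a b) hr).trans
    (add_rpow_le hr (abs_nonneg _) (abs_nonneg _))

theorem abs_sub_rpow_le {r : ℝ} (hr : 0 ≤ r) (a b c : ℝ) :
    |a - c| ^ r ≤ 2 ^ r * (|a - b| ^ r + |b - c| ^ r) := by
  have := abs_add_rpow_le hr (a - b) (b - c)
  rwa [sub_add_sub_cancel] at this

theorem rpow_tangent {r a b : ℝ} (hr : 1 ≤ r) (ha : 0 ≤ a) (hb : 0 ≤ b) :
    a ^ r + r * a ^ (r - 1) * (b - a) ≤ b ^ r := by
  rcases ha.eq_or_lt with h | h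
  · subst h
    rcases hr.eq_or_lt with h1 | h1
    · subst h1; simp
    · rw [Real.zero_rpow (by linarith), Real.zero_rpow (by linarith)]
      simp only [mul_zero, zero_mul, add_zero]
      positivity
  · have h1 := one_add_mul_self_le_rpow_one_add (s := b / a - 1)
      (by have : 0 ≤ b / a := by positivity
          linarith) hr
    rw [add_sub_cancel, Real.div_rpow hb ha, le_div_iff₀ (by positivity)] at h1
    have h2 : a ^ r = a ^ (r - 1) * a := by
      rw [← Real.rpow_add_one h.ne']; congr 1; ring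
    refine le_trans (le_of_eq ?_) h1
    rw [h2]; field_simp

theorem abs_rpow_two_mul (a q : ℝ) : |a| ^ (2 * q) = (a ^ 2) ^ q := by
  rw [Real.rpow_mul (abs_nonneg a)]
  simp

theorem sq_rpow_sub_sq {q a b : ℝ} (hq : 1 ≤ q) :
    (|a| ^ q - |b| ^ q) ^ 2 ≤ q ^ 2 * ((a ^ 2) ^ (q - 1) + (b ^ 2) ^ (q - 1)) * (a - b) ^ 2 := by
  wlog h : |b| ≤ |a| generalizing a b
  · have := this (a := b) (b := a) (le_of_not_ge h)
    calc _ = (|b| ^ q - |a| ^ q) ^ 2 := by ring
      _ ≤ _ := this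
      _ = _ := by ring
  have h1 := rpow_tangent hq (abs_nonneg a) (abs_nonneg b)
  have h2 : |b| ^ q ≤ |a| ^ q := Real.rpow_le_rpow (abs_nonneg _) h (by linarith)
  have h3 : |a| - |b| ≤ |a - b| := abs_sub_abs_le_abs_sub a b
  have h4 : 0 ≤ q * |a| ^ (q - 1) := by positivity
  have h5 : |a| ^ q - |b| ^ q ≤ q * |a| ^ (q - 1) * |a - b| := by nlinarith
  have h6 : (|a| ^ (q - 1)) ^ 2 = (a ^ 2) ^ (q - 1) := by
    rw [← abs_rpow_two_mul, mul_comm, Real.rpow_mul (abs_nonneg a)]; simp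
  have h7 : 0 ≤ q ^ 2 * (b ^ 2) ^ (q - 1) * (a - b) ^ 2 := by positivity
  calc _ ≤ (q * |a| ^ (q - 1) * |a - b|) ^ 2 := pow_le_pow_left₀ (by linarith) h5 2
    _ = q ^ 2 * (a ^ 2) ^ (q - 1) * (a - b) ^ 2 := by rw [mul_pow, mul_pow, h6, sq_abs]
    _ ≤ _ := by nlinarith

/-- The `L^p` Poincaré inequality on the cube, `p = 2 q > 2`. -/
theorem lp_poincare {q : ℝ} (hq : 1 ≤ q) : ∃ C : ℝ, 1 ≤ C ∧
    ∀ {α : Type} [DecidableEq α] (U : Finset α) (h : Finset α → ℝ) (σ : Finset α),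
      T (1 / 2) U (fun s => |h s - T (1 / 2) U h s| ^ (2 * q)) σ
        ≤ C * T (1 / 2) U (fun s => (∑ v ∈ U, D v h s ^ 2) ^ q) σ := by
  set θ : ℝ := 1 / (8 * q ^ 2) with hθ
  have hθ0 : 0 < θ := by positivity
  set C₁ : ℝ := θ⁻¹ ^ (q - 1) with hC₁
  have hC₁0 : 0 < C₁ := by positivity
  have h4q : (1 : ℝ) ≤ 4 ^ q := Real.one_le_rpow (by norm_num) (by linarith)
  refine ⟨(8 / 3) * (5 * 4 ^ q + 2 * q ^ 2 * C₁), by nlinarith [mul_pos (by positivity : 0 < q ^ 2) hC₁0], ?_⟩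
  intro α _ U h σ
  set g : Finset α → ℝ := fun s => h s - T (1 / 2) U h s with hg
  set Γ : Finset α → ℝ := fun s => ∑ v ∈ U, D v h s ^ 2 with hΓ
  have hΓ0 : ∀ s, 0 ≤ Γ s := fun s => Finset.sum_nonneg fun _ _ => sq_nonneg _
  have hDg : ∀ v ∈ U, ∀ s, D v g s = D v h s := fun v hv s => by
    rw [hg, D_sub, D_of_inv (inv_M hv h), sub_zero]
  have hTg : T (1 / 2) U g σ = 0 := by
    rw [hg, T_sub, M_T _ (Finset.Subset.refl U), sub_self]
  set B := T (1 / 2) U (fun s => Γ s ^ q) σ with hB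
  have hB0 : 0 ≤ B := M_nonneg U σ fun s => Real.rpow_nonneg (hΓ0 s) _
  set m₂ := T (1 / 2) U (fun s => g s ^ 2) σ with hm₂
  have hm0 : 0 ≤ m₂ := M_nonneg U σ fun s => sq_nonneg _
  have hm₂B : m₂ ^ q ≤ B := by
    have h1 := poincare U g σ
    rw [hTg] at h1
    have h2 : T (1 / 2) U (fun s => ∑ v ∈ U, D v g s ^ 2) σ = T (1 / 2) U Γ σ := by
      congr 1; funext s
      exact Finset.sum_congr rfl fun v hv => by rw [hDg v hv]
    rw [h2] at h1
    calc m₂ ^ q ≤ T (1 / 2) U Γ σ ^ q := Real.rpow_le_rpow hm0 (by linarith) (by linarith)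
      _ ≤ B := T_rpow_le (by norm_num) (by norm_num) U σ hΓ0 hq
  set G : Finset α → ℝ := fun s => |g s| ^ q with hG
  have hG0 : ∀ s, 0 ≤ G s := fun s => by positivity
  have hG2 : ∀ s, G s ^ 2 = |g s| ^ (2 * q) := fun s => by
    rw [mul_comm, Real.rpow_mul (abs_nonneg _)]; simp [hG]
  set N := T (1 / 2) U (fun s => |g s| ^ (2 * q)) σ with hN
  have hN0 : 0 ≤ N := M_nonneg U σ fun s => by positivity
  rcases hN0.eq_or_lt with h0 | h0
  · rw [← h0]; positivity
  have hP := poincare U G σ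
  simp only [hG2] at hP
  rw [← hN] at hP
  -- gradient term
  have hgrad : T (1 / 2) U (fun s => ∑ v ∈ U, D v G s ^ 2) σ ≤ N / 4 + 2 * q ^ 2 * C₁ * B := by
    set w : Finset α → ℝ := fun s => (g s ^ 2) ^ (q - 1) with hw
    have e1 : ∀ v ∈ U, T (1 / 2) U (fun s => D v G s ^ 2) σ
        ≤ 2 * q ^ 2 * T (1 / 2) U (fun s => w s * D v h s ^ 2) σ := by
      intro v hv
      have e2 : T (1 / 2) U (fun s => w (s ∆ {v}) * D v h s ^ 2) σ
          = T (1 / 2) U (fun s => w s * D v h s ^ 2) σ := by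
        rw [← M_shift (Finset.singleton_subset_iff.2 hv) (fun s => w s * D v h s ^ 2)]
        simp only [D_flip, neg_sq]
      calc _ ≤ T (1 / 2) U (fun s => q ^ 2 * (w s * D v h s ^ 2 + w (s ∆ {v}) * D v h s ^ 2)) σ := by
            refine M_mono U σ fun s => ?_
            rw [← hDg v hv]
            have := sq_rpow_sub_sq (a := g s) (b := g (s ∆ {v})) hq
            simp only [D, smul_eq_mul, hG, hw]
            nlinarith
        _ = _ := by rw [T_mul, T_add, e2]; ring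
    rw [T_sum]
    calc _ ≤ ∑ v ∈ U, 2 * q ^ 2 * T (1 / 2) U (fun s => w s * D v h s ^ 2) σ :=
          Finset.sum_le_sum e1
      _ = 2 * q ^ 2 * T (1 / 2) U (fun s => w s * Γ s) σ := by
          rw [← Finset.mul_sum, ← T_sum]
          simp only [hΓ, Finset.mul_sum]
      _ ≤ 2 * q ^ 2 * T (1 / 2) U (fun s => θ * |g s| ^ (2 * q) + C₁ * Γ s ^ q) σ := by
          gcongr
          refine M_mono U σ fun s => ?_
          rw [abs_rpow_two_mul]
          exact young_eps hq hθ0 (sq_nonneg _) (hΓ0 s)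
      _ = _ := by
          rw [T_add, T_mul, T_mul, ← hN, ← hB, hθ]
          field_simp
          ring
  -- mean term
  set u := max (4 * m₂) ((N / 80) ^ q⁻¹) with hu
  have hu0 : 0 < u := lt_max_of_lt_right (by positivity)
  have huq : u ^ q ≤ 4 ^ q * B + N / 80 := by
    have e1 : (4 * m₂) ^ q ≤ 4 ^ q * B := by
      rw [Real.mul_rpow (by norm_num) hm0]; gcongr
    have e2 : ((N / 80) ^ q⁻¹) ^ q = N / 80 := Real.rpow_inv_rpow (by positivity) (by linarith)
    rcases max_choice (4 * m₂) ((N / 80) ^ q⁻¹) with h | h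
    · rw [hu, h]; linarith
    · rw [hu, h, e2]
      have : 0 ≤ 4 ^ q * B := by positivity
      linarith
  set n := Real.sqrt N with hn
  have hn0 : 0 < n := Real.sqrt_pos.2 h0
  have hn2 : n ^ 2 = N := Real.sq_sqrt hN0
  have hmean : T (1 / 2) U G σ ≤ u ^ (q / 2) + n / 2 := by
    calc _ ≤ T (1 / 2) U (fun s => u ^ (q / 2)
          + ((4 * n)⁻¹ * |g s| ^ (2 * q) + (n / u) * g s ^ 2)) σ := by
          refine M_mono U σ fun s => ?_
          have e0 : 0 ≤ (4 * n)⁻¹ * |g s| ^ (2 * q) := by positivity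
          have e0' : 0 ≤ (n / u) * g s ^ 2 := by positivity
          have e0'' : 0 ≤ u ^ (q / 2) := by positivity
          rcases le_total (g s ^ 2) u with h | h
          · have : G s ≤ u ^ (q / 2) := by
              have e : G s = (g s ^ 2) ^ (q / 2) := by
                rw [← abs_rpow_two_mul]; simp only [hG]; congr 1; ring
              rw [e]
              exact Real.rpow_le_rpow (sq_nonneg _) h (by linarith)
            linarith
          · have e1 : n ≤ (n / u) * g s ^ 2 := by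
              rw [div_mul_eq_mul_div, le_div_iff₀ hu0]; gcongr
            have e2 : G s ≤ (4 * n)⁻¹ * G s ^ 2 + n := by
              have : (4 * n)⁻¹ * G s ^ 2 + n - G s = (4 * n)⁻¹ * (G s - 2 * n) ^ 2 := by
                field_simp; ring
              have e3 : 0 ≤ (4 * n)⁻¹ * (G s - 2 * n) ^ 2 := by positivity
              linarith
            rw [hG2] at e2
            linarith
      _ = u ^ (q / 2) + ((4 * n)⁻¹ * N + (n / u) * m₂) := by
          rw [T_add, T_add, T_const, T_mul, T_mul]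
      _ ≤ _ := by
          have e1 : (4 * n)⁻¹ * N = n / 4 := by rw [← hn2]; field_simp
          have e2 : (n / u) * m₂ ≤ n / 4 := by
            rw [div_mul_eq_mul_div, div_le_div_iff₀ hu0 (by norm_num)]
            have : 4 * m₂ ≤ u := le_max_left _ _
            nlinarith
          linarith
  have hsq : (u ^ (q / 2)) ^ 2 = u ^ q := by
    rw [← Real.rpow_natCast, ← Real.rpow_mul hu0.le]; congr 1; push_cast; ring
  have hTG0 : 0 ≤ T (1 / 2) U G σ := M_nonneg U σ hG0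
  have hmean2 : T (1 / 2) U G σ ^ 2 ≤ 5 * u ^ q + 5 / 16 * N := by
    calc _ ≤ (u ^ (q / 2) + n / 2) ^ 2 := pow_le_pow_left₀ hTG0 hmean 2
      _ ≤ _ := by rw [← hsq, ← hn2]; nlinarith [sq_nonneg (2 * u ^ (q / 2) - n / 4)]
  nlinarith

section Lin

variable {α : Type*} [DecidableEq α]

/-- The sign attached to the coordinate `v`. -/
def sg (σ : Finset α) (v : α) : ℝ := if v ∈ σ then -1 else 1

theorem sg_sq (σ : Finset α) (v : α) : sg σ v ^ 2 = 1 := by
  unfold sg; split_ifs <;> norm_num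

theorem abs_sg (σ : Finset α) (v : α) : |sg σ v| = 1 := by
  unfold sg; split_ifs <;> norm_num

theorem sg_symmDiff (σ τ : Finset α) (v : α) : sg (σ ∆ τ) v = sg σ v * sg τ v := by
  unfold sg
  by_cases h1 : v ∈ σ <;> by_cases h2 : v ∈ τ <;> simp [Finset.mem_symmDiff, h1, h2]

theorem sg_flip (σ : Finset α) (v : α) : sg (σ ∆ {v}) v = - sg σ v := by
  rw [sg_symmDiff]; simp [sg]

theorem inv_sg {v w : α} (h : v ≠ w) : Inv v (fun σ => sg σ w) := fun σ => by
  simp only [sg_symmDiff]; simp [sg, h.symm]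

/-- A Rademacher sum. -/
def lin (U : Finset α) (y : α → ℝ) (σ : Finset α) : ℝ := ∑ v ∈ U, sg σ v * y v

theorem D_lin {U : Finset α} {v : α} (hv : v ∈ U) (y : α → ℝ) (σ : Finset α) :
    D v (lin U y) σ = sg σ v * y v := by
  simp only [D, lin, smul_eq_mul, ← Finset.sum_sub_distrib]
  rw [Finset.sum_eq_single v]
  · rw [sg_flip]; ring
  · intro w _ hw
    have := inv_sg hw.symm σ
    simp only at this
    rw [this, sub_self]
  · exact fun h => absurd hv h

theorem M_lin {U V : Finset α} (hUV : U ⊆ V) (y : α → ℝ) (σ : Finset α) :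
    T (1 / 2) V (lin U y) σ = 0 := by
  unfold lin
  rw [T_sum]
  refine Finset.sum_eq_zero fun v hv => ?_
  have := M_shift (Finset.singleton_subset_iff.2 (hUV hv)) (fun s => sg s v * y v) σ
  simp only [sg_flip, neg_mul] at this
  have h2 := T_mul (1 / 2) V (-1) (fun s => sg s v * y v) σ
  simp only [neg_mul, one_mul] at h2
  linarith

theorem M_lin_sq (U : Finset α) (y : α → ℝ) (σ : Finset α) :
    T (1 / 2) U (fun s => lin U y s ^ 2) σ = ∑ v ∈ U, y v ^ 2 := by
  induction U using Finset.induction_on generalizing σ with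
  | empty => simp [T_empty, lin]
  | insert w U hw ih =>
    have : ∀ ρ, T (1 / 2) U (fun s => lin (insert w U) y s ^ 2) ρ = y w ^ 2 + ∑ v ∈ U, y v ^ 2 := by
      intro ρ
      have e : (fun s => lin (insert w U) y s ^ 2)
          = fun s => y w ^ 2 + ((2 * y w * sg s w) * lin U y s + lin U y s ^ 2) := by
        funext s
        simp only [lin, Finset.sum_insert hw]
        have := sg_sq s w
        nlinarith
      rw [e, T_add, T_add, T_const, ih, T_mul_inv, M_lin (Finset.Subset.refl U)]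
      · ring
      · intro v hv s
        have : v ≠ w := fun h => hw (h ▸ hv)
        have := inv_sg this s
        simp only at this ⊢
        rw [this]
    rw [T_insert _ hw, this, this, Finset.sum_insert hw]
    simp only [smul_eq_mul]; ring

end Lin

/-- Khintchine's inequality. -/
theorem khintchine {q : ℝ} (hq : 1 ≤ q) : ∃ C : ℝ, 1 ≤ C ∧
    ∀ {α : Type} [DecidableEq α] (U : Finset α) (y : α → ℝ) (σ : Finset α),
      T (1 / 2) U (fun s => |lin U y s| ^ (2 * q)) σ ≤ C * (∑ v ∈ U, y v ^ 2) ^ q := by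
  obtain ⟨C, hC, h⟩ := lp_poincare hq
  refine ⟨C, hC, fun U y σ => ?_⟩
  have h1 := h U (lin U y) σ
  simp only [M_lin (Finset.Subset.refl U), sub_zero] at h1
  refine h1.trans (le_of_eq ?_)
  congr 1
  rw [← T_const (1 / 2) U ((∑ v ∈ U, y v ^ 2) ^ q) σ]
  congr 1; funext s; congr 1
  exact Finset.sum_congr rfl fun v hv => by rw [D_lin hv, mul_pow, sg_sq, one_mul]

/-- Rosenthal's inequality for positive selectors. -/
theorem rosenthal {q : ℝ} (hq : 1 ≤ q) : ∃ C : ℝ, 1 ≤ C ∧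
    ∀ {α : Type} [DecidableEq α] (β : ℝ), 0 ≤ β → β ≤ 1 → ∀ (U : Finset α) (y : α → ℝ),
      (∀ j, 0 ≤ y j) →
      T β U (fun A => (∑ j ∈ U, if j ∈ A then y j else 0) ^ q) ∅
        ≤ C * ((β * ∑ j ∈ U, y j) ^ q + β * ∑ j ∈ U, y j ^ q) := by
  set c : ℝ := 2 ^ (q - 1) with hc
  have hc1 : 1 ≤ c := Real.one_le_rpow (by norm_num) (by linarith)
  set θ : ℝ := 1 / (2 * c) with hθ
  have hθ0 : 0 < θ := by positivity
  set C₁ : ℝ := θ⁻¹ ^ (q - 1) with hC₁
  have hC₁1 : 1 ≤ C₁ := Real.one_le_rpow (by rw [hθ, one_div, inv_inv]; linarith) (by linarith)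
  refine ⟨2 * c * C₁, by nlinarith, ?_⟩
  intro α _ β h0 h1 U y hy
  set Z : Finset α → ℝ := fun A => ∑ j ∈ U, if j ∈ A then y j else 0 with hZ
  have hZ0 : ∀ A, 0 ≤ Z A := fun A => Finset.sum_nonneg fun j _ => by
    split_ifs
    · exact hy j
    · exact le_rfl
  have e1 : ∀ A, Z A ^ q = ∑ j ∈ U, if j ∈ A then y j * Z A ^ (q - 1) else 0 := by
    intro A
    have : Z A ^ q = Z A * Z A ^ (q - 1) := by
      rw [mul_comm, ← Real.rpow_add_one' (hZ0 A) (by linarith)]; congr 1; ring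
    rw [this]
    conv_lhs => rw [hZ]
    simp only [Finset.sum_mul]
    exact Finset.sum_congr rfl fun j _ => by split_ifs <;> simp [hZ]
  set P := T β U (fun A => Z A ^ (q - 1)) ∅ with hP
  have e2 : ∀ j ∈ U, T β U (fun A => if j ∈ A then y j * Z A ^ (q - 1) else 0) ∅
      ≤ β * (c * (y j ^ q + y j * P)) := by
    intro j hj
    have hU : U = insert j (U.erase j) := (Finset.insert_erase hj).symm
    have hj' := Finset.notMem_erase j U
    have hZs : ∀ τ ⊆ U.erase j, Z ((∅ ∆ {j}) ∆ τ) = y j + Z (∅ ∆ τ) := by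
      intro τ hτ
      have hjτ : j ∉ τ := fun h => hj' (hτ h)
      simp only [hZ, empty_symmDiff']
      rw [← Finset.add_sum_erase U _ hj, ← Finset.add_sum_erase U (fun i => if i ∈ τ then y i else 0) hj]
      simp only [Finset.mem_symmDiff, Finset.mem_singleton, hjτ, not_false_eq_true, and_self,
        true_or, if_true, if_false, zero_add]
      congr 1
      refine Finset.sum_congr rfl fun i hi => ?_
      have : i ≠ j := Finset.ne_of_mem_erase hi
      simp [this]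
    have e3 : T β (U.erase j) (fun A => Z A ^ (q - 1)) ∅ ≤ P := by
      have : T β (U.erase j) (fun A => Z A ^ (q - 1)) ∅
          ≤ T β (U.erase j) (fun A => Z A ^ (q - 1)) (∅ ∆ {j}) := by
        refine Finset.sum_le_sum fun τ hτ => mul_le_mul_of_nonneg_left ?_ (wt_nonneg h0 h1 _ _)
        beta_reduce
        rw [hZs τ (Finset.mem_powerset.1 hτ)]
        exact Real.rpow_le_rpow (hZ0 _) (by linarith [hy j]) (by linarith)
      have e := T_insert β hj' (fun A => Z A ^ (q - 1)) ∅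
      rw [← hU, ← hP] at e
      simp only [smul_eq_mul] at e
      nlinarith
    have e := T_insert β hj' (fun A => if j ∈ A then y j * Z A ^ (q - 1) else 0) ∅
    rw [← hU] at e
    rw [e]
    have e4 : T β (U.erase j) (fun A => if j ∈ A then y j * Z A ^ (q - 1) else 0) ∅ = 0 := by
      refine (T_congr β _ (k := fun _ => (0 : ℝ)) fun τ hτ => ?_).trans (T_const _ _ _ _)
      have hjτ : j ∉ τ := fun h => hj' (hτ h)
      simp [hjτ]
    have e5 : T β (U.erase j) (fun A => if j ∈ A then y j * Z A ^ (q - 1) else 0) (∅ ∆ {j})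
        ≤ T β (U.erase j) (fun A => c * (y j ^ q + y j * Z A ^ (q - 1))) ∅ := by
      refine Finset.sum_le_sum fun τ hτ => mul_le_mul_of_nonneg_left ?_ (wt_nonneg h0 h1 _ _)
      have hjτ : j ∉ τ := fun h => hj' (Finset.mem_powerset.1 hτ h)
      have : j ∈ (∅ ∆ {j}) ∆ τ := by simp [Finset.mem_symmDiff, hjτ]
      beta_reduce
      rw [if_pos this, hZs τ (Finset.mem_powerset.1 hτ)]
      have e6 := add_rpow_le (r := q - 1) (by linarith) (hy j) (hZ0 (∅ ∆ τ))
      have e7 : y j ^ q = y j * y j ^ (q - 1) := by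
        rw [mul_comm, ← Real.rpow_add_one' (hy j) (by linarith)]; congr 1; ring
      rw [e7]
      nlinarith [mul_le_mul_of_nonneg_left e6 (hy j)]
    rw [T_mul, T_add, T_const, T_mul] at e5
    rw [e4]
    simp only [smul_eq_mul, mul_zero, zero_add]
    refine mul_le_mul_of_nonneg_left (e5.trans ?_) h0
    have := hy j
    gcongr
  set N := T β U (fun A => Z A ^ q) ∅ with hN
  have e8 : N ≤ c * (β * ∑ j ∈ U, y j ^ q + (β * ∑ j ∈ U, y j) * P) := by
    rw [hN]
    simp only [e1]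
    rw [T_sum]
    refine (Finset.sum_le_sum e2).trans (le_of_eq ?_)
    simp only [Finset.mul_sum, Finset.sum_mul, ← Finset.sum_add_distrib]
    exact Finset.sum_congr rfl fun j _ => by ring
  set b := β * ∑ j ∈ U, y j with hb
  have hb0 : 0 ≤ b := mul_nonneg h0 (Finset.sum_nonneg fun j _ => hy j)
  have e9 : b * P ≤ θ * N + C₁ * b ^ q := by
    rw [hP, ← T_mul, hN, ← T_mul, ← T_const β U (C₁ * b ^ q) ∅, ← T_add]
    refine T_mono h0 h1 U ∅ fun A => ?_
    rw [mul_comm b]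
    exact young_eps hq hθ0 (hZ0 A) hb0
  have hS0 : 0 ≤ β * ∑ j ∈ U, y j ^ q :=
    mul_nonneg h0 (Finset.sum_nonneg fun j _ => Real.rpow_nonneg (hy j) _)
  have e10 : c * θ = 1 / 2 := by rw [hθ]; field_simp
  have e11 : c * (b * P) ≤ N / 2 + c * C₁ * b ^ q := by
    have := mul_le_mul_of_nonneg_left e9 (by linarith : 0 ≤ c)
    calc _ ≤ c * (θ * N + C₁ * b ^ q) := this
      _ = (c * θ) * N + c * C₁ * b ^ q := by ring
      _ = _ := by rw [e10]; ring
  have e12 : c * (β * ∑ j ∈ U, y j ^ q) ≤ c * C₁ * (β * ∑ j ∈ U, y j ^ q) := by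
    have : c ≤ c * C₁ := by nlinarith
    gcongr
  nlinarith

end Pool.Agent.MP_fc1aea_an

end

-- part MP_fc1aea_an.Mart
section

namespace Pool.Agent.MP_fc1aea_an

open Finset

/-- `f` is constant on the classes of `R`. -/
def Ms {Ω : Type*} (R : Ω → Ω → Prop) (f : Ω → ℝ) : Prop := ∀ x y, R x y → f x = f y

/-- A positive linear functional (the expectation) together with a filtration. -/
structure Filt (Ω : Type*) where
  I : (Ω → ℝ) →ₗ[ℝ] ℝ
  pos : ∀ f : Ω → ℝ, (∀ x, 0 ≤ f x) → 0 ≤ I f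
  R : ℕ → Ω → Ω → Prop
  mono : ∀ k x y, R (k + 1) x y → R k x y

/-- `d 0, ..., d (n-1)` is a martingale difference sequence. -/
structure Filt.MD {Ω : Type*} (F : Filt Ω) (n : ℕ) (d : ℕ → Ω → ℝ) : Prop where
  meas : ∀ k < n, Ms (F.R (k + 1)) (d k)
  orth : ∀ k < n, ∀ φ : Ω → ℝ, Ms (F.R k) φ → F.I (fun x => φ x * d k x) = 0

section MartAux

variable {Ω : Type*}

theorem mart_mono (F : Filt Ω) {f g : Ω → ℝ} (h : ∀ x, f x ≤ g x) : F.I f ≤ F.I g := by
  have := F.pos (g - f) fun x => sub_nonneg.2 (h x)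
  rw [map_sub] at this
  linarith

theorem mart_add (F : Filt Ω) (f g : Ω → ℝ) : F.I (fun x => f x + g x) = F.I f + F.I g :=
  map_add F.I f g

theorem mart_mul (F : Filt Ω) (c : ℝ) (f : Ω → ℝ) : F.I (fun x => c * f x) = c * F.I f :=
  map_smul F.I c f

theorem mart_sum (F : Filt Ω) (n : ℕ) (f : ℕ → Ω → ℝ) :
    F.I (fun x => ∑ k ∈ range n, f k x) = ∑ k ∈ range n, F.I (f k) := by
  rw [← map_sum]; congr 1; funext x; rw [Finset.sum_apply]

theorem mart_le (F : Filt Ω) {k l : ℕ} (h : k ≤ l) {f : Ω → ℝ} (hf : Ms (F.R k) f) :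
    Ms (F.R l) f := by
  induction l, h using Nat.le_induction with
  | base => exact hf
  | succ l _ ih => exact fun x y hxy => ih x y (F.mono l x y hxy)

theorem mart_msum {R : Ω → Ω → Prop} {m : ℕ} {a : ℕ → Ω → ℝ} (h : ∀ i < m, Ms R (a i)) :
    Ms R (fun x => ∑ i ∈ range m, a i x) :=
  fun x y hxy => Finset.sum_congr rfl fun i hi => h i (Finset.mem_range.1 hi) x y hxy

theorem mart_M {F : Filt Ω} {n : ℕ} {d : ℕ → Ω → ℝ} (h : F.MD n d) {k : ℕ} (hk : k ≤ n) :
    Ms (F.R k) (fun x => ∑ i ∈ range k, d i x) :=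
  mart_msum fun i hi => mart_le F hi (h.meas i (by omega))

theorem mart_tele {r : ℝ} (hr : 1 ≤ r) (a : ℕ → ℝ) (n : ℕ) (h : ∀ k < n, 0 ≤ a k) :
    (∑ k ∈ range n, a k) ^ r ≤
      r * ∑ k ∈ range n, (∑ i ∈ range (k + 1), a i) ^ (r - 1) * a k := by
  induction n with
  | zero => simp [Real.zero_rpow (show r ≠ 0 by linarith)]
  | succ n ih =>
    have h1 := ih fun k hk => h k (by omega)
    have h2 := rpow_tangent hr (a := ∑ k ∈ range (n + 1), a k) (b := ∑ k ∈ range n, a k)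
      (sum_nonneg fun k hk => h k (mem_range.1 hk))
      (sum_nonneg fun k hk => h k (by have := mem_range.1 hk; omega))
    rw [sum_range_succ (fun k => (∑ i ∈ range (k + 1), a i) ^ (r - 1) * a k)]
    have h3 : ∑ k ∈ range n, a k - ∑ k ∈ range (n + 1), a k = -a n := by
      rw [sum_range_succ]; ring
    rw [h3] at h2
    linarith

theorem mart_part {a : ℕ → ℝ} {k n : ℕ} (hk : k ≤ n) (h : ∀ i < n, 0 ≤ a i) :
    ∑ i ∈ range k, a i ≤ ∑ i ∈ range n, a i :=
  sum_le_sum_of_subset_of_nonneg (range_mono hk) fun i hi _ => h i (mem_range.1 hi)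

/-- derivative of `|a| ^ s / s` -/
noncomputable def mart_ps (s a : ℝ) : ℝ := if 0 ≤ a then |a| ^ (s - 1) else -|a| ^ (s - 1)

theorem mart_tan {s : ℝ} (hs : 1 ≤ s) (a b : ℝ) : |a| ^ s + s * (mart_ps s a * (b - a)) ≤ |b| ^ s := by
  have h1 := rpow_tangent hs (abs_nonneg a) (abs_nonneg b)
  have h2 : 0 ≤ s * |a| ^ (s - 1) := by positivity
  refine le_trans ?_ h1
  unfold mart_ps
  split_ifs with h
  · have := mul_le_mul_of_nonneg_left (show b - a ≤ |b| - |a| by
      rw [abs_of_nonneg h]; linarith [le_abs_self b]) h2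
    linarith
  · have := mul_le_mul_of_nonneg_left (show -(b - a) ≤ |b| - |a| by
      rw [abs_of_neg (not_le.1 h)]; linarith [neg_abs_le b]) h2
    linarith

theorem mart_lip0 {q x y m : ℝ} (hq : 1 ≤ q) (hx : 0 ≤ x) (hy : 0 ≤ y) (hxm : x ≤ m) (hym : y ≤ m) :
    |x ^ q - y ^ q| ≤ q * m ^ (q - 1) * |x - y| ∧ x ^ q + y ^ q ≤ q * m ^ (q - 1) * (x + y) := by
  have hm : 0 ≤ m ^ (q - 1) := Real.rpow_nonneg (hx.trans hxm) _
  have key : ∀ {x y : ℝ}, 0 ≤ x → 0 ≤ y → x ≤ m → x ^ q - y ^ q ≤ q * m ^ (q - 1) * |x - y| := by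
    intro x y hx hy hxm
    have h1 := rpow_tangent hq hx hy
    have h2 : x ^ (q - 1) ≤ m ^ (q - 1) := Real.rpow_le_rpow hx hxm (by linarith)
    have h3 : q * x ^ (q - 1) * (x - y) ≤ q * x ^ (q - 1) * |x - y| :=
      mul_le_mul_of_nonneg_left (le_abs_self _) (by positivity)
    have h4 : q * x ^ (q - 1) * |x - y| ≤ q * m ^ (q - 1) * |x - y| := by gcongr
    linarith
  have k2 : ∀ {x : ℝ}, 0 ≤ x → x ≤ m → x ^ q ≤ q * m ^ (q - 1) * x := by
    intro x hx hxm
    have := key hx le_rfl hxm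
    rwa [Real.zero_rpow (by linarith), sub_zero, sub_zero, abs_of_nonneg hx] at this
  refine ⟨abs_le.2 ⟨?_, key hx hy hxm⟩, by linarith [k2 hx hxm, k2 hy hym]⟩
  have := key hy hx hym
  rw [abs_sub_comm] at this
  linarith

theorem mart_lip {s a b m : ℝ} (hs : 2 ≤ s) (ha : |a| ≤ m) (hb : |b| ≤ m) :
    |mart_ps s b - mart_ps s a| ≤ (s - 1) * m ^ (s - 1 - 1) * |b - a| := by
  obtain ⟨h1, h2⟩ := mart_lip0 (q := s - 1) (by linarith) (abs_nonneg b) (abs_nonneg a) hb ha
  have p1 : 0 ≤ |a| ^ (s - 1) := by positivity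
  have p2 : 0 ≤ |b| ^ (s - 1) := by positivity
  unfold mart_ps
  split_ifs with k1 k2 k2
  · rwa [show |(|b| - |a|)| = |b - a| by rw [abs_of_nonneg k1, abs_of_nonneg k2]] at h1
  · rw [sub_neg_eq_add, abs_of_nonneg (by positivity)]
    rwa [show |b| + |a| = |b - a| by
      rw [abs_of_nonneg k1, abs_of_neg (not_le.1 k2), abs_of_nonneg (by linarith)]; ring] at h2
  · rw [← neg_add', abs_neg, abs_of_nonneg (by positivity)]
    rwa [show |b| + |a| = |b - a| by
      rw [abs_of_nonneg k2, abs_of_neg (not_le.1 k1), abs_of_nonpos (by linarith)]; ring] at h2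
  · rw [neg_sub_neg, abs_sub_comm]
    rwa [show |(|b| - |a|)| = |b - a| by
      rw [abs_of_neg (not_le.1 k1), abs_of_neg (not_le.1 k2), neg_sub_neg, abs_sub_comm]] at h1

theorem mart_up {s : ℝ} (hs : 2 ≤ s) (a d : ℝ) : |a + d| ^ s ≤ |a| ^ s + s * (mart_ps s a * d) +
    s * (s - 1) * 2 ^ (s - 1 - 1) * (|a| ^ (s - 1 - 1) * d ^ 2 + |d| ^ s) := by
  have h1 := mart_tan (s := s) (by linarith) (a + d) a
  have h2 := mart_lip (a := a) (b := a + d) (m := |a| + |d|) hs (by linarith [abs_nonneg d])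
    (abs_add_le a d)
  rw [add_sub_cancel_left] at h2
  have h3 := add_rpow_le (r := s - 1 - 1) (by linarith) (abs_nonneg a) (abs_nonneg d)
  have h4 : |d| ^ s = |d| ^ (s - 1 - 1) * d ^ 2 := by
    rw [← sq_abs, ← Real.rpow_natCast, ← Real.rpow_add' (abs_nonneg d) (by push_cast; linarith)]
    congr 1; push_cast; ring
  have h5 : (mart_ps s (a + d) - mart_ps s a) * d ≤ (s - 1) * (|a| + |d|) ^ (s - 1 - 1) * d ^ 2 := by
    refine (le_abs_self _).trans ?_
    rw [abs_mul, ← sq_abs, sq, ← mul_assoc]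
    exact mul_le_mul_of_nonneg_right h2 (abs_nonneg d)
  have h6 : (s - 1) * (|a| + |d|) ^ (s - 1 - 1) * d ^ 2 ≤
      (s - 1) * (2 ^ (s - 1 - 1) * (|a| ^ (s - 1 - 1) + |d| ^ (s - 1 - 1))) * d ^ 2 :=
    mul_le_mul_of_nonneg_right (mul_le_mul_of_nonneg_left h3 (by linarith)) (sq_nonneg d)
  have h7 := mul_le_mul_of_nonneg_left (h5.trans h6) (show 0 ≤ s by linarith)
  rw [h4]
  linarith

theorem mart_low {r : ℝ} (hr : 1 ≤ r) (a d : ℝ) :
    |a| ^ (2 * r) + 2 * r * (mart_ps (2 * r) a * d) + 2 * 2⁻¹ ^ (2 * r) * |d| ^ (2 * r) ≤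
      |a + d| ^ (2 * r) := by
  have h1 := mart_tan (s := 2 * r) (by linarith) a (a + d / 2)
  have h2 := rpow_tangent hr (a := (a + d / 2) ^ 2 + (d / 2) ^ 2) (b := (a + d) ^ 2)
    (by positivity) (sq_nonneg _)
  have h3 := rpow_tangent hr (a := (a + d / 2) ^ 2 + (d / 2) ^ 2) (b := a ^ 2)
    (by positivity) (sq_nonneg _)
  have h4 := Real.add_rpow_le_rpow_add (sq_nonneg (a + d / 2)) (sq_nonneg (d / 2)) hr
  have h5 : ((d / 2) ^ 2) ^ r = 2⁻¹ ^ (2 * r) * |d| ^ (2 * r) := by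
    rw [← abs_rpow_two_mul, ← Real.mul_rpow (by norm_num) (abs_nonneg d), abs_div, abs_two]
    congr 1; ring
  rw [mul_assoc 2 (2⁻¹ ^ (2 * r)), ← h5]
  simp only [abs_rpow_two_mul] at h1 ⊢
  linarith

theorem mart_orth {F : Filt Ω} {n : ℕ} {d : ℕ → Ω → ℝ} (h : F.MD n d) {k l : ℕ} (hk : k ≤ l)
    (hl : l ≤ n) {φ : Ω → ℝ} (hφ : Ms (F.R k) φ) :
    F.I (fun x => φ x * (∑ i ∈ range l, d i x - ∑ i ∈ range k, d i x)) = 0 := by
  induction l, hk using Nat.le_induction with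
  | base => simp only [sub_self, mul_zero]; exact map_zero F.I
  | succ l hkl ih =>
    have h1 := mart_add F _ _ ▸ congrArg₂ (· + ·) (ih (by omega))
      (h.orth l (by omega) φ (mart_le F hkl hφ))
    rw [add_zero] at h1
    rw [← h1]
    congr 1; funext x; rw [sum_range_succ]; ring

theorem mart_orth2 {F : Filt Ω} {n : ℕ} {d : ℕ → Ω → ℝ} (h : F.MD n d) {k l : ℕ} (hk : k ≤ l)
    (hl : l ≤ n) {φ : Ω → ℝ} (hφ : Ms (F.R k) φ) :
    F.I (fun x => φ x * ((∑ i ∈ range l, d i x) ^ 2 - (∑ i ∈ range k, d i x) ^ 2 -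
      (∑ i ∈ range l, d i x ^ 2 - ∑ i ∈ range k, d i x ^ 2))) = 0 := by
  induction l, hk using Nat.le_induction with
  | base => simp only [sub_self, mul_zero]; exact map_zero F.I
  | succ l hkl ih =>
    have h1 := mart_add F _ _ ▸ congrArg₂ (· + ·) (ih (by omega))
      (h.orth l (by omega) (fun x => 2 * φ x * ∑ i ∈ range l, d i x) fun x y hxy => by
        have e := mart_M h (k := l) (by omega) x y hxy
        simp only at e ⊢
        rw [mart_le F hkl hφ x y hxy, e])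
    rw [add_zero] at h1
    rw [← h1]
    congr 1; funext x; rw [sum_range_succ, sum_range_succ]; ring

theorem mart_subm {F : Filt Ω} {n : ℕ} {d : ℕ → Ω → ℝ} (h : F.MD n d) {k : ℕ} (hk : k ≤ n)
    {s : ℝ} (hs : 1 ≤ s) {φ : Ω → ℝ} (h0 : ∀ x, 0 ≤ φ x) (hφ : Ms (F.R k) φ) :
    F.I (fun x => φ x * |∑ i ∈ range k, d i x| ^ s) ≤
      F.I (fun x => φ x * |∑ i ∈ range n, d i x| ^ s) := by
  have h1 := mart_orth h hk le_rfl (φ := fun x => φ x * s * mart_ps s (∑ i ∈ range k, d i x))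
    fun x y hxy => by
      have e := mart_M h hk x y hxy
      simp only at e ⊢
      rw [hφ x y hxy, e]
  rw [← add_zero (F.I _), ← h1, ← mart_add]
  refine mart_mono F fun x => ?_
  have := mul_le_mul_of_nonneg_left
    (mart_tan hs (∑ i ∈ range k, d i x) (∑ i ∈ range n, d i x)) (h0 x)
  linarith

theorem mart_ps_orth {F : Filt Ω} {n : ℕ} {d : ℕ → Ω → ℝ} (h : F.MD n d) {k : ℕ} (hk : k < n)
    (s : ℝ) : F.I (fun x => mart_ps s (∑ i ∈ range k, d i x) * d k x) = 0 :=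
  h.orth k hk _ fun x y hxy => by
    have e := mart_M h hk.le x y hxy
    simp only at e ⊢
    rw [e]

theorem mart_sqrt (a : ℕ → ℝ) (n : ℕ) (h : ∀ k < n, 0 ≤ a k) :
    ∑ k ∈ range n, a k / √(∑ i ∈ range (k + 1), a i) ≤ 2 * √(∑ i ∈ range n, a i) := by
  induction n with
  | zero => simp
  | succ n ih =>
    have h1 := ih fun k hk => h k (by omega)
    rw [sum_range_succ]
    have h2 : 0 ≤ ∑ i ∈ range n, a i := sum_nonneg fun k hk => h k (by have := mem_range.1 hk; omega)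
    have h3 := h n (by omega)
    set u := √(∑ i ∈ range n, a i) with hu
    set w := √(∑ i ∈ range (n + 1), a i) with hw
    have hu2 : u ^ 2 = ∑ i ∈ range n, a i := Real.sq_sqrt h2
    have hw2 : w ^ 2 = u ^ 2 + a n := by
      rw [hw, sum_range_succ, Real.sq_sqrt (by linarith), hu2]
    have huw : u ≤ w := Real.sqrt_le_sqrt (by rw [sum_range_succ]; linarith)
    have hu0 : 0 ≤ u := Real.sqrt_nonneg _
    have h4 : a n / w ≤ 2 * (w - u) := by
      rcases (hu0.trans huw).eq_or_lt with h0 | h0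
      · rw [← h0, div_zero]; linarith
      · rw [div_le_iff₀ h0]; nlinarith
    linarith

theorem mart_abel (G a : ℕ → ℝ) (n : ℕ) : ∑ k ∈ range n, (G (k + 1) - G 0) * a k =
    ∑ j ∈ range n, (G (j + 1) - G j) * (∑ i ∈ range n, a i - ∑ i ∈ range j, a i) := by
  induction n with
  | zero => simp
  | succ n ih =>
    rw [sum_range_succ, ih, sum_range_succ (fun j => (G (j + 1) - G j) * _), sum_range_succ a,
      ← Finset.sum_range_sub G, sum_range_succ, add_mul, Finset.sum_mul, ← add_assoc,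
      ← Finset.sum_add_distrib]
    congr 1
    · exact sum_congr rfl fun j _ => by ring
    · ring

theorem mart_cotype {r : ℝ} (hr : 1 ≤ r) {F : Filt Ω} {n : ℕ} {d : ℕ → Ω → ℝ} (h : F.MD n d)
    {k : ℕ} (hk : k ≤ n) : 2 * 2⁻¹ ^ (2 * r) * ∑ j ∈ range k, F.I (fun x => |d j x| ^ (2 * r)) ≤
      F.I (fun x => |∑ j ∈ range k, d j x| ^ (2 * r)) := by
  induction k with
  | zero => simpa using F.pos _ fun x => by positivity
  | succ k ih =>
    have h1 := mart_mono F fun x => mart_low hr (∑ j ∈ range k, d j x) (d k x)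
    rw [mart_add, mart_add, mart_mul, mart_mul, mart_ps_orth h (by omega)] at h1
    simp only [sum_range_succ]
    linarith [ih (by omega)]

end MartAux

/-
TASK Mart.  Three martingale inequalities for an abstract expectation (no measure theory at all).
Useful: young_eps, rpow_tangent, add_rpow_le, abs_add_rpow_le, abs_rpow_two_mul in Ineq.lean.

dual_doob: A k = sum_{i<=k} a i is R k-measurable and increasing; b^r - a^r <= r b^(r-1) (b-a)
(rpow_tangent), so I(A^r) <= r sum_k I(A_k^(r-1) a_k) <= r sum_k I(A_k^(r-1) phi_k) <= r I(A^(r-1) Phi),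
then young_eps with theta = 1/(2r).
-/
theorem dual_doob {r : ℝ} (hr : 1 ≤ r) : ∃ C : ℝ, 1 ≤ C ∧
    ∀ {Ω : Type} (F : Filt Ω) (n : ℕ) (a φ : ℕ → Ω → ℝ),
      (∀ k < n, ∀ x, 0 ≤ a k x) → (∀ k < n, ∀ x, 0 ≤ φ k x) → (∀ k < n, Ms (F.R k) (a k)) →
      (∀ k < n, ∀ ψ : Ω → ℝ, (∀ x, 0 ≤ ψ x) → Ms (F.R k) ψ →
        F.I (fun x => ψ x * a k x) ≤ F.I (fun x => ψ x * φ k x)) →
      F.I (fun x => (∑ k ∈ range n, a k x) ^ r)
        ≤ C * F.I (fun x => (∑ k ∈ range n, φ k x) ^ r) := by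
  have hθ : 0 < (2 * r)⁻¹ := by positivity
  have hC : 1 ≤ (2 * r)⁻¹⁻¹ ^ (r - 1) := Real.one_le_rpow (by rw [inv_inv]; linarith) (by linarith)
  refine ⟨2 * r * (2 * r)⁻¹⁻¹ ^ (r - 1), by nlinarith, ?_⟩
  intro Ω F n a φ ha hφ hm h
  have h1 := mart_mono F fun x => mart_tele hr (fun k => a k x) n fun k hk => ha k hk x
  rw [mart_mul, mart_sum] at h1
  have h2 : ∑ k ∈ range n, F.I (fun x => (∑ i ∈ range (k + 1), a i x) ^ (r - 1) * a k x) ≤
      ∑ k ∈ range n, F.I (fun x => (∑ i ∈ range n, a i x) ^ (r - 1) * φ k x) := by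
    refine sum_le_sum fun k hk => ?_
    have hk' := mem_range.1 hk
    have h0 : ∀ x, 0 ≤ ∑ i ∈ range (k + 1), a i x := fun x =>
      sum_nonneg fun i hi => ha i (by have := mem_range.1 hi; omega) x
    refine (h k hk' _ (fun x => Real.rpow_nonneg (h0 x) _) fun x y hxy => ?_).trans
      (mart_mono F fun x => mul_le_mul_of_nonneg_right (Real.rpow_le_rpow (h0 x)
        (mart_part hk' fun i hi => ha i hi x) (by linarith)) (hφ k hk' x))
    have e := mart_msum (m := k + 1) (fun i hi => mart_le F (show i ≤ k by omega)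
      (hm i (by omega))) x y hxy
    simp only at e ⊢
    rw [e]
  rw [← mart_sum F n fun k x => (∑ i ∈ range n, a i x) ^ (r - 1) * φ k x] at h2
  have h3 := mart_mono F fun x => (le_of_eq (Finset.mul_sum _ _ _).symm).trans
    (young_eps hr hθ (x := ∑ i ∈ range n, a i x) (y := ∑ i ∈ range n, φ i x)
      (sum_nonneg fun i hi => ha i (mem_range.1 hi) x)
      (sum_nonneg fun i hi => hφ i (mem_range.1 hi) x))
  rw [mart_add, mart_mul, mart_mul] at h3
  have h4 := h1.trans (mul_le_mul_of_nonneg_left (h2.trans h3) (by linarith))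
  have e : r * (2 * r)⁻¹ = 1 / 2 := by field_simp
  rw [mul_add, ← mul_assoc, e] at h4
  linarith

/-
bdg (p = 2r):  M k = sum_{i<k} d i is R k-measurable.  Pointwise
 |a+d|^p <= |a|^p + p |a|^(p-2) a d + C (|a|^(p-2) d^2 + |d|^p)
 (e.g. write |a+d|^p = (a^2 + t)^r with t = 2ad + d^2, and use twice the tangent inequality; or
  Taylor / monotonicity of the derivative; any constant C(r) is fine).
So I|M n|^p <= C sum_k I(|M k|^(p-2) v k) + C sum_k I|d k|^p.  No Doob inequality is needed: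
with W k = sum_{i<=k} v i (R k-measurable), s = lam * sqrt (W k):
 |a|^(p-2) <= s^(p-2) + |a|^(p-1)/s, sum_k W_k^(r-1) v_k <= W^r, sum_k v_k / sqrt W_k <= 2 sqrt W,
 and I(psi |M k|^(p-1)) <= I(psi |M n|^(p-1)) for psi >= 0 R k-measurable (tangent inequality for
 |x|^(p-1) plus orthogonality); finally |M|^(p-1) sqrt W <= |M|^p + W^r and lam large.
 (If v k x = 0 the term vanishes; otherwise W k x > 0.)
-/
theorem bdg {r : ℝ} (hr : 1 ≤ r) : ∃ C : ℝ, 1 ≤ C ∧
    ∀ {Ω : Type} (F : Filt Ω) (n : ℕ) (d v : ℕ → Ω → ℝ), F.MD n d →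
      (∀ k < n, ∀ x, 0 ≤ v k x) → (∀ k < n, Ms (F.R k) (v k)) →
      (∀ k < n, ∀ ψ : Ω → ℝ, (∀ x, 0 ≤ ψ x) → Ms (F.R k) ψ →
        F.I (fun x => ψ x * d k x ^ 2) ≤ F.I (fun x => ψ x * v k x)) →
      F.I (fun x => |∑ k ∈ range n, d k x| ^ (2 * r))
        ≤ C * (F.I (fun x => (∑ k ∈ range n, v k x) ^ r)
          + ∑ k ∈ range n, F.I (fun x => |d k x| ^ (2 * r))) := by
  obtain ⟨K, hK⟩ : ∃ K, K = 2 * r * (2 * r - 1) * 2 ^ (2 * r - 1 - 1) := ⟨_, rfl⟩
  have hK1 : 1 ≤ K := by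
    have : (1 : ℝ) ≤ 2 ^ (2 * r - 1 - 1) := Real.one_le_rpow one_le_two (by linarith)
    have h2 : 1 ≤ 2 * r * (2 * r - 1) := by nlinarith
    rw [hK]; nlinarith
  obtain ⟨L, hL⟩ : ∃ L, L = (4 * K) ^ (2 * r - 1 - 1) := ⟨_, rfl⟩
  have hL1 : 1 ≤ L := hL ▸ Real.one_le_rpow (by linarith) (by linarith)
  refine ⟨2 * K * L + 1, by nlinarith, ?_⟩
  intro Ω F n d v hd hv hm h
  have hW : ∀ k ≤ n, ∀ x, 0 ≤ ∑ i ∈ range k, v i x := fun k hk x =>
    sum_nonneg fun i hi => hv i (by have := mem_range.1 hi; omega) x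
  have h1 : ∀ k ≤ n, F.I (fun x => |∑ i ∈ range k, d i x| ^ (2 * r)) ≤
      K * (∑ j ∈ range k, F.I (fun x => |∑ i ∈ range j, d i x| ^ (2 * r - 1 - 1) * v j x) +
        ∑ j ∈ range k, F.I (fun x => |d j x| ^ (2 * r))) := by
    intro k hk
    induction k with
    | zero =>
      simp only [range_zero, sum_empty, abs_zero, Real.zero_rpow (show 2 * r ≠ 0 by linarith),
        add_zero, mul_zero]
      exact (map_zero F.I).le
    | succ k ih =>
      have a1 := mart_mono F fun x => mart_up (s := 2 * r) (by linarith)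
        (∑ j ∈ range k, d j x) (d k x)
      rw [mart_add, mart_add, mart_mul, mart_mul, mart_add, mart_ps_orth hd (by omega), ← hK] at a1
      have a2 := h k (by omega) (fun x => |∑ i ∈ range k, d i x| ^ (2 * r - 1 - 1))
        (fun x => by positivity) fun x y hxy => by
          have e := mart_M hd (k := k) (by omega) x y hxy
          simp only at e ⊢
          rw [e]
      simp only [sum_range_succ]
      linarith [ih (by omega), mul_le_mul_of_nonneg_left a2 (show 0 ≤ K by linarith)]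
  have h2 : ∑ j ∈ range n, F.I (fun x => |∑ i ∈ range j, d i x| ^ (2 * r - 1 - 1) * v j x) ≤
      ∑ j ∈ range n, F.I (fun x => L * ((∑ i ∈ range n, v i x) ^ (r - 1) * v j x) +
        (4 * K)⁻¹ * (v j x / √(∑ i ∈ range (j + 1), v i x) * |∑ i ∈ range n, d i x| ^ (2 * r - 1))) := by
    refine sum_le_sum fun j hj => ?_
    have hj' := mem_range.1 hj
    have a1 := mart_subm hd hj'.le (s := 2 * r - 1) (by linarith)
      (φ := fun x => v j x / √(∑ i ∈ range (j + 1), v i x))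
      (fun x => div_nonneg (hv j hj' x) (Real.sqrt_nonneg _)) fun x y hxy => by
        have e := mart_msum (m := j + 1) (fun i hi => mart_le F (show i ≤ j by omega)
          (hm i (by omega))) x y hxy
        simp only at e ⊢
        rw [e, hm j hj' x y hxy]
    rw [mart_add, mart_mul _ (4 * K)⁻¹]
    refine le_trans ?_ (add_le_add le_rfl (mul_le_mul_of_nonneg_left a1 (by positivity)))
    rw [← mart_mul _ (4 * K)⁻¹, ← mart_add]
    refine mart_mono F fun x => ?_
    have b0 := hv j hj' x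
    rcases b0.eq_or_lt with b1 | b1
    · simp [← b1]
    set a := |∑ i ∈ range j, d i x| with ha
    have ha0 : 0 ≤ a := abs_nonneg _
    set W := ∑ i ∈ range (j + 1), v i x with hWd
    have hW0 : 0 < W := by rw [hWd, sum_range_succ]; linarith [hW j hj'.le x]
    have hs : 0 < √W := Real.sqrt_pos.2 hW0
    have c1 : 0 ≤ L * ((∑ i ∈ range n, v i x) ^ (r - 1) * v j x) :=
      mul_nonneg (by linarith) (mul_nonneg (Real.rpow_nonneg (hW n le_rfl x) _) b0)
    have c2 : 0 ≤ (4 * K)⁻¹ * (v j x / √W * a ^ (2 * r - 1)) := by positivity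
    rcases le_total a (4 * K * √W) with c | c
    · refine le_trans ?_ (le_add_of_nonneg_right c2)
      rw [← mul_assoc]
      refine mul_le_mul_of_nonneg_right ((Real.rpow_le_rpow ha0 c (by linarith)).trans ?_) b0
      rw [Real.mul_rpow (by positivity) hs.le, ← hL, Real.sqrt_eq_rpow, ← Real.rpow_mul hW0.le,
        show 1 / 2 * (2 * r - 1 - 1) = r - 1 by ring]
      exact mul_le_mul_of_nonneg_left (Real.rpow_le_rpow hW0.le
        (mart_part hj' fun i hi => hv i hi x) (by linarith)) (by linarith)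
    · refine le_trans ?_ (le_add_of_nonneg_left c1)
      have e : a ^ (2 * r - 1) = a ^ (2 * r - 1 - 1) * a := by
        rw [← Real.rpow_add_one' ha0 (by linarith)]; congr 1; ring
      have e2 : (4 * K)⁻¹ * (v j x / √W * (a ^ (2 * r - 1 - 1) * a)) =
          a ^ (2 * r - 1 - 1) * v j x * (a / (4 * K * √W)) := by field_simp
      rw [e, e2]
      exact le_mul_of_one_le_right (by positivity) ((one_le_div (by positivity)).2 c)
  rw [← mart_sum F n fun j x => L * _ + _] at h2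
  have h3 : F.I (fun x => ∑ j ∈ range n, (L * ((∑ i ∈ range n, v i x) ^ (r - 1) * v j x) +
      (4 * K)⁻¹ * (v j x / √(∑ i ∈ range (j + 1), v i x) * |∑ i ∈ range n, d i x| ^ (2 * r - 1)))) ≤
      F.I (fun x => L * (∑ i ∈ range n, v i x) ^ r + (2 * K)⁻¹ *
        (|∑ i ∈ range n, d i x| ^ (2 * r) + (∑ i ∈ range n, v i x) ^ r)) := by
    refine mart_mono F fun x => ?_
    rw [sum_add_distrib, ← mul_sum, ← mul_sum, ← mul_sum, ← sum_mul,
      ← Real.rpow_add_one' (hW n le_rfl x) (by linarith), sub_add_cancel]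
    refine add_le_add le_rfl ?_
    have a1 := mart_sqrt (fun k => v k x) n fun k hk => hv k hk x
    have a2 := young_eps (q := 2 * r) (θ := 1) (by linarith) one_pos
      (abs_nonneg (∑ i ∈ range n, d i x)) (Real.sqrt_nonneg (∑ i ∈ range n, v i x))
    rw [inv_one, Real.one_rpow, one_mul, one_mul, Real.sqrt_eq_rpow,
      ← Real.rpow_mul (hW n le_rfl x), show 1 / 2 * (2 * r) = r by ring, ← Real.sqrt_eq_rpow] at a2
    have a3 := mul_le_mul_of_nonneg_right a1
      (Real.rpow_nonneg (abs_nonneg (∑ i ∈ range n, d i x)) (2 * r - 1))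
    have e : (2 * K)⁻¹ = (4 * K)⁻¹ * 2 := by field_simp; norm_num
    rw [e, mul_assoc]
    exact mul_le_mul_of_nonneg_left (by linarith) (by positivity)
  rw [mart_add, mart_mul, mart_mul, mart_add] at h3
  have h4 := (h1 n le_rfl).trans (mul_le_mul_of_nonneg_left (add_le_add (h2.trans h3) le_rfl)
    (by linarith))
  have e : K * (2 * K)⁻¹ = 1 / 2 := by field_simp
  rw [mul_add, mul_add, ← mul_assoc K (2 * K)⁻¹, e] at h4
  have p1 : 0 ≤ F.I (fun x => (∑ k ∈ range n, v k x) ^ r) :=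
    F.pos _ fun x => Real.rpow_nonneg (hW n le_rfl x) _
  have p2 : 0 ≤ ∑ k ∈ range n, F.I (fun x => |d k x| ^ (2 * r)) :=
    sum_nonneg fun k _ => F.pos _ fun x => by positivity
  have p3 := mul_le_mul_of_nonneg_left hL1 (mul_nonneg (show 0 ≤ K by linarith) p2)
  linarith

/-
sqfn:  S k = sum_{i<k} d i^2.  S_n^r <= r sum_k S_{k+1}^(r-1) d_k^2 = r sum_j th_j (S_n - S_j) where
 th_j = S_{j+1}^(r-1) - S_j^(r-1) for j>0 and th_0 = S_1^(r-1) (so th_j >= 0, also for r = 1, is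
 R (j+1)-measurable and sum_j th_j = S_n^(r-1)).  S_n - S_j = d_j^2 + (S_n - S_{j+1}) and
 I(th (S_n - S_{j+1})) = I(th (M_n^2 - M_{j+1}^2)) <= I(th M_n^2) by orthogonality.
 sum_j th_j d_j^2 <= S_n^(r-1) (sum_j |d_j|^p)^(1/r); young_eps.
 Cotype: 2^(1-p) sum_j I|d_j|^p <= I|M_n|^p from |a+d|^p >= |a|^p + p|a|^(p-2) a d + 2|d/2|^p
 (Clarkson |x+y|^p+|x-y|^p >= 2|x|^p+2|y|^p with x = a+d/2, y = d/2, and the tangent inequality at a).
-/
theorem sqfn {r : ℝ} (hr : 1 ≤ r) : ∃ C : ℝ, 1 ≤ C ∧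
    ∀ {Ω : Type} (F : Filt Ω) (n : ℕ) (d : ℕ → Ω → ℝ), F.MD n d →
      F.I (fun x => (∑ k ∈ range n, d k x ^ 2) ^ r)
        ≤ C * F.I (fun x => |∑ k ∈ range n, d k x| ^ (2 * r)) := by
  have hθ : 0 < (4 * r)⁻¹ := by positivity
  obtain ⟨L, hL⟩ : ∃ L, L = (4 * r)⁻¹⁻¹ ^ (r - 1) := ⟨_, rfl⟩
  have hL1 : 1 ≤ L := hL ▸ Real.one_le_rpow (by rw [inv_inv]; linarith) (by linarith)
  obtain ⟨c, hc⟩ : ∃ c : ℝ, c = 2 * 2⁻¹ ^ (2 * r) := ⟨_, rfl⟩
  have hc0 : 0 < c := by rw [hc]; positivity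
  have hrL : 1 ≤ r * L := by nlinarith
  refine ⟨2 * (r * L) * (1 + c⁻¹), by nlinarith [inv_pos.2 hc0], ?_⟩
  intro Ω F n d hd
  have hS : ∀ k x, 0 ≤ ∑ i ∈ range k, d i x ^ 2 := fun k x => sum_nonneg fun i _ => sq_nonneg _
  obtain ⟨G, hG0, hG⟩ : ∃ G : Ω → ℕ → ℝ, (∀ x, G x 0 = 0) ∧
      ∀ x k, G x (k + 1) = (∑ i ∈ range (k + 1), d i x ^ 2) ^ (r - 1) :=
    ⟨fun x k => if k = 0 then 0 else (∑ i ∈ range k, d i x ^ 2) ^ (r - 1), by simp, by simp⟩
  have hth : ∀ x j, 0 ≤ G x (j + 1) - G x j := by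
    intro x j
    rcases j with _ | j
    · rw [hG0, hG, sub_zero]; exact Real.rpow_nonneg (hS _ x) _
    · rw [hG, hG, sub_nonneg]
      exact Real.rpow_le_rpow (hS _ x) (mart_part (Nat.le_succ _) fun i _ => sq_nonneg _)
        (by linarith)
  have hGn : ∀ x, ∑ j ∈ range n, (G x (j + 1) - G x j) ≤ (∑ i ∈ range n, d i x ^ 2) ^ (r - 1) := by
    intro x
    rw [Finset.sum_range_sub, hG0, sub_zero]
    rcases n with _ | n
    · rw [hG0]; exact Real.rpow_nonneg (hS _ x) _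
    · rw [hG]
  have hms : ∀ j ≤ n, Ms (F.R j) (fun x => G x j) := by
    intro j hj x y hxy
    rcases j with _ | j
    · simp only [hG0]
    · have e := mart_msum (a := fun i x => d i x ^ 2) (m := j + 1) (fun i hi x y hxy => by
        simp only [mart_le F hi (hd.meas i (by omega)) x y hxy]) x y hxy
      simp only at e ⊢
      rw [hG, hG, e]
  have h1 := mart_mono F fun x => mart_tele hr (fun k => d k x ^ 2) n fun k _ => sq_nonneg _
  have e1 : ∀ x, ∑ k ∈ range n, (∑ i ∈ range (k + 1), d i x ^ 2) ^ (r - 1) * d k x ^ 2 =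
      ∑ j ∈ range n, (G x (j + 1) - G x j) *
        (∑ i ∈ range n, d i x ^ 2 - ∑ i ∈ range j, d i x ^ 2) := fun x => by
    rw [← mart_abel (G x) fun k => d k x ^ 2]
    simp only [hG, hG0, sub_zero]
  simp only [e1] at h1
  rw [mart_mul, mart_sum] at h1
  set T : Ω → ℝ := fun x => ∑ j ∈ range n, |d j x| ^ (2 * r) with hT
  have hT0 : ∀ x, 0 ≤ T x := fun x => sum_nonneg fun i _ => by positivity
  have h2 : ∑ j ∈ range n, F.I (fun x => (G x (j + 1) - G x j) *
      (∑ i ∈ range n, d i x ^ 2 - ∑ i ∈ range j, d i x ^ 2)) ≤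
      ∑ j ∈ range n, F.I (fun x => (G x (j + 1) - G x j) *
        ((∑ i ∈ range n, d i x) ^ 2 + T x ^ r⁻¹)) := by
    refine sum_le_sum fun j hj => ?_
    have hj' := mem_range.1 hj
    have a1 := mart_orth2 hd (k := j + 1) hj' le_rfl (φ := fun x => G x (j + 1) - G x j)
      fun x y hxy => by
        have e := hms (j + 1) hj' x y hxy
        have e' := hms j hj'.le x y (F.mono j x y hxy)
        simp only at e e' ⊢
        rw [e, e']
    rw [← add_zero (F.I _), ← a1, ← mart_add]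
    refine mart_mono F fun x => ?_
    rw [← mul_add]
    refine mul_le_mul_of_nonneg_left ?_ (hth x j)
    have a2 : d j x ^ 2 ≤ T x ^ r⁻¹ := by
      rw [Real.le_rpow_inv_iff_of_pos (sq_nonneg _) (hT0 x) (by linarith), ← abs_rpow_two_mul]
      exact single_le_sum (f := fun j => |d j x| ^ (2 * r)) (fun i _ => by positivity) hj
    rw [sum_range_succ (fun i => d i x ^ 2) j]
    linarith [sq_nonneg (∑ i ∈ range (j + 1), d i x)]
  rw [← mart_sum F n fun j x => _ * (_ + T x ^ r⁻¹)] at h2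
  have h3 : F.I (fun x => ∑ j ∈ range n, (G x (j + 1) - G x j) *
      ((∑ i ∈ range n, d i x) ^ 2 + T x ^ r⁻¹)) ≤
      F.I (fun x => 2 * (4 * r)⁻¹ * (∑ i ∈ range n, d i x ^ 2) ^ r +
        L * (|∑ k ∈ range n, d k x| ^ (2 * r) + T x)) := by
    refine mart_mono F fun x => ?_
    have a0 := Real.rpow_nonneg (hT0 x) r⁻¹
    have a1 := young_eps hr hθ (hS n x) (sq_nonneg (∑ i ∈ range n, d i x))
    have a2 := young_eps hr hθ (hS n x) a0
    rw [Real.rpow_inv_rpow (hT0 x) (by linarith), ← hL] at a2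
    rw [← hL, ← abs_rpow_two_mul] at a1
    rw [← sum_mul]
    refine (mul_le_mul_of_nonneg_right (hGn x) (by positivity)).trans ?_
    linarith
  rw [mart_add, mart_mul, mart_mul, mart_add,
    show F.I (fun x => T x) = _ from mart_sum F n fun j x => |d j x| ^ (2 * r)] at h3
  have h4 := h1.trans (mul_le_mul_of_nonneg_left (h2.trans h3) (by linarith))
  have e : r * (2 * (4 * r)⁻¹) = 1 / 2 := by field_simp; norm_num
  rw [mul_add, ← mul_assoc, e] at h4
  have h5 := mart_cotype hr hd le_rfl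
  rw [← hc, ← le_inv_mul_iff₀ hc0] at h5
  linarith [mul_le_mul_of_nonneg_left h5 (show 0 ≤ r * L by linarith)]

end Pool.Agent.MP_fc1aea_an

end
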