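import Mathlib
import Pool.Agent.Lib.LpDual.Basic
import Pool.Agent.MP_fc1aea_an.Heap
import Pool.Agent.MP_fc1aea_an.Mg.Mart

-- part MP_fc1aea_an.Sq
section

open MeasureTheory Filter Topology
open scoped ENNReal

namespace Pool.Agent.MP_fc1aea_an

open Pool.Agent.Lib.LpDual

variable {Ω : Type*} [MeasurableSpace Ω] {m : Measure Ω}

section Sq

variable {p : ℝ≥0∞} (q : ℝ≥0∞) [Fact (1 ≤ p)] [Fact (1 ≤ q)] [ENNReal.HolderTriple p p q]

omit [Fact (1 ≤ p)] in
theorem toReal_eq_two_mul (p : ℝ≥0∞) [ENNReal.HolderTriple p p q] :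
    p.toReal = 2 * q.toReal := by
  have h : p⁻¹ + p⁻¹ = q⁻¹ := ENNReal.HolderTriple.inv_add_inv_eq_inv p p q
  have hq : q ≠ 0 := (lt_of_lt_of_le zero_lt_one (Fact.out : 1 ≤ q)).ne'
  have hp : p ≠ 0 := by
    rintro rfl
    simp only [ENNReal.inv_zero, top_add] at h
    exact hq (ENNReal.inv_eq_top.1 h.symm)
  have h1 : p⁻¹ ≠ ⊤ := ENNReal.inv_ne_top.2 hp
  have h2 := congrArg ENNReal.toReal h
  rw [ENNReal.toReal_add h1 h1, ENNReal.toReal_inv, ENNReal.toReal_inv] at h2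
  rcases eq_or_ne p.toReal 0 with h0 | h0
  · rw [h0] at h2 ⊢
    have : q.toReal = 0 := by simpa using h2.symm
    rw [this]; simp
  · have : q.toReal = p.toReal / 2 := by
      rw [← inv_inv q.toReal, ← h2]; field_simp; ring
    rw [this]; ring

omit [Fact (1 ≤ p)] [Fact (1 ≤ q)] in
theorem ne_top_of_half (p : ℝ≥0∞) [ENNReal.HolderTriple p p q] (hq : q ≠ ⊤) : p ≠ ⊤ := by
  rintro rfl
  have h : (⊤ : ℝ≥0∞)⁻¹ + ⊤⁻¹ = q⁻¹ := ENNReal.HolderTriple.inv_add_inv_eq_inv ⊤ ⊤ q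
  simp only [ENNReal.inv_top, add_zero] at h
  exact hq (ENNReal.inv_eq_zero.1 h.symm)

/-- The square of an `L_p` function as an element of `L_{p/2}`. -/
noncomputable def sq (f : Lp ℝ p m) : Lp ℝ q m := (ContinuousLinearMap.mul ℝ ℝ).holder q f f

omit [Fact (1 ≤ p)] [Fact (1 ≤ q)] in
theorem coeFn_sq (f : Lp ℝ p m) : sq q f =ᵐ[m] fun x => f x ^ 2 := by
  filter_upwards [(ContinuousLinearMap.mul ℝ ℝ).coeFn_holder (r := q) f f] with x hx
  rw [sq, hx, pow_two]; rfl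

omit [Fact (1 ≤ p)] [Fact (1 ≤ q)] in
theorem sq_nonneg' (f : Lp ℝ p m) : 0 ≤ sq q f := by
  rw [← Lp.coeFn_nonneg]
  filter_upwards [coeFn_sq q f] with x hx
  rw [hx]; exact sq_nonneg _

omit [Fact (1 ≤ p)] [Fact (1 ≤ q)] in
theorem sq_smul (c : ℝ) (f : Lp ℝ p m) : sq q (c • f) = c ^ 2 • sq q f := by
  rw [sq, ContinuousLinearMap.holder_smul_left, ContinuousLinearMap.holder_smul_right, smul_smul,
    pow_two, sq]

omit [Fact (1 ≤ p)] [Fact (1 ≤ q)] in
theorem sq_zero : sq q (0 : Lp ℝ p m) = 0 := by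
  have := sq_smul q 0 (0 : Lp ℝ p m)
  simpa using this

omit [Fact (1 ≤ q)] in
theorem norm_sq_le (f : Lp ℝ p m) : ‖sq q f‖ ≤ ‖f‖ ^ 2 := by
  have h1 := (ContinuousLinearMap.mul ℝ ℝ).norm_holder_apply_apply_le (r := q) f f
  have h2 : ‖ContinuousLinearMap.mul ℝ ℝ‖ ≤ 1 := ContinuousLinearMap.opNorm_mul_le ℝ ℝ
  calc _ ≤ _ := h1
    _ ≤ 1 * ‖f‖ * ‖f‖ := by gcongr
    _ = _ := by ring

variable {X : Type*} [NormedAddCommGroup X] [NormedSpace ℝ X]

/-- Sums of squares of finite families in `X` that are small on the functionals of `F`. -/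
def SqC (T : X →L[ℝ] Lp ℝ p m) (F : Finset (X →L[ℝ] ℝ)) (η : ℝ) : Set (Lp ℝ q m) :=
  {s | ∃ (ι : Type) (I : Finset ι) (y : ι → X),
    s = ∑ i ∈ I, sq q (T (y i)) ∧ ∀ ξ ∈ F, ∑ i ∈ I, ξ (y i) ^ 2 ≤ η}

omit [Fact (1 ≤ q)] in
theorem SqC.add {T : X →L[ℝ] Lp ℝ p m} {F : Finset (X →L[ℝ] ℝ)} {η η' : ℝ} {s s' : Lp ℝ q m}
    (h : s ∈ SqC q T F η) (h' : s' ∈ SqC q T F η') : s + s' ∈ SqC q T F (η + η') := by
  obtain ⟨ι, I, y, rfl, hy⟩ := h
  obtain ⟨ι', I', y', rfl, hy'⟩ := h'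
  refine ⟨ι ⊕ ι', I.disjSum I', Sum.elim y y', by simp [Finset.sum_disjSum], fun ξ hξ => ?_⟩
  simp only [Finset.sum_disjSum, Sum.elim_inl, Sum.elim_inr]
  exact add_le_add (hy ξ hξ) (hy' ξ hξ)

omit [Fact (1 ≤ q)] in
theorem SqC.smul {T : X →L[ℝ] Lp ℝ p m} {F : Finset (X →L[ℝ] ℝ)} {η c : ℝ} {s : Lp ℝ q m}
    (hc : 0 ≤ c) (h : s ∈ SqC q T F η) : c • s ∈ SqC q T F (c * η) := by
  obtain ⟨ι, I, y, rfl, hy⟩ := h
  refine ⟨ι, I, fun i => Real.sqrt c • y i, ?_, fun ξ hξ => ?_⟩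
  · simp only [map_smul, sq_smul, Real.sq_sqrt hc, Finset.smul_sum]
  · simp only [map_smul, smul_eq_mul, mul_pow, Real.sq_sqrt hc, ← Finset.mul_sum]
    exact mul_le_mul_of_nonneg_left (hy ξ hξ) hc

omit [Fact (1 ≤ q)] in
theorem convex_SqC (T : X →L[ℝ] Lp ℝ p m) (F : Finset (X →L[ℝ] ℝ)) (η : ℝ) :
    Convex ℝ (SqC q T F η) := by
  intro s hs s' hs' a b ha hb hab
  have := SqC.add q (SqC.smul q ha hs) (SqC.smul q hb hs')
  rwa [← add_mul, hab, one_mul] at this

/-- Limits of sums of squares of weakly small families. -/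
def SqS (T : X →L[ℝ] Lp ℝ p m) : AddSubmonoid (Lp ℝ q m) where
  carrier := {s | ∀ (F : Finset (X →L[ℝ] ℝ)) (η : ℝ), 0 < η → s ∈ closure (SqC q T F η)}
  zero_mem' := fun F η hη => subset_closure ⟨Unit, ∅, fun _ => 0, by simp, by simp [hη.le]⟩
  add_mem' := fun {s s'} hs hs' F η hη => by
    refine map_mem_closure₂ continuous_add (hs F (η / 2) (by linarith))
      (hs' F (η / 2) (by linarith)) fun a ha b hb => ?_
    simpa using SqC.add q ha hb

theorem mem_SqS {T : X →L[ℝ] Lp ℝ p m} {s : Lp ℝ q m} : s ∈ SqS q T ↔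
    ∀ (F : Finset (X →L[ℝ] ℝ)) (η : ℝ), 0 < η → s ∈ closure (SqC q T F η) := Iff.rfl

end Sq

section Test

variable {q : ℝ≥0∞} [Fact (1 ≤ q)]

theorem one_le_toReal (hq : q ≠ ⊤) : 1 ≤ q.toReal := by
  have := ENNReal.toReal_mono hq (Fact.out : 1 ≤ q)
  simpa using this

omit [Fact (1 ≤ q)] in
theorem one_lt_toReal (hq1 : 1 < q) (hq : q ≠ ⊤) : 1 < q.toReal := by
  have := ENNReal.toReal_strict_mono hq hq1
  simpa using this

theorem norm_rpow_of_nonneg (hq : q ≠ ⊤) {u : Lp ℝ q m} (hu : 0 ≤ u) :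
    ‖u‖ ^ q.toReal = ∫ x, u x ^ q.toReal ∂m := by
  rw [norm_rpow_eq hq]
  refine integral_congr_ae ?_
  filter_upwards [(Lp.coeFn_nonneg u).2 hu] with x hx
  rw [abs_of_nonneg hx]

omit [Fact (1 ≤ q)] in
theorem memLp_test (hq1 : 1 < q) (hq : q ≠ ⊤) (u : Lp ℝ q m) :
    MemLp (fun x => |u x| ^ (q.toReal - 1)) (ENNReal.conjExponent q) m := by
  have h := (Lp.memLp u).norm_rpow_div (q - 1)
  rw [ENNReal.toReal_sub_of_le hq1.le hq, ENNReal.toReal_one] at h
  have e : q / (q - 1) = ENNReal.conjExponent q := by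
    have h0 : q - 1 ≠ 0 := (tsub_pos_of_lt hq1).ne'
    have h1 : q - 1 ≠ ⊤ := ENNReal.sub_ne_top hq
    rw [ENNReal.conjExponent, ENNReal.div_eq_inv_mul]
    conv_lhs => rw [← tsub_add_cancel_of_le hq1.le, ENNReal.add_sub_cancel_right ENNReal.one_ne_top]
    rw [mul_add, ENNReal.inv_mul_cancel h0 h1, mul_one]
  rw [e] at h
  exact h

omit [Fact (1 ≤ q)] in
theorem integrable_test (hq1 : 1 < q) (hq : q ≠ ⊤) (u f : Lp ℝ q m) :
    Integrable (fun x => |u x| ^ (q.toReal - 1) * f x) m := by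
  have hc : ENNReal.HolderConjugate q (ENNReal.conjExponent q) :=
    ENNReal.HolderConjugate.conjExponent hq1.le
  have hc' := hc.symm
  exact (memLp_test hq1 hq u).integrable_mul (Lp.memLp f)

/-- The functional `f ↦ ∫_B |u|^(q-1) f` is continuous on `L_q`. -/
theorem exists_test (hq1 : 1 < q) (hq : q ≠ ⊤) (u : Lp ℝ q m) {B : Set Ω} (hB : MeasurableSet B) :
    ∃ ℓ : Lp ℝ q m →L[ℝ] ℝ, ∀ f, ℓ f = ∫ x in B, |u x| ^ (q.toReal - 1) * f x ∂m := by
  have hc : ENNReal.HolderConjugate q (ENNReal.conjExponent q) :=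
    ENNReal.HolderConjugate.conjExponent hq1.le
  have hc' := hc.symm
  have : Fact (1 ≤ ENNReal.conjExponent q) := ⟨ENNReal.HolderConjugate.one_le _ q⟩
  have h := (memLp_test hq1 hq u).indicator hB
  refine ⟨pair q h.toLp, fun f => ?_⟩
  rw [pair_apply, ← integral_indicator hB]
  refine integral_congr_ae ?_
  filter_upwards [h.coeFn_toLp] with x hx
  rw [hx]
  by_cases hxB : x ∈ B <;> simp [hxB]

/-- The functional `f ↦ ∫_B f` is continuous on `L_q`. -/
theorem exists_setIntegral [IsFiniteMeasure m] {B : Set Ω} (hB : MeasurableSet B) :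
    ∃ ℓ : Lp ℝ q m →L[ℝ] ℝ, ∀ f, ℓ f = ∫ x in B, f x ∂m := by
  have hc : ENNReal.HolderConjugate q (ENNReal.conjExponent q) :=
    ENNReal.HolderConjugate.conjExponent (Fact.out)
  have hc' := hc.symm
  have : Fact (1 ≤ ENNReal.conjExponent q) := ⟨ENNReal.HolderConjugate.one_le _ q⟩
  have h := (memLp_const (μ := m) (p := ENNReal.conjExponent q) (1 : ℝ)).indicator hB
  refine ⟨pair q h.toLp, fun f => ?_⟩
  rw [pair_apply, ← integral_indicator hB]
  refine integral_congr_ae ?_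
  filter_upwards [h.coeFn_toLp] with x hx
  rw [hx]
  by_cases hxB : x ∈ B <;> simp [hxB]

end Test

end Pool.Agent.MP_fc1aea_an

end

-- part MP_fc1aea_an.Index1
section

open MeasureTheory Filter Topology
open scoped ENNReal symmDiff

namespace Pool.Agent.MP_fc1aea_an

open Pool.Agent.Lib.LpDual

theorem T_mem {α E : Type*} [DecidableEq α] [AddCommGroup E] [Module ℝ E] {δ : ℝ} (h0 : 0 ≤ δ)
    (h1 : δ ≤ 1) (U : Finset α) {h : Finset α → E} (σ : Finset α) {K : Set E} (hK : Convex ℝ K)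
    (hh : ∀ s, h s ∈ K) : T δ U h σ ∈ K :=
  hK.sum_mem (fun τ _ => wt_nonneg h0 h1 U τ) (sum_wt δ U) fun _ _ => hh _

theorem tendsto_T {α ι : Type*} [DecidableEq α] (δ : ℝ) (U : Finset α) {l : Filter ι}
    {f : ι → Finset α → ℝ} {g : Finset α → ℝ} (h : ∀ s, Tendsto (fun i => f i s) l (𝓝 (g s)))
    (σ : Finset α) : Tendsto (fun i => T δ U (f i) σ) l (𝓝 (T δ U g σ)) :=
  tendsto_finsetSum _ fun _ _ => (h _).const_smul _

theorem T_clm {α E F : Type*} [DecidableEq α] [NormedAddCommGroup E] [NormedSpace ℝ E]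
    [NormedAddCommGroup F] [NormedSpace ℝ F] (ℓ : E →L[ℝ] F)
    (δ : ℝ) (U : Finset α) (h : Finset α → E) (σ : Finset α) :
    ℓ (T δ U h σ) = T δ U (fun s => ℓ (h s)) σ := T_map (ℓ : E →ₗ[ℝ] F) δ U h σ

theorem M_VS_insert {E : Type*} [AddCommGroup E] [Module ℝ E] (δ : ℝ) {b : ℕ} {R : Finset ℕ}
    (hb : b ∉ R) (h : Finset ℕ → E) (σ : Finset ℕ) :
    T δ (VS (insert b R)) h σ = T δ (VS R) (T δ (V b) h) σ := by
  rw [VS_insert, Finset.union_comm, T_union δ (disjoint_V_VS hb).symm]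

theorem eventually_notMem (R : Finset ℕ) (N : ℕ) :
    ∀ᶠ b in (hyperfilter ℕ : Filter ℕ), b ∉ R ∧ N ≤ b := by
  have h1 : ∀ᶠ b in (hyperfilter ℕ : Filter ℕ), b ∉ R :=
    hyperfilter_le_cofinite (R.eventually_cofinite_notMem)
  have h2 : ∀ᶠ b in (hyperfilter ℕ : Filter ℕ), N ≤ b :=
    Nat.hyperfilter_le_atTop (eventually_ge_atTop N)
  exact h1.and h2

theorem sum_rpow_le_rpow_sum {ι : Type*} (s : Finset ι) {f : ι → ℝ} {r : ℝ} (hr : 1 ≤ r)
    (hf : ∀ i ∈ s, 0 ≤ f i) : ∑ i ∈ s, f i ^ r ≤ (∑ i ∈ s, f i) ^ r := by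
  have h0 := Finset.sum_nonneg hf
  have h1 : ∀ a : ℝ, 0 ≤ a → a ^ r = a ^ (r - 1) * a := fun a ha => by
    rw [← Real.rpow_add_one' ha (by linarith)]; congr 1; ring
  rw [h1 _ h0, Finset.mul_sum]
  refine Finset.sum_le_sum fun i hi => ?_
  rw [h1 _ (hf i hi)]
  exact mul_le_mul_of_nonneg_right
    (Real.rpow_le_rpow (hf i hi) (Finset.single_le_sum hf hi) (by linarith)) (hf i hi)

variable {Ω : Type*} [MeasurableSpace Ω] {m : Measure Ω} {q : ℝ≥0∞} [Fact (1 ≤ q)]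

omit [Fact (1 ≤ q)] in
theorem Lp_smul_nonneg {c : ℝ} (hc : 0 ≤ c) {f : Lp ℝ q m} (hf : 0 ≤ f) : 0 ≤ c • f := by
  rw [← Lp.coeFn_nonneg] at *
  filter_upwards [hf, Lp.coeFn_smul c f] with t h1 h2
  rw [h2]
  exact mul_nonneg hc h1

omit [Fact (1 ≤ q)] in
theorem convex_nonneg : Convex ℝ (Set.Ici (0 : Lp ℝ q m)) :=
  fun _ hx _ hy _ _ ha hb _ => add_nonneg (Lp_smul_nonneg ha hx) (Lp_smul_nonneg hb hy)

/-- Where `u` is dominated by all the `ua a`. -/
def GoodSet (κ : ℝ) (R : Finset ℕ) (u : Lp ℝ q m) (ua : ℕ → Lp ℝ q m) : Set Ω :=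
  {t | ∀ a ∈ R, κ * u t ≤ ua a t}

/-- Where `u` is not dominated by `v`. -/
def BadSet (κ : ℝ) (u v : Lp ℝ q m) : Set Ω := {t | v t < κ * u t}

omit [Fact (1 ≤ q)] in
theorem measurableSet_badSet (κ : ℝ) (u v : Lp ℝ q m) : MeasurableSet (BadSet κ u v) :=
  measurableSet_lt (Lp.stronglyMeasurable v).measurable
    ((Lp.stronglyMeasurable u).measurable.const_mul κ)

omit [Fact (1 ≤ q)] in
theorem measurableSet_goodSet (κ : ℝ) (R : Finset ℕ) (u : Lp ℝ q m) (ua : ℕ → Lp ℝ q m) :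
    MeasurableSet (GoodSet κ R u ua) := by
  have : GoodSet κ R u ua = ⋂ a ∈ R, {t | κ * u t ≤ ua a t} := by
    ext t; simp [GoodSet]
  rw [this]
  exact Finset.measurableSet_biInter R fun a _ => measurableSet_le
    ((Lp.stronglyMeasurable u).measurable.const_mul κ) (Lp.stronglyMeasurable _).measurable

theorem rpow_sub_one_mul {r a : ℝ} (hr : 1 ≤ r) (ha : 0 ≤ a) : |a| ^ (r - 1) * a = |a| ^ r := by
  rw [abs_of_nonneg ha, ← Real.rpow_add_one' ha (by linarith)]; congr 1; ring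

theorem index_limit (hq1 : 1 < q) (hq : q ≠ ⊤) (R J : Finset ℕ) (u : Finset ℕ → ℕ → Lp ℝ q m)
    (ua : ℕ → Finset ℕ → ℕ → Lp ℝ q m) (x : ℕ → Finset ℕ → ℕ → Lp ℝ q m)
    (y : ℕ → ℕ → Finset ℕ → ℕ → Lp ℝ q m)
    (hu : ∀ v, v ∉ VS R → ∀ j, Inv v (fun σ => u σ j))
    (hua : ∀ a ∈ R, ∀ v, v ∉ VS R → ∀ j, Inv v (fun σ => ua a σ j))
    (hx : ∀ σ j (ℓ : Lp ℝ q m →L[ℝ] ℝ), Tendsto (fun b => ℓ (T (1 / 2) (V b) (fun s => x b s j) σ))
      (hyperfilter ℕ) (𝓝 (ℓ (u σ j))))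
    (hy : ∀ a ∈ R, ∀ σ j (ℓ : Lp ℝ q m →L[ℝ] ℝ),
      Tendsto (fun b => ℓ (T (1 / 2) (V b) (fun s => y a b s j) σ))
        (hyperfilter ℕ) (𝓝 (ℓ (ua a σ j))))
    (u0 : ∀ σ j, 0 ≤ u σ j) {κ M C c : ℝ} (hκ : 0 ≤ κ) (hM : 0 ≤ M)
    (hC : ∀ σ, ∑ j ∈ J, ‖u σ j‖ ^ q.toReal ≤ C)
    (h : ∀ᶠ b in (hyperfilter ℕ : Filter ℕ), c ≤ T (1 / 2) (VS (insert b R)) (fun σ => ∑ j ∈ J,
      (∫ t in GoodSet κ R (u σ j) (fun a => ua a σ j), |u σ j t| ^ (q.toReal - 1) * x b σ j t ∂m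
        + M * ∑ a ∈ R, ∫ t in BadSet κ (u σ j) (ua a σ j),
          |u σ j t| ^ (q.toReal - 1) * y a b σ j t ∂m)) ∅) :
    c ≤ T (1 / 2) (VS R) (fun σ => ∑ j ∈ J,
      ∫ t in GoodSet κ R (u σ j) (fun a => ua a σ j), |u σ j t| ^ q.toReal ∂m) ∅
      + M * R.card * κ * C := by
  have hr := one_le_toReal hq
  choose ℓ₁ hℓ₁ using fun σ j => exists_test hq1 hq (u σ j)
    (measurableSet_goodSet κ R (u σ j) (fun a => ua a σ j))
  choose ℓ₂ hℓ₂ using fun a σ j => exists_test hq1 hq (u σ j)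
    (measurableSet_badSet κ (u σ j) (ua a σ j))
  have hlim : Tendsto (fun b => T (1 / 2) (VS R) (fun σ => ∑ j ∈ J,
      (ℓ₁ σ j (T (1 / 2) (V b) (fun s => x b s j) σ)
        + M * ∑ a ∈ R, ℓ₂ a σ j (T (1 / 2) (V b) (fun s => y a b s j) σ))) ∅) (hyperfilter ℕ)
      (𝓝 (T (1 / 2) (VS R) (fun σ => ∑ j ∈ J,
        (ℓ₁ σ j (u σ j) + M * ∑ a ∈ R, ℓ₂ a σ j (ua a σ j))) ∅)) :=
    tendsto_T _ _ (fun σ => tendsto_finsetSum _ fun j _ => (hx σ j _).add
      ((tendsto_finsetSum _ fun a ha => hy a ha σ j _).const_mul M)) ∅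
  have h1 := ge_of_tendsto hlim (b := c) (by
    filter_upwards [h, eventually_notMem R 0] with b hb hbR
    refine hb.trans (le_of_eq ?_)
    rw [M_VS_insert _ hbR.1]
    congr 1
    funext σ
    simp only [T_clm, ← T_sum, ← T_mul, ← T_add]
    refine T_congr _ _ fun τ hτ => ?_
    have hτ' : ∀ v ∈ τ, v ∉ VS R := fun v hv =>
      Finset.disjoint_left.1 (disjoint_V_VS hbR.1) (hτ hv)
    refine Finset.sum_congr rfl fun j _ => ?_
    have e1 : u (σ ∆ τ) j = u σ j := Inv.symmDiff (fun v hv => hu v (hτ' v hv) j) σ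
    have e2 : ∀ a ∈ R, ua a (σ ∆ τ) j = ua a σ j := fun a ha =>
      Inv.symmDiff (fun v hv => hua a ha v (hτ' v hv) j) σ
    have e3 : GoodSet κ R (u σ j) (fun a => ua a (σ ∆ τ) j)
        = GoodSet κ R (u σ j) (fun a => ua a σ j) := by
      ext t
      simp only [GoodSet, Set.mem_ofPred_eq]
      exact forall₂_congr fun a ha => by rw [e2 a ha]
    rw [e1, e3, hℓ₁]
    congr 2
    exact Finset.sum_congr rfl fun a ha => by rw [e2 a ha, hℓ₂])
  refine h1.trans ?_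
  rw [← T_const (1 / 2) (VS R) (M * R.card * κ * C) ∅, ← T_add]
  refine M_mono _ _ fun σ => ?_
  rw [Finset.sum_add_distrib]
  refine add_le_add (le_of_eq (Finset.sum_congr rfl fun j _ => ?_)) ?_
  · rw [hℓ₁]
    refine integral_congr_ae (ae_restrict_of_ae ?_)
    filter_upwards [(Lp.coeFn_nonneg _).2 (u0 σ j)] with t ht
    exact rpow_sub_one_mul hr ht
  · have e : ∀ j ∈ J, ∀ a ∈ R, ℓ₂ a σ j (ua a σ j) ≤ κ * ‖u σ j‖ ^ q.toReal := by
      intro j _ a _
      rw [hℓ₂, norm_rpow_eq hq, ← integral_const_mul]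
      have hi := (integrable_abs_rpow hq (u σ j)).const_mul κ
      calc _ ≤ ∫ t in BadSet κ (u σ j) (ua a σ j), κ * |u σ j t| ^ q.toReal ∂m := by
            refine setIntegral_mono_on_ae (integrable_test hq1 hq _ _).integrableOn hi.integrableOn
              (measurableSet_badSet _ _ _) ?_
            filter_upwards [(Lp.coeFn_nonneg _).2 (u0 σ j)] with t ht htB
            rw [← rpow_sub_one_mul hr ht, mul_left_comm]
            exact mul_le_mul_of_nonneg_left (le_of_lt htB) (by positivity)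
        _ ≤ _ := setIntegral_le_integral hi (ae_of_all _ fun t => by positivity)
    calc _ ≤ ∑ j ∈ J, M * ∑ a ∈ R, κ * ‖u σ j‖ ^ q.toReal :=
          Finset.sum_le_sum fun j hj => mul_le_mul_of_nonneg_left
            (Finset.sum_le_sum fun a ha => e j hj a ha) hM
      _ = M * R.card * κ * ∑ j ∈ J, ‖u σ j‖ ^ q.toReal := by
          rw [Finset.mul_sum]
          refine Finset.sum_congr rfl fun j _ => ?_
          rw [Finset.sum_const, nsmul_eq_mul]; ring
      _ ≤ _ := mul_le_mul_of_nonneg_left (hC σ) (by positivity)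

omit [Fact (1 ≤ q)] in
/-- An integral is bounded by the pieces over the good set and the bad sets. -/
theorem integral_le_good_bad (κ : ℝ) (R : Finset ℕ) (u : Lp ℝ q m) (ua : ℕ → Lp ℝ q m)
    {f g : Ω → ℝ} {k : ℕ → Ω → ℝ} {e : ℕ → Ω → ℝ} (hf : 0 ≤ᵐ[m] f) (hg : Integrable g m)
    (hk : ∀ a ∈ R, Integrable (k a) m) (he : ∀ a ∈ R, Integrable (e a) m)
    (h : ∀ᵐ t ∂m, 0 ≤ g t ∧ (∀ a ∈ R, 0 ≤ k a t ∧ 0 ≤ e a t) ∧ f t ≤ g t ∧
      ∀ a ∈ R, f t ≤ k a t + e a t) :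
    ∫ t, f t ∂m ≤ ∫ t in GoodSet κ R u ua, g t ∂m
      + ∑ a ∈ R, ∫ t in BadSet κ u (ua a), k a t ∂m + ∑ a ∈ R, ∫ t, e a t ∂m := by
  have i1 := hg.indicator (measurableSet_goodSet κ R u ua)
  have i2 := fun a ha => (hk a ha).indicator (measurableSet_badSet κ u (ua a))
  have i3 := integrable_finsetSum R i2
  have i4 := integrable_finsetSum R he
  have i5 : Integrable (fun t => (GoodSet κ R u ua).indicator g t
    + ∑ i ∈ R, (BadSet κ u (ua i)).indicator (k i) t) m := i1.add i3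
  rw [← integral_indicator (measurableSet_goodSet κ R u ua),
    Finset.sum_congr rfl fun a _ => (integral_indicator (measurableSet_badSet κ u (ua a))).symm,
    ← integral_finsetSum R i2, ← integral_finsetSum R he, ← integral_add i1 i3,
    ← integral_add i5 i4]
  refine integral_mono_of_nonneg hf (i5.add i4) ?_
  filter_upwards [h] with t ⟨h1, h2, h3, h4⟩
  have p1 : ∀ a ∈ R, 0 ≤ (BadSet κ u (ua a)).indicator (k a) t := fun a ha =>
    Set.indicator_apply_nonneg fun _ => (h2 a ha).1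
  have p2 := Finset.sum_nonneg p1
  have p3 := Finset.sum_nonneg fun a ha => (h2 a ha).2
  by_cases ht : t ∈ GoodSet κ R u ua
  · simp only [Set.indicator_of_mem ht]
    linarith
  · simp only [Set.indicator_of_notMem ht]
    simp only [GoodSet, Set.mem_ofPred_eq, not_forall, not_le] at ht
    obtain ⟨a, ha, hlt⟩ := ht
    have p4 := Finset.single_le_sum p1 ha
    have p5 := Finset.single_le_sum (fun a ha => (h2 a ha).2) ha
    rw [Set.indicator_of_mem (show t ∈ BadSet κ u (ua a) from hlt)] at p4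
    linarith [h4 a ha]

end Pool.Agent.MP_fc1aea_an

end

-- part MP_fc1aea_an.Cube1
section

open scoped symmDiff

namespace Pool.Agent.MP_fc1aea_an

section

variable {α : Type*} [DecidableEq α]

/-- The part over `P` of the squared gradient of the smoothed function. -/
noncomputable def gam (β : ℝ) (W P : Finset α) (h : Finset α → ℝ) (σ : Finset α) : ℝ :=
  ∑ v ∈ P, D v (T β W h) σ ^ 2

theorem gam_nonneg (β : ℝ) (W P : Finset α) (h : Finset α → ℝ) (σ : Finset α) :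
    0 ≤ gam β W P h σ := Finset.sum_nonneg fun _ _ => sq_nonneg _

theorem gam_le {β : ℝ} (h0 : 0 < β) (h1 : β ≤ 1 / 2) {W P : Finset α} (hP : P ⊆ W)
    (h : Finset α → ℝ) {k : Finset α → ℝ} (hk : ∀ v ∈ P, Inv v k) (σ : Finset α) :
    gam β W P h σ ≤ (2 * β)⁻¹ * T β W (fun s => (h s - k s) ^ 2) σ := by
  have e := reverse_poincare h0.le (by linarith) W (fun s => h s - k s) σ
  have e1 : gam β W P h σ ≤ ∑ v ∈ W, D v (T β W fun s => h s - k s) σ ^ 2 := by
    refine le_trans (le_of_eq ?_)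
      (Finset.sum_le_sum_of_subset_of_nonneg hP fun _ _ _ => sq_nonneg _)
    refine Finset.sum_congr rfl fun v hv => ?_
    have : (T β W fun s => h s - k s) = fun s => T β W h s - T β W k s := by
      funext s; exact T_sub β W h k s
    rw [this, D_sub, D_of_inv ((hk v hv).T β W), sub_zero]
  rw [le_inv_mul_iff₀ (by positivity)]
  have e2 := gam_nonneg β W P h σ
  have e3 : 2 * β ≤ 4 * β * (1 - β) := by nlinarith
  nlinarith [sq_nonneg (T β W (fun s => h s - k s) σ), mul_le_mul e3 e1 e2 (by nlinarith)]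

theorem gam_rpow_le {β r : ℝ} (h0 : 0 < β) (h1 : β ≤ 1 / 2) (hr : 1 ≤ r) {W P : Finset α}
    (hP : P ⊆ W) (h : Finset α → ℝ) {k : Finset α → ℝ} (hk : ∀ v ∈ P, Inv v k) (σ : Finset α) :
    gam β W P h σ ^ r ≤ (2 * β)⁻¹ ^ r * T β W (fun s => |h s - k s| ^ (2 * r)) σ := by
  have e0 : 0 ≤ T β W (fun s => (h s - k s) ^ 2) σ :=
    T_nonneg h0.le (by linarith) W σ fun _ => sq_nonneg _
  calc _ ≤ ((2 * β)⁻¹ * T β W (fun s => (h s - k s) ^ 2) σ) ^ r :=
        Real.rpow_le_rpow (gam_nonneg _ _ _ _ _) (gam_le h0 h1 hP h hk σ) (by linarith)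
    _ = (2 * β)⁻¹ ^ r * T β W (fun s => (h s - k s) ^ 2) σ ^ r := Real.mul_rpow (by positivity) e0
    _ ≤ _ := by
        refine mul_le_mul_of_nonneg_left ?_ (by positivity)
        simp only [abs_rpow_two_mul]
        exact T_rpow_le h0.le (by linarith) W σ (fun _ => sq_nonneg _) hr

theorem sum_gam_rpow_le {ι : Type*} {β r : ℝ} (h0 : 0 < β) (h1 : β ≤ 1 / 2) (hr : 1 ≤ r)
    {W : Finset α} {J : Finset ι} {P : ι → Finset α} (hP : ∀ j ∈ J, P j ⊆ W)
    (hd : (J : Set ι).PairwiseDisjoint P) (h : Finset α → ℝ) {k : Finset α → ℝ}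
    (hk : ∀ j ∈ J, ∀ v ∈ P j, Inv v k) (σ : Finset α) :
    ∑ j ∈ J, gam β W (P j) h σ ^ r ≤ (2 * β)⁻¹ ^ r * T β W (fun s => |h s - k s| ^ (2 * r)) σ := by
  classical
  refine (sum_rpow_le_rpow_sum J hr fun j _ => gam_nonneg _ _ _ _ _).trans ?_
  have : ∑ j ∈ J, gam β W (P j) h σ = gam β W (J.biUnion P) h σ := (Finset.sum_biUnion hd).symm
  rw [this]
  refine gam_rpow_le h0 h1 hr (Finset.biUnion_subset.2 hP) h (fun v hv => ?_) σ
  obtain ⟨j, hj, hv⟩ := Finset.mem_biUnion.1 hv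
  exact hk j hj v hv

/-- Concentration on the cube for functions that are Lipschitz up to an additive error. -/
theorem concentration (U : Finset α) (ψ : Finset α → ℝ) (c : α → ℝ) (hc : ∀ v, 0 ≤ c v) (δ : ℝ)
    (hψ : ∀ σ, ∀ τ ⊆ U, |ψ σ - ψ (σ ∆ τ)| ≤ δ + ∑ v ∈ τ, c v) (σ₀ : Finset α) :
    ∃ a : ℝ, T (1 / 2) U (fun s => (ψ s - a) ^ 2) σ₀ ≤ 2 * δ ^ 2 + ∑ v ∈ U, c v ^ 2 := by
  have hne : U.powerset.Nonempty := ⟨∅, by simp⟩
  set φ : Finset α → ℝ := fun σ => U.powerset.inf' hne fun τ => ψ (σ ∆ τ) + ∑ v ∈ τ, c v with hφ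
  have h1 : ∀ σ, φ σ ≤ ψ σ := fun σ => by
    have := Finset.inf'_le (fun τ => ψ (σ ∆ τ) + ∑ v ∈ τ, c v) (Finset.empty_mem_powerset U)
    simp only [symmDiff_empty', Finset.sum_empty, add_zero] at this
    exact this
  have h2 : ∀ σ, ψ σ - δ ≤ φ σ := fun σ => by
    refine (Finset.le_inf'_iff hne _).2 fun τ hτ => ?_
    have := (abs_le.1 (hψ σ τ (Finset.mem_powerset.1 hτ))).2
    linarith
  have h3 : ∀ v ∈ U, ∀ σ, φ σ ≤ φ (σ ∆ {v}) + c v := fun v hv σ => by
    rw [← sub_le_iff_le_add]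
    refine (Finset.le_inf'_iff hne _).2 fun τ hτ => ?_
    have hτ' : {v} ∆ τ ∈ U.powerset := by
      rw [Finset.mem_powerset] at *
      exact symmDiff_le_sup.trans (Finset.union_subset (Finset.singleton_subset_iff.2 hv) hτ)
    have e1 := Finset.inf'_le (fun τ => ψ (σ ∆ τ) + ∑ v ∈ τ, c v) hτ'
    have e2 : ∑ w ∈ {v} ∆ τ, c w ≤ ∑ w ∈ τ, c w + c v := by
      calc _ ≤ ∑ w ∈ insert v τ, c w := Finset.sum_le_sum_of_subset_of_nonneg
            (symmDiff_le_sup.trans (Finset.insert_eq v τ).ge) fun _ _ _ => hc _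
        _ ≤ _ := by
          by_cases h : v ∈ τ
          · rw [Finset.insert_eq_of_mem h]; linarith [hc v]
          · rw [Finset.sum_insert h]; linarith
    rw [symmDiff_assoc]
    linarith
  set a := T (1 / 2) U φ σ₀ with ha
  refine ⟨a, ?_⟩
  have h4 := poincare U (fun s => φ s - a) σ₀
  rw [T_sub, T_const, ← ha, sub_self] at h4
  have h5 : T (1 / 2) U (fun s => ∑ v ∈ U, D v (fun s => φ s - a) s ^ 2) σ₀
      ≤ ∑ v ∈ U, c v ^ 2 / 4 := by
    refine T_le_const (by norm_num) (by norm_num) U fun τ _ => Finset.sum_le_sum fun v hv => ?_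
    have e1 := h3 v hv (σ₀ ∆ τ)
    have e2 := h3 v hv ((σ₀ ∆ τ) ∆ {v})
    rw [symmDiff_symmDiff_cancel_right] at e2
    simp only [D, smul_eq_mul]
    nlinarith
  have h6 : T (1 / 2) U (fun s => (ψ s - a) ^ 2) σ₀
      ≤ T (1 / 2) U (fun s => 2 * δ ^ 2 + 2 * (φ s - a) ^ 2) σ₀ := by
    refine M_mono U σ₀ fun s => ?_
    have e1 := h1 s
    have e2 := h2 s
    have e3 : (ψ s - φ s) ^ 2 ≤ δ ^ 2 := by nlinarith
    nlinarith [sq_nonneg (ψ s - φ s - (φ s - a))]
  rw [T_add, T_const, T_mul] at h6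
  rw [← Finset.sum_div] at h5
  have h7 : 0 ≤ ∑ v ∈ U, c v ^ 2 := Finset.sum_nonneg fun _ _ => sq_nonneg _
  nlinarith

end

/-- Flipping a random union of groups of coordinates. -/
theorem flip_groups {r : ℝ} (hr : 1 ≤ r) : ∃ C : ℝ, 1 ≤ C ∧
    ∀ {α ι : Type} [DecidableEq α] [DecidableEq ι] (β : ℝ), 0 < β → β ≤ 1 / 2 →
      ∀ (W : Finset α) (J : Finset ι) (P : ι → Finset α), (∀ j ∈ J, P j ⊆ W) →
      (J : Set ι).PairwiseDisjoint P → ∀ (h : Finset α → ℝ),
      T β J (fun A => T (1 / 2) W (fun σ => |h (σ ∆ (J ∩ A).biUnion P) - h σ| ^ (2 * r)) ∅) ∅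
        ≤ C * (T (1 / 2) W (fun σ => T β W (fun s => |h s - h σ| ^ (2 * r)) σ) ∅
          + β * T (1 / 2) W (fun σ => ∑ j ∈ J, gam β W (P j) h σ ^ r) ∅) := by
  obtain ⟨C₁, hC₁, hP⟩ := lp_poincare hr
  obtain ⟨C₂, hC₂, hR⟩ := rosenthal hr
  set e : ℝ := 2 ^ (2 * r) with he
  have he1 : 1 ≤ e := Real.one_le_rpow (by norm_num) (by linarith)
  have hC : 1 ≤ C₁ * C₂ := one_le_mul_of_one_le_of_one_le hC₁ hC₂
  have he2 : 1 ≤ e * e := one_le_mul_of_one_le_of_one_le he1 he1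
  refine ⟨2 * (e * e) + 2 * (e * e * e) * (C₁ * C₂), by nlinarith [mul_pos (show 0 < e * e * e by positivity) (show 0 < C₁ * C₂ by positivity)], ?_⟩
  intro α ι _ _ β h0 h1 W J P hPW hd h
  set H := T β W h with hH
  set N := T (1 / 2) W (fun σ => T β W (fun s => |h s - h σ| ^ (2 * r)) σ) ∅ with hN
  set G := T (1 / 2) W (fun σ => ∑ j ∈ J, gam β W (P j) h σ ^ r) ∅ with hG
  have hN0 : 0 ≤ N := M_nonneg _ _ fun σ => T_nonneg h0.le (by linarith) _ _ fun s => by positivity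
  have hG0 : 0 ≤ G := M_nonneg _ _ fun σ => Finset.sum_nonneg fun j _ =>
    Real.rpow_nonneg (gam_nonneg _ _ _ _ _) _
  have s1 : T (1 / 2) W (fun σ => |H σ - h σ| ^ (2 * r)) ∅ ≤ N := by
    refine M_mono _ _ fun σ => ?_
    have := abs_T_rpow_le h0.le (by linarith) W (fun s => h s - h σ) σ (r := 2 * r) (by linarith)
    rwa [T_sub, T_const] at this
  have s2 : ∀ A : Finset ι,
      T (1 / 2) W (fun σ => |h (σ ∆ (J ∩ A).biUnion P) - h σ| ^ (2 * r)) ∅
      ≤ 2 * (e * e) * N + 2 * (e * e * e) * C₁ *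
        T (1 / 2) W (fun σ => (∑ j ∈ J, if j ∈ A then gam β W (P j) h σ else 0) ^ r) ∅ := by
    intro A
    set U := (J ∩ A).biUnion P with hU
    have hUW : U ⊆ W := Finset.biUnion_subset.2 fun j hj => hPW j (Finset.mem_inter.1 hj).1
    set M := T (1 / 2) U H with hM
    have t1 : ∀ σ, |h (σ ∆ U) - h σ| ^ (2 * r) ≤ e * e * |H (σ ∆ U) - h (σ ∆ U)| ^ (2 * r)
        + (e * e * |H σ - h σ| ^ (2 * r) + (e * e * e * |H (σ ∆ U) - M (σ ∆ U)| ^ (2 * r)
          + e * e * e * |H σ - M σ| ^ (2 * r))) := by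
      intro σ
      have a0 : M (σ ∆ U) = M σ := Inv.symmDiff (fun v hv => inv_M hv H) σ
      have a1 := abs_sub_rpow_le (r := 2 * r) (by linarith) (h (σ ∆ U)) (H (σ ∆ U)) (h σ)
      have a2 := abs_sub_rpow_le (r := 2 * r) (by linarith) (H (σ ∆ U)) (H σ) (h σ)
      have a3 := abs_sub_rpow_le (r := 2 * r) (by linarith) (H (σ ∆ U)) (M σ) (H σ)
      rw [abs_sub_comm (h (σ ∆ U)) (H (σ ∆ U))] at a1
      rw [abs_sub_comm (M σ) (H σ)] at a3
      rw [a0]
      rw [← he] at a1 a2 a3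
      have p1 : 0 ≤ |H (σ ∆ U) - h (σ ∆ U)| ^ (2 * r) := by positivity
      have b2 := mul_le_mul_of_nonneg_left a2 (show 0 ≤ e by linarith)
      have b3 := mul_le_mul_of_nonneg_left a3 (show 0 ≤ e * e by linarith)
      have b4 : e * |H (σ ∆ U) - h (σ ∆ U)| ^ (2 * r)
          ≤ e * e * |H (σ ∆ U) - h (σ ∆ U)| ^ (2 * r) := by
        refine mul_le_mul_of_nonneg_right (by nlinarith) p1
      nlinarith
    have t2 : T (1 / 2) W (fun σ => |H σ - M σ| ^ (2 * r)) ∅ ≤ C₁ *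
        T (1 / 2) W (fun σ => (∑ j ∈ J, if j ∈ A then gam β W (P j) h σ else 0) ^ r) ∅ := by
      rw [← M_T (1 / 2) hUW, ← M_T (1 / 2) hUW
        (fun σ => (∑ j ∈ J, if j ∈ A then gam β W (P j) h σ else 0) ^ r), ← T_mul]
      refine M_mono _ _ fun σ => (hP U H σ).trans (le_of_eq ?_)
      congr 2
      funext s
      congr 1
      rw [hU, Finset.sum_biUnion (hd.subset (by simp)), ← Finset.filter_mem_eq_inter,
        Finset.sum_filter]
      rfl
    refine (M_mono W ∅ t1).trans ?_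
    rw [T_add, T_add, T_add, T_mul, T_mul, T_mul, T_mul,
      M_shift hUW (fun σ => |H σ - h σ| ^ (2 * r)), M_shift hUW (fun σ => |H σ - M σ| ^ (2 * r))]
    have b1 := mul_le_mul_of_nonneg_left s1 (show 0 ≤ e * e by linarith)
    have b2 := mul_le_mul_of_nonneg_left t2 (show 0 ≤ e * e * e by positivity)
    nlinarith
  have s3 : T β J (fun A => T (1 / 2) W
      (fun σ => (∑ j ∈ J, if j ∈ A then gam β W (P j) h σ else 0) ^ r) ∅) ∅ ≤ C₂ * (N + β * G) := by
    have : T β J (fun A => T (1 / 2) W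
        (fun σ => (∑ j ∈ J, if j ∈ A then gam β W (P j) h σ else 0) ^ r) ∅) ∅
        = T (1 / 2) W (fun σ => T β J
          (fun A => (∑ j ∈ J, if j ∈ A then gam β W (P j) h σ else 0) ^ r) ∅) ∅ := by
      simp only [T, Finset.smul_sum]
      rw [Finset.sum_comm]
      exact Finset.sum_congr rfl fun _ _ => Finset.sum_congr rfl fun _ _ => smul_comm _ _ _
    rw [this, hN, hG, ← T_mul, ← T_add, ← T_mul]
    refine M_mono _ _ fun σ => (hR β h0.le (by linarith) J (fun j => gam β W (P j) h σ)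
      fun j => gam_nonneg _ _ _ _ _).trans ?_
    refine mul_le_mul_of_nonneg_left (add_le_add ?_ le_rfl) (by linarith)
    have u1 : ∑ j ∈ J, gam β W (P j) h σ = gam β W (J.biUnion P) h σ := (Finset.sum_biUnion hd).symm
    have u2 := gam_rpow_le h0 h1 hr (Finset.biUnion_subset.2 hPW) h (k := fun _ => h σ)
      (fun _ _ _ => rfl) σ
    have u3 : 0 ≤ T β W (fun s => |h s - h σ| ^ (2 * r)) σ :=
      T_nonneg h0.le (by linarith) _ _ fun s => by positivity
    rw [u1, Real.mul_rpow h0.le (gam_nonneg _ _ _ _ _)]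
    refine (mul_le_mul_of_nonneg_left u2 (by positivity)).trans ?_
    rw [← mul_assoc, ← Real.mul_rpow h0.le (by positivity)]
    refine mul_le_of_le_one_left u3 (Real.rpow_le_one (by positivity) ?_ (by linarith))
    rw [mul_inv, mul_left_comm, mul_inv_cancel₀ h0.ne']
    norm_num
  refine (T_mono h0.le (by linarith) J ∅ s2).trans ?_
  rw [T_add, T_const, T_mul]
  have b1 := mul_le_mul_of_nonneg_left s3 (show 0 ≤ 2 * (e * e * e) * C₁ by positivity)
  have b2 : 0 ≤ 2 * (e * e) * (β * G) := by positivity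
  nlinarith

end Pool.Agent.MP_fc1aea_an

end

-- part MP_fc1aea_an.Cube2
section

open MeasureTheory Filter Topology
open scoped ENNReal symmDiff

namespace Pool.Agent.MP_fc1aea_an

open Pool.Agent.Lib.LpDual

variable {Ω : Type*} [MeasurableSpace Ω] {m : Measure Ω} {α : Type*} [DecidableEq α]

theorem integrable_T (δ : ℝ) (U : Finset α) {f : Finset α → Ω → ℝ} (hf : ∀ s, Integrable (f s) m)
    (σ : Finset α) : Integrable (fun t => T δ U (fun s => f s t) σ) m :=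
  integrable_finsetSum _ fun _ _ => (hf _).const_mul _

theorem integral_T (δ : ℝ) (U : Finset α) {f : Finset α → Ω → ℝ} (hf : ∀ s, Integrable (f s) m)
    (σ : Finset α) :
    ∫ t, T δ U (fun s => f s t) σ ∂m = T δ U (fun s => ∫ t, f s t ∂m) σ := by
  simp only [T, smul_eq_mul]
  rw [integral_finsetSum _ fun τ _ => (hf _).const_mul _]
  simp only [integral_const_mul]

variable {p : ℝ≥0∞}

theorem coe_T (δ : ℝ) (U : Finset α) (Φ : Finset α → Lp ℝ p m) (σ : Finset α) :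
    ∀ᵐ t ∂m, (T δ U Φ σ : Lp ℝ p m) t = T δ U (fun s => Φ s t) σ := by
  have h : ∀ᵐ t ∂m, ∀ τ ∈ U.powerset, (wt δ U τ • Φ (σ ∆ τ) : Lp ℝ p m) t = wt δ U τ • Φ (σ ∆ τ) t :=
    (ae_ball_iff U.powerset.countable_toSet).2 fun τ _ => Lp.coeFn_smul _ _
  filter_upwards [h, Lp.coeFn_fun_finsetSum U.powerset fun τ => wt δ U τ • Φ (σ ∆ τ)] with t h1 h2
  exact h2.trans (Finset.sum_congr rfl h1)

theorem coe_D (v : α) (Φ : Finset α → Lp ℝ p m) (σ : Finset α) :
    ∀ᵐ t ∂m, (D v Φ σ : Lp ℝ p m) t = D v (fun s => Φ s t) σ := by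
  filter_upwards [Lp.coeFn_smul (1 / 2 : ℝ) (Φ σ - Φ (σ ∆ {v})), Lp.coeFn_sub (Φ σ) (Φ (σ ∆ {v}))]
    with t h1 h2
  rw [D, h1, Pi.smul_apply, h2]
  rfl

variable (q : ℝ≥0∞) [ENNReal.HolderTriple p p q]

/-- The `L_q` valued squared gradient. -/
noncomputable def Gam (β : ℝ) (W P : Finset α) (Φ : Finset α → Lp ℝ p m) (σ : Finset α) :
    Lp ℝ q m := ∑ v ∈ P, sq q (D v (T β W Φ) σ)

theorem coe_Gam (β : ℝ) (W P : Finset α) (Φ : Finset α → Lp ℝ p m) (σ : Finset α) :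
    ∀ᵐ t ∂m, Gam q β W P Φ σ t = gam β W P (fun s => Φ s t) σ := by
  have h : ∀ᵐ t ∂m, ∀ v ∈ P, sq q (D v (T β W Φ) σ) t = D v (T β W fun s => Φ s t) σ ^ 2 := by
    refine (ae_ball_iff P.countable_toSet).2 fun v _ => ?_
    filter_upwards [coeFn_sq q (D v (T β W Φ) σ), coe_D v (T β W Φ) σ, coe_T β W Φ σ,
      coe_T β W Φ (σ ∆ {v})] with t h1 h2 h3 h4
    rw [h1, h2]
    simp only [D, h3, h4]
  filter_upwards [h, Lp.coeFn_fun_finsetSum P fun v => sq q (D v (T β W Φ) σ)] with t h1 h2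
  exact h2.trans (Finset.sum_congr rfl h1)

theorem Gam_nonneg (β : ℝ) (W P : Finset α) (Φ : Finset α → Lp ℝ p m) (σ : Finset α) :
    0 ≤ Gam q β W P Φ σ := Finset.sum_nonneg fun _ _ => sq_nonneg' q _

theorem Gam_inv (β : ℝ) (W P : Finset α) {Φ : Finset α → Lp ℝ p m} {v : α} (h : Inv v Φ) :
    Inv v (Gam q β W P Φ) := fun σ =>
  Finset.sum_congr rfl fun w _ => by rw [(h.T β W).D (w := w) σ]

theorem Gam_le (β : ℝ) (W P : Finset α) (Φ Ψ : Finset α → Lp ℝ p m) (σ : Finset α) :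
    Gam q β W P Φ σ
      ≤ (2 : ℝ) • Gam q β W P Ψ σ + (2 : ℝ) • Gam q β W P (fun s => Φ s - Ψ s) σ := by
  unfold Gam
  rw [Finset.smul_sum, Finset.smul_sum, ← Finset.sum_add_distrib]
  refine Finset.sum_le_sum fun v _ => ?_
  have e : (T β W fun s => Φ s - Ψ s) = fun s => T β W Φ s - T β W Ψ s := by
    funext s; exact T_sub β W Φ Ψ s
  rw [e, D_sub]
  generalize D v (T β W Φ) σ = a
  generalize D v (T β W Ψ) σ = b
  rw [← Lp.coeFn_le]
  filter_upwards [coeFn_sq q a, coeFn_sq q b, coeFn_sq q (a - b), Lp.coeFn_sub a b,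
    Lp.coeFn_add ((2 : ℝ) • sq q b) ((2 : ℝ) • sq q (a - b)), Lp.coeFn_smul (2 : ℝ) (sq q b),
    Lp.coeFn_smul (2 : ℝ) (sq q (a - b))] with t h1 h2 h3 h4 h5 h6 h7
  rw [h5, Pi.add_apply, h6, h7, Pi.smul_apply, Pi.smul_apply, h1, h2, h3, h4, Pi.sub_apply]
  simp only [smul_eq_mul]
  nlinarith [sq_nonneg (a t - 2 * b t)]

/-- Enlarging the set of coordinates does not change the gradient. -/
theorem Gam_enlarge (β : ℝ) {W W' : Finset α} (hW : W ⊆ W') (π : α → Prop) [DecidablePred π]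
    {Φ : Finset α → Lp ℝ p m} (h : ∀ v, v ∉ W → Inv v Φ) (σ : Finset α) :
    Gam q β W' (W'.filter π) Φ σ = Gam q β W (W.filter π) Φ σ := by
  have e : T β W' Φ = T β W Φ := funext fun s => T_subset β hW (fun v _ hv => h v hv) s
  unfold Gam
  rw [e]
  refine (Finset.sum_subset (Finset.filter_subset_filter π hW) fun v hv hv' => ?_).symm
  have : v ∉ W := fun h => hv' (Finset.mem_filter.2 ⟨h, (Finset.mem_filter.1 hv).2⟩)
  rw [D_of_inv ((h v this).T β W), sq_zero]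

variable [Fact (1 ≤ p)] [Fact (1 ≤ q)]

theorem norm_sub_rpow (hq : q ≠ ⊤) (f g : Lp ℝ p m) :
    Integrable (fun t => |f t - g t| ^ (2 * q.toReal)) m ∧
      ∫ t, |f t - g t| ^ (2 * q.toReal) ∂m = ‖f - g‖ ^ (2 * q.toReal) := by
  have hp := ne_top_of_half q p hq
  rw [← toReal_eq_two_mul q p]
  have h : (fun t => |(f - g : Lp ℝ p m) t| ^ p.toReal) =ᵐ[m] fun t => |f t - g t| ^ p.toReal := by
    filter_upwards [Lp.coeFn_sub f g] with t ht
    rw [ht, Pi.sub_apply]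
  exact ⟨(integrable_abs_rpow hp _).congr h, by rw [norm_rpow_eq hp, integral_congr_ae h]⟩

omit [Fact (1 ≤ p)] in
theorem norm_Gam_rpow (hq : q ≠ ⊤) (β : ℝ) (W P : Finset α) (Φ : Finset α → Lp ℝ p m)
    (σ : Finset α) : Integrable (fun t => gam β W P (fun s => Φ s t) σ ^ q.toReal) m ∧
      ∫ t, gam β W P (fun s => Φ s t) σ ^ q.toReal ∂m = ‖Gam q β W P Φ σ‖ ^ q.toReal := by
  have h : (fun t => |Gam q β W P Φ σ t| ^ q.toReal)
      =ᵐ[m] fun t => gam β W P (fun s => Φ s t) σ ^ q.toReal := by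
    filter_upwards [coe_Gam q β W P Φ σ] with t ht
    rw [ht, abs_of_nonneg (gam_nonneg _ _ _ _ _)]
  exact ⟨(integrable_abs_rpow hq _).congr h, by rw [norm_rpow_eq hq, integral_congr_ae h]⟩

theorem sum_norm_Gam_le (hq : q ≠ ⊤) {ι : Type*} {β : ℝ} (h0 : 0 < β) (h1 : β ≤ 1 / 2)
    {W : Finset α} {J : Finset ι} {P : ι → Finset α} (hP : ∀ j ∈ J, P j ⊆ W)
    (hd : (J : Set ι).PairwiseDisjoint P) (Φ : Finset α → Lp ℝ p m) {k : Finset α → Lp ℝ p m}
    (hk : ∀ j ∈ J, ∀ v ∈ P j, Inv v k) (σ : Finset α) :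
    ∑ j ∈ J, ‖Gam q β W (P j) Φ σ‖ ^ q.toReal
      ≤ (2 * β)⁻¹ ^ q.toReal * T β W (fun s => ‖Φ s - k s‖ ^ (2 * q.toReal)) σ := by
  have i1 := fun j => norm_Gam_rpow q hq β W (P j) Φ σ
  have i2 := fun s => norm_sub_rpow q hq (Φ s) (k s)
  simp only [← fun j => (i1 j).2, ← fun s => (i2 s).2]
  rw [← integral_finsetSum _ fun j _ => (i1 j).1, ← integral_T _ _ fun s => (i2 s).1,
    ← integral_const_mul]
  refine integral_mono (integrable_finsetSum _ fun j _ => (i1 j).1)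
    ((integrable_T _ _ (fun s => (i2 s).1) σ).const_mul _) fun t => ?_
  exact sum_gam_rpow_le h0 h1 (one_le_toReal hq) hP hd (fun s => Φ s t) (k := fun s => k s t)
    (fun j hj v hv s => by simp only [hk j hj v hv s]) σ

end Pool.Agent.MP_fc1aea_an

namespace Pool.Agent.MP_fc1aea_an

theorem flip_groups_Lp {p : ℝ≥0∞} (q : ℝ≥0∞) [ENNReal.HolderTriple p p q] [Fact (1 ≤ p)]
    [Fact (1 ≤ q)] (hq : q ≠ ⊤) : ∃ C : ℝ, 1 ≤ C ∧
    ∀ {Ω : Type} [MeasurableSpace Ω] (m : Measure Ω) {α ι : Type} [DecidableEq α] [DecidableEq ι]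
      (β : ℝ), 0 < β → β ≤ 1 / 2 →
      ∀ (W : Finset α) (J : Finset ι) (P : ι → Finset α), (∀ j ∈ J, P j ⊆ W) →
      (J : Set ι).PairwiseDisjoint P → ∀ (Φ : Finset α → Lp ℝ p m),
      T β J (fun A => T (1 / 2) W
          (fun σ => ‖Φ (σ ∆ (J ∩ A).biUnion P) - Φ σ‖ ^ (2 * q.toReal)) ∅) ∅
        ≤ C * (T (1 / 2) W (fun σ => T β W (fun s => ‖Φ s - Φ σ‖ ^ (2 * q.toReal)) σ) ∅
          + β * T (1 / 2) W (fun σ => ∑ j ∈ J, ‖Gam q β W (P j) Φ σ‖ ^ q.toReal) ∅) := by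
  obtain ⟨C, hC, h⟩ := flip_groups (one_le_toReal hq)
  refine ⟨C, hC, ?_⟩
  intro Ω _ m α ι _ _ β h0 h1 W J P hP hd Φ
  have i1 := fun j σ => norm_Gam_rpow q hq β W (P j) Φ σ
  have i2 := fun s s' => norm_sub_rpow q hq (Φ s) (Φ s')
  simp only [← fun j σ => (i1 j σ).2, ← fun s s' => (i2 s s').2]
  have a1 := fun A : Finset ι => integrable_T (1 / 2) W
    (fun σ => (i2 (σ ∆ (J ∩ A).biUnion P) σ).1) ∅
  have a2 := fun σ => integrable_T β W (fun s => (i2 s σ).1) σ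
  have a3 := fun σ => integrable_finsetSum J fun j _ => (i1 j σ).1
  have a4 := integrable_T (1 / 2) W a2 ∅
  have a5 := (integrable_T (1 / 2) W a3 ∅).const_mul β
  have b1 := fun A : Finset ι => integral_T (1 / 2) W
    (fun σ => (i2 (σ ∆ (J ∩ A).biUnion P) σ).1) ∅
  have b2 := fun σ => integral_T β W (fun s => (i2 s σ).1) σ
  have b3 := fun σ => integral_finsetSum J fun j _ => (i1 j σ).1
  simp only [← b1, ← b2, ← b3]
  rw [← integral_T _ _ a1, ← integral_T _ _ a2, ← integral_T _ _ a3, ← integral_const_mul,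
    ← integral_add a4 a5, ← integral_const_mul]
  exact integral_mono (integrable_T _ _ a1 ∅) ((a4.add a5).const_mul C) fun t =>
    h β h0 h1 W J P hP hd fun s => Φ s t

end Pool.Agent.MP_fc1aea_an

end

-- part MP_fc1aea_an.Cube3
section

open scoped symmDiff

namespace Pool.Agent.MP_fc1aea_an

theorem T_swap {α ι : Type*} [DecidableEq α] [DecidableEq ι] (δ δ' : ℝ) (U : Finset α)
    (J : Finset ι) (f : Finset α → Finset ι → ℝ) (σ : Finset α) (A : Finset ι) :
    T δ U (fun s => T δ' J (f s) A) σ = T δ' J (fun B => T δ U (fun s => f s B) σ) A := by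
  simp only [T, Finset.smul_sum]
  rw [Finset.sum_comm]
  exact Finset.sum_congr rfl fun _ _ => Finset.sum_congr rfl fun _ _ => smul_comm _ _ _

theorem T_eq_empty {α : Type*} [DecidableEq α] (δ : ℝ) (U : Finset α) (h : Finset α → ℝ)
    (σ : Finset α) : T δ U h σ = T δ U (fun τ => h (σ ∆ τ)) ∅ := by
  simp [T]

theorem T_indicator {α : Type*} [DecidableEq α] (δ : ℝ) {U : Finset α} {j : α} (hj : j ∈ U) :
    T δ U (fun A => if j ∈ A then (1 : ℝ) else 0) ∅ = δ := by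
  rw [T_subset δ (Finset.singleton_subset_iff.2 hj), ← Finset.insert_empty,
    T_insert δ (Finset.notMem_empty j), T_empty]
  · simp
  · intro v _ hv s
    have : j ≠ v := fun h => hv (h ▸ Finset.mem_singleton_self j)
    simp [Finset.mem_symmDiff, this]

theorem lin_filter {α : Type*} [DecidableEq α] (W : Finset α) (π : α → Prop) [DecidablePred π]
    (y : α → ℝ) (σ : Finset α) :
    lin (W.filter π) y σ = lin W (fun v => if π v then y v else 0) σ := by
  unfold lin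
  rw [Finset.sum_filter]
  exact Finset.sum_congr rfl fun v _ => by by_cases h : π v <;> simp [h]

theorem lin_symmDiff_sub {α : Type*} [DecidableEq α] (W : Finset α) (y : α → ℝ) (σ τ : Finset α) :
    lin W y (σ ∆ τ) - lin W y σ = lin W (fun v => if v ∈ τ then -2 * y v else 0) σ := by
  unfold lin
  rw [← Finset.sum_sub_distrib]
  refine Finset.sum_congr rfl fun v _ => ?_
  rw [sg_symmDiff]
  by_cases h : v ∈ τ
  · simp only [sg, if_pos h]; ring
  · simp only [sg, if_neg h]; ring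

/-- Dyadic step functions in a normed space. -/
structure Steps (E : Type*) [NormedAddCommGroup E] [NormedSpace ℝ E] (r : ℝ) where
  st : ℕ → (ℕ → ℝ) →ₗ[ℝ] E
  norm_st : ∀ N f, ‖st N f‖ ^ (2 * r) = ∑ J ∈ V N, len J * |f J| ^ (2 * r)
  succ : ∀ N f, st (N + 1) (fun J => f (J / 2)) = st N f

/-- The cells with level in `S` that contain the cell `J`. -/
noncomputable def path (S : Finset ℕ) (J : ℕ) : Finset ℕ := (VS S).filter fun v => Desc v J

theorem sum_path {M : Type*} [AddCommMonoid M] {S : Finset ℕ} {N J : ℕ} (hS : ∀ a ∈ S, a ≤ N)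
    (hJ : J ∈ V N) (f : ℕ → M) : ∑ v ∈ path S J, f v = ∑ a ∈ S, f (J / 2 ^ (N - a)) := by
  rw [path, Finset.sum_filter, sum_VS]
  refine Finset.sum_congr rfl fun a ha => ?_
  have h1 : J / 2 ^ (N - a) ∈ V a := div_mem_V (by rwa [Nat.add_sub_cancel' (hS a ha)])
  rw [Finset.sum_eq_single (J / 2 ^ (N - a)), if_pos (desc_div _ _)]
  · intro v hv hne
    exact if_neg fun h => hne ((desc_iff hv hJ).1 h).2.symm
  · exact fun h => absurd h1 h

theorem card_path {S : Finset ℕ} {N J : ℕ} (hS : ∀ a ∈ S, a ≤ N) (hJ : J ∈ V N) :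
    (path S J).card = S.card := by
  rw [Finset.card_eq_sum_ones, sum_path hS hJ, ← Finset.card_eq_sum_ones]

theorem sum_len_filter_le (S : Finset ℕ) (j : ℕ) :
    ∑ v ∈ (VS S).filter (Desc j), len v ≤ S.card * len j := by
  rw [Finset.sum_filter, sum_VS, ← nsmul_eq_mul]
  refine Finset.sum_le_card_nsmul _ _ _ fun a _ => ?_
  rw [← Finset.sum_filter]
  rcases Nat.eq_zero_or_pos j with rfl | hj
  · have : len 0 = 1 := by simp [len]
    rw [this, ← sum_len a]
    exact Finset.sum_le_sum_of_subset_of_nonneg (Finset.filter_subset _ _)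
      fun _ _ _ => (len_pos _).le
  · rcases le_or_gt (Nat.log 2 j) a with h | h
    · exact (sum_len_desc (mem_V_log hj) h).le
    · rw [Finset.filter_false_of_mem, Finset.sum_empty]
      · exact (len_pos j).le
      · intro v hv hd
        have := ((desc_iff (mem_V_log hj) hv).1 hd).1
        omega

namespace Steps

variable {E : Type*} [NormedAddCommGroup E] [NormedSpace ℝ E] {r : ℝ} (s : Steps E r)

theorem lift (a l : ℕ) (f : ℕ → ℝ) : s.st (a + l) (fun J => f (J / 2 ^ l)) = s.st a f := by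
  induction l with
  | zero => simp
  | succ l ih =>
    rw [← ih, ← s.succ (a + l)]
    simp only [Nat.div_div_eq_div_mul, ← pow_succ']
    rfl

theorem congr (hr : 1 ≤ r) {N : ℕ} {f g : ℕ → ℝ} (h : ∀ J ∈ V N, f J = g J) :
    s.st N f = s.st N g := by
  have e := s.norm_st N (f - g)
  rw [Finset.sum_eq_zero fun J hJ => by
    rw [Pi.sub_apply, h J hJ, sub_self, abs_zero, Real.zero_rpow (by linarith), mul_zero],
    Real.rpow_eq_zero (norm_nonneg _) (by linarith), norm_eq_zero, map_sub] at e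
  exact sub_eq_zero.1 e

theorem norm_sg (hr : 1 ≤ r) (a : ℕ) (σ : Finset ℕ) : ‖s.st a (sg σ)‖ = 1 := by
  have e := s.norm_st a (sg σ)
  simp only [abs_sg, Real.one_rpow, mul_one, sum_len] at e
  have h := Real.rpow_left_injOn (x := 2 * r) (by linarith) (norm_nonneg (s.st a (sg σ)))
    (show (0 : ℝ) ≤ 1 by norm_num)
  exact h (by simpa using e)

/-- The random step function with levels in `S` and signs `σ`. -/
noncomputable def x (c : ℝ) (S σ : Finset ℕ) : E := ∑ a ∈ S, c • s.st a (sg σ)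

theorem x_eq (hr : 1 ≤ r) (c : ℝ) {S : Finset ℕ} {N : ℕ} (hS : ∀ a ∈ S, a ≤ N) (σ : Finset ℕ) :
    s.x c S σ = s.st N fun J => lin (path S J) (fun _ => c) σ := by
  rw [s.congr hr (g := ∑ a ∈ S, c • fun J => sg σ (J / 2 ^ (N - a))) fun J hJ => by
    simp [lin, sum_path hS hJ, mul_comm], map_sum]
  refine Finset.sum_congr rfl fun a ha => ?_
  rw [map_smul, ← s.lift a (N - a), Nat.add_sub_cancel' (hS a ha)]

theorem norm_x_sub (hr : 1 ≤ r) (c : ℝ) {S : Finset ℕ} {N : ℕ} (hS : ∀ a ∈ S, a ≤ N)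
    (σ τ : Finset ℕ) : ‖s.x c S (σ ∆ τ) - s.x c S σ‖ ^ (2 * r) = ∑ J ∈ V N, len J *
      |lin (path S J) (fun v => if v ∈ τ then -2 * c else 0) σ| ^ (2 * r) := by
  rw [s.x_eq hr c hS, s.x_eq hr c hS, ← map_sub, s.norm_st]
  simp only [Pi.sub_apply, lin_symmDiff_sub]

theorem inv_x (hr : 1 ≤ r) (c : ℝ) {S : Finset ℕ} {v : ℕ} (hv : v ∉ VS S) : Inv v (s.x c S) :=
  fun σ => Finset.sum_congr rfl fun a ha => by
    rw [s.congr hr (g := sg σ) fun J hJ => inv_sg (fun h : v = J => hv (mem_VS.2 ⟨a, ha, h ▸ hJ⟩)) σ]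

theorem norm_x_swap (hr : 1 ≤ r) {c : ℝ} (hc : 0 ≤ c) {S : Finset ℕ} {a b : ℕ} (ha : a ∈ S)
    (hb : b ∉ S) (σ : Finset ℕ) : ‖s.x c S σ - s.x c (insert b (S.erase a)) σ‖ ≤ 2 * c := by
  unfold x
  rw [Finset.sum_insert fun h => hb (Finset.mem_of_mem_erase h), ← Finset.add_sum_erase S _ ha,
    add_sub_add_right_eq_sub]
  refine (norm_sub_le _ _).trans ?_
  rw [norm_smul, norm_smul, s.norm_sg hr, s.norm_sg hr, Real.norm_of_nonneg hc]
  linarith

theorem norm_x_flip (hr : 1 ≤ r) {c : ℝ} (hc : 0 ≤ c) (S σ τ : Finset ℕ) :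
    ‖s.x c S (σ ∆ τ) - s.x c S σ‖ ^ (2 * r)
      ≤ (2 * c * S.card) ^ (2 * r) * ∑ v ∈ (VS S).filter (· ∈ τ), len v := by
  have hS : ∀ a ∈ S, a ≤ S.sup id := fun a ha => Finset.le_sup (f := id) ha
  rw [s.norm_x_sub hr c hS]
  have e : ∑ v ∈ (VS S).filter (· ∈ τ), len v = ∑ J ∈ V (S.sup id), len J *
      ∑ v ∈ (VS S).filter (· ∈ τ), if Desc v J then (1 : ℝ) else 0 := by
    simp only [Finset.mul_sum]
    rw [Finset.sum_comm]
    refine Finset.sum_congr rfl fun v hv => ?_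
    obtain ⟨a, ha, hva⟩ := mem_VS.1 (Finset.mem_filter.1 hv).1
    rw [← sum_len_desc hva (hS a ha), Finset.sum_filter]
    exact Finset.sum_congr rfl fun J _ => by split_ifs <;> simp
  rw [e, Finset.mul_sum]
  refine Finset.sum_le_sum fun J hJ => ?_
  rw [mul_left_comm]
  refine mul_le_mul_of_nonneg_left ?_ (len_pos J).le
  have p1 : ∀ v ∈ (VS S).filter (· ∈ τ), (0 : ℝ) ≤ if Desc v J then 1 else 0 := fun v _ => by
    split_ifs <;> norm_num
  by_cases h : ∃ v ∈ path S J, v ∈ τ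
  · obtain ⟨v, hv, hvτ⟩ := h
    have h1 := Finset.single_le_sum p1
      (Finset.mem_filter.2 ⟨(Finset.mem_filter.1 hv).1, hvτ⟩)
    rw [if_pos (Finset.mem_filter.1 hv).2] at h1
    refine le_trans ?_ (le_mul_of_one_le_right (by positivity) h1)
    refine Real.rpow_le_rpow (abs_nonneg _) ((Finset.abs_sum_le_sum_abs _ _).trans ?_) (by linarith)
    rw [← card_path hS hJ, mul_comm (2 * c), ← nsmul_eq_mul]
    refine Finset.sum_le_card_nsmul _ _ _ fun w _ => ?_
    beta_reduce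
    rw [abs_mul, abs_sg, one_mul]
    split_ifs
    · rw [abs_mul, abs_of_nonneg hc]; norm_num
    · simpa using hc
  · have : lin (path S J) (fun v => if v ∈ τ then -2 * c else 0) σ = 0 :=
      Finset.sum_eq_zero fun v hv => by
        beta_reduce
        rw [if_neg fun hτ => h ⟨v, hv, hτ⟩, mul_zero]
    rw [this, abs_zero, Real.zero_rpow (by linarith)]
    exact mul_nonneg (by positivity) (Finset.sum_nonneg p1)

theorem x_lower (hr : 1 ≤ r) {c β : ℝ} (h0 : 0 ≤ β) (h1 : β ≤ 1) {S : Finset ℕ}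
    (hc : c ^ 2 * S.card = 1) {N₀ : ℕ} (hN : ∀ a ∈ S, N₀ ≤ a) :
    β ≤ T β (V N₀) (fun A => T (1 / 2) (VS S) (fun σ =>
      ‖s.x c S (σ ∆ (V N₀ ∩ A).biUnion fun j => (VS S).filter (Desc j)) - s.x c S σ‖ ^ (2 * r))
        ∅) ∅ := by
  set N := max N₀ (S.sup id) with hNdef
  have hS : ∀ a ∈ S, a ≤ N := fun a ha => le_max_of_le_right (Finset.le_sup (f := id) ha)
  simp only [s.norm_x_sub hr c hS, T_sum, T_mul]
  calc β = ∑ J ∈ V N, len J * β := by rw [← Finset.sum_mul, sum_len, one_mul]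
    _ ≤ _ := Finset.sum_le_sum fun J hJ => mul_le_mul_of_nonneg_left ?_ (len_pos J).le
  have hj : J / 2 ^ (N - N₀) ∈ V N₀ := div_mem_V (by rwa [Nat.add_sub_cancel' (le_max_left _ _)])
  refine (T_indicator β hj).ge.trans (T_mono h0 h1 _ _ fun A => ?_)
  split_ifs with hA
  swap
  · exact M_nonneg _ _ fun _ => by positivity
  simp only [abs_rpow_two_mul]
  refine le_trans ?_ (T_rpow_le (by norm_num) (by norm_num) _ _ (fun _ => sq_nonneg _) hr)
  refine Real.one_le_rpow ?_ (by linarith)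
  simp only [path, lin_filter, M_lin_sq]
  have : ∑ v ∈ VS S, (if Desc v J then (if v ∈ (V N₀ ∩ A).biUnion fun j => (VS S).filter (Desc j)
      then -2 * c else 0) else 0) ^ 2 = ∑ v ∈ path S J, 4 * c ^ 2 := by
    rw [path, Finset.sum_filter]
    refine Finset.sum_congr rfl fun v hv => ?_
    by_cases h : Desc v J
    · obtain ⟨a, ha, hva⟩ := mem_VS.1 hv
      have h2 : Desc (J / 2 ^ (N - N₀)) v := by
        rcases h.total (desc_div J (N - N₀)) with h3 | h3
        · have h4 := (desc_iff hva hj).1 h3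
          have : a = N₀ := le_antisymm h4.1 (hN a ha)
          subst this
          rw [← h4.2]; simpa using Desc.refl _
        · exact h3
      rw [if_pos h, if_pos h, if_pos (Finset.mem_biUnion.2
        ⟨_, Finset.mem_inter.2 ⟨hj, hA⟩, Finset.mem_filter.2 ⟨hv, h2⟩⟩)]
      ring
    · simp [h]
  rw [this, Finset.sum_const, card_path hS hJ, nsmul_eq_mul]
  nlinarith

end Steps

theorem x_smooth {r : ℝ} (hr : 1 ≤ r) : ∃ C : ℝ, 1 ≤ C ∧
    ∀ {E : Type} [NormedAddCommGroup E] [NormedSpace ℝ E] (s : Steps E r) (c β : ℝ), 0 ≤ β → β ≤ 1 →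
      ∀ S : Finset ℕ, c ^ 2 * S.card = 1 → c ^ 2 ≤ β →
      T (1 / 2) (VS S) (fun σ => T β (VS S) (fun ρ => ‖s.x c S ρ - s.x c S σ‖ ^ (2 * r)) σ) ∅
        ≤ C * β ^ r := by
  obtain ⟨C₁, hC₁, hK⟩ := khintchine hr
  obtain ⟨C₂, hC₂, hR⟩ := rosenthal hr
  have h4 : (1 : ℝ) ≤ 4 ^ r := Real.one_le_rpow (by norm_num) (by linarith)
  refine ⟨C₁ * (C₂ * (2 * 4 ^ r)), one_le_mul_of_one_le_of_one_le hC₁
    (one_le_mul_of_one_le_of_one_le hC₂ (by linarith)), ?_⟩
  intro E _ _ s c β h0 h1 S hc hβ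
  have hS : ∀ a ∈ S, a ≤ S.sup id := fun a ha => Finset.le_sup (f := id) ha
  simp only [fun σ => T_eq_empty β (VS S) (fun ρ => ‖s.x c S ρ - s.x c S σ‖ ^ (2 * r)) σ]
  rw [T_swap]
  simp only [s.norm_x_sub hr c hS, T_sum, T_mul]
  refine le_trans (Finset.sum_le_sum fun J hJ => mul_le_mul_of_nonneg_left ?_ (len_pos J).le)
    (le_of_eq (by rw [← Finset.sum_mul, sum_len, one_mul]))
  set y : ℕ → ℝ := fun v => if Desc v J then 4 * c ^ 2 else 0 with hy
  have hy0 : ∀ v, 0 ≤ y v := fun v => by simp only [hy]; split_ifs <;> positivity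
  calc _ ≤ T β (VS S) (fun τ => C₁ * (∑ v ∈ VS S, if v ∈ τ then y v else 0) ^ r) ∅ := by
        refine T_mono h0 h1 _ _ fun τ => ?_
        simp only [path, lin_filter]
        refine (hK _ _ _).trans (le_of_eq ?_)
        congr 2
        refine Finset.sum_congr rfl fun v _ => ?_
        simp only [hy]
        split_ifs <;> ring
    _ ≤ C₁ * (C₂ * ((β * ∑ v ∈ VS S, y v) ^ r + β * ∑ v ∈ VS S, y v ^ r)) := by
        rw [T_mul]
        exact mul_le_mul_of_nonneg_left (hR β h0 h1 _ y hy0) (by linarith)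
    _ ≤ _ := by
        have e1 : ∑ v ∈ VS S, y v = 4 := by
          rw [hy, ← Finset.sum_filter, Finset.sum_const, show (VS S).filter (Desc · J) = path S J
            from rfl, card_path hS hJ, nsmul_eq_mul]
          linarith
        have e2 : ∑ v ∈ VS S, y v ^ r = S.card * (4 * c ^ 2) ^ r := by
          rw [← card_path hS hJ, ← nsmul_eq_mul, ← Finset.sum_const, path, Finset.sum_filter]
          refine Finset.sum_congr rfl fun v _ => ?_
          simp only [hy]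
          split_ifs
          · rfl
          · exact Real.zero_rpow (by linarith)
        have e3 : (c ^ 2) ^ r = (c ^ 2) ^ (r - 1) * c ^ 2 := by
          rw [← Real.rpow_add_one' (sq_nonneg c) (by linarith)]; congr 1; ring
        have e4 : β ^ r = β ^ (r - 1) * β := by
          rw [← Real.rpow_add_one' h0 (by linarith)]; congr 1; ring
        have e5 : (c ^ 2) ^ (r - 1) ≤ β ^ (r - 1) := Real.rpow_le_rpow (sq_nonneg c) hβ (by linarith)
        have e6 : β * (S.card * (4 * c ^ 2) ^ r) ≤ 4 ^ r * β ^ r := by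
          rw [Real.mul_rpow (by norm_num) (sq_nonneg c), e3, e4]
          calc _ = 4 ^ r * ((c ^ 2) ^ (r - 1) * β) * (c ^ 2 * S.card) := by ring
            _ ≤ _ := by rw [hc, mul_one]; gcongr
        rw [e1, e2, Real.mul_rpow h0 (by norm_num), mul_assoc, mul_assoc]
        gcongr
        linarith

end Pool.Agent.MP_fc1aea_an

end

-- part MP_fc1aea_an.Index
section

open MeasureTheory Filter Topology
open scoped ENNReal symmDiff

namespace Pool.Agent.MP_fc1aea_an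

open Pool.Agent.Lib.LpDual

variable {Ω : Type*} [MeasurableSpace Ω] {m : Measure Ω} {q : ℝ≥0∞} [Fact (1 ≤ q)]

/-- A weak limit along the hyperfilter (when there is one). -/
noncomputable def wl (F : ℕ → Lp ℝ q m) : Lp ℝ q m :=
  Classical.epsilon fun y => ∀ ℓ : Lp ℝ q m →L[ℝ] ℝ,
    Tendsto (fun b => ℓ (F b)) (hyperfilter ℕ) (𝓝 (ℓ y))

/-- Iterated weak limits of averages. -/
noncomputable def iterU (g : Finset ℕ → Finset ℕ → ℕ → Lp ℝ q m) :
    ℕ → Finset ℕ → Finset ℕ → ℕ → Lp ℝ q m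
  | 0 => g
  | r + 1 => fun R σ j => wl fun b => T (1 / 2) (V b) (fun s => iterU g r (insert b R) s j) σ

theorem iterU_inv {g : Finset ℕ → Finset ℕ → ℕ → Lp ℝ q m}
    (g1 : ∀ S j v, v ∉ VS S → Inv v (fun σ => g S σ j)) (r : ℕ) :
    ∀ R j v, v ∉ VS R → Inv v (fun σ => iterU g r R σ j) := by
  induction r with
  | zero => exact g1
  | succ r ih =>
    intro R j v hv σ
    simp only [iterU]
    congr 1
    funext b
    by_cases hb : v ∈ V b
    · exact inv_M hb _ σ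
    · exact (ih (insert b R) j v (by rw [VS_insert]; simp [hb, hv])).T _ _ σ

variable [IsFiniteMeasure m]

theorem wl_spec (hq1 : 1 < q) (hq : q ≠ ⊤) {F : ℕ → Lp ℝ q m} {C : ℝ}
    (hF : ∀ᶠ b in (hyperfilter ℕ : Filter ℕ), ‖F b‖ ≤ C) (ℓ : Lp ℝ q m →L[ℝ] ℝ) :
    Tendsto (fun b => ℓ (F b)) (hyperfilter ℕ) (𝓝 (ℓ (wl F))) :=
  Classical.epsilon_spec (exists_weak_lim hq1 hq (hyperfilter ℕ) F C hF) ℓ

section

variable (hq1 : 1 < q) (hq : q ≠ ⊤) {n : ℕ} {g : Finset ℕ → Finset ℕ → ℕ → Lp ℝ q m} {ω : ℕ → ℝ}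
  (g3 : ∀ S σ j, S.card = n → ‖g S σ j‖ ≤ ω j)

include hq1 hq g3

theorem iterU_norm (r : ℕ) : ∀ R σ j, R.card + r = n → ‖iterU g r R σ j‖ ≤ ω j := by
  induction r with
  | zero => exact fun R σ j h => g3 R σ j h
  | succ r ih =>
    intro R σ j h
    have h1 : ∀ᶠ b in (hyperfilter ℕ : Filter ℕ),
        T (1 / 2) (V b) (fun s => iterU g r (insert b R) s j) σ ∈ Metric.closedBall 0 (ω j) := by
      filter_upwards [eventually_notMem R 0] with b hb
      refine T_mem (by norm_num) (by norm_num) _ _ (convex_closedBall _ _) fun s => ?_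
      rw [mem_closedBall_zero_iff]
      exact ih _ _ _ (by rw [Finset.card_insert_of_notMem hb.1]; omega)
    rw [← mem_closedBall_zero_iff]
    exact mem_of_weak_lim (wl_spec hq1 hq (h1.mono fun b hb => mem_closedBall_zero_iff.1 hb))
      (convex_closedBall _ _) Metric.isClosed_closedBall h1

theorem iterU_spec {r : ℕ} {R : Finset ℕ} (h : R.card + (r + 1) = n) (σ : Finset ℕ) (j : ℕ)
    (ℓ : Lp ℝ q m →L[ℝ] ℝ) :
    Tendsto (fun b => ℓ (T (1 / 2) (V b) (fun s => iterU g r (insert b R) s j) σ)) (hyperfilter ℕ)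
      (𝓝 (ℓ (iterU g (r + 1) R σ j))) := by
  refine wl_spec hq1 hq (C := ω j) ?_ ℓ
  filter_upwards [eventually_notMem R 0] with b hb
  rw [← mem_closedBall_zero_iff]
  refine T_mem (by norm_num) (by norm_num) _ _ (convex_closedBall _ _) fun s => ?_
  rw [mem_closedBall_zero_iff]
  exact iterU_norm hq1 hq g3 r _ _ _ (by rw [Finset.card_insert_of_notMem hb.1]; omega)

theorem iterU_nonneg (g0 : ∀ S σ j, 0 ≤ g S σ j) (r : ℕ) :
    ∀ R σ j, R.card + r = n → 0 ≤ iterU g r R σ j := by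
  induction r with
  | zero => exact fun R σ j _ => g0 R σ j
  | succ r ih =>
    intro R σ j h
    refine mem_of_weak_lim (iterU_spec hq1 hq g3 h σ j) convex_nonneg isClosed_Ici ?_
    filter_upwards [eventually_notMem R 0] with b hb
    exact T_mem (by norm_num) (by norm_num) _ _ convex_nonneg fun s =>
      ih _ _ _ (by rw [Finset.card_insert_of_notMem hb.1]; omega)

theorem iterU_add (g2 : ∀ S σ j, 1 ≤ j → j ∉ VS S → g S σ j = g S σ (2 * j) + g S σ (2 * j + 1))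
    (r : ℕ) : ∀ R σ j, R.card + r = n → 1 ≤ j → j ∉ VS R →
      iterU g r R σ j = iterU g r R σ (2 * j) + iterU g r R σ (2 * j + 1) := by
  induction r with
  | zero => exact fun R σ j _ => g2 R σ j
  | succ r ih =>
    intro R σ j h hj hjR
    refine weak_lim_unique (iterU_spec hq1 hq g3 h σ j) fun ℓ => ?_
    rw [map_add]
    refine ((iterU_spec hq1 hq g3 h σ (2 * j) ℓ).add
      (iterU_spec hq1 hq g3 h σ (2 * j + 1) ℓ)).congr' ?_
    filter_upwards [eventually_notMem R j] with b hb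
    rw [← map_add, ← T_add]
    congr 2
    funext s
    refine (ih _ _ _ (by rw [Finset.card_insert_of_notMem hb.1]; omega) hj ?_).symm
    rw [VS_insert, Finset.mem_union, not_or]
    exact ⟨fun h => by have := lt_of_mem_V h; omega, hjR⟩

theorem iterU_mem {K : Set (Lp ℝ q m)} (hK : Convex ℝ K) (hc : IsClosed K) {j a₀ : ℕ}
    (g6 : ∀ S, S.card = n → (∀ a ∈ S, a₀ ≤ a) → T (1 / 2) (VS S) (fun σ => g S σ j) ∅ ∈ K) (r : ℕ) :
    ∀ R, R.card + r = n → (∀ a ∈ R, a₀ ≤ a) →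
      T (1 / 2) (VS R) (fun σ => iterU g r R σ j) ∅ ∈ K := by
  induction r with
  | zero => exact fun R h => g6 R h
  | succ r ih =>
    intro R h hR
    refine mem_of_weak_lim (l := hyperfilter ℕ) (F := fun b => T (1 / 2) (VS R)
      (T (1 / 2) (V b) (fun s => iterU g r (insert b R) s j)) ∅) (fun ℓ => ?_) hK hc ?_
    · simp only [T_clm ℓ _ (VS R)]
      exact tendsto_T _ _ (fun σ => iterU_spec hq1 hq g3 h σ j ℓ) ∅
    · filter_upwards [eventually_notMem R a₀] with b hb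
      rw [← M_VS_insert _ hb.1]
      exact ih _ (by rw [Finset.card_insert_of_notMem hb.1]; omega)
        (by simpa [hb.2] using hR)

theorem iterU_sum_le (g0 : ∀ S σ j, 0 ≤ g S σ j)
    (g2 : ∀ S σ j, 1 ≤ j → j ∉ VS S → g S σ j = g S σ (2 * j) + g S σ (2 * j + 1))
    {r N : ℕ} {R : Finset ℕ} (h : R.card + r = n) (hR : ∀ a ∈ R, N ≤ a) (σ : Finset ℕ) :
    ∑ j ∈ V N, ‖iterU g r R σ j‖ ^ q.toReal ≤ ω 1 ^ q.toReal := by
  have hr := one_le_toReal hq
  have h0 := fun j => iterU_nonneg hq1 hq g3 g0 r R σ j h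
  have h1 : iterU g r R σ 1 = ∑ j ∈ V N, iterU g r R σ j :=
    sum_V_eq fun b j hb hj => iterU_add hq1 hq g3 g2 r R σ j h (one_le_of_mem_V hj) fun hj' => by
      obtain ⟨a, ha, hja⟩ := mem_VS.1 hj'
      have := level_unique hj hja
      have := hR a ha
      omega
  calc _ = ∫ t, ∑ j ∈ V N, |iterU g r R σ j t| ^ q.toReal ∂m := by
        rw [integral_finsetSum _ fun j _ => integrable_abs_rpow hq _]
        exact Finset.sum_congr rfl fun j _ => norm_rpow_eq hq _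
    _ ≤ ∫ t, |iterU g r R σ 1 t| ^ q.toReal ∂m := by
        refine integral_mono_of_nonneg (ae_of_all _ fun t => by positivity)
          (integrable_abs_rpow hq _) ?_
        have h2 : ∀ᵐ t ∂m, ∀ j, 0 ≤ iterU g r R σ j t :=
          ae_all_iff.2 fun j => (Lp.coeFn_nonneg _).2 (h0 j)
        filter_upwards [h2, Lp.coeFn_fun_finsetSum (V N) fun j => iterU g r R σ j] with t ht ht'
        rw [← h1] at ht'
        simp only [abs_of_nonneg (ht _)]
        rw [ht']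
        exact sum_rpow_le_rpow_sum _ hr fun j _ => ht j
    _ ≤ _ := by
        rw [← norm_rpow_eq hq]
        exact Real.rpow_le_rpow (norm_nonneg _) (iterU_norm hq1 hq g3 r R σ 1 h) (by linarith)

/-- The quantity controlled in the downward induction. -/
noncomputable def goodMass (g : Finset ℕ → Finset ℕ → ℕ → Lp ℝ q m) (κ : ℝ) (r N : ℕ)
    (R : Finset ℕ) : ℝ :=
  T (1 / 2) (VS R) (fun σ => ∑ j ∈ V N,
    ∫ t in GoodSet κ R (iterU g r R σ j) (fun a => iterU g (r + 1) (R.erase a) σ j),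
      |iterU g r R σ j t| ^ q.toReal ∂m) ∅

theorem good_base (g0 : ∀ S σ j, 0 ≤ g S σ j)
    (g1 : ∀ S j v, v ∉ VS S → Inv v (fun σ => g S σ j))
    (g2 : ∀ S σ j, 1 ≤ j → j ∉ VS S → g S σ j = g S σ (2 * j) + g S σ (2 * j + 1))
    {c Dl : ℝ} (g4 : ∀ N S, S.card = n → (∀ a ∈ S, N ≤ a) →
      c ≤ T (1 / 2) (VS S) (fun σ => ∑ j ∈ V N, ‖g S σ j‖ ^ q.toReal) ∅)
    (g5 : ∀ N S a b, S.card = n → a ∈ S → b ∉ S → ∃ Δ : Finset ℕ → ℕ → Lp ℝ q m,
      (∀ σ j, 0 ≤ Δ σ j) ∧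
      (∀ σ j, g S σ j ≤ (2 : ℝ) • g (insert b (S.erase a)) σ j + (2 : ℝ) • Δ σ j) ∧
      T (1 / 2) (VS (insert b S)) (fun σ => ∑ j ∈ V N, ‖Δ σ j‖ ^ q.toReal) ∅ ≤ Dl)
    {κ : ℝ} (hκ : 0 ≤ κ) (N : ℕ) (S : Finset ℕ) (hS : S.card = n) (hN : ∀ a ∈ S, N ≤ a) :
    c - n * 4 ^ q.toReal * Dl ≤ goodMass g κ 0 N S + 4 * n * κ * ω 1 ^ q.toReal := by
  have hr := one_le_toReal hq
  rw [← hS]
  refine index_limit hq1 hq S (V N) (g S) (fun a => iterU g 1 (S.erase a)) (fun _ => g S)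
    (fun a b => g (insert b (S.erase a))) (fun v hv j => g1 S j v hv)
    (fun a _ v hv j => iterU_inv g1 1 _ j v fun h => hv (VS_mono (Finset.erase_subset a S) h))
    (fun σ j ℓ => ?_) (fun a ha σ j ℓ => ?_) (g0 S) hκ (by norm_num)
    (fun σ => iterU_sum_le hq1 hq g3 g0 g2 (r := 0) hS hN σ) ?_
  · refine tendsto_const_nhds.congr' ?_
    filter_upwards [eventually_notMem S 0] with b hb
    rw [T_of_inv _ fun v hv => g1 S j v (Finset.disjoint_left.1 (disjoint_V_VS hb.1) hv)]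
  · exact iterU_spec hq1 hq g3 (r := 0) (by rw [Finset.card_erase_add_one ha, hS]) σ j ℓ
  filter_upwards [eventually_notMem S 0] with b hb
  choose! Δ hΔ0 hΔ1 hΔ2 using fun a ha => g5 N S a b hS ha hb.1
  have h1 : c ≤ T (1 / 2) (VS (insert b S)) (fun σ => ∑ j ∈ V N, ‖g S σ j‖ ^ q.toReal) ∅ := by
    rw [T_subset _ (VS_mono (Finset.subset_insert b S))]
    · exact g4 N S hS hN
    · intro v _ hv σ
      refine Finset.sum_congr rfl fun j _ => ?_
      have := g1 S j v hv σ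
      simp only at this
      rw [this]
  have h2 : T (1 / 2) (VS (insert b S))
      (fun σ => 4 ^ q.toReal * ∑ a ∈ S, ∑ j ∈ V N, ‖Δ a σ j‖ ^ q.toReal) ∅
      ≤ S.card * 4 ^ q.toReal * Dl := by
    rw [T_mul, T_sum]
    calc _ ≤ 4 ^ q.toReal * ∑ a ∈ S, Dl :=
          mul_le_mul_of_nonneg_left (Finset.sum_le_sum hΔ2) (by positivity)
      _ = _ := by rw [Finset.sum_const, nsmul_eq_mul]; ring
  rw [sub_le_iff_le_add]
  refine h1.trans (le_trans ?_ (add_le_add le_rfl h2))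
  rw [← T_add]
  refine M_mono _ _ fun σ => ?_
  rw [Finset.sum_comm, Finset.mul_sum, ← Finset.sum_add_distrib]
  refine Finset.sum_le_sum fun j _ => ?_
  rw [norm_rpow_eq hq]
  refine (integral_le_good_bad κ S (g S σ j) (fun a => iterU g 1 (S.erase a) σ j)
    (g := fun t => |g S σ j t| ^ (q.toReal - 1) * g S σ j t)
    (k := fun a t => 4 * (|g S σ j t| ^ (q.toReal - 1) * g (insert b (S.erase a)) σ j t))
    (e := fun a t => 4 ^ q.toReal * |Δ a σ j t| ^ q.toReal) (ae_of_all _ fun t => by positivity)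
    (integrable_test hq1 hq _ _) (fun a _ => (integrable_test hq1 hq _ _).const_mul _)
    (fun a _ => (integrable_abs_rpow hq _).const_mul _) ?_).trans (le_of_eq ?_)
  · have h3 : ∀ᵐ t ∂m, ∀ a ∈ S, 0 ≤ Δ a σ j t ∧ 0 ≤ g (insert b (S.erase a)) σ j t ∧
        g S σ j t ≤ 2 * g (insert b (S.erase a)) σ j t + 2 * Δ a σ j t := by
      refine (ae_ball_iff S.countable_toSet).2 fun a ha => ?_
      filter_upwards [(Lp.coeFn_nonneg _).2 (hΔ0 a ha σ j),
        (Lp.coeFn_nonneg _).2 (g0 (insert b (S.erase a)) σ j), (Lp.coeFn_le _ _).2 (hΔ1 a ha σ j),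
        Lp.coeFn_add ((2 : ℝ) • g (insert b (S.erase a)) σ j) ((2 : ℝ) • Δ a σ j),
        Lp.coeFn_smul (2 : ℝ) (g (insert b (S.erase a)) σ j), Lp.coeFn_smul (2 : ℝ) (Δ a σ j)]
        with t e1 e2 e3 e4 e5 e6
      rw [e4, Pi.add_apply, e5, e6] at e3
      exact ⟨e1, e2, e3⟩
    filter_upwards [h3, (Lp.coeFn_nonneg _).2 (g0 S σ j)] with t ht ht0
    have ht0' : 0 ≤ g S σ j t := ht0
    refine ⟨by positivity, fun a ha => ⟨?_, by positivity⟩, (rpow_sub_one_mul hr ht0').ge,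
      fun a ha => ?_⟩
    · have := (ht a ha).2.1
      positivity
    · obtain ⟨e1, e2, e3⟩ := ht a ha
      have p1 : 0 ≤ 4 * (|g S σ j t| ^ (q.toReal - 1) * g (insert b (S.erase a)) σ j t) := by
        positivity
      have p2 : 0 ≤ 4 ^ q.toReal * |Δ a σ j t| ^ q.toReal := by positivity
      rcases le_total (g S σ j t) (4 * g (insert b (S.erase a)) σ j t) with h | h
      · have := mul_le_mul_of_nonneg_left h
          (show 0 ≤ |g S σ j t| ^ (q.toReal - 1) by positivity)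
        rw [rpow_sub_one_mul hr ht0'] at this
        linarith
      · have : |g S σ j t| ^ q.toReal ≤ (4 * |Δ a σ j t|) ^ q.toReal :=
          Real.rpow_le_rpow (abs_nonneg _)
            (by rw [abs_of_nonneg ht0', abs_of_nonneg e1]; linarith) (by linarith)
        rw [Real.mul_rpow (by norm_num) (abs_nonneg _)] at this
        linarith
  · simp only [integral_const_mul, ← Finset.mul_sum, norm_rpow_eq hq]

theorem good_step (g0 : ∀ S σ j, 0 ≤ g S σ j)
    (g1 : ∀ S j v, v ∉ VS S → Inv v (fun σ => g S σ j))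
    (g2 : ∀ S σ j, 1 ≤ j → j ∉ VS S → g S σ j = g S σ (2 * j) + g S σ (2 * j + 1))
    {κ κ' c : ℝ} (hκ : 0 < κ) (hκ' : 0 ≤ κ') {r N : ℕ}
    (ih : ∀ R, R.card + r = n → (∀ a ∈ R, N ≤ a) → c ≤ goodMass g κ r N R)
    (R : Finset ℕ) (hR : R.card + (r + 1) = n) (hN : ∀ a ∈ R, N ≤ a) :
    κ ^ (q.toReal - 1) * c ≤ goodMass g κ' (r + 1) N R + κ⁻¹ * R.card * κ' * ω 1 ^ q.toReal := by
  have hr := one_le_toReal hq
  refine index_limit hq1 hq R (V N) (iterU g (r + 1) R) (fun a => iterU g (r + 2) (R.erase a))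
    (fun b => iterU g r (insert b R)) (fun a b => iterU g (r + 1) (insert b (R.erase a)))
    (fun v hv j => iterU_inv g1 _ R j v hv)
    (fun a _ v hv j => iterU_inv g1 _ _ j v fun h => hv (VS_mono (Finset.erase_subset a R) h))
    (fun σ j ℓ => iterU_spec hq1 hq g3 hR σ j ℓ) (fun a ha σ j ℓ => ?_)
    (fun σ j => iterU_nonneg hq1 hq g3 g0 _ R σ j hR) hκ' (by positivity)
    (fun σ => iterU_sum_le hq1 hq g3 g0 g2 hR hN σ) ?_
  · exact iterU_spec hq1 hq g3 (by have := Finset.card_erase_add_one ha; omega) σ j ℓ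
  filter_upwards [eventually_notMem R N] with b hb
  have hc : (insert b R).card + r = n := by rw [Finset.card_insert_of_notMem hb.1]; omega
  refine (mul_le_mul_of_nonneg_left (ih (insert b R) hc (by simpa [hb.2] using hN))
    (by positivity)).trans ?_
  rw [goodMass, ← T_mul]
  refine M_mono _ _ fun σ => ?_
  rw [Finset.mul_sum]
  refine Finset.sum_le_sum fun j _ => ?_
  rw [← integral_const_mul, ← integral_indicator (measurableSet_goodSet _ _ _ _)]
  refine (integral_le_good_bad κ' R (iterU g (r + 1) R σ j) (fun a => iterU g (r + 2) (R.erase a) σ j)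
    (g := fun t => |iterU g (r + 1) R σ j t| ^ (q.toReal - 1) * iterU g r (insert b R) σ j t)
    (k := fun a t => κ⁻¹ * (|iterU g (r + 1) R σ j t| ^ (q.toReal - 1)
      * iterU g (r + 1) (insert b (R.erase a)) σ j t))
    (e := fun _ _ => 0)
    (ae_of_all _ fun t => Set.indicator_apply_nonneg fun _ => by positivity)
    (integrable_test hq1 hq _ _) (fun a _ => (integrable_test hq1 hq _ _).const_mul _)
    (fun a _ => integrable_zero _ _ _) ?_).trans (le_of_eq ?_)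
  · have h3 : ∀ᵐ t ∂m, ∀ a ∈ R, 0 ≤ iterU g (r + 1) (insert b (R.erase a)) σ j t := by
      refine (ae_ball_iff R.countable_toSet).2 fun a ha => (Lp.coeFn_nonneg _).2 ?_
      refine iterU_nonneg hq1 hq g3 g0 _ _ σ j ?_
      have := Finset.card_erase_add_one ha
      rw [Finset.card_insert_of_notMem fun h => hb.1 (Finset.mem_of_mem_erase h)]
      omega
    filter_upwards [h3, (Lp.coeFn_nonneg _).2 (iterU_nonneg hq1 hq g3 g0 _ _ σ j hc)] with t ht ht0
    have ht0' : 0 ≤ iterU g r (insert b R) σ j t := ht0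
    have p1 : 0 ≤ |iterU g (r + 1) R σ j t| ^ (q.toReal - 1) * iterU g r (insert b R) σ j t := by
      positivity
    have p2 : ∀ a ∈ R, 0 ≤ κ⁻¹ * (|iterU g (r + 1) R σ j t| ^ (q.toReal - 1)
        * iterU g (r + 1) (insert b (R.erase a)) σ j t) := fun a ha => by
      have := ht a ha
      positivity
    by_cases hG : t ∈ GoodSet κ (insert b R) (iterU g r (insert b R) σ j)
        (fun a => iterU g (r + 1) ((insert b R).erase a) σ j)
    · rw [Set.indicator_of_mem hG]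
      have e1 := hG b (Finset.mem_insert_self _ _)
      simp only [Finset.erase_insert hb.1] at e1
      have e2 : κ ^ (q.toReal - 1) * |iterU g r (insert b R) σ j t| ^ q.toReal
          ≤ |iterU g (r + 1) R σ j t| ^ (q.toReal - 1) * iterU g r (insert b R) σ j t := by
        rw [← rpow_sub_one_mul hr ht0', ← mul_assoc, ← Real.mul_rpow hκ.le (abs_nonneg _)]
        refine mul_le_mul_of_nonneg_right (Real.rpow_le_rpow (by positivity) ?_ (by linarith)) ht0'
        rw [abs_of_nonneg ht0']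
        exact e1.trans (le_abs_self _)
      refine ⟨p1, fun a ha => ⟨p2 a ha, le_rfl⟩, e2, fun a ha => e2.trans ?_⟩
      have e3 := hG a (Finset.mem_insert_of_mem ha)
      have hab : b ≠ a := fun h => hb.1 (h ▸ ha)
      simp only [Finset.erase_insert_of_ne hab] at e3
      rw [add_zero, mul_left_comm]
      refine mul_le_mul_of_nonneg_left ?_ (by positivity)
      rwa [le_inv_mul_iff₀ hκ]
    · rw [Set.indicator_of_notMem hG]
      exact ⟨p1, fun a ha => ⟨p2 a ha, le_rfl⟩, p1, fun a ha => by simpa using p2 a ha⟩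
  · simp only [integral_const_mul, ← Finset.mul_sum, integral_zero, Finset.sum_const_zero, add_zero]

end

theorem exists_small {A c : ℝ} (hA : 0 ≤ A) (hc : 0 < c) : ∃ κ : ℝ, 0 < κ ∧ A * κ ≤ c := by
  refine ⟨c / (A + 1), by positivity, ?_⟩
  rw [mul_div_assoc', div_le_iff₀ (by positivity)]
  nlinarith

/-- The index lemma. -/
theorem exists_index (hq1 : 1 < q) (hq : q ≠ ⊤) {n : ℕ}
    {g : Finset ℕ → Finset ℕ → ℕ → Lp ℝ q m} {ω : ℕ → ℝ} (hω : 0 ≤ ω 1)
    (g0 : ∀ S σ j, 0 ≤ g S σ j)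
    (g1 : ∀ S j v, v ∉ VS S → Inv v (fun σ => g S σ j))
    (g2 : ∀ S σ j, 1 ≤ j → j ∉ VS S → g S σ j = g S σ (2 * j) + g S σ (2 * j + 1))
    (g3 : ∀ S σ j, S.card = n → ‖g S σ j‖ ≤ ω j)
    {c Dl : ℝ} (hc : 0 < c) (hDl : n * 4 ^ q.toReal * Dl ≤ c / 2)
    (g4 : ∀ N S, S.card = n → (∀ a ∈ S, N ≤ a) →
      c ≤ T (1 / 2) (VS S) (fun σ => ∑ j ∈ V N, ‖g S σ j‖ ^ q.toReal) ∅)
    (g5 : ∀ N S a b, S.card = n → a ∈ S → b ∉ S → ∃ Δ : Finset ℕ → ℕ → Lp ℝ q m,
      (∀ σ j, 0 ≤ Δ σ j) ∧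
      (∀ σ j, g S σ j ≤ (2 : ℝ) • g (insert b (S.erase a)) σ j + (2 : ℝ) • Δ σ j) ∧
      T (1 / 2) (VS (insert b S)) (fun σ => ∑ j ∈ V N, ‖Δ σ j‖ ^ q.toReal) ∅ ≤ Dl) :
    ∃ (W : ℕ → Lp ℝ q m) (c₀ : ℝ), 0 < c₀ ∧ (∀ j, 0 ≤ W j) ∧
      (∀ j, 1 ≤ j → W j = W (2 * j) + W (2 * j + 1)) ∧
      (∀ N, c₀ ≤ ∑ j ∈ V N, ‖W j‖ ^ q.toReal) ∧ (∀ j, ‖W j‖ ≤ ω j) ∧
      ∀ (j : ℕ) (K : Set (Lp ℝ q m)), Convex ℝ K → IsClosed K →
        (∃ a₀, ∀ S, S.card = n → (∀ a ∈ S, a₀ ≤ a) → T (1 / 2) (VS S) (fun σ => g S σ j) ∅ ∈ K) →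
        W j ∈ K := by
  have hω' : 0 ≤ ω 1 ^ q.toReal := by positivity
  have key : ∀ r, ∃ κ c' : ℝ, 0 < κ ∧ 0 < c' ∧ ∀ N R, R.card + r = n → (∀ a ∈ R, N ≤ a) →
      c' ≤ goodMass g κ r N R := by
    intro r
    induction r with
    | zero =>
      obtain ⟨κ, hκ, h⟩ := exists_small (A := 4 * n * ω 1 ^ q.toReal) (c := c / 4) (by positivity)
        (by positivity)
      refine ⟨κ, c / 4, hκ, by positivity, fun N R hR hN => ?_⟩
      have := good_base hq1 hq g3 g0 g1 g2 g4 g5 hκ.le N R hR hN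
      linarith
    | succ r ih =>
      obtain ⟨κ, c', hκ, hc', ih⟩ := ih
      have h0 : 0 < κ ^ (q.toReal - 1) * c' / 2 := by positivity
      obtain ⟨κ', hκ', h⟩ := exists_small (A := κ⁻¹ * n * ω 1 ^ q.toReal) (by positivity) h0
      refine ⟨κ', _, hκ', h0, fun N R hR hN => ?_⟩
      have h1 := good_step hq1 hq g3 g0 g1 g2 hκ hκ'.le (ih N) R hR hN
      have h2 : κ⁻¹ * R.card * κ' * ω 1 ^ q.toReal ≤ κ⁻¹ * n * κ' * ω 1 ^ q.toReal := by
        have : (R.card : ℝ) ≤ n := by exact_mod_cast (by omega : R.card ≤ n)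
        gcongr
      linarith
  obtain ⟨κ, c₀, -, hc₀, h⟩ := key n
  have hn : (∅ : Finset ℕ).card + n = n := by simp
  refine ⟨iterU g n ∅ ∅, c₀, hc₀, fun j => iterU_nonneg hq1 hq g3 g0 n ∅ ∅ j hn,
    fun j hj => iterU_add hq1 hq g3 g2 n ∅ ∅ j hn hj (by simp [VS_empty]), fun N => ?_,
    fun j => iterU_norm hq1 hq g3 n ∅ ∅ j hn, fun j K hK hcl ⟨a₀, ha₀⟩ => ?_⟩
  · refine (h N ∅ hn (by simp)).trans (le_of_eq ?_)
    simp [goodMass, VS_empty, T_empty, GoodSet, norm_rpow_eq hq]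
  · have := iterU_mem hq1 hq g3 hK hcl ha₀ n ∅ hn (by simp)
    simpa [VS_empty, T_empty] using this

end Pool.Agent.MP_fc1aea_an

end

-- part MP_fc1aea_an.Defs
section

open MeasureTheory

namespace Pool.Agent.MP_fc1aea_an

/-- Lebesgue measure on the unit interval. -/
noncomputable abbrev mu01 : Measure ℝ := volume.restrict (Set.Icc (0 : ℝ) 1)

instance : IsProbabilityMeasure mu01 := ⟨by simp [mu01]⟩

/-- The Hilbert cube (compact, metrizable, with its Borel sigma-algebra). -/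
abbrev Cube : Type := ℕ → Set.Icc (-1 : ℝ) 1

example : CompactSpace Cube := inferInstance
example : BorelSpace Cube := inferInstance
example : TopologicalSpace.MetrizableSpace Cube := inferInstance
example : StandardBorelSpace Cube := inferInstance

end Pool.Agent.MP_fc1aea_an

end

-- part MP_fc1aea_an.Lim
section

set_option autoImplicit false

open MeasureTheory Filter Topology
open scoped ENNReal

namespace Pool.Agent.MP_fc1aea_an

/-- One step: a single family of functions is represented on the cube. -/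
lemma lim_one {Ω : Type} [MeasurableSpace Ω] (μ : Measure Ω) [IsProbabilityMeasure μ] (a : ℝ)
    (ha : 1 ≤ a) (y : ℕ → Ω → ℝ) (hy : ∀ i, Measurable (y i)) (n : ℕ)
    (hn : ∀ i, n ≤ i → y i = 0) (d : ℕ → ℝ) (hd : ∀ i, 0 < d i)
    (hint : ∀ i, Integrable (fun s => |y i s| ^ a) μ)
    (hc : ∀ i, d i * ∫ s, |y i s| ^ a ∂μ ≤ (1 / 2) ^ i / 4) :
    ∃ (ν : ProbabilityMeasure Cube) (R : C(Cube, ℝ) →ₗ[ℝ] (Ω → ℝ)),
      (∀ h, Measurable (R h)) ∧ (∀ h, Integrable (fun s => |R h s| ^ a) μ) ∧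
      (∀ i (t : C(Cube, ℝ)), (∀ z, t z = (d i ^ (1 / a))⁻¹ * (z i : ℝ)) → R t = y i) ∧
      ∀ h : C(Cube, ℝ), ∫ s, |R h s| ^ a ∂μ = ∫ z, |h z| ^ a ∂(ν : Measure Cube) := by
  have ha0 : 0 < a := by linarith
  obtain ⟨e, he⟩ : ∃ e : ℝ, e = 1 - ∑ i ∈ Finset.range n, d i * ∫ s, |y i s| ^ a ∂μ := ⟨_, rfl⟩
  have he0 : 0 < e := by
    have h1 : ∑ i ∈ Finset.range n, d i * ∫ s, |y i s| ^ a ∂μ ≤
        ∑ i ∈ Finset.range n, (1 / 2 : ℝ) ^ i / 4 := Finset.sum_le_sum fun i _ => hc i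
    rw [← Finset.sum_div] at h1
    have h2 := sum_geometric_two_le n
    linarith
  obtain ⟨W, hW⟩ : ∃ W : Ω → ℝ, W = fun s => e + ∑ i ∈ Finset.range n, d i * |y i s| ^ a :=
    ⟨_, rfl⟩
  have hterm : ∀ i s, 0 ≤ d i * |y i s| ^ a := fun i s => mul_nonneg (hd i).le (by positivity)
  have hW0 : ∀ s, 0 < W s := fun s => by
    rw [hW]
    exact add_pos_of_pos_of_nonneg he0 (Finset.sum_nonneg fun i _ => hterm i s)
  have hWm : Measurable W := by
    rw [hW]
    exact measurable_const.add (Finset.measurable_sum _ fun i _ =>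
      measurable_const.mul ((continuous_abs.measurable.comp (hy i)).pow_const a))
  have hsi : Integrable (fun s => ∑ i ∈ Finset.range n, d i * |y i s| ^ a) μ :=
    integrable_finsetSum _ fun i _ => (hint i).const_mul _
  have hWi : Integrable W μ := by
    rw [hW]; exact (integrable_const e).add hsi
  have hW1 : ∫ s, W s ∂μ = 1 := by
    rw [hW, integral_add (integrable_const e) hsi,
      integral_finsetSum _ fun i _ => (hint i).const_mul _]
    simp only [integral_const_mul, integral_const, probReal_univ, smul_eq_mul, one_mul]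
    linarith
  have hle : ∀ i s, d i * |y i s| ^ a ≤ W s := fun i s => by
    rcases lt_or_ge i n with h | h
    · have := Finset.single_le_sum (f := fun i => d i * |y i s| ^ a) (fun i _ => hterm i s)
        (Finset.mem_range.2 h)
      rw [hW]; linarith
    · rw [hn i h]
      simp only [Pi.zero_apply, abs_zero, Real.zero_rpow ha0.ne', mul_zero]
      exact (hW0 s).le
  have hN0 : ∀ s, 0 < W s ^ (1 / a) := fun s => Real.rpow_pos_of_pos (hW0 s) _
  have hmem : ∀ i s, d i ^ (1 / a) * y i s / W s ^ (1 / a) ∈ Set.Icc (-1 : ℝ) 1 := fun i s => by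
    rw [Set.mem_Icc, ← abs_le, abs_div, abs_mul, abs_of_pos (hN0 s),
      abs_of_pos (Real.rpow_pos_of_pos (hd i) _), div_le_one (hN0 s)]
    have h1 := Real.rpow_le_rpow (hterm i s) (hle i s) (by positivity : 0 ≤ 1 / a)
    rwa [Real.mul_rpow (hd i).le (by positivity), ← Real.rpow_mul (abs_nonneg _),
      mul_one_div_cancel ha0.ne', Real.rpow_one] at h1
  let θ : Ω → Cube := fun s i => ⟨_, hmem i s⟩
  have hθ : Measurable θ := measurable_pi_lambda _ fun i =>
    Measurable.subtype_mk ((measurable_const.mul (hy i)).div (hWm.pow_const _))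
  have hprob : IsProbabilityMeasure (μ.withDensity fun s => ENNReal.ofReal (W s)) := ⟨by
    rw [withDensity_apply _ MeasurableSet.univ, Measure.restrict_univ,
      ← ofReal_integral_eq_lintegral_ofReal hWi (Eventually.of_forall fun s => (hW0 s).le), hW1,
      ENNReal.ofReal_one]⟩
  have hpow : ∀ (h : C(Cube, ℝ)) s, |W s ^ (1 / a) * h (θ s)| ^ a = W s * |h (θ s)| ^ a :=
    fun h s => by
      rw [abs_mul, Real.mul_rpow (abs_nonneg _) (abs_nonneg _), abs_of_pos (hN0 s),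
        ← Real.rpow_mul (hW0 s).le, one_div_mul_cancel ha0.ne', Real.rpow_one]
  have hcont : ∀ h : C(Cube, ℝ), Continuous fun z => |h z| ^ a := fun h =>
    h.continuous.abs.rpow_const fun _ => Or.inr ha0.le
  refine ⟨⟨(μ.withDensity fun s => ENNReal.ofReal (W s)).map θ,
      Measure.isProbabilityMeasure_map hθ.aemeasurable⟩,
    { toFun := fun h s => W s ^ (1 / a) * h (θ s)
      map_add' := fun h h' => funext fun s => by simp [mul_add]
      map_smul' := fun r h => funext fun s => by simp [mul_left_comm] }, ?_, ?_, ?_, ?_⟩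
  · intro h
    exact (hWm.pow_const _).mul (h.continuous.measurable.comp hθ)
  · intro h
    show Integrable (fun s => |W s ^ (1 / a) * h (θ s)| ^ a) μ
    simp only [hpow]
    refine hWi.mul_bdd (c := ‖h‖ ^ a) ((hcont h).measurable.comp hθ).aestronglyMeasurable
      (Eventually.of_forall fun s => ?_)
    rw [Real.norm_eq_abs, abs_of_nonneg (by positivity)]
    exact Real.rpow_le_rpow (abs_nonneg _) (h.norm_coe_le_norm _) ha0.le
  · intro i t ht
    funext s
    show W s ^ (1 / a) * t (θ s) = y i s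
    rw [ht]
    have h1 := (hN0 s).ne'
    have h2 := (Real.rpow_pos_of_pos (hd i) (1 / a)).ne'
    show W s ^ (1 / a) * ((d i ^ (1 / a))⁻¹ * (d i ^ (1 / a) * y i s / W s ^ (1 / a))) = y i s
    field_simp
  · intro h
    show ∫ s, |W s ^ (1 / a) * h (θ s)| ^ a ∂μ =
      ∫ z, |h z| ^ a ∂((μ.withDensity fun s => ENNReal.ofReal (W s)).map θ)
    rw [integral_map hθ.aemeasurable (hcont h).aestronglyMeasurable,
      integral_withDensity_eq_integral_toReal_smul hWm.ennreal_ofReal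
        (Eventually.of_forall fun s => ENNReal.ofReal_lt_top)]
    refine integral_congr_ae (Eventually.of_forall fun s => ?_)
    simp only [hpow, ENNReal.toReal_ofReal (hW0 s).le, smul_eq_mul]

/-- Representation of an ultralimit of countable families of functions. -/
theorem limit_space {Ω ι : Type} [MeasurableSpace Ω] (U : Ultrafilter ι) (μ : ι → Measure Ω)
    [∀ k, IsProbabilityMeasure (μ k)] (a : ℝ) (ha : 1 ≤ a) (y : ι → ℕ → Ω → ℝ)
    (hy : ∀ k i, Measurable (y k i)) (hfin : ∀ k, ∃ n, ∀ i, n ≤ i → y k i = 0) (c : ℕ → ℝ)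
    (hint : ∀ k i, Integrable (fun s => |y k i s| ^ a) (μ k))
    (hc : ∀ k i, ∫ s, |y k i s| ^ a ∂(μ k) ≤ c i) :
    ∃ (ν : Measure Cube) (_ : IsProbabilityMeasure ν) (t : ℕ → C(Cube, ℝ))
      (R : ι → C(Cube, ℝ) →ₗ[ℝ] (Ω → ℝ)),
      (∀ k h, Measurable (R k h)) ∧ (∀ k h, Integrable (fun s => |R k h s| ^ a) (μ k)) ∧
      (∀ k i, R k (t i) = y k i) ∧
      ∀ h : C(Cube, ℝ),
        Tendsto (fun k => ∫ s, |R k h s| ^ a ∂(μ k)) U (𝓝 (∫ z, |h z| ^ a ∂ν)) := by
  have ha0 : 0 < a := by linarith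
  obtain ⟨d, hd⟩ : ∃ d : ℕ → ℝ, d = fun i => (1 / 2) ^ i / 4 / (|c i| + 1) := ⟨_, rfl⟩
  have hd0 : ∀ i, 0 < d i := fun i => by rw [hd]; positivity
  choose n hn using hfin
  have key := fun k => lim_one (μ k) a ha (y k) (hy k) (n k) (hn k) d hd0 (hint k) fun i => by
    have h1 : ∫ s, |y k i s| ^ a ∂(μ k) ≤ |c i| + 1 := by linarith [hc k i, le_abs_self (c i)]
    refine (mul_le_mul_of_nonneg_left h1 (hd0 i).le).trans (le_of_eq ?_)
    rw [hd]
    exact div_mul_cancel₀ _ (by positivity)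
  choose ν R h1 h2 h3 h4 using key
  obtain ⟨ν0, -, hν⟩ := isCompact_univ.ultrafilter_le_nhds (U.map ν) (by simp)
  have hν' : Tendsto ν U (𝓝 ν0) := hν
  refine ⟨ν0, inferInstance, fun i => ⟨fun z => (d i ^ (1 / a))⁻¹ * (z i : ℝ), by fun_prop⟩, R,
    h1, h2, fun k i => h3 k i _ fun _ => rfl, fun h => ?_⟩
  simp only [h4]
  exact ProbabilityMeasure.tendsto_iff_forall_integral_tendsto.1 hν'
    (BoundedContinuousFunction.mkOfCompact
      ⟨fun z => |h z| ^ a, h.continuous.abs.rpow_const fun _ => Or.inr ha0.le⟩)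

end Pool.Agent.MP_fc1aea_an

end

-- part MP_fc1aea_an.Lip
section

open MeasureTheory Filter Topology
open scoped ENNReal

namespace Pool.Agent.MP_fc1aea_an

/-- Uniformly continuous maps are Lipschitz for large distances. -/
theorem corson_klee {X Y : Type*} [NormedAddCommGroup X] [NormedSpace ℝ X] [NormedAddCommGroup Y]
    (f : X → Y) (hf : UniformContinuous f) :
    ∃ L : ℝ, 1 ≤ L ∧ ∀ x y, ‖f x - f y‖ ≤ L * ‖x - y‖ + L := by
  obtain ⟨δ, hδ, h⟩ := Metric.uniformContinuous_iff.1 hf 1 one_pos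
  refine ⟨max 1 δ⁻¹, le_max_left _ _, fun x y => ?_⟩
  let n : ℕ := ⌊‖x - y‖ / δ⌋₊ + 1
  have hn0 : (0 : ℝ) < n := by simp only [n]; positivity
  have hn1 : ‖x - y‖ / δ < n := by simp only [n]; push_cast; exact Nat.lt_floor_add_one _
  have hn2 : (n : ℝ) ≤ ‖x - y‖ / δ + 1 := by
    simp only [n]; push_cast; gcongr; exact Nat.floor_le (by positivity)
  have h1 := dist_le_range_sum_dist (fun i : ℕ => f (x + ((i : ℝ) / n) • (y - x))) n
  simp only [Nat.cast_zero, zero_div, zero_smul, add_zero, div_self hn0.ne', one_smul,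
    add_sub_cancel] at h1
  have h2 : ∀ i ∈ Finset.range n, dist (f (x + ((i : ℝ) / n) • (y - x)))
      (f (x + (((i + 1 : ℕ) : ℝ) / n) • (y - x))) ≤ 1 := by
    intro i _
    refine (h ?_).le
    rw [dist_add_left, dist_eq_norm, ← sub_smul, norm_smul, norm_sub_rev y x]
    have : (i : ℝ) / n - ((i + 1 : ℕ) : ℝ) / n = -(1 / n) := by push_cast; ring
    rw [this, norm_neg, Real.norm_eq_abs, abs_of_pos (by positivity), one_div, inv_mul_lt_iff₀ hn0]
    rwa [div_lt_iff₀ hδ] at hn1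
  have h3 := h1.trans (Finset.sum_le_sum h2)
  simp only [Finset.sum_const, Finset.card_range, nsmul_eq_mul, mul_one, dist_eq_norm] at h3
  have h4 : ‖x - y‖ / δ ≤ max 1 δ⁻¹ * ‖x - y‖ := by
    rw [div_eq_inv_mul]; gcongr; exact le_max_right _ _
  linarith [le_max_left 1 δ⁻¹]

theorem lip_extend {α X Y : Type*} [PseudoMetricSpace X] [MetricSpace Y] [CompleteSpace Y]
    {s : α → X} (hs : DenseRange s) (g : α → Y) (L : NNReal)
    (h : ∀ a b, dist (g a) (g b) ≤ L * dist (s a) (s b)) :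
    ∃ G : X → Y, LipschitzWith L G ∧ ∀ a, G (s a) = g a := by
  let g' : Set.range s → Y := fun x => g x.2.choose
  have hg' : LipschitzWith L g' := LipschitzWith.of_dist_le_mul fun x y => by
    have := h x.2.choose y.2.choose
    rwa [x.2.choose_spec, y.2.choose_spec] at this
  refine ⟨Dense.extend hs g', Dense.lipschitzWith_extend hs hg', fun a => ?_⟩
  rw [show s a = ((⟨s a, a, rfl⟩ : Set.range s) : X) from rfl, Dense.extend_eq hs hg'.continuous]
  have := h (⟨s a, a, rfl⟩ : Set.range s).2.choose a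
  rw [(⟨s a, a, rfl⟩ : Set.range s).2.choose_spec, dist_self, mul_zero] at this
  exact dist_le_zero.1 this

theorem exists_bidual_lim {X ι : Type*} [NormedAddCommGroup X] [NormedSpace ℝ X]
    (U : Ultrafilter ι) (u : ι → X) (C : ℝ) (hu : ∀ᶠ i in U, ‖u i‖ ≤ C) :
    ∃ z : StrongDual ℝ (StrongDual ℝ X), ∀ f : StrongDual ℝ X,
      Tendsto (fun i => f (u i)) U (𝓝 (z f)) := by
  have hlim : ∀ f : StrongDual ℝ X, ∃ r : ℝ, |r| ≤ ‖f‖ * C ∧
      Tendsto (fun i => f (u i)) U (𝓝 r) := by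
    intro f
    have h1 : ∀ᶠ i in U, f (u i) ∈ Set.Icc (-(‖f‖ * C)) (‖f‖ * C) := by
      filter_upwards [hu] with i hi
      exact abs_le.1 ((f.le_opNorm _).trans (by gcongr))
    obtain ⟨r, hr, hr2⟩ := isCompact_Icc.ultrafilter_le_nhds (U.map fun i => f (u i))
      (le_principal_iff.2 h1)
    exact ⟨r, abs_le.2 hr, hr2⟩
  choose r hr1 hr2 using hlim
  let Λ : StrongDual ℝ X →ₗ[ℝ] ℝ :=
    { toFun := r
      map_add' := fun f g => tendsto_nhds_unique (hr2 (f + g)) ((hr2 f).add (hr2 g))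
      map_smul' := fun c f => tendsto_nhds_unique (hr2 (c • f)) ((hr2 f).const_mul c) }
  exact ⟨Λ.mkContinuous C fun f => by rw [mul_comm]; exact hr1 f, hr2⟩

/-- TASK Lip: a uniform homeomorphism with `L_p` gives a genuinely Lipschitz factorisation of the
canonical map `X → X**` through some `L_p(ν)`. -/
theorem lip_factor (p : ℝ≥0∞) [Fact (1 ≤ p)] (hp : p ≠ ⊤)
    (X : Type) [NormedAddCommGroup X] [NormedSpace ℝ X] [CompleteSpace X]
    (e : UniformEquiv X (Lp ℝ p mu01)) :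
    ∃ (ν : Measure Cube) (_ : IsProbabilityMeasure ν) (L : NNReal) (Ψ : X → Lp ℝ p ν)
      (Φ : Lp ℝ p ν → StrongDual ℝ (StrongDual ℝ X)),
      LipschitzWith L Ψ ∧ LipschitzWith L Φ ∧
        ∀ x, Φ (Ψ x) = NormedSpace.inclusionInDoubleDual ℝ X x := by
  classical
  have hq : 1 ≤ p.toReal := by
    simpa using ENNReal.toReal_mono hp (Fact.out : 1 ≤ p)
  have hp0 : p ≠ 0 := (lt_of_lt_of_le zero_lt_one (Fact.out : 1 ≤ p)).ne'
  obtain ⟨L1, hL1, h1⟩ := corson_klee e e.uniformContinuous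
  obtain ⟨L2, hL2, h2⟩ := corson_klee e.symm e.symm.uniformContinuous
  obtain ⟨L, hL, hψ, hφ⟩ : ∃ L : ℝ, 0 ≤ L ∧ (∀ x y, ‖e x - e y‖ ≤ L * ‖x - y‖ + L) ∧
      ∀ x y, ‖e.symm x - e.symm y‖ ≤ L * ‖x - y‖ + L :=
    ⟨max L1 L2, le_max_of_le_left (by linarith),
      fun x y => (h1 x y).trans (by gcongr <;> exact le_max_left _ _),
      fun x y => (h2 x y).trans (by gcongr <;> exact le_max_right _ _)⟩
  have : Fact (p ≠ ⊤) := ⟨hp⟩
  have : SecondCountableTopology X := e.toHomeomorph.secondCountableTopology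
  obtain ⟨x, hx⟩ := TopologicalSpace.exists_dense_seq X
  let U := hyperfilter ℕ
  have hU : (U : Filter ℕ) ≤ atTop := Nat.hyperfilter_le_atTop
  have hk : ∀ k : ℕ, (0 : ℝ) < k + 1 := fun k => by positivity
  have hsc : ∀ {W : Type} [NormedAddCommGroup W] [NormedSpace ℝ W] (k : ℕ) (w : W) (b : ℝ),
      ‖w‖ ≤ L * ((k + 1) * b) + L → ‖((k : ℝ) + 1)⁻¹ • w‖ ≤ L * b + L / (k + 1) := by
    intro W _ _ k w b h
    rw [norm_smul, Real.norm_eq_abs, abs_of_pos (inv_pos.2 (hk k)), inv_mul_le_iff₀ (hk k)]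
    refine h.trans (le_of_eq ?_)
    have := hk k
    field_simp
  have hns : ∀ {W : Type} [NormedAddCommGroup W] [NormedSpace ℝ W] (k : ℕ) (w : W),
      ‖((k : ℝ) + 1) • w‖ = (k + 1) * ‖w‖ := by
    intro W _ _ k w
    rw [norm_smul, Real.norm_eq_abs, abs_of_pos (hk k)]
  have hLk : ∀ k : ℕ, L / (k + 1) ≤ L := fun k =>
    div_le_self hL (by linarith [Nat.cast_nonneg (α := ℝ) k])
  have hL0 : Tendsto (fun k : ℕ => L / ((k : ℝ) + 1)) U (𝓝 0) := by
    refine Tendsto.mono_left ?_ hU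
    simpa [div_eq_mul_inv] using tendsto_one_div_add_atTop_nhds_zero_nat.const_mul L
  let Y : ℕ → ℕ → Lp ℝ p mu01 := fun k i => ((k : ℝ) + 1)⁻¹ • (e (((k : ℝ) + 1) • x i) - e 0)
  obtain ⟨ν, hν, t, R, r1, r2, r3, r4⟩ := limit_space U (fun _ => mu01) p.toReal hq
    (fun k i => if i < k then Y k i else 0)
    (fun k i => by
      split_ifs
      exacts [(Lp.stronglyMeasurable _).measurable, measurable_zero])
    (fun k => ⟨k, fun i hi => if_neg (by omega)⟩) (fun i => (L * ‖x i‖ + L) ^ p.toReal)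
    (fun k i => by
      split_ifs
      · exact Pool.Agent.Lib.LpDual.integrable_abs_rpow hp _
      · simp)
    (fun k i => by
      split_ifs
      · rw [← Pool.Agent.Lib.LpDual.norm_rpow_eq hp]
        refine Real.rpow_le_rpow (norm_nonneg _) ((hsc k _ ‖x i‖ ?_).trans ?_) (by linarith)
        · simpa [hns] using hψ (((k : ℝ) + 1) • x i) 0
        · linarith [hLk k]
      · simp only [Pi.zero_apply, abs_zero, Real.zero_rpow (show p.toReal ≠ 0 by linarith),
          integral_zero]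
        positivity)
  have hmem : ∀ k h, MemLp (R k h) p mu01 := fun k h =>
    (integrable_norm_rpow_iff (r1 k h).aestronglyMeasurable hp0 hp).1 (r2 k h)
  let R' : ℕ → C(Cube, ℝ) → Lp ℝ p mu01 := fun k h => (hmem k h).toLp _
  have hR' : ∀ k h h', R' k (h - h') = R' k h - R' k h' := by
    intro k h h'
    simp only [R', ← MemLp.toLp_sub, map_sub]
  have hRt : ∀ k i, i < k → R' k (t i) = Y k i := by
    intro k i hi
    refine Lp.ext ((hmem k (t i)).coeFn_toLp.trans ?_)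
    rw [r3, if_pos hi]
  let T := ContinuousMap.toLp (α := Cube) (E := ℝ) p ν ℝ
  have hT : ∀ h, Tendsto (fun k => ‖R' k h‖) U (𝓝 ‖T h‖) := by
    intro h
    have e1 : ∀ k, ∫ s, |R k h s| ^ p.toReal ∂mu01 = ‖R' k h‖ ^ p.toReal := by
      intro k
      rw [Pool.Agent.Lib.LpDual.norm_rpow_eq hp]
      refine integral_congr_ae ?_
      filter_upwards [(hmem k h).coeFn_toLp] with s hs
      rw [hs]
    have e2 : ∫ z, |h z| ^ p.toReal ∂ν = ‖T h‖ ^ p.toReal := by
      rw [Pool.Agent.Lib.LpDual.norm_rpow_eq hp]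
      refine integral_congr_ae ?_
      filter_upwards [ContinuousMap.coeFn_toLp (p := p) (μ := ν) (𝕜 := ℝ) h] with s hs
      rw [hs]
    have e3 := (r4 h).rpow_const (p := p.toReal⁻¹) (Or.inr (by positivity))
    simp only [e1, e2] at e3
    simpa only [Real.rpow_rpow_inv (norm_nonneg _) (show p.toReal ≠ 0 by linarith)] using e3
  have hT' : ∀ h h', Tendsto (fun k : ℕ => L * ‖R' k h - R' k h'‖ + L / (k + 1)) U
      (𝓝 (L * ‖T h - T h'‖)) := by
    intro h h'
    simpa only [hR', map_sub, add_zero] using ((hT (h - h')).const_mul L).add hL0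
  obtain ⟨Ψ, hΨ, hΨ'⟩ := lip_extend hx (fun i => T (t i)) ⟨L, hL⟩ fun i j => by
    have e1 := hT (t i - t j)
    have e2 := (tendsto_const_nhds (x := L * ‖x i - x j‖)).add hL0
    rw [dist_eq_norm, dist_eq_norm, ← map_sub]
    rw [add_zero] at e2
    refine le_of_tendsto_of_tendsto e1 e2 ?_
    filter_upwards [hU (eventually_gt_atTop i), hU (eventually_gt_atTop j)] with k hi hj
    rw [hR', hRt k i hi, hRt k j hj, ← smul_sub, sub_sub_sub_cancel_right]
    refine hsc k _ _ ?_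
    simpa [← smul_sub, hns] using hψ (((k : ℝ) + 1) • x i) (((k : ℝ) + 1) • x j)
  let u : C(Cube, ℝ) → ℕ → X := fun h k =>
    ((k : ℝ) + 1)⁻¹ • e.symm (e 0 + ((k : ℝ) + 1) • R' k h)
  have hz : ∀ h, ∃ z : StrongDual ℝ (StrongDual ℝ X), ∀ f : StrongDual ℝ X,
      Tendsto (fun k => f (u h k)) U (𝓝 (z f)) := by
    intro h
    refine exists_bidual_lim U (u h) (L * (‖T h‖ + 1) + L) ?_
    filter_upwards [(hT h).eventually (Iic_mem_nhds (lt_add_one _))] with k hk'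
    refine (hsc k _ ‖R' k h‖ ?_).trans (add_le_add (by gcongr) (hLk k))
    simpa [hns] using hφ (e 0 + ((k : ℝ) + 1) • R' k h) (e 0)
  choose z hz using hz
  obtain ⟨Φ, hΦ, hΦ'⟩ := lip_extend (ContinuousMap.toLp_denseRange ℝ ν ℝ hp) z ⟨L, hL⟩
    fun h h' => by
      rw [dist_eq_norm, dist_eq_norm]
      refine ContinuousLinearMap.opNorm_le_bound _ (mul_nonneg hL (norm_nonneg _)) fun f => ?_
      refine le_of_tendsto_of_tendsto' ((hz h f).sub (hz h' f)).norm ((hT' h h').mul_const ‖f‖)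
        fun k => ?_
      rw [← map_sub, mul_comm]
      refine (f.le_opNorm _).trans (mul_le_mul_of_nonneg_left ?_ (norm_nonneg _))
      simp only [u, ← smul_sub]
      refine hsc k _ _ ?_
      simpa [← smul_sub, hns] using
        hφ (e 0 + ((k : ℝ) + 1) • R' k h) (e 0 + ((k : ℝ) + 1) • R' k h')
  refine ⟨ν, hν, ⟨L, hL⟩, Ψ, Φ, hΨ, hΦ, fun v => ?_⟩
  refine hx.induction_on v (isClosed_eq (hΦ.continuous.comp hΨ.continuous)
    (NormedSpace.inclusionInDoubleDual ℝ X).continuous) fun i => ?_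
  rw [hΨ', hΦ']
  ext f
  refine tendsto_nhds_unique (hz (t i) f) (tendsto_const_nhds.congr' ?_)
  filter_upwards [hU (eventually_gt_atTop i)] with k hi
  simp only [u, hRt k i hi, Y, smul_inv_smul₀ (hk k).ne', add_sub_cancel,
    UniformEquiv.symm_apply_apply, inv_smul_smul₀ (hk k).ne']
  rfl

end Pool.Agent.MP_fc1aea_an

end

-- part MP_fc1aea_an.Cube4
section

open MeasureTheory Filter Topology
open scoped ENNReal symmDiff

namespace Pool.Agent.MP_fc1aea_an

open Pool.Agent.Lib.LpDual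

theorem exists_small_rpow {A t η : ℝ} (hA : 0 ≤ A) (ht : 0 < t) (hη : 0 < η) :
    ∃ β : ℝ, 0 < β ∧ ∀ x, 0 ≤ x → x ≤ β → A * x ^ t ≤ η := by
  obtain ⟨κ, hκ, h⟩ := exists_small hA hη
  refine ⟨κ ^ t⁻¹, by positivity, fun x hx hxβ => le_trans (mul_le_mul_of_nonneg_left ?_ hA) h⟩
  calc x ^ t ≤ (κ ^ t⁻¹) ^ t := Real.rpow_le_rpow hx hxβ ht.le
    _ = κ := Real.rpow_inv_rpow hκ.le ht.ne'

theorem modulus_rpow {X Y : Type*} [NormedAddCommGroup X] [NormedSpace ℝ X] [NormedAddCommGroup Y]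
    {f : X → Y} (hf : UniformContinuous f) {t : ℝ} (ht : 1 ≤ t) {δ : ℝ} (hδ : 0 < δ) :
    ∃ K : ℝ, 0 ≤ K ∧ ∀ x y, ‖f x - f y‖ ≤ δ + K * ‖x - y‖ ^ t := by
  obtain ⟨L, hL, h⟩ := corson_klee f hf
  obtain ⟨a, ha, h'⟩ := Metric.uniformContinuous_iff.1 hf δ hδ
  refine ⟨L * (1 + a⁻¹) * (a ^ (t - 1))⁻¹, by positivity, fun x y => ?_⟩
  rcases lt_or_ge ‖x - y‖ a with h1 | h1
  · have := h' (a := x) (b := y) (by rwa [dist_eq_norm])
    rw [dist_eq_norm] at this
    have : 0 ≤ L * (1 + a⁻¹) * (a ^ (t - 1))⁻¹ * ‖x - y‖ ^ t := by positivity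
    linarith
  · have e1 : ‖x - y‖ ^ t = ‖x - y‖ ^ (t - 1) * ‖x - y‖ := by
      rw [← Real.rpow_add_one' (norm_nonneg _) (by linarith)]; congr 1; ring
    have e2 : 1 ≤ (a ^ (t - 1))⁻¹ * ‖x - y‖ ^ (t - 1) := by
      rw [le_inv_mul_iff₀ (by positivity), mul_one]
      exact Real.rpow_le_rpow ha.le h1 (by linarith)
    have e3 : 1 ≤ a⁻¹ * ‖x - y‖ := by rwa [le_inv_mul_iff₀ ha, mul_one]
    have e4 : 0 ≤ L * (1 + a⁻¹) * ‖x - y‖ := by positivity
    calc _ ≤ L * ‖x - y‖ + L := h x y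
      _ ≤ L * (1 + a⁻¹) * ‖x - y‖ := by nlinarith
      _ ≤ L * (1 + a⁻¹) * ‖x - y‖ * ((a ^ (t - 1))⁻¹ * ‖x - y‖ ^ (t - 1)) :=
          le_mul_of_one_le_right e4 e2
      _ = L * (1 + a⁻¹) * (a ^ (t - 1))⁻¹ * ‖x - y‖ ^ t := by rw [e1]; ring
      _ ≤ _ := by linarith

theorem affine_rpow_le {a b L ε t : ℝ} (ha : 0 ≤ a) (hb : 0 ≤ b) (hL : 0 ≤ L) (hε : 0 ≤ ε)
    (ht : 0 ≤ t) (h : a ≤ L * b + ε) : a ^ t ≤ 2 ^ t * (L ^ t * b ^ t + ε ^ t) := by
  rw [← Real.mul_rpow hL hb]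
  exact (Real.rpow_le_rpow ha h ht).trans (add_rpow_le ht (by positivity) hε)

theorem tendsto_len : Tendsto len atTop (𝓝 0) := by
  refine tendsto_inv_atTop_zero.comp ((tendsto_pow_atTop_atTop_of_one_lt one_lt_two).comp ?_)
  refine tendsto_atTop.2 fun a => ?_
  filter_upwards [eventually_ge_atTop (2 ^ a)] with j hj
  exact Nat.le_log_of_pow_le (by norm_num) hj

theorem len_le_one (j : ℕ) : len j ≤ 1 := inv_le_one_of_one_le₀ (one_le_pow₀ one_le_two)

theorem sdiff_eq_symmDiff {α : Type*} [DecidableEq α] (σ P : Finset α) : σ \ P = σ ∆ (σ ∩ P) := by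
  ext x
  simp only [Finset.mem_sdiff, Finset.mem_symmDiff, Finset.mem_inter]
  tauto

theorem pairwiseDisjoint_desc (W : Finset ℕ) (N : ℕ) :
    (V N : Set ℕ).PairwiseDisjoint fun j => W.filter (Desc j) := fun _ hi _ hk hik =>
  Finset.disjoint_left.2 fun _ h1 h2 => hik
    ((Finset.mem_filter.1 h1).2.eq_of_mem_V (Finset.mem_filter.1 h2).2 hi hk)

section

variable {Ω : Type} [MeasurableSpace Ω] {m : Measure Ω} {p : ℝ≥0∞} (q : ℝ≥0∞) [Fact (1 ≤ p)]
  [Fact (1 ≤ q)] [ENNReal.HolderTriple p p q] {E X : Type} [NormedAddCommGroup E] [NormedSpace ℝ E]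
  [NormedAddCommGroup X] [NormedSpace ℝ X] (s : Steps E q.toReal) (T₀ : X →L[ℝ] Lp ℝ p m)
  (F : E → X) (β c : ℝ)

/-- The squared gradient below the cell `j`. -/
noncomputable def gS (S σ : Finset ℕ) (j : ℕ) : Lp ℝ q m :=
  Gam q β (VS S) ((VS S).filter (Desc j)) (fun ρ => T₀ (F (s.x c S ρ))) σ

variable {β c}

theorem gS_norm_le (hq : q ≠ ⊤) (h0 : 0 < β) (h1 : β ≤ 1 / 2) (hc : 0 ≤ c) {δ K : ℝ} (hδ : 0 ≤ δ)
    (hK : 0 ≤ K) (hF : ∀ x y, ‖F x - F y‖ ≤ δ + K * ‖x - y‖ ^ (2 * q.toReal)) (S σ : Finset ℕ)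
    (j : ℕ) : ‖gS q s T₀ F β c S σ j‖
      ≤ (2 * β)⁻¹ * (‖T₀‖ * (δ + K * ((2 * c * S.card) ^ (2 * q.toReal) * (S.card * len j)))) ^ 2 := by
  have hr := one_le_toReal hq
  set P := (VS S).filter (Desc j) with hP
  set B := ‖T₀‖ * (δ + K * ((2 * c * S.card) ^ (2 * q.toReal) * (S.card * len j))) with hB
  have hB0 : 0 ≤ B := by have := len_pos j; positivity
  have h := sum_norm_Gam_le q hq h0 h1 (W := VS S) (J := {()}) (P := fun _ => P)
    (fun _ _ => Finset.filter_subset _ _) (by simp) (fun ρ => T₀ (F (s.x c S ρ)))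
    (k := fun ρ => T₀ (F (s.x c S (ρ \ P)))) (fun _ _ v hv ρ => by
      have : (ρ ∆ {v}) \ P = ρ \ P := by
        ext x
        simp only [Finset.mem_sdiff, Finset.mem_symmDiff, Finset.mem_singleton]
        by_cases hx : x = v
        · subst hx; simp [hv]
        · simp [hx]
      simp only [this]) σ
  rw [Finset.sum_singleton] at h
  have h2 : T β (VS S) (fun ρ => ‖T₀ (F (s.x c S ρ)) - T₀ (F (s.x c S (ρ \ P)))‖ ^ (2 * q.toReal)) σ
      ≤ (B ^ 2) ^ q.toReal := by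
    refine T_le_const h0.le (by linarith) _ fun τ _ => ?_
    rw [← abs_rpow_two_mul, abs_of_nonneg hB0]
    refine Real.rpow_le_rpow (norm_nonneg _) ?_ (by linarith)
    rw [← map_sub]
    refine (T₀.le_opNorm _).trans (mul_le_mul_of_nonneg_left ((norm_sub_rev _ _).le.trans
      ((hF _ _).trans ?_)) (norm_nonneg _))
    rw [sdiff_eq_symmDiff]
    gcongr
    refine (s.norm_x_flip hr hc S _ _).trans (mul_le_mul_of_nonneg_left ?_ (by positivity))
    refine le_trans (Finset.sum_le_sum_of_subset_of_nonneg ?_ fun _ _ _ => (len_pos _).le)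
      (sum_len_filter_le S j)
    intro v hv
    exact (Finset.mem_inter.1 (Finset.mem_filter.1 hv).2).2
  refine (Real.rpow_le_rpow_iff (norm_nonneg _) (by positivity) (z := q.toReal) (by linarith)).1 ?_
  rw [Real.mul_rpow (by positivity) (by positivity)]
  exact h.trans (mul_le_mul_of_nonneg_left h2 (by positivity))

theorem gS_mem (hq : q ≠ ⊤) (h0 : 0 < β) (h1 : β ≤ 1 / 2) (hc : 0 ≤ c) (hF : UniformContinuous F)
    (n j : ℕ) (𝓕 : Finset (X →L[ℝ] ℝ)) {η : ℝ} (hη : 0 < η) :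
    ∃ a₀, ∀ S : Finset ℕ, S.card = n → (∀ a ∈ S, a₀ ≤ a) →
      T (1 / 2) (VS S) (fun σ => gS q s T₀ F β c S σ j) ∅ ∈ SqC q T₀ 𝓕 η := by
  have hr := one_le_toReal hq
  set M := ∑ ξ ∈ 𝓕, ‖ξ‖ with hM
  have hM0 : 0 ≤ M := Finset.sum_nonneg fun _ _ => norm_nonneg _
  obtain ⟨δ, hδ, hδ'⟩ := exists_small_rpow (A := (2 * β)⁻¹ * 2 * M ^ 2) (t := 2) (η := η / 2)
    (by positivity) (by norm_num) (by positivity)
  have hδ2 := hδ' δ hδ.le le_rfl
  rw [Real.rpow_two] at hδ2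
  obtain ⟨K, hK, hFK⟩ := modulus_rpow hF (t := 2 * q.toReal) (by linarith) hδ
  set K' := M * K * (2 * c * n) ^ (2 * q.toReal) with hK'
  have hK'0 : 0 ≤ K' := by positivity
  obtain ⟨κ, hκ, hκ'⟩ := exists_small (A := (2 * β)⁻¹ * K' ^ 2 * n) (c := η / 2) (by positivity)
    (by positivity)
  obtain ⟨a₀, ha₀⟩ := eventually_atTop.1 (tendsto_len.eventually (ge_mem_nhds hκ))
  refine ⟨a₀, fun S hS hN => ?_⟩
  set P := (VS S).filter (Desc j) with hP
  refine ⟨Finset ℕ × ℕ, (VS S).powerset ×ˢ P, fun z => Real.sqrt (wt (1 / 2) (VS S) z.1) •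
    D z.2 (T β (VS S) fun ρ => F (s.x c S ρ)) z.1, ?_, fun ξ hξ => ?_⟩
  · rw [Finset.sum_product, T]
    refine Finset.sum_congr rfl fun τ _ => ?_
    simp only [gS, Gam, Finset.smul_sum, empty_symmDiff', map_smul, sq_smul,
      Real.sq_sqrt (wt_nonneg (δ := 1 / 2) (by norm_num) (by norm_num) _ _)]
    refine Finset.sum_congr rfl fun v _ => ?_
    congr 2
    have := D_map (T₀ : X →ₗ[ℝ] Lp ℝ p m) v (T β (VS S) fun ρ => F (s.x c S ρ)) τ
    simp only [ContinuousLinearMap.coe_coe, T_clm] at this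
    exact this.symm
  · set ψ : Finset ℕ → ℝ := fun ρ => ξ (F (s.x c S ρ)) with hψ
    have hξM : ‖ξ‖ ≤ M := Finset.single_le_sum (f := fun ξ : X →L[ℝ] ℝ => ‖ξ‖)
      (fun _ _ => norm_nonneg _) hξ
    obtain ⟨a, ha⟩ := concentration (VS S) ψ (fun v => K' * len v)
      (fun v => mul_nonneg hK'0 (len_pos v).le) (M * δ) (fun σ τ hτ => by
        rw [hψ, abs_sub_comm]
        simp only [← map_sub]
        refine (ξ.le_opNorm _).trans ((mul_le_mul hξM (hFK _ _) (norm_nonneg _) hM0).trans ?_)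
        have e1 := s.norm_x_flip hr hc S σ τ
        rw [Finset.filter_mem_eq_inter, Finset.inter_eq_right.2 hτ, hS] at e1
        rw [← Finset.mul_sum, mul_add, hK', mul_assoc M, mul_assoc M, mul_assoc K]
        gcongr) ∅
    have e1 : ∑ z ∈ (VS S).powerset ×ˢ P, ξ (Real.sqrt (wt (1 / 2) (VS S) z.1) •
        D z.2 (T β (VS S) fun ρ => F (s.x c S ρ)) z.1) ^ 2
        = T (1 / 2) (VS S) (gam β (VS S) P ψ) ∅ := by
      rw [Finset.sum_product, T]
      refine Finset.sum_congr rfl fun τ _ => ?_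
      simp only [gam, Finset.mul_sum, empty_symmDiff', map_smul, smul_eq_mul, mul_pow,
        Real.sq_sqrt (wt_nonneg (δ := 1 / 2) (by norm_num) (by norm_num) _ _)]
      refine Finset.sum_congr rfl fun v _ => ?_
      congr 2
      have := D_map (ξ : X →ₗ[ℝ] ℝ) v (T β (VS S) fun ρ => F (s.x c S ρ)) τ
      simp only [ContinuousLinearMap.coe_coe, T_clm] at this
      exact this
    have e2 : T (1 / 2) (VS S) (gam β (VS S) P ψ) ∅
        ≤ (2 * β)⁻¹ * T (1 / 2) (VS S) (fun ρ => (ψ ρ - a) ^ 2) ∅ := by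
      rw [← M_T β (Finset.Subset.refl _) (fun ρ => (ψ ρ - a) ^ 2), ← T_mul]
      exact M_mono _ _ fun σ => gam_le h0 h1 (Finset.filter_subset _ _) ψ (k := fun _ => a)
        (fun _ _ _ => rfl) σ
    have e3 : ∑ v ∈ VS S, (K' * len v) ^ 2 ≤ K' ^ 2 * n * κ := by
      calc _ ≤ ∑ v ∈ VS S, K' ^ 2 * κ * len v := Finset.sum_le_sum fun v hv => by
            obtain ⟨b, hb, hvb⟩ := mem_VS.1 hv
            have := ha₀ v ((hN b hb).trans (lt_of_mem_V hvb).le)
            have := len_pos v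
            rw [mul_pow, mul_assoc, pow_two (len v)]
            gcongr
        _ = _ := by
            rw [← Finset.mul_sum, sum_VS]
            simp only [sum_len, Finset.sum_const, hS, nsmul_eq_mul]
            ring
    rw [e1]
    refine e2.trans ((mul_le_mul_of_nonneg_left (ha.trans (add_le_add le_rfl e3))
      (by positivity)).trans ?_)
    linarith

end

theorem exists_W {p : ℝ≥0∞} (q : ℝ≥0∞) [Fact (1 ≤ p)] [Fact (1 ≤ q)] [ENNReal.HolderTriple p p q]
    (hq1 : 1 < q) (hq : q ≠ ⊤) {L : ℝ} (hL : 1 ≤ L) : ∃ ε : ℝ, 0 < ε ∧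
    ∀ {Ω : Type} [MeasurableSpace Ω] (m : Measure Ω) [IsProbabilityMeasure m]
      {E X : Type} [NormedAddCommGroup E] [NormedSpace ℝ E] [NormedAddCommGroup X] [NormedSpace ℝ X]
      (_ : Steps E q.toReal) (T₀ : X →L[ℝ] Lp ℝ p m) (F : E → X), UniformContinuous F →
      (∀ x y, ‖T₀ (F x) - T₀ (F y)‖ ≤ L * ‖x - y‖ + ε) →
      (∀ x y, ‖x - y‖ ≤ L * ‖T₀ (F x) - T₀ (F y)‖ + ε) →
      ∃ (W : ℕ → Lp ℝ q m) (c₀ : ℝ), 0 < c₀ ∧ (∀ j, 0 ≤ W j) ∧
        (∀ j, 1 ≤ j → W j = W (2 * j) + W (2 * j + 1)) ∧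
        (∀ N, c₀ ≤ ∑ j ∈ V N, ‖W j‖ ^ q.toReal) ∧ Tendsto (fun j => ‖W j‖) atTop (𝓝 0) ∧
        ∀ j, W j ∈ SqS q T₀ := by
  have hr1 := one_lt_toReal hq1 hq
  have hr := hr1.le
  set r := q.toReal with hrdef
  obtain ⟨C₁, hC₁, hflip⟩ := flip_groups_Lp (p := p) q hq
  obtain ⟨C₂, hC₂, hsm⟩ := x_smooth hr
  set e : ℝ := 2 ^ (2 * r) with he
  set Λ : ℝ := L ^ (2 * r) with hΛ
  have he0 : 0 < e := by positivity
  have hΛ0 : 0 < Λ := by positivity
  set B := e * Λ * C₁ with hB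
  have hB0 : 0 < B := by positivity
  obtain ⟨β₀, hβ₀, hβ₀'⟩ := exists_small_rpow (A := B * (e * (Λ * C₂ + 1)) + e) (t := r - 1)
    (η := 1 / 2) (by positivity) (by linarith) (by norm_num)
  set β := min β₀ (1 / 2) with hβdef
  have h0 : 0 < β := lt_min hβ₀ (by norm_num)
  have h1 : β ≤ 1 / 2 := min_le_right _ _
  have hβ := hβ₀' β h0.le (min_le_left _ _)
  obtain ⟨γ, hγ, hγ'⟩ := exists_small_rpow (A := 4 ^ r * ((2 * β)⁻¹ ^ r * (3 * L) ^ (2 * r)))
    (t := r - 1) (η := (2 * B)⁻¹ / 2) (by positivity) (by linarith) (by positivity)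
  obtain ⟨n', hn'⟩ := exists_nat_one_div_lt (lt_min h0 hγ)
  set n := n' + 1 with hn
  set c := Real.sqrt (1 / (n' + 1)) with hcdef
  have hc0 : 0 < c := Real.sqrt_pos.2 (by positivity)
  have hc2 : c ^ 2 = 1 / (n' + 1) := Real.sq_sqrt (by positivity)
  have hcn : c ^ 2 * n = 1 := by rw [hc2, hn]; push_cast; field_simp
  have hcβ : c ^ 2 ≤ β := by rw [hc2]; exact hn'.le.trans (min_le_left _ _)
  have hcγ : c ^ 2 ≤ γ := by rw [hc2]; exact hn'.le.trans (min_le_right _ _)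
  have hcr : c ^ (2 * r) = (c ^ 2) ^ r := by rw [← abs_rpow_two_mul, abs_of_pos hc0]
  have hcrβ : c ^ (2 * r) ≤ β ^ r := by
    rw [hcr]; exact Real.rpow_le_rpow (sq_nonneg c) hcβ (by linarith)
  refine ⟨c, hc0, ?_⟩
  intro Ω _ m _ E X _ _ _ _ s T₀ F hF hup hlow
  have hinv : ∀ S v, v ∉ VS S → Inv v fun ρ => T₀ (F (s.x c S ρ)) := fun S v hv ρ => by
    simp only [s.inv_x hr c hv ρ]
  obtain ⟨K₁, hK₁, hK₁'⟩ := modulus_rpow hF (t := 2 * r) (by linarith) one_pos
  refine Exists.elim (exists_index hq1 hq (n := n) (g := gS q s T₀ F β c)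
    (ω := fun _ => (2 * β)⁻¹ * (‖T₀‖ * (1 + K₁ * ((2 * c * n) ^ (2 * r) * (n * 1)))) ^ 2)
    (by positivity) (fun S σ j => Gam_nonneg q _ _ _ _ _)
    (fun S j v hv => Gam_inv q _ _ _ (hinv S v hv)) (fun S σ j hj hjS => ?_)
    (fun S σ j hS => ?_) (c := (2 * B)⁻¹) (Dl := (2 * β)⁻¹ ^ r * (3 * L * c) ^ (2 * r))
    (by positivity) ?_ (fun N S hS hN => ?_) (fun N S a b hS ha hb => ?_)) fun W hW => ?_
  rotate_right
  · obtain ⟨c₀, hc₀, w1, w2, w3, -, w5⟩ := hW
    refine ⟨W, c₀, hc₀, w1, w2, w3, ?_, fun j 𝓕 η hη => ?_⟩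
    · refine Metric.tendsto_atTop.2 fun η hη => ?_
      obtain ⟨δ, hδ, hδ'⟩ := exists_small_rpow (A := (2 * β)⁻¹ * ‖T₀‖ ^ 2 * 4) (t := 2) (η := η / 2)
        (by positivity) (by norm_num) (by positivity)
      have hδ2 := hδ' δ hδ.le le_rfl
      rw [Real.rpow_two] at hδ2
      obtain ⟨K, hK, hFK⟩ := modulus_rpow hF (t := 2 * r) (by linarith) hδ
      obtain ⟨κ, hκ, hκ'⟩ := exists_small (A := K * ((2 * c * n) ^ (2 * r) * n)) (c := δ)
        (by positivity) hδ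
      obtain ⟨j₀, hj₀⟩ := eventually_atTop.1 (tendsto_len.eventually (ge_mem_nhds hκ))
      refine ⟨j₀, fun j hj => ?_⟩
      rw [dist_zero_right, norm_norm]
      refine lt_of_le_of_lt (mem_closedBall_zero_iff.1 (w5 j (Metric.closedBall 0 (η / 2))
        (convex_closedBall _ _) Metric.isClosed_closedBall ⟨0, fun S hS _ => ?_⟩)) (by linarith)
      refine T_mem (by norm_num) (by norm_num) _ _ (convex_closedBall _ _) fun σ => ?_
      rw [mem_closedBall_zero_iff]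
      refine (gS_norm_le q s T₀ F hq h0 h1 hc0.le hδ.le hK hFK S σ j).trans ?_
      have e1 : K * ((2 * c * n) ^ (2 * r) * (n * len j)) ≤ δ := by
        refine le_trans ?_ hκ'
        have := hj₀ j hj
        rw [mul_assoc K, mul_assoc _ (n : ℝ)]
        gcongr
      have e2 := len_pos j
      rw [hS]
      calc _ ≤ (2 * β)⁻¹ * (‖T₀‖ * (δ + δ)) ^ 2 := by gcongr
        _ ≤ _ := by linarith
    · obtain ⟨a₀, ha₀⟩ := gS_mem q s T₀ F hq h0 h1 hc0.le hF n j 𝓕 hη
      exact w5 j _ (convex_SqC q T₀ 𝓕 η).closure isClosed_closure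
        ⟨a₀, fun S hS hN => subset_closure (ha₀ S hS hN)⟩
  · unfold gS Gam
    rw [← Finset.sum_union]
    · refine Finset.sum_congr ?_ fun _ _ => rfl
      ext v
      simp only [Finset.mem_filter, Finset.mem_union]
      rw [desc_iff_children (i := j)]
      constructor
      · rintro ⟨h1, rfl | h | h⟩
        · exact absurd h1 hjS
        · exact Or.inl ⟨h1, h⟩
        · exact Or.inr ⟨h1, h⟩
      · rintro (h | h)
        · exact ⟨h.1, Or.inr (Or.inl h.2)⟩
        · exact ⟨h.1, Or.inr (Or.inr h.2)⟩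
    · exact Finset.disjoint_left.2 fun v h1 h2 =>
        not_desc_both hj (Finset.mem_filter.1 h1).2 (Finset.mem_filter.1 h2).2
  · refine (gS_norm_le q s T₀ F hq h0 h1 hc0.le zero_le_one hK₁ hK₁' S σ j).trans ?_
    have := len_le_one j
    have := len_pos j
    rw [hS]
    gcongr
  · refine le_trans (le_of_eq ?_) (hγ' (c ^ 2) (sq_nonneg c) hcγ)
    have e3 : (c ^ 2) ^ r = (c ^ 2) ^ (r - 1) * c ^ 2 := by
      rw [← Real.rpow_add_one' (sq_nonneg c) (by linarith)]; congr 1; ring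
    rw [Real.mul_rpow (by positivity) hc0.le, hcr, e3]
    calc _ = 4 ^ r * ((2 * β)⁻¹ ^ r * (3 * L) ^ (2 * r)) * (c ^ 2) ^ (r - 1) * (c ^ 2 * n) := by ring
      _ = _ := by rw [hcn, mul_one]
  · have a1 := s.x_lower hr h0.le (by linarith) (c := c) (S := S) (by rw [hS]; exact hcn) hN
    have a2 := hflip m β h0 h1 (VS S) (V N) (fun j => (VS S).filter (Desc j))
      (fun _ _ => Finset.filter_subset _ _) (pairwiseDisjoint_desc _ N)
      fun ρ => T₀ (F (s.x c S ρ))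
    have a3 := hsm s c β h0.le (by linarith) S (by rw [hS]; exact hcn) hcβ
    have a4 : T (1 / 2) (VS S) (fun σ => T β (VS S)
        (fun ρ => ‖T₀ (F (s.x c S ρ)) - T₀ (F (s.x c S σ))‖ ^ (2 * r)) σ) ∅
        ≤ e * (Λ * T (1 / 2) (VS S) (fun σ => T β (VS S)
          (fun ρ => ‖s.x c S ρ - s.x c S σ‖ ^ (2 * r)) σ) ∅ + c ^ (2 * r)) := by
      rw [← T_mul, ← T_const (1 / 2) (VS S) (c ^ (2 * r)) ∅, ← T_add, ← T_mul]
      refine M_mono _ _ fun σ => ?_
      rw [← T_mul, ← T_const β (VS S) (c ^ (2 * r)) σ, ← T_add, ← T_mul]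
      exact T_mono h0.le (by linarith) _ _ fun ρ => affine_rpow_le (norm_nonneg _) (norm_nonneg _)
        (by linarith) hc0.le (by linarith) (hup _ _)
    have a5 : T β (V N) (fun A => T (1 / 2) (VS S) (fun σ =>
        ‖s.x c S (σ ∆ (V N ∩ A).biUnion fun j => (VS S).filter (Desc j)) - s.x c S σ‖ ^ (2 * r))
          ∅) ∅ ≤ e * (Λ * T β (V N) (fun A => T (1 / 2) (VS S) (fun σ =>
        ‖T₀ (F (s.x c S (σ ∆ (V N ∩ A).biUnion fun j => (VS S).filter (Desc j))))
          - T₀ (F (s.x c S σ))‖ ^ (2 * r)) ∅) ∅ + c ^ (2 * r)) := by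
      rw [← T_mul, ← T_const β (V N) (c ^ (2 * r)) ∅, ← T_add, ← T_mul]
      refine T_mono h0.le (by linarith) _ _ fun A => ?_
      rw [← T_mul, ← T_const (1 / 2) (VS S) (c ^ (2 * r)) ∅, ← T_add, ← T_mul]
      exact M_mono _ _ fun σ => affine_rpow_le (norm_nonneg _) (norm_nonneg _)
        (by linarith) hc0.le (by linarith) (hlow _ _)
    change _ ≤ C₁ * (_ + β * T (1 / 2) (VS S)
      (fun σ => ∑ j ∈ V N, ‖gS q s T₀ F β c S σ j‖ ^ r) ∅) at a2
    generalize T (1 / 2) (VS S) (fun σ => ∑ j ∈ V N, ‖gS q s T₀ F β c S σ j‖ ^ r) ∅ = G at a2 ⊢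
    have e4 : β ^ r = β ^ (r - 1) * β := by
      rw [← Real.rpow_add_one' h0.le (by linarith)]; congr 1; ring
    have b1 : β ≤ e * (Λ * (C₁ * (e * (Λ * (C₂ * β ^ r) + β ^ r) + β * G)) + β ^ r) := by
      refine a1.trans (a5.trans ?_)
      gcongr
      refine a2.trans ?_
      gcongr
      refine a4.trans ?_
      gcongr
    have b2 : β ≤ (B * (e * (Λ * C₂ + 1)) + e) * β ^ (r - 1) * β + B * G * β :=
      b1.trans (le_of_eq (by rw [e4, hB]; ring))
    have b3 : 1 / 2 * β ≤ B * G * β := by nlinarith [mul_le_mul_of_nonneg_right hβ h0.le]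
    have b4 := le_of_mul_le_mul_right b3 h0
    rw [inv_le_iff_one_le_mul₀' (by positivity)]
    linarith
  · set S' := insert b (S.erase a) with hS'
    have hsub : VS S ⊆ VS (insert b S) := VS_mono (Finset.subset_insert b S)
    have hsub' : VS S' ⊆ VS (insert b S) :=
      VS_mono (Finset.insert_subset_insert b (Finset.erase_subset a S))
    refine ⟨fun σ j => Gam q β (VS (insert b S)) ((VS (insert b S)).filter (Desc j))
      (fun ρ => T₀ (F (s.x c S ρ)) - T₀ (F (s.x c S' ρ))) σ, fun σ j => Gam_nonneg q _ _ _ _ _,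
      fun σ j => ?_, ?_⟩
    · unfold gS
      rw [← Gam_enlarge q β hsub _ (hinv S), ← Gam_enlarge q β hsub' _ (hinv S')]
      exact Gam_le q _ _ _ _ _ _
    · refine T_le_const (by norm_num) (by norm_num) _ fun τ _ => ?_
      refine (sum_norm_Gam_le q hq h0 h1 (fun _ _ => Finset.filter_subset _ _)
        (pairwiseDisjoint_desc _ N) _ (k := fun _ => 0) (fun _ _ _ _ _ => rfl) _).trans ?_
      refine mul_le_mul_of_nonneg_left (T_le_const h0.le (by linarith) _ fun ρ _ => ?_)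
        (by positivity)
      refine Real.rpow_le_rpow (norm_nonneg _) ?_ (by linarith)
      rw [sub_zero]
      refine (hup _ _).trans ?_
      have := mul_le_mul_of_nonneg_left (s.norm_x_swap hr hc0.le ha hb ((∅ ∆ τ) ∆ ρ))
        (show 0 ≤ L by linarith)
      nlinarith

end Pool.Agent.MP_fc1aea_an

end

-- part MP_fc1aea_an.Haar
section

namespace Pool.Agent.MP_fc1aea_an

open Finset

/-- The Haar functions on the dyadic cells (`haar 0 = 1`). -/
noncomputable def haar (k J : ℕ) : ℝ :=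
  if k = 0 then 1 else if Desc (2 * k) J then 1 else if Desc (2 * k + 1) J then -1 else 0

/-- The square of the dyadic square function (note that `Desc 0 J` always holds). -/
noncomputable def sqf (N : ℕ) (a : ℕ → ℝ) (J : ℕ) : ℝ :=
  ∑ k ∈ range (2 ^ N), if Desc k J then a k ^ 2 else 0

/-
TASK Haar (uses bdg and sqfn of Mart.lean as black boxes, and Heap.lean).
haar_half: desc_iff_half.   haar_span: induction on N; on V (N+1) add the terms k in V N with
a k = (f (2k) - f (2k+1))/2 and apply the induction hypothesis to j => (f (2j) + f (2j+1))/2.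
haar_equiv: Omega = Bool x {J // J in V N} (or Bool x Nat with I summing over V N and d, v multiplied so
that everything is measurable), I f = sum_{e,J} len J / 2 * f (e,J), d k (e,J) = sign e * a k * haar k J,
R k (e,J) (e',J') = (0 < k -> e = e') and forall i < 2k, (Desc i J <-> Desc i J').
Then d is a martingale difference sequence (a function measurable for R k is constant on
{e} x {J | Desc k J}; sum_len_desc, len_two_mul, len_two_mul_add_one), d k^2 = if Desc k J then a k^2 else 0,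
and sum_k |d k|^(2r) <= (sum_k d k^2)^r.
-/
theorem haar_desc_zero (J : ℕ) : Desc 0 J := ⟨J, Nat.div_eq_of_lt Nat.lt_two_pow_self⟩

theorem haar_half {N k J : ℕ} (hk : k < 2 ^ N) (hJ : J ∈ V (N + 1)) : haar k (J / 2) = haar k J := by
  have h1 := (mem_V.1 hJ).1
  rw [pow_succ] at h1
  have e1 : Desc (2 * k) J ↔ Desc (2 * k) (J / 2) := by
    rw [desc_iff_half]
    exact ⟨fun h => h.resolve_left (by omega), Or.inr⟩
  have e2 : Desc (2 * k + 1) J ↔ Desc (2 * k + 1) (J / 2) := by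
    rw [desc_iff_half]
    exact ⟨fun h => h.resolve_left (by omega), Or.inr⟩
  unfold haar
  simp only [e1, e2]

theorem haar_eq_zero {k J : ℕ} (hk : k ≠ 0) (h : ¬ Desc k J) : haar k J = 0 := by
  unfold haar
  rw [if_neg hk, if_neg fun h' => h ((desc_two_mul k).trans h'),
    if_neg fun h' => h ((desc_two_mul_add_one k).trans h')]

theorem haar_two_mul {k : ℕ} (hk : k ≠ 0) : haar k (2 * k) = 1 := by
  unfold haar
  rw [if_neg hk, if_pos (Desc.refl _)]

theorem haar_two_mul_add_one {k : ℕ} (hk : k ≠ 0) : haar k (2 * k + 1) = -1 := by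
  unfold haar
  rw [if_neg hk, if_neg fun h => not_desc_both (Nat.one_le_iff_ne_zero.2 hk) h (Desc.refl _),
    if_pos (Desc.refl _)]

theorem haar_sum_range (N : ℕ) (g : ℕ → ℝ) :
    ∑ k ∈ range (2 ^ (N + 1)), g k = ∑ k ∈ range (2 ^ N), g k + ∑ k ∈ V N, g k := by
  rw [V, Finset.sum_range_add_sum_Ico]
  exact Nat.pow_le_pow_right (by norm_num) (by omega)

theorem haar_span (N : ℕ) (f : ℕ → ℝ) :
    ∃ a : ℕ → ℝ, ∀ J ∈ V N, f J = ∑ k ∈ range (2 ^ N), a k * haar k J := by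
  induction N generalizing f with
  | zero =>
    refine ⟨fun _ => f 1, fun J hJ => ?_⟩
    rw [V_zero, Finset.mem_singleton] at hJ
    subst hJ
    simp [haar]
  | succ N ih =>
    obtain ⟨b, hb⟩ := ih fun j => (f (2 * j) + f (2 * j + 1)) / 2
    refine ⟨fun k => if k < 2 ^ N then b k else (f (2 * k) - f (2 * k + 1)) / 2, fun J hJ => ?_⟩
    have hj := half_mem_V hJ
    have hj0 : J / 2 ≠ 0 := by have := one_le_of_mem_V hj; omega
    rw [haar_sum_range]
    have e1 : ∑ k ∈ range (2 ^ N),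
        (if k < 2 ^ N then b k else (f (2 * k) - f (2 * k + 1)) / 2) * haar k J
        = (f (2 * (J / 2)) + f (2 * (J / 2) + 1)) / 2 := by
      refine Eq.trans (Finset.sum_congr rfl fun k hk => ?_) (hb _ hj).symm
      rw [if_pos (Finset.mem_range.1 hk), haar_half (Finset.mem_range.1 hk) hJ]
    have e2 : ∑ k ∈ V N,
        (if k < 2 ^ N then b k else (f (2 * k) - f (2 * k + 1)) / 2) * haar k J
        = (f (2 * (J / 2)) - f (2 * (J / 2) + 1)) / 2 * haar (J / 2) J := by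
      rw [Finset.sum_eq_single (J / 2)]
      · rw [if_neg (not_lt.2 (mem_V.1 hj).1)]
      · intro k hk hne
        have hk0 : k ≠ 0 := by have := one_le_of_mem_V hk; omega
        rw [haar_eq_zero hk0 fun h => hne (h.eq_of_mem_V (desc_half J) hk hj), mul_zero]
      · exact fun h => absurd hj h
    rw [e1, e2]
    rcases Nat.even_or_odd' J with ⟨j, rfl | rfl⟩
    · rw [show 2 * j / 2 = j by omega] at *
      rw [haar_two_mul hj0]; ring
    · rw [show (2 * j + 1) / 2 = j by omega] at *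
      rw [haar_two_mul_add_one hj0]; ring

theorem haar_sq {N k J : ℕ} (hk : k < 2 ^ N) (hJ : J ∈ V N) :
    haar k J ^ 2 = if Desc k J then 1 else 0 := by
  by_cases hk0 : k = 0
  · subst hk0
    rw [if_pos (haar_desc_zero J)]; simp [haar]
  by_cases h : Desc k J
  · rw [if_pos h]
    have h1 := (mem_V.1 hJ).1
    have h2 := (desc_iff_children.1 h).resolve_left (by omega)
    unfold haar
    rw [if_neg hk0]
    by_cases h3 : Desc (2 * k) J
    · rw [if_pos h3]; norm_num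
    · rw [if_neg h3, if_pos (h2.resolve_left h3)]; norm_num
  · rw [if_neg h, haar_eq_zero hk0 h]; norm_num

theorem haar_mean {N k : ℕ} (hk0 : k ≠ 0) (hk : k < 2 ^ N) :
    ∑ J ∈ V N, len J * haar k J = 0 := by
  have h1 : 1 ≤ k := Nat.one_le_iff_ne_zero.2 hk0
  have hl : Nat.log 2 k + 1 ≤ N := Nat.log_lt_of_lt_pow hk0 hk
  have e : ∀ J, len J * haar k J
      = (if Desc (2 * k) J then len J else 0) - (if Desc (2 * k + 1) J then len J else 0) := by
    intro J
    unfold haar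
    rw [if_neg hk0]
    by_cases h3 : Desc (2 * k) J
    · rw [if_pos h3, if_pos h3, if_neg (not_desc_both h1 h3)]; ring
    · rw [if_neg h3, if_neg h3]
      split_ifs <;> ring
  simp only [e]
  rw [Finset.sum_sub_distrib, ← Finset.sum_filter, ← Finset.sum_filter,
    sum_len_desc (two_mul_mem_V (mem_V_log h1)) hl,
    sum_len_desc (two_mul_add_one_mem_V (mem_V_log h1)) hl, len_two_mul h1,
    len_two_mul_add_one h1, sub_self]

/-- The dyadic filtration, with one extra sign revealed at the first step. -/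
noncomputable def haarFilt (N : ℕ) : Filt (Bool × ℕ) where
  I :=
    { toFun := fun f => ∑ J ∈ V N, len J * ((f (true, J) + f (false, J)) / 2)
      map_add' := fun f g => by
        rw [← Finset.sum_add_distrib]
        exact Finset.sum_congr rfl fun J _ => by simp only [Pi.add_apply]; ring
      map_smul' := fun c f => by
        simp only [RingHom.id_apply, smul_eq_mul, Finset.mul_sum, Pi.smul_apply]
        exact Finset.sum_congr rfl fun J _ => by ring }
  pos := fun f hf => Finset.sum_nonneg (s := V N) fun J _ =>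
    mul_nonneg (len_pos J).le (div_nonneg (add_nonneg (hf (true, J)) (hf (false, J))) zero_le_two)
  R := fun k x y => (0 < k → x.1 = y.1) ∧ ∀ i < 2 * k, (Desc i x.2 ↔ Desc i y.2)
  mono := fun k x y h => ⟨fun _ => h.1 (by omega), fun i hi => h.2 i (by omega)⟩

theorem haar_I (N : ℕ) (f : Bool × ℕ → ℝ) :
    (haarFilt N).I f = ∑ J ∈ V N, len J * ((f (true, J) + f (false, J)) / 2) := rfl

theorem haar_R (N k : ℕ) (x y : Bool × ℕ) : (haarFilt N).R k x y ↔
    (0 < k → x.1 = y.1) ∧ ∀ i < 2 * k, (Desc i x.2 ↔ Desc i y.2) := Iff.rfl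

/-- The signed Haar differences. -/
noncomputable def haarD (a : ℕ → ℝ) (k : ℕ) (x : Bool × ℕ) : ℝ :=
  (if x.1 then 1 else -1) * (a k * haar k x.2)

theorem haar_md (N : ℕ) (a : ℕ → ℝ) : (haarFilt N).MD (2 ^ N) (haarD a) where
  meas := by
    intro k _ x y h
    rw [haar_R] at h
    unfold haarD haar
    rw [h.1 (by omega)]
    simp only [h.2 (2 * k) (by omega), h.2 (2 * k + 1) (by omega)]
  orth := by
    intro k hk φ hφ
    rw [haar_I]
    by_cases hk0 : k = 0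
    · subst hk0
      refine Finset.sum_eq_zero fun J _ => ?_
      have : φ (true, J) = φ (false, J) := hφ _ _ ((haar_R _ _ _ _).2 ⟨by omega, by omega⟩)
      simp only [haarD, this]
      simp
    · have e : ∀ (b : Bool) (J : ℕ), φ (b, J) * haar k J = φ (b, k) * haar k J := by
        intro b J
        by_cases h : Desc k J
        · congr 1
          refine hφ _ _ ((haar_R _ _ _ _).2 ⟨fun _ => rfl, fun i hi => ⟨fun h' => ?_, fun h' => h'.trans h⟩⟩)
          rcases h'.total h with h1 | h1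
          · exact h1
          · rcases h1.eq_or_two_mul_le with h2 | h2
            · rw [h2]; exact Desc.refl _
            · omega
        · rw [haar_eq_zero hk0 h, mul_zero, mul_zero]
      calc _ = ∑ J ∈ V N, (a k * (φ (true, k) - φ (false, k)) / 2) * (len J * haar k J) := by
            refine Finset.sum_congr rfl fun J _ => ?_
            simp only [haarD, if_true, Bool.false_eq_true, if_false]
            linear_combination (len J * a k / 2) * e true J - (len J * a k / 2) * e false J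
        _ = 0 := by rw [← Finset.mul_sum, haar_mean hk0 hk, mul_zero]

theorem haar_D_sq {N k J : ℕ} (a : ℕ → ℝ) (b : Bool) (hk : k < 2 ^ N) (hJ : J ∈ V N) :
    haarD a k (b, J) ^ 2 = if Desc k J then a k ^ 2 else 0 := by
  have := haar_sq hk hJ
  have e : haarD a k (b, J) ^ 2 = a k ^ 2 * haar k J ^ 2 := by
    unfold haarD
    cases b <;> simp [mul_pow]
  rw [e, this]
  split_ifs <;> simp

theorem haar_D_sum (a : ℕ → ℝ) (n : ℕ) (b : Bool) (J : ℕ) :
    |∑ k ∈ range n, haarD a k (b, J)| = |∑ k ∈ range n, a k * haar k J| := by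
  unfold haarD
  rw [← Finset.mul_sum, abs_mul]
  cases b <;> simp

theorem haar_sum_rpow {r : ℝ} (hr : 1 ≤ r) (s : Finset ℕ) (x : ℕ → ℝ) (hx : ∀ k, 0 ≤ x k) :
    ∑ k ∈ s, x k ^ r ≤ (∑ k ∈ s, x k) ^ r := by
  induction s using Finset.induction_on with
  | empty => simp [Real.zero_rpow (by linarith : r ≠ 0)]
  | insert i s hi ih =>
    rw [Finset.sum_insert hi, Finset.sum_insert hi]
    refine le_trans ?_ (Real.add_rpow_le_rpow_add (hx i) (Finset.sum_nonneg fun k _ => hx k) hr)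
    linarith

theorem haar_equiv {r : ℝ} (hr : 1 ≤ r) : ∃ C : ℝ, 1 ≤ C ∧ ∀ (N : ℕ) (a : ℕ → ℝ),
    ∑ J ∈ V N, len J * |∑ k ∈ range (2 ^ N), a k * haar k J| ^ (2 * r)
      ≤ C * ∑ J ∈ V N, len J * sqf N a J ^ r ∧
    ∑ J ∈ V N, len J * sqf N a J ^ r
      ≤ C * ∑ J ∈ V N, len J * |∑ k ∈ range (2 ^ N), a k * haar k J| ^ (2 * r) := by
  obtain ⟨C₁, hC₁, h₁⟩ := bdg hr
  obtain ⟨C₂, hC₂, h₂⟩ := sqfn hr
  refine ⟨2 * C₁ + C₂, by linarith, fun N a => ?_⟩
  set A := ∑ J ∈ V N, len J * |∑ k ∈ range (2 ^ N), a k * haar k J| ^ (2 * r) with hA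
  set B := ∑ J ∈ V N, len J * sqf N a J ^ r with hB
  have hsq0 : ∀ J, 0 ≤ sqf N a J := fun J => Finset.sum_nonneg fun k _ => by
    split_ifs
    · exact sq_nonneg _
    · exact le_rfl
  have hA0 : 0 ≤ A := Finset.sum_nonneg fun J _ => mul_nonneg (len_pos J).le (by positivity)
  have hB0 : 0 ≤ B := Finset.sum_nonneg fun J _ =>
    mul_nonneg (len_pos J).le (Real.rpow_nonneg (hsq0 J) _)
  have eA : (haarFilt N).I (fun x => |∑ k ∈ range (2 ^ N), haarD a k x| ^ (2 * r)) = A := by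
    rw [haar_I]
    refine Finset.sum_congr rfl fun J _ => ?_
    simp only [haar_D_sum]
    ring
  have eS : ∀ b : Bool, ∀ J ∈ V N, ∑ k ∈ range (2 ^ N), haarD a k (b, J) ^ 2 = sqf N a J :=
    fun b J hJ => Finset.sum_congr rfl fun k hk => haar_D_sq a b (Finset.mem_range.1 hk) hJ
  have eB : (haarFilt N).I (fun x => (∑ k ∈ range (2 ^ N), haarD a k x ^ 2) ^ r) = B := by
    rw [haar_I]
    refine Finset.sum_congr rfl fun J hJ => ?_
    simp only [eS _ J hJ]
    ring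
  have hlow := h₂ (haarFilt N) (2 ^ N) (haarD a) (haar_md N a)
  rw [eA, eB] at hlow
  have hup := h₁ (haarFilt N) (2 ^ N) (haarD a)
    (fun k x => if Desc k x.2 then a k ^ 2 else 0) (haar_md N a)
    (fun k _ x => by
      split_ifs
      · exact sq_nonneg _
      · exact le_rfl)
    (fun k _ x y h => by
      rw [haar_R] at h
      by_cases hk0 : k = 0
      · subst hk0
        simp only [haar_desc_zero, if_true]
      · simp only [h.2 k (by omega)])
    (fun k hk ψ _ _ => by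
      rw [haar_I, haar_I]
      refine le_of_eq (Finset.sum_congr rfl fun J hJ => ?_)
      simp only [haar_D_sq a _ hk hJ])
  have eV : (haarFilt N).I (fun x => (∑ k ∈ range (2 ^ N),
      if Desc k x.2 then a k ^ 2 else 0) ^ r) = B := by
    rw [haar_I]
    refine Finset.sum_congr rfl fun J _ => ?_
    simp only [sqf]
    ring
  have eD : ∑ k ∈ range (2 ^ N), (haarFilt N).I (fun x => |haarD a k x| ^ (2 * r)) ≤ B := by
    simp only [haar_I]
    rw [Finset.sum_comm]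
    refine Finset.sum_le_sum fun J hJ => ?_
    rw [← Finset.mul_sum]
    refine mul_le_mul_of_nonneg_left ?_ (len_pos J).le
    have e : ∀ b : Bool, ∑ k ∈ range (2 ^ N), |haarD a k (b, J)| ^ (2 * r) ≤ sqf N a J ^ r := by
      intro b
      simp only [abs_rpow_two_mul]
      rw [← eS b J hJ]
      exact haar_sum_rpow hr _ _ fun k => sq_nonneg _
    rw [← Finset.sum_div, Finset.sum_add_distrib]
    linarith [e true, e false]
  rw [eA, eV] at hup
  constructor
  · nlinarith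
  · nlinarith

end Pool.Agent.MP_fc1aea_an

end
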