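import Mathlib
import Pool.Agent.Lib.LpDual.Basic
import Pool.Agent.MP_fc1aea_an.Mg.Haar
import Pool.Agent.MP_fc1aea_an.Heap
import Pool.Agent.MP_fc1aea_an.Mg.Mart

-- part MP_fc1aea_an.Step
section

open MeasureTheory Filter Topology
open scoped ENNReal

namespace Pool.Agent.MP_fc1aea_an

/-- The heap index of the dyadic cell of level `N` that contains `s`. -/
noncomputable def step_pi (N : ℕ) (s : ℝ) : ℕ := 2 ^ N + ⌊(2 : ℝ) ^ N * s⌋₊

theorem step_pi_meas (N : ℕ) : Measurable (step_pi N) := by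
  unfold step_pi
  exact (Measurable.of_discrete (f := fun k : ℕ => 2 ^ N + k)).comp
    (Nat.measurable_floor.comp (measurable_const.mul measurable_id))

theorem step_ae : ∀ᵐ s ∂mu01, s ∈ Set.Ico (0 : ℝ) 1 := by
  have h : mu01 = volume.restrict (Set.Ico (0 : ℝ) 1) :=
    Measure.restrict_congr_set Ico_ae_eq_Icc.symm
  rw [h]
  exact ae_restrict_mem measurableSet_Ico

theorem step_pi_mem (N : ℕ) {s : ℝ} (hs : s ∈ Set.Ico (0 : ℝ) 1) : step_pi N s ∈ V N := by
  have hpos : (0 : ℝ) < 2 ^ N := by positivity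
  have h : ⌊(2 : ℝ) ^ N * s⌋₊ < 2 ^ N := by
    rw [Nat.floor_lt (mul_nonneg hpos.le hs.1)]
    push_cast
    nlinarith [hs.2]
  rw [mem_V, step_pi, pow_succ]
  omega

theorem step_pi_half (N : ℕ) (s : ℝ) : step_pi (N + 1) s / 2 = step_pi N s := by
  have h : ⌊(2 : ℝ) ^ N * s⌋₊ = ⌊(2 : ℝ) ^ (N + 1) * s⌋₊ / 2 := by
    rw [← Nat.floor_div_natCast]
    congr 1
    push_cast
    ring
  rw [step_pi, step_pi, h, pow_succ]
  omega

theorem step_meas (N : ℕ) (f : ℕ → ℝ) : Measurable fun s => f (step_pi N s) :=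
  (Measurable.of_discrete (f := f)).comp (step_pi_meas N)

theorem step_memLp (p : ℝ≥0∞) (N : ℕ) (f : ℕ → ℝ) :
    MemLp (fun s => f (step_pi N s)) p mu01 := by
  refine MemLp.of_bound (step_meas N f).aestronglyMeasurable (∑ J ∈ V N, |f J|) ?_
  filter_upwards [step_ae] with s hs
  exact Finset.single_le_sum (f := fun J => |f J|) (fun J _ => abs_nonneg _) (step_pi_mem N hs)

theorem step_cell {N J : ℕ} (hJ : J ∈ V N) : mu01.real (step_pi N ⁻¹' {J}) = len J := by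
  have hpos : (0 : ℝ) < 2 ^ N := by positivity
  obtain ⟨k, rfl⟩ := Nat.exists_eq_add_of_le (mem_V.1 hJ).1
  have hk : k + 1 ≤ 2 ^ N := by
    have := (mem_V.1 hJ).2
    rw [pow_succ] at this
    omega
  have hk' : (k : ℝ) + 1 ≤ 2 ^ N := by exact_mod_cast hk
  have hset : step_pi N ⁻¹' {2 ^ N + k} ∩ Set.Icc (0 : ℝ) 1
      = Set.Ico ((k : ℝ) / 2 ^ N) (((k : ℝ) + 1) / 2 ^ N) := by
    ext s
    simp only [Set.mem_inter_iff, Set.mem_preimage, Set.mem_singleton_iff, step_pi,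
      Nat.add_left_cancel_iff, Set.mem_Icc, Set.mem_Ico, div_le_iff₀ hpos, lt_div_iff₀ hpos]
    constructor
    · rintro ⟨h, h0, -⟩
      rw [Nat.floor_eq_iff (mul_nonneg hpos.le h0)] at h
      constructor <;> linarith [h.1, h.2]
    · rintro ⟨h1, h2⟩
      have hk0 : (0 : ℝ) ≤ k := Nat.cast_nonneg k
      have h0 : 0 ≤ s := by
        by_contra h
        rw [not_le] at h
        nlinarith
      refine ⟨?_, h0, ?_⟩
      · rw [Nat.floor_eq_iff (mul_nonneg hpos.le h0)]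
        constructor <;> linarith
      · by_contra h
        rw [not_le] at h
        nlinarith
  rw [Measure.real, Measure.restrict_apply ((step_pi_meas N) (measurableSet_singleton _)), hset,
    Real.volume_Ico, ENNReal.toReal_ofReal (by
      rw [← sub_div, add_sub_cancel_left]; positivity), len_of_mem_V hJ]
  field_simp
  ring

theorem step_integral (N : ℕ) (g : ℕ → ℝ) :
    ∫ s, g (step_pi N s) ∂mu01 = ∑ J ∈ V N, len J * g J := by
  have h : ∀ᵐ s ∂mu01, g (step_pi N s)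
      = ∑ J ∈ V N, (step_pi N ⁻¹' {J}).indicator (fun _ => g J) s := by
    filter_upwards [step_ae] with s hs
    rw [Finset.sum_eq_single (step_pi N s)]
    · rw [Set.indicator_of_mem (by simp)]
    · intro J _ hJ
      rw [Set.indicator_of_notMem]
      simpa using hJ.symm
    · intro h
      exact absurd (step_pi_mem N hs) h
  rw [integral_congr_ae h, integral_finsetSum]
  · refine Finset.sum_congr rfl fun J hJ => ?_
    rw [integral_indicator_const _ ((step_pi_meas N) (measurableSet_singleton _)), step_cell hJ,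
      smul_eq_mul]
  · intro J _
    exact (integrable_const _).indicator ((step_pi_meas N) (measurableSet_singleton _))

/-- The step function with the values `f J` on the cells `J` of level `N`. -/
noncomputable def step_st (p : ℝ≥0∞) (N : ℕ) : (ℕ → ℝ) →ₗ[ℝ] Lp ℝ p mu01 where
  toFun f := (step_memLp p N f).toLp _
  map_add' f g := by
    rw [← MemLp.toLp_add]
    rfl
  map_smul' c f := by
    rw [RingHom.id_apply, ← MemLp.toLp_const_smul]
    rfl

theorem step_coe (p : ℝ≥0∞) (N : ℕ) (f : ℕ → ℝ) :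
    (step_st p N f : ℝ → ℝ) =ᵐ[mu01] fun s => f (step_pi N s) :=
  (step_memLp p N f).coeFn_toLp

theorem step_close (N : ℕ) {s : ℝ} (hs : s ∈ Set.Ico (0 : ℝ) 1) :
    ((step_pi N s : ℝ) - 2 ^ N) / 2 ^ N ∈ Set.Icc (0 : ℝ) 1 ∧
      dist s (((step_pi N s : ℝ) - 2 ^ N) / 2 ^ N) ≤ (1 / 2) ^ N := by
  have hpos : (0 : ℝ) < 2 ^ N := by positivity
  have h0 : 0 ≤ (2 : ℝ) ^ N * s := mul_nonneg hpos.le hs.1
  have h1 := Nat.floor_le h0
  have h2 := Nat.lt_floor_add_one ((2 : ℝ) ^ N * s)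
  have h3 : (0 : ℝ) ≤ ⌊(2 : ℝ) ^ N * s⌋₊ := Nat.cast_nonneg _
  have he : ((step_pi N s : ℝ) - 2 ^ N) = ⌊(2 : ℝ) ^ N * s⌋₊ := by
    rw [step_pi]; push_cast; ring
  rw [he]
  refine ⟨⟨by positivity, ?_⟩, ?_⟩
  · rw [div_le_one hpos]
    nlinarith [hs.2]
  · have h4 : s - (⌊(2 : ℝ) ^ N * s⌋₊ : ℝ) / 2 ^ N
        = ((2 : ℝ) ^ N * s - ⌊(2 : ℝ) ^ N * s⌋₊) / 2 ^ N := by
      field_simp
    rw [Real.dist_eq, h4, abs_of_nonneg (div_nonneg (by linarith) hpos.le), one_div, inv_pow,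
      div_le_iff₀ hpos, inv_mul_cancel₀ hpos.ne']
    linarith

/-
TASK Step.  Dyadic step functions in L_p[0,1].
Hint: path map  pi N s = 2^N + min (floor (2^N * s)) (2^N - 1)  (Nat.floor), measurable, lands in V N,
pi (N+1) s / 2 = pi N s for s in [0,1] (or a.e.), mu01 {pi N = J} = len J for J in V N.
st N f = MemLp.toLp (f (pi N s)).  Use LpDual.norm_rpow_eq for the norm.
Density: continuous functions are dense in Lp (BoundedContinuousFunction.toLp_denseRange or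
MemLp.exists_boundedContinuous_eLpNorm_sub_le), uniformly continuous on Icc 0 1, and
|s - (pi N s - 2^N)/2^N| <= 2^(-N) on Icc 0 1.
-/
theorem exists_step (p : ℝ≥0∞) [Fact (1 ≤ p)] (hp : p ≠ ⊤) :
    ∃ st : ℕ → (ℕ → ℝ) →ₗ[ℝ] Lp ℝ p mu01,
      (∀ N f, ‖st N f‖ ^ p.toReal = ∑ J ∈ V N, len J * |f J| ^ p.toReal) ∧
      (∀ N f, st (N + 1) (fun J => f (J / 2)) = st N f) ∧
      ∀ (x : Lp ℝ p mu01) (ε : ℝ), 0 < ε → ∃ N f, ‖x - st N f‖ ≤ ε := by
  refine ⟨step_st p, fun N f => ?_, fun N f => ?_, fun x ε hε => ?_⟩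
  · rw [Pool.Agent.Lib.LpDual.norm_rpow_eq hp, ← step_integral N fun J => |f J| ^ p.toReal]
    apply integral_congr_ae
    filter_upwards [step_coe p N f] with s hs
    rw [hs]
  · apply Lp.ext
    filter_upwards [step_coe p (N + 1) fun J => f (J / 2), step_coe p N f] with s h1 h2
    rw [h1, h2, step_pi_half]
  · obtain ⟨g, hg⟩ := (BoundedContinuousFunction.toLp_denseRange ℝ mu01 ℝ hp).exists_dist_lt x
      (half_pos hε)
    have huc : UniformContinuousOn g (Set.Icc (0 : ℝ) 1) :=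
      isCompact_Icc.uniformContinuousOn_of_continuous g.continuous.continuousOn
    obtain ⟨δ, hδ, hd⟩ := Metric.uniformContinuousOn_iff.1 huc (ε / 2) (half_pos hε)
    obtain ⟨N, hN⟩ := exists_pow_lt_of_lt_one hδ (show (1 / 2 : ℝ) < 1 by norm_num)
    refine ⟨N, fun J => g (((J : ℝ) - 2 ^ N) / 2 ^ N), ?_⟩
    set y := step_st p N fun J => g (((J : ℝ) - 2 ^ N) / 2 ^ N) with hy
    have h2 : ‖BoundedContinuousFunction.toLp p mu01 ℝ g - y‖ ≤ ε / 2 := by
      refine (Lp.norm_le_of_ae_bound (half_pos hε).le ?_).trans (by simp [measureUnivNNReal])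
      filter_upwards [step_ae, Lp.coeFn_sub (BoundedContinuousFunction.toLp p mu01 ℝ g) y,
        BoundedContinuousFunction.coeFn_toLp p mu01 ℝ g,
        step_coe p N fun J => g (((J : ℝ) - 2 ^ N) / 2 ^ N)] with s hs h1 h2 h3
      rw [h1, Pi.sub_apply, h2, hy, h3, ← dist_eq_norm]
      obtain ⟨h4, h5⟩ := step_close N hs
      exact (hd s (Set.Ico_subset_Icc_self hs) _ h4 (h5.trans_lt hN)).le
    rw [dist_eq_norm] at hg
    calc ‖x - y‖ = ‖(x - BoundedContinuousFunction.toLp p mu01 ℝ g)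
          + (BoundedContinuousFunction.toLp p mu01 ℝ g - y)‖ := by congr 1; abel
      _ ≤ _ := norm_add_le _ _
      _ ≤ ε := by linarith

end Pool.Agent.MP_fc1aea_an

end

-- part MP_fc1aea_an.Factor
section

open MeasureTheory Filter Topology Finset
open scoped ENNReal

namespace Pool.Agent.MP_fc1aea_an

theorem factor_root {x y K q : ℝ} (hy : 0 ≤ y) (hK : 1 ≤ K) (hq : 1 ≤ q)
    (h : x ^ q ≤ K * y ^ q) : x ≤ K * y := by
  by_contra hc
  have hc := not_le.1 hc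
  have h0 : 0 ≤ K * y := by positivity
  have h1 : (K * y) ^ q < x ^ q := Real.rpow_lt_rpow h0 hc (by linarith)
  rw [Real.mul_rpow (by linarith) hy] at h1
  have h2 : K ≤ K ^ q := by
    simpa using Real.rpow_le_rpow_of_exponent_le hK hq
  have h3 : 0 ≤ y ^ q := Real.rpow_nonneg hy q
  nlinarith

theorem factor_len_le_one (k : ℕ) : len k ≤ 1 := by
  unfold len
  exact inv_le_one_of_one_le₀ (one_le_pow₀ (by norm_num))

theorem factor_sqf_nonneg (N : ℕ) (a : ℕ → ℝ) (J : ℕ) : 0 ≤ sqf N a J :=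
  Finset.sum_nonneg fun k _ => by split_ifs <;> positivity

theorem factor_sum_desc {N k : ℕ} (hk : k < 2 ^ N) :
    ∑ J ∈ (V N).filter (Desc k), len J = len k := by
  rcases Nat.eq_zero_or_pos k with rfl | h
  · rw [Finset.filter_true_of_mem, sum_len]
    · simp [len]
    · intro J _
      exact ⟨J, Nat.div_eq_of_lt Nat.lt_two_pow_self⟩
  · exact sum_len_desc (mem_V_log h) (Nat.log_lt_of_lt_pow (by omega) hk).le

theorem factor_coef {r : ℝ} (hr : 1 ≤ r) {N k : ℕ} (hk : k < 2 ^ N) (a : ℕ → ℝ) :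
    len k * |a k| ^ (2 * r) ≤ ∑ J ∈ V N, len J * sqf N a J ^ r := by
  rw [← factor_sum_desc hk, Finset.sum_mul]
  refine le_trans (Finset.sum_le_sum fun J hJ => ?_)
    (Finset.sum_le_sum_of_subset_of_nonneg (Finset.filter_subset (Desc k) _) fun J _ _ =>
      mul_nonneg (len_pos J).le (Real.rpow_nonneg (factor_sqf_nonneg N a J) r))
  refine mul_le_mul_of_nonneg_left ?_ (len_pos J).le
  have e : |a k| ^ (2 * r) = (a k ^ 2) ^ r := by
    rw [Real.rpow_mul (abs_nonneg _), Real.rpow_two, sq_abs]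
  rw [e]
  refine Real.rpow_le_rpow (sq_nonneg _) ?_ (by linarith)
  have h := Finset.single_le_sum (f := fun k => if Desc k J then a k ^ 2 else 0)
    (fun k _ => by split_ifs <;> positivity) (Finset.mem_range.2 hk)
  rw [if_pos (Finset.mem_filter.1 hJ).2] at h
  exact h

theorem factor_supp (c : ℕ →₀ ℝ) : ∃ N : ℕ, ∀ {Z : Type} [AddCommGroup Z] [Module ℝ Z]
    (v : ℕ → Z), Finsupp.linearCombination ℝ v c = ∑ k ∈ range (2 ^ N), c k • v k := by
  refine ⟨c.support.sup id, fun v => ?_⟩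
  rw [Finsupp.linearCombination_apply, Finsupp.sum_of_support_subset]
  · intro k hk
    have h1 : k ≤ c.support.sup id := Finset.le_sup (f := id) hk
    exact Finset.mem_range.2 (lt_of_le_of_lt h1 Nat.lt_two_pow_self)
  · intro k _
    simp

theorem factor_geom (n : ℕ) : ∑ k ∈ range n, (1 / 2 : ℝ) ^ (k + 1) ≤ 1 := by
  have : ∑ k ∈ range n, (1 / 2 : ℝ) ^ (k + 1) = 1 - (1 / 2) ^ n := by
    induction n with
    | zero => simp
    | succ n ih => rw [Finset.sum_range_succ, ih]; ring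
  rw [this]
  have : (0 : ℝ) ≤ (1 / 2) ^ n := by positivity
  linarith

/-- The Haar system in `L_p`, with its two square function bounds. -/
theorem factor_haar (p : ℝ≥0∞) [Fact (1 ≤ p)] (hp : p ≠ ⊤) (r : ℝ) (hr : 1 ≤ r)
    (hpr : p.toReal = 2 * r) : ∃ (H : ℕ → Lp ℝ p mu01) (C : ℝ), 1 ≤ C ∧
      DenseRange (Finsupp.linearCombination ℝ H) ∧
      ∀ (N : ℕ) (a : ℕ → ℝ),
        ‖∑ k ∈ range (2 ^ N), a k • H k‖ ^ (2 * r) ≤ C * ∑ J ∈ V N, len J * sqf N a J ^ r ∧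
        ∑ J ∈ V N, len J * sqf N a J ^ r ≤ C * ‖∑ k ∈ range (2 ^ N), a k • H k‖ ^ (2 * r) := by
  obtain ⟨st, h1, h2, h3⟩ := exists_step p hp
  obtain ⟨C, hC, hH⟩ := haar_equiv hr
  have hcongr : ∀ N (f g : ℕ → ℝ), (∀ J ∈ V N, f J = g J) → st N f = st N g := by
    intro N f g hfg
    have h := h1 N (f - g)
    rw [Finset.sum_eq_zero, hpr] at h
    · have h0 := (Real.rpow_eq_zero (norm_nonneg _) (by linarith)).1 h
      rwa [norm_eq_zero, map_sub, sub_eq_zero] at h0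
    · intro J hJ
      rw [Pi.sub_apply, hfg J hJ, sub_self, abs_zero, Real.zero_rpow (by linarith), mul_zero]
  have hmono : ∀ k N M : ℕ, k < 2 ^ N → N ≤ M → st M (haar k) = st N (haar k) := by
    intro k N M hk hNM
    induction M, hNM using Nat.le_induction with
    | base => rfl
    | succ M hNM ih =>
      rw [← ih, ← h2 M]
      exact hcongr _ _ _ fun J hJ =>
        (haar_half (lt_of_lt_of_le hk (Nat.pow_le_pow_right (by norm_num) hNM)) hJ).symm
  have hH' : ∀ k N : ℕ, k < 2 ^ N → st k (haar k) = st N (haar k) := by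
    intro k N hk
    rw [← hmono k N (max N k) hk (le_max_left _ _),
      ← hmono k k (max N k) Nat.lt_two_pow_self (le_max_right _ _)]
  have hsum : ∀ (N : ℕ) (a : ℕ → ℝ), ∑ k ∈ range (2 ^ N), a k • st k (haar k)
      = st N fun J => ∑ k ∈ range (2 ^ N), a k * haar k J := by
    intro N a
    rw [Finset.sum_congr rfl fun k hk => by rw [hH' k N (Finset.mem_range.1 hk), ← map_smul],
      ← map_sum]
    congr 1
    funext J
    simp [Finset.sum_apply]
  refine ⟨fun k => st k (haar k), C, hC, ?_, fun N a => ?_⟩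
  · refine Metric.denseRange_iff.2 fun x ε hε => ?_
    obtain ⟨N, f, hf⟩ := h3 x (ε / 2) (by linarith)
    obtain ⟨a, ha⟩ := haar_span N f
    refine ⟨∑ k ∈ range (2 ^ N), Finsupp.single k (a k), ?_⟩
    rw [map_sum]
    simp only [Finsupp.linearCombination_single]
    rw [hsum, ← hcongr N f _ ha, dist_eq_norm]
    linarith
  · rw [hsum, ← hpr, h1, hpr]
    exact hH N a

/-
TASK Factor (uses exists_step, haar_half, haar_span, haar_equiv as black boxes, and
LpDual.exists_weak_lim, weak_lim_unique, mem_of_weak_lim).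
E = Lp p mu01, H k = st (k+1) (haar k); st N (haar k) = H k whenever k < 2^N (haar_half; st N f depends only
on f on V N by the norm formula).  e : (Nat ->_0 Real) -> E, c => sum c k H k has dense range (haar_span).
For c supported in range (2^N): Q = sum_J len J sqf N c J^r satisfies Q <= C |e c|^(2r) and
|c k|^(2r) len k <= Q (sum_len_desc, desc_one, len 0 = len 1 = 1), so |c k| <= C1 |e c| / len k.
Choose eta k = th (1/2)^(k+1) len k.  f c = sum c k u k has |T (f c) - sum c k D k| <= th C1 |e c|, so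
|f c| <= C2 |e c|; A = LinearMap.extendOfNorm f e.
B N g = sum_{k < 2^N} b k g * H k has |B N g| <= C3 |g| (haar_equiv and the second hypothesis);
B0 g = weak limit along hyperfilter Nat (linear by uniqueness, bounded by mem_of_weak_lim with a closed ball).
B0 (D j) = H j; hence |B0 (T (A x)) - x| <= C3 th C1 |x| <= |x|/2 on the dense range, so everywhere.
Invert S = B0 o T o A (Units.oneSub or NormedRing.inverse_one_sub); B = S^(-1) o B0 o T.
C1, C3 depend only on C and r, so th is chosen before applying the hypothesis.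
-/
theorem factor_of_system (p : ℝ≥0∞) [Fact (1 ≤ p)] (hp1 : 1 < p) (hp : p ≠ ⊤) (r : ℝ) (hr : 1 ≤ r)
    (hpr : p.toReal = 2 * r) {X Y : Type} [NormedAddCommGroup X] [NormedSpace ℝ X] [CompleteSpace X]
    [NormedAddCommGroup Y] [NormedSpace ℝ Y] (T : X →L[ℝ] Y) (c : ℝ) (hT : ∀ x, ‖x‖ ≤ c * ‖T x‖)
    (C : ℝ) (hC : 1 ≤ C)
    (h : ∀ η : ℕ → ℝ, (∀ k, 0 < η k) → ∃ (u : ℕ → X) (D : ℕ → Y) (b : ℕ → Y →L[ℝ] ℝ),
      (∀ k, ‖T (u k) - D k‖ ≤ η k) ∧ (∀ k j, b k (D j) = if j = k then 1 else 0) ∧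
      (∀ (N : ℕ) (a : ℕ → ℝ), ‖∑ k ∈ range (2 ^ N), a k • D k‖ ^ (2 * r)
        ≤ C * ∑ J ∈ V N, len J * sqf N a J ^ r) ∧
      ∀ (N : ℕ) (g : Y), ∑ J ∈ V N, len J * sqf N (fun k => b k g) J ^ r ≤ C * ‖g‖ ^ (2 * r)) :
    ∃ (A : Lp ℝ p mu01 →L[ℝ] X) (B : X →L[ℝ] Lp ℝ p mu01), ∀ f, B (A f) = f := by
  obtain ⟨H, K, hK, hd, hH⟩ := factor_haar p hp r hr hpr
  have hq : 1 ≤ 2 * r := by linarith
  have hKC : 1 ≤ K * C := one_le_mul_of_one_le_of_one_le hK hC
  set θ : ℝ := (2 * (K * C) * K)⁻¹ with hθ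
  have hθ0 : 0 < θ := by positivity
  obtain ⟨u, D, b, hu, hb, hD, hbb⟩ := h (fun k => θ * (1 / 2) ^ (k + 1) * len k)
    fun k => by have := len_pos k; positivity
  -- coefficient bound
  have hcoef : ∀ (N : ℕ) (a : ℕ → ℝ), ∀ k ∈ range (2 ^ N),
      |a k| * len k ≤ K * ‖∑ k ∈ range (2 ^ N), a k • H k‖ := by
    intro N a k hk
    have hl := len_pos k
    have h1 := (factor_coef hr (Finset.mem_range.1 hk) a).trans (hH N a).2
    have h2 : |a k| ≤ K / len k * ‖∑ k ∈ range (2 ^ N), a k • H k‖ := by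
      refine factor_root (norm_nonneg _) ?_ hq ?_
      · rw [le_div_iff₀ hl]
        have := factor_len_le_one k
        linarith
      · rw [div_mul_eq_mul_div, le_div_iff₀ hl, mul_comm]
        exact h1
    rwa [div_mul_eq_mul_div, le_div_iff₀ hl] at h2
  set e := Finsupp.linearCombination ℝ H with he
  set f := Finsupp.linearCombination ℝ u with hf
  set d := Finsupp.linearCombination ℝ D with hdd
  have hfd : ∀ a : ℕ →₀ ℝ, ‖T (f a) - d a‖ ≤ θ * K * ‖e a‖ := by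
    intro a
    obtain ⟨N, hN⟩ := factor_supp a
    rw [hf, hdd, he, hN, hN, hN, map_sum, ← Finset.sum_sub_distrib]
    refine (norm_sum_le _ _).trans ?_
    set n := ‖∑ k ∈ range (2 ^ N), a k • H k‖ with hn
    have hn0 : 0 ≤ n := norm_nonneg _
    calc _ ≤ ∑ k ∈ range (2 ^ N), θ * K * n * (1 / 2) ^ (k + 1) := by
          refine Finset.sum_le_sum fun k hk => ?_
          rw [map_smul, ← smul_sub, norm_smul, Real.norm_eq_abs]
          calc _ ≤ |a k| * (θ * (1 / 2) ^ (k + 1) * len k) :=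
                mul_le_mul_of_nonneg_left (hu k) (abs_nonneg _)
            _ = θ * (1 / 2) ^ (k + 1) * (|a k| * len k) := by ring
            _ ≤ θ * (1 / 2) ^ (k + 1) * (K * n) :=
                mul_le_mul_of_nonneg_left (hcoef N a k hk) (by positivity)
            _ = _ := by ring
      _ ≤ θ * K * n * 1 := by
          rw [← Finset.mul_sum]
          exact mul_le_mul_of_nonneg_left (factor_geom _) (by positivity)
      _ = _ := mul_one _
  have hde : ∀ a : ℕ →₀ ℝ, ‖d a‖ ≤ K * C * ‖e a‖ := by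
    intro a
    obtain ⟨N, hN⟩ := factor_supp a
    rw [hdd, he, hN, hN]
    refine factor_root (norm_nonneg _) hKC hq ((hD N a).trans ?_)
    rw [mul_comm K, mul_assoc]
    exact mul_le_mul_of_nonneg_left (hH N a).2 (by linarith)
  have hfe : ∀ a : ℕ →₀ ℝ, ‖f a‖ ≤ |c| * (θ * K + K * C) * ‖e a‖ := by
    intro a
    have h1 : ‖T (f a)‖ ≤ (θ * K + K * C) * ‖e a‖ := by
      have := norm_add_le (T (f a) - d a) (d a)
      rw [sub_add_cancel] at this
      have := hfd a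
      have := hde a
      linarith
    calc _ ≤ c * ‖T (f a)‖ := hT _
      _ ≤ |c| * ‖T (f a)‖ := mul_le_mul_of_nonneg_right (le_abs_self c) (norm_nonneg _)
      _ ≤ |c| * ((θ * K + K * C) * ‖e a‖) := mul_le_mul_of_nonneg_left h1 (abs_nonneg _)
      _ = _ := by ring
  set A := f.extendOfNorm e with hA
  have hAe : ∀ a, A (e a) = f a := fun a => LinearMap.extendOfNorm_eq hd ⟨_, hfe⟩ a
  -- the left inverse
  have hB : ∀ (N : ℕ) (g : Y), ‖∑ k ∈ range (2 ^ N), b k g • H k‖ ≤ K * C * ‖g‖ := by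
    intro N g
    refine factor_root (norm_nonneg _) hKC hq ((hH N fun k => b k g).1.trans ?_)
    rw [mul_assoc]
    exact mul_le_mul_of_nonneg_left (hbb N g) (by linarith)
  choose B0 hB0 using fun g : Y => Pool.Agent.Lib.LpDual.exists_weak_lim hp1 hp (hyperfilter ℕ)
    (fun N => ∑ k ∈ range (2 ^ N), b k g • H k) _ (Eventually.of_forall fun N => hB N g)
  have hBn : ∀ g, ‖B0 g‖ ≤ K * C * ‖g‖ := by
    intro g
    have := Pool.Agent.Lib.LpDual.mem_of_weak_lim (hB0 g) (convex_closedBall 0 (K * C * ‖g‖))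
      Metric.isClosed_closedBall (Eventually.of_forall fun N => by
        rw [mem_closedBall_zero_iff]; exact hB N g)
    rwa [mem_closedBall_zero_iff] at this
  let B1 : Y →ₗ[ℝ] Lp ℝ p mu01 :=
    { toFun := B0
      map_add' := fun g g' => by
        refine Pool.Agent.Lib.LpDual.weak_lim_unique (hB0 (g + g')) fun ℓ => ?_
        have := (hB0 g ℓ).add (hB0 g' ℓ)
        simpa only [map_add, add_smul, Finset.sum_add_distrib] using this
      map_smul' := fun t g => by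
        refine Pool.Agent.Lib.LpDual.weak_lim_unique (hB0 (t • g)) fun ℓ => ?_
        have := (hB0 g ℓ).const_smul t
        simpa only [map_smul, RingHom.id_apply, smul_assoc, ← Finset.smul_sum] using this }
  let B : Y →L[ℝ] Lp ℝ p mu01 := B1.mkContinuous (K * C) hBn
  have hBD : ∀ j, B (D j) = H j := by
    intro j
    refine Pool.Agent.Lib.LpDual.weak_lim_unique (hB0 (D j)) fun ℓ => ?_
    refine tendsto_const_nhds.congr' ?_
    filter_upwards [Nat.hyperfilter_le_atTop (eventually_ge_atTop j)] with N hN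
    have hj : j ∈ range (2 ^ N) := Finset.mem_range.2
      (lt_of_lt_of_le Nat.lt_two_pow_self (Nat.pow_le_pow_right (by norm_num) hN))
    simp only [hb, ite_smul, one_smul, zero_smul, Finset.sum_ite_eq, if_pos hj]
  have hBd : ∀ a, B (d a) = e a := by
    intro a
    obtain ⟨N, hN⟩ := factor_supp a
    rw [hdd, he, hN, hN, map_sum]
    simp only [map_smul, hBD]
  let S : Lp ℝ p mu01 →L[ℝ] Lp ℝ p mu01 := B ∘L T ∘L A
  have hS : ∀ x, ‖(1 - S) x‖ ≤ 1 / 2 * ‖x‖ := by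
    intro x
    refine hd.induction_on (p := fun x => ‖(1 - S) x‖ ≤ 1 / 2 * ‖x‖) x
      (isClosed_le (by fun_prop) (by fun_prop)) fun a => ?_
    have h1 : (1 - S) (e a) = -B (T (f a) - d a) := by
      rw [map_sub B, hBd, ← hAe, neg_sub]; rfl
    rw [h1, norm_neg]
    calc _ ≤ K * C * ‖T (f a) - d a‖ := hBn _
      _ ≤ K * C * (θ * K * ‖e a‖) := mul_le_mul_of_nonneg_left (hfd a) (by linarith)
      _ = _ := by
        have : K ≠ 0 := by linarith
        have : C ≠ 0 := by linarith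
        rw [hθ]; field_simp
  have hS1 : ‖1 - S‖ < 1 :=
    lt_of_le_of_lt ((1 - S).opNorm_le_bound (by norm_num) hS) (by norm_num)
  let W := Units.oneSub (1 - S) hS1
  have hW : (W : Lp ℝ p mu01 →L[ℝ] Lp ℝ p mu01) = S := by
    simp [W]
  refine ⟨A, (↑W⁻¹ : Lp ℝ p mu01 →L[ℝ] Lp ℝ p mu01) ∘L B ∘L T, fun x => ?_⟩
  have h1 : ((↑W⁻¹ : Lp ℝ p mu01 →L[ℝ] Lp ℝ p mu01) * S) x = x := by
    rw [← hW, Units.inv_mul]; rfl
  exact h1

end Pool.Agent.MP_fc1aea_an

end

-- part MP_fc1aea_an.Glob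
section

set_option autoImplicit false

open MeasureTheory Filter Topology
open scoped ENNReal

namespace Pool.Agent.MP_fc1aea_an

open Pool.Agent.Lib.LpDual

/-- The duality map from `L^q` to the dual of `L^r`. -/
noncomputable def dualMap {Ω : Type} [MeasurableSpace Ω] (m : Measure Ω) (q r : ℝ≥0∞)
    [Fact (1 ≤ q)] [Fact (1 ≤ r)] [ENNReal.HolderConjugate q r] :
    Lp ℝ q m →L[ℝ] Lp ℝ r m →L[ℝ] ℝ :=
  (ContinuousLinearMap.mul ℝ ℝ).lpPairing m q r

lemma dualMap_apply {Ω : Type} [MeasurableSpace Ω] (m : Measure Ω) (q r : ℝ≥0∞)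
    [Fact (1 ≤ q)] [Fact (1 ≤ r)] [ENNReal.HolderConjugate q r] (g : Lp ℝ q m) (f : Lp ℝ r m) :
    dualMap m q r g f = ∫ x, g x * f x ∂m :=
  pair_apply r g f

lemma dualMap_range {Ω : Type} [MeasurableSpace Ω] (m : Measure Ω) [IsFiniteMeasure m]
    (q r : ℝ≥0∞) [Fact (1 ≤ q)] [Fact (1 ≤ r)] [ENNReal.HolderConjugate q r]
    (hq : q ≠ ⊤) (hr : r ≠ ⊤) (Λ : Lp ℝ r m →L[ℝ] ℝ) : ∃ g, dualMap m q r g = Λ := by
  obtain ⟨g, hg⟩ := exists_rep r q hr hq Λ
  exact ⟨g, ContinuousLinearMap.ext fun f => by rw [dualMap_apply, hg]⟩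

lemma dualMap_eq_zero {Ω : Type} [MeasurableSpace Ω] (m : Measure Ω) [IsFiniteMeasure m]
    (q r : ℝ≥0∞) [Fact (1 ≤ q)] [Fact (1 ≤ r)] [ENNReal.HolderConjugate q r]
    (hq : q ≠ ⊤) (hr : r ≠ ⊤) (g : Lp ℝ q m) (hg : dualMap m q r g = 0) : g = 0 := by
  have hc : ENNReal.HolderConjugate r q := ENNReal.HolderConjugate.symm
  refine (SeparatingDual.eq_iff_forall_dual_eq (R := ℝ)).2 fun ℓ => ?_
  obtain ⟨f, hf⟩ := exists_rep q r hq hr ℓ
  have h1 : dualMap m q r g f = 0 := by rw [hg]; rfl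
  rw [dualMap_apply] at h1
  rw [map_zero, hf, ← h1]
  simp only [mul_comm]

/-- Reflexivity of `L^p`. -/
lemma lp_reflexive {Ω : Type} [MeasurableSpace Ω] (m : Measure Ω) [IsFiniteMeasure m]
    (p p' : ℝ≥0∞) [Fact (1 ≤ p)] [Fact (1 ≤ p')] [ENNReal.HolderConjugate p p']
    (hp : p ≠ ⊤) (hp' : p' ≠ ⊤) (Ξ : (Lp ℝ p m →L[ℝ] ℝ) →L[ℝ] ℝ) :
    ∃ y : Lp ℝ p m, ∀ ℓ, Ξ ℓ = ℓ y := by
  have hc : ENNReal.HolderConjugate p' p := ENNReal.HolderConjugate.symm
  obtain ⟨y, hy⟩ := dualMap_range m p p' hp hp' (Ξ.comp (dualMap m p' p))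
  refine ⟨y, fun ℓ => ?_⟩
  obtain ⟨g, rfl⟩ := dualMap_range m p' p hp' hp ℓ
  have h1 : dualMap m p p' y g = Ξ (dualMap m p' p g) := by rw [hy]; rfl
  rw [← h1, dualMap_apply, dualMap_apply]
  simp only [mul_comm]

lemma closed_range_aux {X Y Z : Type} [NormedAddCommGroup X] [NormedSpace ℝ X] [CompleteSpace X]
    [NormedAddCommGroup Y] [NormedSpace ℝ Y] [NormedAddCommGroup Z] [NormedSpace ℝ Z]
    (A : X →L[ℝ] Y) (B : Y →L[ℝ] Z) (j : X →L[ℝ] Z) (hj : ∀ x, ‖j x‖ = ‖x‖)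
    (hBA : ∀ x, B (A x) = j x) : IsClosed (Set.range A) := by
  have hanti : AntilipschitzWith ‖B‖₊ A := by
    refine A.antilipschitz_of_bound fun x => ?_
    rw [← hj, ← hBA]
    exact B.le_opNorm _
  exact hanti.isClosed_range A.uniformContinuous

lemma left_inv_aux {X Y Z : Type} [NormedAddCommGroup X] [NormedSpace ℝ X] [CompleteSpace X]
    [NormedAddCommGroup Y] [NormedSpace ℝ Y] [NormedAddCommGroup Z] [NormedSpace ℝ Z]
    [CompleteSpace Z] (A : X →L[ℝ] Y) (B : Y →L[ℝ] Z) (j : X →L[ℝ] Z) (hj : ∀ x, ‖j x‖ = ‖x‖)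
    (hsurj : ∀ z, ∃ x, j x = z) (hBA : ∀ x, B (A x) = j x) :
    ∃ B₁ : Y →L[ℝ] X, ∀ x, B₁ (A x) = x := by
  have hker : j.ker = ⊥ := by
    rw [LinearMap.ker_eq_bot']
    intro x hx
    have h7 := hj x
    have hx' : j x = 0 := hx
    rw [hx', norm_zero] at h7
    exact norm_eq_zero.1 h7.symm
  have hrange : j.range = ⊤ := LinearMap.range_eq_top.2 hsurj
  refine ⟨((ContinuousLinearEquiv.ofBijective j hker hrange).symm : Z →L[ℝ] X).comp B,
    fun x => ?_⟩
  show (ContinuousLinearEquiv.ofBijective j hker hrange).symm (B (A x)) = x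
  rw [hBA]
  exact ContinuousLinearEquiv.ofBijective_symm_apply_apply j hker hrange x

lemma extend_aux {V Y Z : Type} [AddCommGroup V] [Module ℝ V]
    [NormedAddCommGroup Y] [NormedSpace ℝ Y] [NormedAddCommGroup Z] [NormedSpace ℝ Z]
    [CompleteSpace Z] (f : V →ₗ[ℝ] Z) (e : V →ₗ[ℝ] Y) (he : DenseRange e) (C : ℝ)
    (h : ∀ v, ‖f v‖ ≤ C * ‖e v‖) : ∃ F : Y →L[ℝ] Z, ∀ v, F (e v) = f v :=
  ⟨f.extendOfNorm e, LinearMap.extendOfNorm_eq he ⟨C, h⟩⟩

lemma eq_of_dense_aux {V X Y Z : Type} [NormedAddCommGroup X] [NormedSpace ℝ X]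
    [NormedAddCommGroup Y] [NormedSpace ℝ Y] [NormedAddCommGroup Z] [NormedSpace ℝ Z]
    (e : V → X) (he : DenseRange e) (A : X →L[ℝ] Y) (B : Y →L[ℝ] Z) (j : X →L[ℝ] Z)
    (h : ∀ v, B (A (e v)) = j (e v)) (x : X) : B (A x) = j x :=
  he.induction_on x (isClosed_eq (B.continuous.comp A.continuous) j.continuous) h

/-- If the canonical map into the bidual factors through a reflexive space, then the identity
factors through that space. -/
lemma factor_of_reflexive {X Y : Type} [NormedAddCommGroup X] [NormedSpace ℝ X] [CompleteSpace X]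
    [NormedAddCommGroup Y] [NormedSpace ℝ Y]
    (hY : ∀ Ξ : (Y →L[ℝ] ℝ) →L[ℝ] ℝ, ∃ y : Y, ∀ ℓ, Ξ ℓ = ℓ y)
    (A : X →L[ℝ] Y) (B : Y →L[ℝ] StrongDual ℝ (StrongDual ℝ X))
    (hBA : ∀ x, B (A x) = NormedSpace.inclusionInDoubleDual ℝ X x) :
    ∃ B₁ : Y →L[ℝ] X, ∀ x, B₁ (A x) = x := by
  have hnorm : ∀ x : X, ‖NormedSpace.inclusionInDoubleDual ℝ X x‖ = ‖x‖ :=
    fun x => (NormedSpace.inclusionInDoubleDualLi ℝ (E := X)).norm_map x
  have hclosed : IsClosed (Set.range A) :=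
    closed_range_aux (Z := StrongDual ℝ (StrongDual ℝ X)) A B _ hnorm hBA
  have hsurj : ∀ ξ : StrongDual ℝ (StrongDual ℝ X),
      ∃ x, NormedSpace.inclusionInDoubleDual ℝ X x = ξ := by
    intro ξ
    let At : (Y →L[ℝ] ℝ) →L[ℝ] (X →L[ℝ] ℝ) := (ContinuousLinearMap.compL ℝ X Y ℝ).flip A
    have hAt : ∀ ℓ : Y →L[ℝ] ℝ, At ℓ = ℓ.comp A := fun ℓ => rfl
    obtain ⟨y, hy⟩ := hY (ContinuousLinearMap.comp ξ At)
    have hy' : ∀ ℓ : Y →L[ℝ] ℝ, ξ (ℓ.comp A) = ℓ y := fun ℓ => hy ℓ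
    have hmem : y ∈ Set.range A := by
      by_contra hn
      have hconv : Convex ℝ (Set.range A) := (LinearMap.range (A : X →ₗ[ℝ] Y)).convex
      obtain ⟨ℓ, u, h1, h2⟩ := geometric_hahn_banach_point_closed hconv hclosed hn
      have h0 : u < 0 := by simpa using h2 (A 0) ⟨0, rfl⟩
      have hz : ℓ.comp A = 0 := by
        ext x
        by_contra hx
        have hx' : ℓ (A x) ≠ 0 := hx
        have h3 := h2 (A ((u / ℓ (A x)) • x)) ⟨_, rfl⟩
        rw [map_smul, map_smul, smul_eq_mul, div_mul_cancel₀ _ hx'] at h3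
        exact lt_irrefl _ h3
      have h4 := hy' ℓ
      rw [hz, map_zero] at h4
      linarith
    obtain ⟨x, rfl⟩ := hmem
    refine ⟨x, ContinuousLinearMap.ext fun f => ?_⟩
    have h5 : (B.flip f).comp A = f := by
      ext z
      show B (A z) f = f z
      rw [hBA]; rfl
    have h6 := hy' (B.flip f)
    rw [h5] at h6
    rw [h6]
    show _ = B (A x) f
    rw [hBA]
  exact left_inv_aux (Z := StrongDual ℝ (StrongDual ℝ X)) A B _ hnorm hsurj hBA

lemma measurePreserving_projIcc :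
    MeasurePreserving (Set.projIcc (0 : ℝ) 1 zero_le_one) mu01 (volume : Measure unitInterval) := by
  have hm : Measurable (Set.projIcc (0 : ℝ) 1 zero_le_one) := continuous_projIcc.measurable
  refine ⟨hm, ?_⟩
  have h1 : mu01 = Measure.map ((↑) : unitInterval → ℝ) volume :=
    unitInterval.measurePreserving_coe.map_eq.symm
  rw [h1, Measure.map_map hm measurable_subtype_coe]
  have h2 : (Set.projIcc (0 : ℝ) 1 zero_le_one) ∘ ((↑) : unitInterval → ℝ) = id := by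
    funext x
    exact Set.projIcc_val zero_le_one x
  rw [h2, Measure.map_id]

/-- `L^p` of a probability measure on the cube is complemented in `L^p[0,1]`. -/
lemma cube_complemented (p p' : ℝ≥0∞) [Fact (1 ≤ p)] [Fact (1 ≤ p')]
    [ENNReal.HolderConjugate p p'] (hp : p ≠ ⊤) (hp' : p' ≠ ⊤)
    (ν : Measure Cube) [IsProbabilityMeasure ν] :
    ∃ (J : Lp ℝ p ν →L[ℝ] Lp ℝ p mu01) (Q : Lp ℝ p mu01 →L[ℝ] Lp ℝ p ν), ∀ f, Q (J f) = f := by
  have : Nonempty Cube := ⟨fun _ => ⟨0, by norm_num⟩⟩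
  obtain ⟨π, hπm, hπ⟩ := ν.exists_measurable_map_eq
  have hπ' : MeasurePreserving π volume ν := ⟨hπm, hπ⟩
  have hρ := hπ'.comp measurePreserving_projIcc
  set ρ := π ∘ Set.projIcc (0 : ℝ) 1 zero_le_one with hρdef
  let J : Lp ℝ p ν →L[ℝ] Lp ℝ p mu01 :=
    (Lp.compMeasurePreservingₗᵢ ℝ ρ hρ).toContinuousLinearMap
  let J' : Lp ℝ p' ν →L[ℝ] Lp ℝ p' mu01 :=
    (Lp.compMeasurePreservingₗᵢ ℝ ρ hρ).toContinuousLinearMap
  have hJ : ∀ f, J f =ᵐ[mu01] f ∘ ρ := fun f => Lp.coeFn_compMeasurePreserving f hρ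
  have hJ' : ∀ g, J' g =ᵐ[mu01] g ∘ ρ := fun g => Lp.coeFn_compMeasurePreserving g hρ
  have hker : (dualMap ν p p').ker = ⊥ := by
    rw [LinearMap.ker_eq_bot']
    exact fun g hg => dualMap_eq_zero ν p p' hp hp' g hg
  have hrange : (dualMap ν p p').range = ⊤ :=
    LinearMap.range_eq_top.2 (dualMap_range ν p p' hp hp')
  let Jt : (Lp ℝ p' mu01 →L[ℝ] ℝ) →L[ℝ] (Lp ℝ p' ν →L[ℝ] ℝ) :=
    (ContinuousLinearMap.compL ℝ (Lp ℝ p' ν) (Lp ℝ p' mu01) ℝ).flip J'
  refine ⟨J, ((ContinuousLinearEquiv.ofBijective _ hker hrange).symm :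
    (Lp ℝ p' ν →L[ℝ] ℝ) →L[ℝ] Lp ℝ p ν).comp (Jt.comp (dualMap mu01 p p')), fun f => ?_⟩
  have h1 : Jt (dualMap mu01 p p' (J f)) = dualMap ν p p' f := by
    refine ContinuousLinearMap.ext fun g => ?_
    show dualMap mu01 p p' (J f) (J' g) = _
    rw [dualMap_apply, dualMap_apply]
    have h2 : ∫ x, (J f) x * (J' g) x ∂mu01 = ∫ x, (fun z => f z * g z) (ρ x) ∂mu01 := by
      apply integral_congr_ae
      filter_upwards [hJ f, hJ' g] with x h1 h2
      rw [h1, h2]; rfl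
    have h3 : AEStronglyMeasurable (fun z => f z * g z) (Measure.map ρ mu01) := by
      rw [hρ.map_eq]
      exact (Lp.aestronglyMeasurable f).mul (Lp.aestronglyMeasurable g)
    rw [h2, ← integral_map hρ.measurable.aemeasurable h3, hρ.map_eq]
  show (ContinuousLinearEquiv.ofBijective _ hker hrange).symm
    (Jt (dualMap mu01 p p' (J f))) = f
  rw [h1]
  exact ContinuousLinearEquiv.ofBijective_symm_apply_apply _ hker hrange f

/-- Weak-star limits along ultrafilters. -/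
lemma exists_weakStar_lim {W ι : Type} [NormedAddCommGroup W] [NormedSpace ℝ W]
    (U : Ultrafilter ι) (F : ι → StrongDual ℝ W) (β : ι → ℝ) (C : ℝ)
    (hF : ∀ k, ‖F k‖ ≤ β k) (hβ : Tendsto β U (𝓝 C)) :
    ∃ ξ : StrongDual ℝ W, ‖ξ‖ ≤ C ∧ ∀ f, Tendsto (fun k => F k f) U (𝓝 (ξ f)) := by
  have hC : 0 ≤ C := ge_of_tendsto' hβ fun k => (norm_nonneg _).trans (hF k)
  have hb : ∀ k f, |F k f| ≤ β k * ‖f‖ := fun k f =>
    ((F k).le_opNorm f).trans (mul_le_mul_of_nonneg_right (hF k) (norm_nonneg _))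
  have hlim : ∀ f : W, ∃ r : ℝ, Tendsto (fun k => F k f) U (𝓝 r) := by
    intro f
    have h1 : ∀ᶠ k in U, F k f ∈ Set.Icc (-((C + 1) * ‖f‖)) ((C + 1) * ‖f‖) := by
      filter_upwards [hβ.eventually (eventually_le_nhds (lt_add_one C))] with k hk
      exact abs_le.1 ((hb k f).trans (mul_le_mul_of_nonneg_right hk (norm_nonneg _)))
    obtain ⟨r, -, hr⟩ := isCompact_Icc.ultrafilter_le_nhds (U.map fun k => F k f)
      (le_principal_iff.2 h1)
    exact ⟨r, hr⟩
  choose r hr using hlim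
  have hrb : ∀ f, ‖r f‖ ≤ C * ‖f‖ := fun f =>
    le_of_tendsto_of_tendsto' (hr f).abs (hβ.mul_const _) fun k => hb k f
  let ξ₀ : W →ₗ[ℝ] ℝ :=
    { toFun := r
      map_add' := fun f g => by
        refine tendsto_nhds_unique (hr (f + g)) ?_
        simp only [map_add]
        exact (hr f).add (hr g)
      map_smul' := fun c f => by
        refine tendsto_nhds_unique (hr (c • f)) ?_
        simp only [map_smul, smul_eq_mul, RingHom.id_apply]
        exact (hr f).const_mul c }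
  exact ⟨ξ₀.mkContinuous C hrb, ξ₀.mkContinuous_norm_le hC hrb, hr⟩

/-- The discrete probability measure with the weights `w`. -/
noncomputable def wMeasure {N : ℕ} (w : Fin N → ℝ) : Measure ℕ :=
  ∑ i : Fin N, ENNReal.ofReal (w i) • Measure.dirac (i : ℕ)

lemma integrable_smul_dirac (c : ℝ) (i : ℕ) (F : ℕ → ℝ) :
    Integrable F (ENNReal.ofReal c • Measure.dirac i) :=
  (integrable_dirac (by simp)).smul_measure ENNReal.ofReal_ne_top

lemma wMeasure_integrable {N : ℕ} (w : Fin N → ℝ) (F : ℕ → ℝ) : Integrable F (wMeasure w) := by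
  unfold wMeasure
  rw [integrable_finsetSum_measure]
  exact fun i _ => integrable_smul_dirac _ _ _

lemma wMeasure_integral {N : ℕ} (w : Fin N → ℝ) (hw : ∀ i, 0 ≤ w i) (F : ℕ → ℝ) :
    ∫ s, F s ∂(wMeasure w) = ∑ i : Fin N, w i * F i := by
  unfold wMeasure
  rw [integral_finsetSum_measure fun i _ => integrable_smul_dirac _ _ _]
  refine Finset.sum_congr rfl fun i _ => ?_
  rw [integral_smul_measure, integral_dirac, ENNReal.toReal_ofReal (hw i), smul_eq_mul]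

lemma wMeasure_prob {N : ℕ} (w : Fin N → ℝ) (hw : ∀ i, 0 ≤ w i) (h1 : ∑ i, w i = 1) :
    IsProbabilityMeasure (wMeasure w) := by
  constructor
  unfold wMeasure
  rw [Measure.finsetSum_apply]
  simp only [Measure.smul_apply, measure_univ, smul_eq_mul, mul_one]
  rw [← ENNReal.ofReal_sum_of_nonneg fun i _ => hw i, h1, ENNReal.ofReal_one]

/-- The canonical map into the bidual factors linearly through `L^p` of the cube. -/
lemma factor_cube (p : ℝ≥0∞) [Fact (1 ≤ p)] (hp : p ≠ ⊤)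
    (X : Type) [NormedAddCommGroup X] [NormedSpace ℝ X]
    [TopologicalSpace.SeparableSpace X] (L : NNReal)
    (h : ∀ (E : Submodule ℝ X) [FiniteDimensional ℝ E] (η : ℝ), 0 < η →
      ∃ (N : ℕ) (w : Fin N → ℝ) (A : E →ₗ[ℝ] (Fin N → ℝ))
        (B : (Fin N → ℝ) →ₗ[ℝ] StrongDual ℝ (StrongDual ℝ X)),
        (∀ i, 0 ≤ w i) ∧ ∑ i, w i = 1 ∧
        (∀ x : E, ∑ i, w i * |A x i| ^ p.toReal ≤ (L * ‖x‖) ^ p.toReal) ∧
        (∀ y, ‖B y‖ ^ p.toReal ≤ (L : ℝ) ^ p.toReal * ∑ i, w i * |y i| ^ p.toReal) ∧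
        ∀ x : E, ‖B (A x) - NormedSpace.inclusionInDoubleDual ℝ X x‖ ≤ η * ‖x‖) :
    ∃ (ν : Measure Cube) (_ : IsProbabilityMeasure ν) (A : X →L[ℝ] Lp ℝ p ν)
      (B : Lp ℝ p ν →L[ℝ] StrongDual ℝ (StrongDual ℝ X)),
      ∀ x, B (A x) = NormedSpace.inclusionInDoubleDual ℝ X x := by
  classical
  have ha : 1 ≤ p.toReal := by
    have := ENNReal.toReal_mono hp (Fact.out : 1 ≤ p)
    simpa using this
  have ha0 : 0 < p.toReal := by linarith
  have hL : (0 : ℝ) ≤ L := L.2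
  obtain ⟨x, hx⟩ := TopologicalSpace.exists_dense_seq X
  let E : ℕ → Submodule ℝ X := fun k => Submodule.span ℝ (x '' Set.Iio k)
  have hE : ∀ k, FiniteDimensional ℝ (E k) := fun k =>
    FiniteDimensional.span_of_finite ℝ ((Set.finite_Iio k).image x)
  have hxE : ∀ k i, i < k → x i ∈ E k := fun k i hi => Submodule.subset_span ⟨i, hi, rfl⟩
  have hdata := fun k : ℕ => @h (E k) (hE k) (1 / ((k : ℝ) + 1)) (by positivity)
  choose N w A B hw hw1 hA hB hBA using hdata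
  let y : ℕ → ℕ → ℕ → ℝ := fun k i s =>
    if hi : i < k then (if hs : s < N k then A k ⟨x i, hxE k i hi⟩ ⟨s, hs⟩ else 0) else 0
  have hprob : ∀ k, IsProbabilityMeasure (wMeasure (w k)) :=
    fun k => wMeasure_prob _ (hw k) (hw1 k)
  let U : Ultrafilter ℕ := hyperfilter ℕ
  have hU : (U : Filter ℕ) ≤ atTop := by
    rw [← Nat.cofinite_eq_atTop]; exact hyperfilter_le_cofinite
  obtain ⟨ν, hν, t, R, -, -, hRt, hlim⟩ := limit_space U (fun k => wMeasure (w k)) p.toReal ha y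
    (fun k i => Measurable.of_discrete)
    (fun k => ⟨k, fun i hi => by
      funext s
      simp only [y, dif_neg (not_lt.2 hi), Pi.zero_apply]⟩)
    (fun i => (L * ‖x i‖) ^ p.toReal) (fun k i => wMeasure_integrable _ _)
    (fun k i => by
      rw [wMeasure_integral _ (hw k)]
      by_cases hi : i < k
      · have := hA k ⟨x i, hxE k i hi⟩
        simpa only [y, dif_pos hi, Fin.is_lt, dif_pos, Fin.eta, Submodule.coe_norm] using this
      · simp only [y, dif_neg hi, abs_zero, Real.zero_rpow ha0.ne', mul_zero,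
          Finset.sum_const_zero]
        positivity)
  let T : C(Cube, ℝ) →L[ℝ] Lp ℝ p ν := ContinuousMap.toLp p ν ℝ
  have hT : DenseRange T := ContinuousMap.toLp_denseRange ℝ ν ℝ hp
  let S : ∀ k, C(Cube, ℝ) →ₗ[ℝ] (Fin (N k) → ℝ) := fun k =>
    (LinearMap.funLeft ℝ ℝ (fun i : Fin (N k) => (i : ℕ))).comp (R k)
  have hS : ∀ k g (i : Fin (N k)), S k g i = R k g i := fun _ _ _ => rfl
  have hSt : ∀ k i (hi : i < k), S k (t i) = A k ⟨x i, hxE k i hi⟩ := by
    intro k i hi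
    funext s
    rw [hS, hRt]
    simp only [y, dif_pos hi, Fin.is_lt, dif_pos, Fin.eta]
  have hSlim : ∀ g, Tendsto (fun k => ∑ i, w k i * |S k g i| ^ p.toReal) U
      (𝓝 (‖T g‖ ^ p.toReal)) := by
    intro g
    have h1 : ‖T g‖ ^ p.toReal = ∫ z, |g z| ^ p.toReal ∂ν := by
      rw [norm_rpow_eq hp]
      apply integral_congr_ae
      filter_upwards [ContinuousMap.coeFn_toLp (p := p) (μ := ν) (𝕜 := ℝ) g] with z hz
      rw [show T g z = g z from hz]
    rw [h1]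
    refine (hlim g).congr fun k => ?_
    rw [wMeasure_integral _ (hw k)]
    rfl
  let e : (ℕ →₀ ℝ) →ₗ[ℝ] X := Finsupp.linearCombination ℝ x
  let τ : (ℕ →₀ ℝ) →ₗ[ℝ] C(Cube, ℝ) := Finsupp.linearCombination ℝ t
  have he : DenseRange e := by
    refine hx.mono ?_
    rintro _ ⟨i, rfl⟩
    exact ⟨Finsupp.single i 1, by simp [e]⟩
  have hev : ∀ c : ℕ →₀ ℝ, ∀ᶠ k in atTop, ∃ hm : e c ∈ E k, S k (τ c) = A k ⟨e c, hm⟩ := by
    intro c
    induction c using Finsupp.induction_linear with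
    | zero =>
      refine Eventually.of_forall fun k => ⟨by simp, ?_⟩
      have : (⟨e 0, by simp⟩ : E k) = 0 := Subtype.ext (map_zero e)
      rw [this, map_zero, map_zero, map_zero]
    | add c d hc hd =>
      filter_upwards [hc, hd] with k ⟨h1, h2⟩ ⟨h3, h4⟩
      have hm : e (c + d) ∈ E k := by rw [map_add]; exact (E k).add_mem h1 h3
      refine ⟨hm, ?_⟩
      have : (⟨e (c + d), hm⟩ : E k) = ⟨e c, h1⟩ + ⟨e d, h3⟩ := Subtype.ext (map_add e c d)
      rw [this, map_add, map_add, map_add, h2, h4]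
    | single i r =>
      filter_upwards [eventually_gt_atTop i] with k hk
      have h1 : e (Finsupp.single i r) = r • x i := by simp [e]
      have h2 : τ (Finsupp.single i r) = r • t i := by simp [τ]
      have hm : e (Finsupp.single i r) ∈ E k := by rw [h1]; exact (E k).smul_mem r (hxE k i hk)
      refine ⟨hm, ?_⟩
      have : (⟨e (Finsupp.single i r), hm⟩ : E k) = r • ⟨x i, hxE k i hk⟩ := Subtype.ext h1
      rw [this, h2, map_smul, map_smul, hSt k i hk]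
  let A₀ : (ℕ →₀ ℝ) →ₗ[ℝ] Lp ℝ p ν := (T : C(Cube, ℝ) →ₗ[ℝ] Lp ℝ p ν).comp τ
  have hA₀ : ∀ c, ‖A₀ c‖ ≤ L * ‖e c‖ := by
    intro c
    have h1 : ‖T (τ c)‖ ^ p.toReal ≤ (L * ‖e c‖) ^ p.toReal := by
      refine le_of_tendsto (hSlim (τ c)) ?_
      filter_upwards [hU (hev c)] with k ⟨hm, hk⟩
      rw [hk]
      exact hA k ⟨e c, hm⟩
    exact (Real.rpow_le_rpow_iff (norm_nonneg _) (by positivity) ha0).1 h1
  have hB₀ : ∀ g : C(Cube, ℝ), ∃ ξ : StrongDual ℝ (StrongDual ℝ X), ‖ξ‖ ≤ L * ‖T g‖ ∧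
      ∀ f, Tendsto (fun k => B k (S k g) f) U (𝓝 (ξ f)) := by
    intro g
    refine exists_weakStar_lim U (fun k => B k (S k g))
      (fun k => L * (∑ i, w k i * |S k g i| ^ p.toReal) ^ (p.toReal)⁻¹) _ (fun k => ?_) ?_
    · have h0 : 0 ≤ ∑ i, w k i * |S k g i| ^ p.toReal :=
        Finset.sum_nonneg fun i _ => mul_nonneg (hw k i) (by positivity)
      refine (Real.rpow_le_rpow_iff (norm_nonneg _) (by positivity) ha0).1 ?_
      rw [Real.mul_rpow hL (by positivity), Real.rpow_inv_rpow h0 ha0.ne']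
      exact hB k _
    · have h1 := ((hSlim g).rpow_const (p := (p.toReal)⁻¹) (Or.inr (by positivity))).const_mul
        (L : ℝ)
      rwa [Real.rpow_rpow_inv (norm_nonneg _) ha0.ne'] at h1
  choose b hb1 hb2 using hB₀
  let B₀ : C(Cube, ℝ) →ₗ[ℝ] StrongDual ℝ (StrongDual ℝ X) :=
    { toFun := b
      map_add' := fun g₁ g₂ => ContinuousLinearMap.ext fun f => by
        refine tendsto_nhds_unique (hb2 (g₁ + g₂) f) ?_
        simp only [map_add, add_apply]
        exact (hb2 g₁ f).add (hb2 g₂ f)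
      map_smul' := fun c g => ContinuousLinearMap.ext fun f => by
        refine tendsto_nhds_unique (hb2 (c • g) f) ?_
        simp only [map_smul, smul_apply, smul_eq_mul, RingHom.id_apply]
        exact (hb2 g f).const_mul c }
  have hT' : DenseRange (T : C(Cube, ℝ) →ₗ[ℝ] Lp ℝ p ν) := hT
  obtain ⟨A₁, hA₁⟩ := extend_aux A₀ e he L hA₀
  obtain ⟨B₁, hB₁⟩ := extend_aux (Z := StrongDual ℝ (StrongDual ℝ X)) B₀
    (T : C(Cube, ℝ) →ₗ[ℝ] Lp ℝ p ν) hT' L hb1
  refine ⟨ν, hν, A₁, B₁, eq_of_dense_aux (Z := StrongDual ℝ (StrongDual ℝ X)) e he A₁ B₁ _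
    fun c => ?_⟩
  have h1 : B₁ (A₁ (e c)) = b (τ c) := by
    rw [hA₁]
    exact hB₁ (τ c)
  rw [h1]
  refine ContinuousLinearMap.ext fun f => tendsto_nhds_unique (hb2 (τ c) f) ?_
  rw [tendsto_iff_norm_sub_tendsto_zero]
  have h2 : Tendsto (fun k : ℕ => 1 / ((k : ℝ) + 1) * ‖e c‖ * ‖f‖) U (𝓝 0) := by
    have := ((tendsto_one_div_add_atTop_nhds_zero_nat (𝕜 := ℝ)).mul_const ‖e c‖).mul_const ‖f‖
    rw [zero_mul, zero_mul] at this
    exact this.mono_left hU
  refine squeeze_zero' (Eventually.of_forall fun k => norm_nonneg _) ?_ h2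
  filter_upwards [hU (hev c)] with k ⟨hm, hk⟩
  rw [hk]
  have h3 := hBA k ⟨e c, hm⟩
  have h4 := (B k (A k ⟨e c, hm⟩) - NormedSpace.inclusionInDoubleDual ℝ X (e c)).le_opNorm f
  exact h4.trans (mul_le_mul_of_nonneg_right h3 (norm_nonneg _))

/-- From the local factorisations to a complemented copy in `L_p[0,1]`. -/
theorem global_factor (p : ℝ≥0∞) [Fact (1 ≤ p)] (hp1 : 1 < p) (hp : p ≠ ⊤)
    (X : Type) [NormedAddCommGroup X] [NormedSpace ℝ X] [CompleteSpace X]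
    [TopologicalSpace.SeparableSpace X] (L : NNReal)
    (h : ∀ (E : Submodule ℝ X) [FiniteDimensional ℝ E] (η : ℝ), 0 < η →
      ∃ (N : ℕ) (w : Fin N → ℝ) (A : E →ₗ[ℝ] (Fin N → ℝ))
        (B : (Fin N → ℝ) →ₗ[ℝ] StrongDual ℝ (StrongDual ℝ X)),
        (∀ i, 0 ≤ w i) ∧ ∑ i, w i = 1 ∧
        (∀ x : E, ∑ i, w i * |A x i| ^ p.toReal ≤ (L * ‖x‖) ^ p.toReal) ∧
        (∀ y, ‖B y‖ ^ p.toReal ≤ (L : ℝ) ^ p.toReal * ∑ i, w i * |y i| ^ p.toReal) ∧
        ∀ x : E, ‖B (A x) - NormedSpace.inclusionInDoubleDual ℝ X x‖ ≤ η * ‖x‖) :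
    ∃ (A : X →L[ℝ] Lp ℝ p mu01) (B : Lp ℝ p mu01 →L[ℝ] X), ∀ x, B (A x) = x := by
  set p' := ENNReal.conjExponent p with hp'def
  have hc : ENNReal.HolderConjugate p p' := ENNReal.HolderConjugate.conjExponent hp1.le
  have : Fact (1 ≤ p') := ⟨ENNReal.HolderConjugate.one_le p' p⟩
  have hp' : p' ≠ ⊤ := by
    intro h
    have := ENNReal.HolderConjugate.inv_add_inv_eq_one p p'
    rw [h] at this
    simp at this
    exact hp1.ne' this
  obtain ⟨ν, hν, A, B, hBA⟩ := factor_cube p hp X L h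
  obtain ⟨B₁, hB₁⟩ := factor_of_reflexive (lp_reflexive ν p p' hp hp') A B hBA
  obtain ⟨J, Q, hQJ⟩ := cube_complemented p p' hp hp' ν
  refine ⟨J.comp A, B₁.comp Q, fun x => ?_⟩
  show B₁ (Q (J (A x))) = x
  rw [hQJ, hB₁]

end Pool.Agent.MP_fc1aea_an

end

-- part MP_fc1aea_an.Loc
section

open MeasureTheory Filter Topology
open scoped ENNReal Convolution

namespace Pool.Agent.MP_fc1aea_an

theorem loc_smooth {V Y : Type*} [NormedAddCommGroup V] [NormedSpace ℝ V] [FiniteDimensional ℝ V]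
    [NormedAddCommGroup Y] [NormedSpace ℝ Y] [CompleteSpace Y] {L : NNReal} {f : V → Y}
    (hf : LipschitzWith L f) {r : ℝ} (hr : 0 < r) :
    ∃ g : V → Y, ContDiff ℝ 1 g ∧ LipschitzWith L g ∧ ∀ v, ‖g v - f v‖ ≤ L * r := by
  borelize V
  let μ : Measure V := Measure.addHaar
  let φ : ContDiffBump (0 : V) := ⟨r / 2, r, by positivity, by linarith⟩
  have hc := hf.continuous
  refine ⟨φ.normed μ ⋆[ContinuousLinearMap.lsmul ℝ ℝ, μ] f, ?_, ?_, fun v => ?_⟩
  · exact φ.hasCompactSupport_normed.contDiff_convolution_left _ φ.contDiff_normed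
      hc.locallyIntegrable
  · refine LipschitzWith.of_dist_le_mul fun x y => ?_
    have hi : ∀ x : V, Integrable (fun t => φ.normed μ t • f (x - t)) μ := fun x =>
      (φ.continuous_normed.smul (by fun_prop)).integrable_of_hasCompactSupport
        φ.hasCompactSupport_normed.smul_right
    rw [dist_eq_norm, convolution_lsmul, convolution_lsmul, ← integral_sub (hi x) (hi y)]
    refine (norm_integral_le_of_norm_le (g := fun t => φ.normed μ t * (L * dist x y))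
      (φ.integrable_normed.mul_const _) (Eventually.of_forall fun t => ?_)).trans ?_
    · rw [← smul_sub, norm_smul, Real.norm_eq_abs, abs_of_nonneg (φ.nonneg_normed t)]
      refine mul_le_mul_of_nonneg_left ?_ (φ.nonneg_normed t)
      have := hf.dist_le_mul (x - t) (y - t)
      rwa [dist_sub_right, dist_eq_norm] at this
    · rw [integral_mul_const, φ.integral_normed, one_mul]
  · rw [← dist_eq_norm]
    refine φ.dist_normed_convolution_le hc.aestronglyMeasurable fun x hx => ?_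
    refine (hf.dist_le_mul x v).trans ?_
    gcongr
    exact le_of_lt hx

theorem loc_linear (E Z : Type*) [NormedAddCommGroup E] [NormedSpace ℝ E] [FiniteDimensional ℝ E]
    [NormedAddCommGroup Z] [NormedSpace ℝ Z] [CompleteSpace Z] {η : ℝ} (hη : 0 < η) :
    ∃ ε > 0, ∀ g : E → Z, ContDiff ℝ 1 g → (∀ v, ‖v‖ ≤ 1 → ‖g v‖ ≤ ε) →
      ∃ (ι : Type) (_ : Fintype ι) (w : ι → ℝ) (v : ι → E), (∀ i, 0 ≤ w i) ∧ ∑ i, w i = 1 ∧
        ‖∑ i, w i • fderiv ℝ g (v i)‖ ≤ η := by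
  borelize E
  let μ : Measure E := Measure.addHaar
  let φ : ContDiffBump (0 : E) := ⟨1 / 2, 1, by positivity, by linarith⟩
  let χ := φ.normed μ
  have hχ : ContDiff ℝ 1 χ := φ.contDiff_normed
  have hχc : HasCompactSupport χ := φ.hasCompactSupport_normed
  have hD : Continuous (fderiv ℝ χ) := hχ.continuous_fderiv one_ne_zero
  have hDc : HasCompactSupport (fderiv ℝ χ) := hχc.fderiv ℝ
  have hDi : Integrable (fun v => ‖fderiv ℝ χ v‖) μ :=
    (hD.integrable_of_hasCompactSupport hDc).norm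
  set M := ∫ v, ‖fderiv ℝ χ v‖ ∂μ with hM
  have hM0 : 0 ≤ M := integral_nonneg fun _ => norm_nonneg _
  refine ⟨η / (2 * (M + 1)), by positivity, fun g hg hgε => ?_⟩
  have hg' : Continuous (fderiv ℝ g) := hg.continuous_fderiv one_ne_zero
  have hi : Integrable (fun v => χ v • fderiv ℝ g v) μ :=
    (hχ.continuous.smul hg').integrable_of_hasCompactSupport hχc.smul_right
  have h1 : ‖∫ v, χ v • fderiv ℝ g v ∂μ‖ ≤ η / 2 := by
    refine ContinuousLinearMap.opNorm_le_bound _ (by positivity) fun x => ?_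
    rw [ContinuousLinearMap.integral_apply hi]
    simp only [smul_apply]
    have hDx : Continuous fun v => fderiv ℝ χ v x := by fun_prop
    have hDxc : HasCompactSupport fun v => fderiv ℝ χ v x := hχc.fderiv_apply ℝ x
    rw [integral_smul_fderiv_eq_neg_fderiv_smul_of_integrable
      ((hDx.smul hg.continuous).integrable_of_hasCompactSupport hDxc.smul_right)
      ((hχ.continuous.smul (by fun_prop)).integrable_of_hasCompactSupport hχc.smul_right)
      ((hχ.continuous.smul hg.continuous).integrable_of_hasCompactSupport hχc.smul_right)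
      (fun v _ => hχ.differentiable one_ne_zero v) (fun v _ => hg.differentiable one_ne_zero v),
      norm_neg]
    refine (norm_integral_le_of_norm_le
      (g := fun v => ‖fderiv ℝ χ v‖ * (‖x‖ * (η / (2 * (M + 1)))))
      (hDi.mul_const _) (Eventually.of_forall fun v => ?_)).trans ?_
    · by_cases hv : ‖v‖ ≤ 1
      · rw [norm_smul, ← mul_assoc]
        exact mul_le_mul ((fderiv ℝ χ v).le_opNorm x) (hgε v hv) (norm_nonneg _) (by positivity)
      · have : fderiv ℝ χ v = 0 := by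
          by_contra h
          have h2 := support_fderiv_subset ℝ (f := χ) h
          rw [φ.tsupport_normed_eq] at h2
          exact hv (by simpa using h2)
        simp [this]
    · rw [integral_mul_const, ← hM]
      have : M * (η / (2 * (M + 1))) ≤ η / 2 := by
        rw [← mul_div_assoc, div_le_div_iff₀ (by positivity) (by positivity)]
        nlinarith
      nlinarith [norm_nonneg x]
  have h2 : ∫ v, χ v • fderiv ℝ g v ∂μ ∈ closure (convexHull ℝ (Set.range (fderiv ℝ g))) := by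
    have hm : Measurable fun v => (χ v).toNNReal := hχ.continuous.measurable.real_toNNReal
    have he : ∀ v, ((χ v).toNNReal : ℝ) = χ v := fun v => Real.coe_toNNReal _ (φ.nonneg_normed v)
    have : IsProbabilityMeasure (μ.withDensity fun v => (χ v).toNNReal) := ⟨by
      rw [withDensity_apply _ MeasurableSet.univ, Measure.restrict_univ]
      change ∫⁻ v, ENNReal.ofReal (χ v) ∂μ = 1
      rw [← ofReal_integral_eq_lintegral_ofReal φ.integrable_normed
        (Eventually.of_forall φ.nonneg_normed), φ.integral_normed, ENNReal.ofReal_one]⟩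
    have h3 := (convex_convexHull ℝ (Set.range (fderiv ℝ g))).closure.integral_mem
      (μ := μ.withDensity fun v => (χ v).toNNReal) isClosed_closure (f := fderiv ℝ g)
      (Eventually.of_forall fun v => subset_closure (subset_convexHull _ _ ⟨v, rfl⟩))
      ((integrable_withDensity_iff_integrable_smul hm).2 (by
        simpa only [NNReal.smul_def, he] using hi))
    rw [integral_withDensity_eq_integral_smul hm] at h3
    simpa only [NNReal.smul_def, he] using h3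
  obtain ⟨T, hT, hT'⟩ := Metric.mem_closure_iff.1 h2 (η / 2) (by positivity)
  obtain ⟨ι, _, w, z, hw, hw1, hz, rfl⟩ := mem_convexHull_iff_exists_fintype.1 hT
  choose v hv using hz
  refine ⟨ι, inferInstance, w, v, hw, hw1, ?_⟩
  simp only [hv]
  rw [dist_comm, dist_eq_norm] at hT'
  linarith [norm_sub_norm_le (∑ i, w i • z i) (∫ v, χ v • fderiv ℝ g v ∂μ)]

theorem loc_convex {q : ℝ} (hq : 1 ≤ q) : ConvexOn ℝ Set.univ fun x : ℝ => |x| ^ q := by
  refine ⟨convex_univ, fun x _ y _ a b ha hb hab => ?_⟩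
  refine le_trans ?_ ((convexOn_rpow hq).2 (abs_nonneg x) (abs_nonneg y) ha hb hab)
  simp only [smul_eq_mul]
  refine Real.rpow_le_rpow (abs_nonneg _) ((abs_add_le _ _).trans ?_) (by linarith)
  rw [abs_mul, abs_mul, abs_of_nonneg ha, abs_of_nonneg hb]

theorem loc_cells (p : ℝ≥0∞) [Fact (1 ≤ p)] (hp : p ≠ ⊤) {K C : Type} [MeasurableSpace K]
    [Fintype C] (ν : Measure K) [IsProbabilityMeasure ν] (σ : K → C)
    (hσ : ∀ c, MeasurableSet (σ ⁻¹' {c})) :
    ∃ (m : C → ℝ) (P : Lp ℝ p ν →ₗ[ℝ] (C → ℝ)) (I : (C → ℝ) →ₗ[ℝ] Lp ℝ p ν),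
      (∀ c, 0 ≤ m c) ∧ ∑ c, m c = 1 ∧ (∀ f, ∑ c, m c * |P f c| ^ p.toReal ≤ ‖f‖ ^ p.toReal) ∧
      (∀ y, ‖I y‖ ^ p.toReal = ∑ c, m c * |y c| ^ p.toReal) ∧ (∀ y, I (P (I y)) = I y) ∧
      ∀ y, I y =ᵐ[ν] fun x => y (σ x) := by
  let : MeasurableSpace C := ⊤
  have hσm : Measurable σ := measurable_to_countable' hσ
  have hq : 1 ≤ p.toReal := by
    simpa using ENNReal.toReal_mono hp (Fact.out : 1 ≤ p)
  have hmem : ∀ y : C → ℝ, MemLp (fun x => y (σ x)) p ν := fun y =>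
    MemLp.of_bound ((measurable_from_top (f := y)).comp hσm).aestronglyMeasurable ‖y‖
      (Eventually.of_forall fun x => norm_le_pi_norm y _)
  have hint : ∀ F : C → ℝ, ∫ x, F (σ x) ∂ν = ∑ c, ν.real (σ ⁻¹' {c}) * F c := by
    intro F
    rw [← integral_map hσm.aemeasurable measurable_from_top.aestronglyMeasurable,
      integral_fintype Integrable.of_finite]
    refine Finset.sum_congr rfl fun c _ => ?_
    rw [map_measureReal_apply hσm (MeasurableSet.of_discrete), smul_eq_mul]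
  have hfi : ∀ f : Lp ℝ p ν, Integrable f ν := fun f => (Lp.memLp f).integrable Fact.out
  let I : (C → ℝ) →ₗ[ℝ] Lp ℝ p ν :=
    { toFun := fun y => (hmem y).toLp _
      map_add' := fun y z => MemLp.toLp_add (hmem y) (hmem z)
      map_smul' := fun c y => MemLp.toLp_const_smul c (hmem y) }
  have hI : ∀ y, I y =ᵐ[ν] fun x => y (σ x) := fun y => (hmem y).coeFn_toLp
  let P : Lp ℝ p ν →ₗ[ℝ] (C → ℝ) :=
    { toFun := fun f c => ⨍ x in σ ⁻¹' {c}, f x ∂ν
      map_add' := fun f g => by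
        funext c
        simp only [setAverage_eq, Pi.add_apply, ← smul_add]
        rw [← integral_add (hfi f).integrableOn (hfi g).integrableOn]
        congr 1
        exact integral_congr_ae (ae_restrict_of_ae (Lp.coeFn_add f g))
      map_smul' := fun a f => by
        funext c
        simp only [setAverage_eq, Pi.smul_apply, RingHom.id_apply]
        rw [smul_comm a, ← integral_smul a]
        congr 1
        exact integral_congr_ae (ae_restrict_of_ae (Lp.coeFn_smul a f)) }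
  have hP : ∀ f c, P f c = ⨍ x in σ ⁻¹' {c}, f x ∂ν := fun _ _ => rfl
  have hnorm : ∀ y, ‖I y‖ ^ p.toReal = ∑ c, ν.real (σ ⁻¹' {c}) * |y c| ^ p.toReal := by
    intro y
    rw [Pool.Agent.Lib.LpDual.norm_rpow_eq hp, ← hint fun c => |y c| ^ p.toReal]
    refine integral_congr_ae ?_
    filter_upwards [hI y] with x hx
    rw [hx]
  refine ⟨fun c => ν.real (σ ⁻¹' {c}), P, I, fun c => measureReal_nonneg, ?_, fun f => ?_, hnorm,
    fun y => ?_, hI⟩
  · simpa using (hint fun _ => 1).symm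
  · have hfp := Pool.Agent.Lib.LpDual.integrable_abs_rpow hp f
    have h1 : ∫ x, |f x| ^ p.toReal ∂ν = ∑ c, ∫ x in σ ⁻¹' {c}, |f x| ^ p.toReal ∂ν := by
      rw [← integral_iUnion_fintype hσ (fun a b hab => Set.disjoint_left.2 fun x h1 h2 =>
        hab (h1.symm.trans h2)) fun _ => hfp.integrableOn]
      have : ⋃ c, σ ⁻¹' {c} = Set.univ := by ext x; simp
      rw [this, Measure.restrict_univ]
    rw [Pool.Agent.Lib.LpDual.norm_rpow_eq hp, h1]
    refine Finset.sum_le_sum fun c _ => ?_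
    by_cases h0 : ν (σ ⁻¹' {c}) = 0
    · simp only [Measure.real, h0, ENNReal.toReal_zero, zero_mul]
      exact integral_nonneg fun x => by positivity
    · have h2 := (loc_convex hq).map_set_average_le
        (Continuous.continuousOn (continuous_abs.rpow_const fun _ => Or.inr (by linarith)))
        isClosed_univ h0 (measure_ne_top _ _) (Eventually.of_forall fun _ => trivial)
        (hfi f).integrableOn hfp.integrableOn
      have h3 : 0 < ν.real (σ ⁻¹' {c}) := ENNReal.toReal_pos h0 (measure_ne_top _ _)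
      rw [setAverage_eq (f := fun x => |f x| ^ p.toReal), smul_eq_mul, le_inv_mul_iff₀ h3] at h2
      exact h2
  · rw [← sub_eq_zero, ← map_sub, ← norm_eq_zero,
      ← Real.rpow_eq_zero (norm_nonneg _) (show p.toReal ≠ 0 by linarith), hnorm]
    refine Finset.sum_eq_zero fun c _ => ?_
    by_cases h0 : ν (σ ⁻¹' {c}) = 0
    · simp [Measure.real, h0]
    · have : P (I y) c = y c := by
        rw [hP, ← setAverage_const h0 (measure_ne_top _ _) (y c)]
        refine setAverage_congr_fun (hσ c) ?_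
        filter_upwards [hI y] with x hx hxc
        rw [hx, show σ x = c from hxc]
      rw [Pi.sub_apply, this, sub_self, abs_zero, Real.zero_rpow (by linarith), mul_zero]

theorem loc_discr (p : ℝ≥0∞) [Fact (1 ≤ p)] (hp : p ≠ ⊤) {K : Type} [MeasurableSpace K]
    (ν : Measure K) [IsProbabilityMeasure ν] {S : Set (Lp ℝ p ν)} (hS : IsCompact S) {δ : ℝ}
    (hδ : 0 < δ) :
    ∃ (C : Type) (_ : Fintype C) (m : C → ℝ) (P : Lp ℝ p ν →ₗ[ℝ] (C → ℝ))
      (I : (C → ℝ) →ₗ[ℝ] Lp ℝ p ν),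
      (∀ c, 0 ≤ m c) ∧ ∑ c, m c = 1 ∧ (∀ f, ∑ c, m c * |P f c| ^ p.toReal ≤ ‖f‖ ^ p.toReal) ∧
      (∀ y, ‖I y‖ ^ p.toReal = ∑ c, m c * |y c| ^ p.toReal) ∧ (∀ y, I (P (I y)) = I y) ∧
      (∀ f, ‖I (P f)‖ ≤ ‖f‖) ∧ ∀ f ∈ S, ‖I (P f) - f‖ ≤ 2 * δ := by
  have hq : 1 ≤ p.toReal := by
    simpa using ENNReal.toReal_mono hp (Fact.out : 1 ≤ p)
  obtain ⟨t, ht⟩ := hS.elim_finite_subcover
    (fun s : Lp.simpleFunc ℝ p ν => Metric.ball (s : Lp ℝ p ν) δ) (fun _ => Metric.isOpen_ball)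
    fun f _ => by
      obtain ⟨s, hs, hs'⟩ := (Lp.simpleFunc.dense (E := ℝ) (μ := ν) hp).exists_dist_lt f hδ
      exact Set.mem_iUnion.2 ⟨⟨s, hs⟩, hs'⟩
  let τ : K → (t → ℝ) := fun x s => Lp.simpleFunc.toSimpleFunc s.1 x
  have hfin : (Set.range τ).Finite := by
    refine (Set.Finite.pi' fun s : t => (Lp.simpleFunc.toSimpleFunc s.1).finite_range).subset ?_
    rintro _ ⟨x, rfl⟩ s
    exact ⟨x, rfl⟩
  have := hfin.fintype
  obtain ⟨m, P, I, h1, h2, h3, h4, h5, h6⟩ := loc_cells p hp ν (Set.rangeFactorization τ) (by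
    intro c
    have : Set.rangeFactorization τ ⁻¹' {c} =
        ⋂ s : t, Lp.simpleFunc.toSimpleFunc s.1 ⁻¹' {c.1 s} := by
      ext x
      simp only [Set.mem_preimage, Set.mem_singleton_iff, Set.mem_iInter, Subtype.ext_iff]
      exact funext_iff
    rw [this]
    exact MeasurableSet.iInter fun s => SimpleFunc.measurableSet_fiber _ _)
  have h7 : ∀ f, ‖I (P f)‖ ≤ ‖f‖ := fun f =>
    (Real.rpow_le_rpow_iff (norm_nonneg _) (norm_nonneg _) (by linarith)).1 ((h4 _).trans_le (h3 f))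
  refine ⟨_, this, m, P, I, h1, h2, h3, h4, h5, h7, fun f hf => ?_⟩
  obtain ⟨s, hs, hs'⟩ := Set.mem_iUnion₂.1 (ht hf)
  have h8 : I (fun c => c.1 ⟨s, hs⟩) = s := by
    refine Lp.ext ((h6 _).trans ?_)
    exact Lp.simpleFunc.toSimpleFunc_eq_toFun s
  have h9 : I (P f) - f = I (P (f - s)) - (f - s) := by
    rw [map_sub, map_sub, ← h8, h5]; abel
  rw [Metric.mem_ball, dist_eq_norm] at hs'
  rw [h9]
  linarith [norm_sub_le (I (P (f - s))) (f - s), h7 (f - s)]

/-- TASK Loc: linearisation on finite dimensional subspaces, through a finite weighted `ℓ_p`. -/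
theorem local_factor (p : ℝ≥0∞) [Fact (1 ≤ p)] (hp : p ≠ ⊤)
    {X Z K : Type} [NormedAddCommGroup X] [NormedSpace ℝ X]
    [NormedAddCommGroup Z] [NormedSpace ℝ Z] [CompleteSpace Z] [MeasurableSpace K]
    (ν : Measure K) [IsProbabilityMeasure ν] (L : NNReal) (Ψ : X → Lp ℝ p ν) (Φ : Lp ℝ p ν → Z)
    (j : X →L[ℝ] Z) (hΨ : LipschitzWith L Ψ) (hΦ : LipschitzWith L Φ) (h : ∀ x, Φ (Ψ x) = j x)
    (E : Submodule ℝ X) [FiniteDimensional ℝ E] (η : ℝ) (hη : 0 < η) :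
    ∃ (N : ℕ) (w : Fin N → ℝ) (A : E →ₗ[ℝ] (Fin N → ℝ)) (B : (Fin N → ℝ) →ₗ[ℝ] Z),
      (∀ i, 0 ≤ w i) ∧ ∑ i, w i = 1 ∧
      (∀ x : E, ∑ i, w i * |A x i| ^ p.toReal ≤ (L * ‖x‖) ^ p.toReal) ∧
      (∀ y, ‖B y‖ ^ p.toReal ≤ (L : ℝ) ^ p.toReal * ∑ i, w i * |y i| ^ p.toReal) ∧
      ∀ x : E, ‖B (A x) - j x‖ ≤ η * ‖x‖ := by
  have hq : 1 ≤ p.toReal := by
    simpa using ENNReal.toReal_mono hp (Fact.out : 1 ≤ p)
  obtain ⟨ε, hε, hlin⟩ := loc_linear E Z hη
  have hL0 : (0 : ℝ) ≤ L := L.2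
  obtain ⟨δ, hδ, hδε⟩ : ∃ δ > 0, (L + L * (L + 2)) * δ ≤ ε :=
    ⟨ε / (L + L * (L + 2) + 1), by positivity, by
      rw [← mul_div_assoc, div_le_iff₀ (by positivity)]; nlinarith⟩
  have := FiniteDimensional.proper ℝ E
  obtain ⟨C, _, m, P, I, h1, h2, h3, h4, h5, h6, h7⟩ := loc_discr p hp ν
    ((isCompact_closedBall (0 : E) 1).image (f := fun v : E => Ψ v)
      (hΨ.continuous.comp continuous_subtype_val)) hδ
  let G := LinearMap.range I
  have := FiniteDimensional.complete ℝ G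
  let J : (C → ℝ) →ₗ[ℝ] G := I.rangeRestrict
  have hJ : ∀ g : G, J (P g) = g := by
    rintro ⟨_, y, rfl⟩
    exact Subtype.ext (h5 y)
  obtain ⟨a, a1, a2, a3⟩ := loc_smooth (L := L) (f := fun v : E => J (P (Ψ v)))
    (LipschitzWith.of_dist_le_mul fun x y => by
      rw [dist_eq_norm, ← map_sub, ← map_sub]
      refine (h6 _).trans ?_
      rw [← dist_eq_norm]
      exact hΨ.dist_le_mul x y) hδ
  obtain ⟨b, b1, b2, b3⟩ := loc_smooth (L := L) (f := fun g : G => Φ g)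
    (LipschitzWith.of_dist_le_mul fun x y => hΦ.dist_le_mul x y) hδ
  let jE : E →L[ℝ] Z := j.comp E.subtypeL
  obtain ⟨ι, _, w, v, w0, w1, hw⟩ := hlin (fun v => b (a v) - jE v)
    ((b1.comp a1).sub jE.contDiff) (by
      intro v hv
      have e1 := b3 (a v)
      have e2 : ‖(a v : Lp ℝ p ν) - I (P (Ψ v))‖ ≤ L * δ := a3 v
      have e3 := h7 (Ψ v) ⟨v, by simpa using hv, rfl⟩
      have e4 := hΦ.dist_le_mul (a v) (Ψ v)
      rw [dist_eq_norm, dist_eq_norm, h] at e4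
      have e5 := norm_sub_le_norm_sub_add_norm_sub (a v : Lp ℝ p ν) (I (P (Ψ v))) (Ψ v)
      have e6 := norm_sub_le_norm_sub_add_norm_sub (b (a v)) (Φ (a v)) (j v)
      have e7 : (L : ℝ) * ‖(a v : Lp ℝ p ν) - Ψ v‖ ≤ L * (L * δ + 2 * δ) := by gcongr; linarith
      change ‖b (a v) - j v‖ ≤ ε
      nlinarith)
  have hD : ∀ u, fderiv ℝ (fun v => b (a v) - jE v) u =
      (fderiv ℝ b (a u)).comp (fderiv ℝ a u) - jE := fun u =>
    (((b1.differentiable one_ne_zero (a u)).hasFDerivAt.comp u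
      (a1.differentiable one_ne_zero u).hasFDerivAt).sub jE.hasFDerivAt).fderiv
  have hDa : ∀ u x, ‖fderiv ℝ a u x‖ ≤ L * ‖x‖ := fun u x =>
    (fderiv ℝ a u).le_of_opNorm_le (norm_fderiv_le_of_lipschitz ℝ a2) x
  have hDb : ∀ u x, ‖fderiv ℝ b u x‖ ≤ L * ‖x‖ := fun u x =>
    (fderiv ℝ b u).le_of_opNorm_le (norm_fderiv_le_of_lipschitz ℝ b2) x
  let e := Fintype.equivFin (ι × C)
  let A : E →ₗ[ℝ] (Fin (Fintype.card (ι × C)) → ℝ) := LinearMap.pi fun n =>
    (LinearMap.proj (e.symm n).2).comp (P.comp (G.subtype.comp (fderiv ℝ a (v (e.symm n).1)).toLinearMap))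
  have hA : ∀ x n, A x n = P (fderiv ℝ a (v (e.symm n).1) x) (e.symm n).2 := fun _ _ => rfl
  let B : (Fin (Fintype.card (ι × C)) → ℝ) →ₗ[ℝ] Z := ∑ i, w i •
    ((fderiv ℝ b (a (v i)) : G →ₗ[ℝ] Z).comp (J.comp (LinearMap.funLeft ℝ ℝ fun c => e (i, c))))
  have hB : ∀ y, B y = ∑ i, w i • fderiv ℝ b (a (v i)) (J fun c => y (e (i, c))) := by
    intro y
    simp only [B, LinearMap.sum_apply, LinearMap.smul_apply]
    rfl
  have hsum : ∀ F : Fin (Fintype.card (ι × C)) → ℝ, ∑ n, F n = ∑ i, ∑ c, F (e (i, c)) := by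
    intro F
    rw [← e.sum_comp, Fintype.sum_prod_type]
  refine ⟨_, fun n => w (e.symm n).1 * m (e.symm n).2, A, B,
    fun n => mul_nonneg (w0 _) (h1 _), ?_, fun x => ?_, fun y => ?_, fun x => ?_⟩
  · simp only [hsum, Equiv.symm_apply_apply, ← Finset.mul_sum, h2, mul_one, w1]
  · simp only [hsum, hA, Equiv.symm_apply_apply, mul_assoc, ← Finset.mul_sum]
    calc _ ≤ ∑ i, w i * (L * ‖x‖) ^ p.toReal := by
          refine Finset.sum_le_sum fun i _ => mul_le_mul_of_nonneg_left ((h3 _).trans ?_) (w0 i)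
          exact Real.rpow_le_rpow (norm_nonneg _) (hDa _ x) (by linarith)
      _ = _ := by rw [← Finset.sum_mul, w1, one_mul]
  · simp only [hsum, Equiv.symm_apply_apply, mul_assoc, ← Finset.mul_sum, ← h4]
    have e1 : ‖B y‖ ≤ L * ∑ i, w i * ‖I fun c => y (e (i, c))‖ := by
      rw [hB, Finset.mul_sum]
      refine (norm_sum_le _ _).trans (Finset.sum_le_sum fun i _ => ?_)
      rw [norm_smul, Real.norm_eq_abs, abs_of_nonneg (w0 i), mul_left_comm]
      exact mul_le_mul_of_nonneg_left (hDb _ _) (w0 i)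
    refine (Real.rpow_le_rpow (norm_nonneg _) e1 (by linarith)).trans ?_
    rw [Real.mul_rpow hL0 (Finset.sum_nonneg fun i _ => mul_nonneg (w0 i) (norm_nonneg _))]
    exact mul_le_mul_of_nonneg_left (Real.rpow_arith_mean_le_arith_mean_rpow _ _ _
      (fun i _ => w0 i) w1 (fun i _ => norm_nonneg _) hq) (by positivity)
  · refine le_trans (le_of_eq ?_) ((∑ i, w i • fderiv ℝ (fun v => b (a v) - jE v) (v i)).le_of_opNorm_le
      hw x)
    congr 1
    simp only [hB, hA, Equiv.symm_apply_apply, hD, ContinuousLinearMap.sum_apply,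
      ContinuousLinearMap.smul_apply, ContinuousLinearMap.sub_apply, smul_sub,
      Finset.sum_sub_distrib, ← Finset.sum_smul, w1, one_smul, ContinuousLinearMap.comp_apply]
    congr 1
    refine Finset.sum_congr rfl fun i _ => ?_
    rw [hJ]

end Pool.Agent.MP_fc1aea_an

end

-- part MP_fc1aea_an.Pel
section

open MeasureTheory Filter Topology
open scoped ENNReal

namespace Pool.Agent.MP_fc1aea_an

lemma pel_norm {Ω : Type} [MeasurableSpace Ω] {μ : Measure Ω} {p : ℝ≥0∞} [Fact (1 ≤ p)]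
    (hp : p ≠ ⊤) (f : Lp ℝ p μ) :
    ENNReal.ofReal (‖f‖ ^ p.toReal) = ∫⁻ x, ‖f x‖ₑ ^ p.toReal ∂μ := by
  have h0 : p ≠ 0 := (zero_lt_one.trans_le Fact.out).ne'
  have ha := ENNReal.toReal_pos h0 hp
  rw [← ENNReal.ofReal_rpow_of_nonneg (norm_nonneg _) ha.le, ofReal_norm, Lp.enorm_def,
    eLpNorm_eq_lintegral_rpow_enorm_toReal h0 hp, one_div, ENNReal.rpow_inv_rpow ha.ne']

lemma pel_iso {Ω : Type} [MeasurableSpace Ω] {μ : Measure Ω} {p : ℝ≥0∞} [Fact (1 ≤ p)]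
    (hp : p ≠ ⊤) (t : ℕ → Ω ≃ᵐ Ω) (c : ℕ → ℝ) (hc : ∀ n, 0 < c n)
    (hsum : μ = Measure.sum fun n => ENNReal.ofReal (c n) • μ.map (t n)) (S : Set Ω)
    (hS : ∀ᵐ x ∂μ, x ∈ S) (hd : ∀ m n, ∀ x ∈ S, ∀ y ∈ S, t m x = t n y → m = n) :
    Nonempty (Lp ℝ p μ ≃L[ℝ] lp (fun _ : ℕ => Lp ℝ p μ) p) := by
  classical
  have h0 : p ≠ 0 := (zero_lt_one.trans_le Fact.out).ne'
  have ha := ENNReal.toReal_pos h0 hp
  set a := p.toReal with ha'
  let d : ℕ → ℝ := fun n => c n ^ a⁻¹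
  have hd0 : ∀ n, 0 < d n := fun n => Real.rpow_pos_of_pos (hc n) _
  have key : ∀ F : Ω → ℝ, ∫⁻ x, ‖F x‖ₑ ^ a ∂μ = ∑' n, ∫⁻ x, ‖d n * F (t n x)‖ₑ ^ a ∂μ := by
    intro F
    conv_lhs => rw [hsum]
    rw [lintegral_sum_measure]
    refine tsum_congr fun n => ?_
    rw [lintegral_smul_measure, lintegral_map_equiv, smul_eq_mul,
      ← lintegral_const_mul' _ _ ENNReal.ofReal_ne_top]
    refine lintegral_congr fun x => ?_
    rw [enorm_mul, ENNReal.mul_rpow_of_nonneg _ _ ha.le, Real.enorm_eq_ofReal (hd0 n).le,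
      ENNReal.ofReal_rpow_of_nonneg (hd0 n).le ha.le, Real.rpow_inv_rpow (hc n).le ha.ne']
  have hc0 : ∀ n, ENNReal.ofReal (c n) ≠ 0 := fun n => by simpa using hc n
  have hle : ∀ n, μ.map (t n) ≤ (ENNReal.ofReal (c n))⁻¹ • μ := fun n => by
    have h1 : ENNReal.ofReal (c n) • μ.map (t n) ≤ μ := by
      conv_rhs => rw [hsum]
      exact Measure.le_sum (fun n => ENNReal.ofReal (c n) • μ.map (t n)) n
    intro s
    have h2 := h1 s
    simp only [Measure.smul_apply, smul_eq_mul] at h2 ⊢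
    rwa [← ENNReal.mul_le_iff_le_inv (hc0 n) ENNReal.ofReal_ne_top]
  have hmp : ∀ n, MeasurePreserving (t n) μ (μ.map (t n)) := fun n => ⟨(t n).measurable, rfl⟩
  let R : ℕ → Lp ℝ p μ →ₗ[ℝ] Lp ℝ p μ := fun n => d n •
    (Lp.compMeasurePreservingₗ ℝ (t n) (hmp n) ∘ₗ
      (Lp.LpToLpOfMeasureLeSMul (ENNReal.inv_ne_top.2 (hc0 n)) (hle n)).toLinearMap)
  have hR : ∀ n f, R n f =ᵐ[μ] fun x => d n * f (t n x) := fun n f => by
    have h1 := Lp.coeFn_LpToLpOfMeasureLeSMul (p := p) (ENNReal.inv_ne_top.2 (hc0 n)) (hle n) f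
    have h2 := (hmp n).quasiMeasurePreserving.ae_eq_comp h1
    have h3 := Lp.coeFn_compMeasurePreserving
      (Lp.LpToLpOfMeasureLeSMul (p := p) (ENNReal.inv_ne_top.2 (hc0 n)) (hle n) f) (hmp n)
    filter_upwards [h2, h3, Lp.coeFn_smul (d n) (Lp.compMeasurePreserving (t n) (hmp n)
      (Lp.LpToLpOfMeasureLeSMul (p := p) (ENNReal.inv_ne_top.2 (hc0 n)) (hle n) f))] with x a1 a2 a3
    refine a3.trans ?_
    rw [Pi.smul_apply, a2, a1]; rfl
  have hN : ∀ f : Lp ℝ p μ, HasSum (fun n => ‖R n f‖ ^ a) (‖f‖ ^ a) := fun f => by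
    have h1 : ENNReal.ofReal (‖f‖ ^ a) = ∑' n, ENNReal.ofReal (‖R n f‖ ^ a) := by
      rw [pel_norm hp, key]
      refine tsum_congr fun n => ?_
      rw [pel_norm hp]
      exact lintegral_congr_ae ((hR n f).mono fun x hx => by simp only [hx, ha'])
    have h2 := ENNReal.hasSum_toReal (h1 ▸ ENNReal.ofReal_ne_top :
      ∑' n, ENNReal.ofReal (‖R n f‖ ^ a) ≠ ⊤)
    rw [← ENNReal.tsum_toReal_eq fun _ => ENNReal.ofReal_ne_top, ← h1] at h2
    simpa only [ENNReal.toReal_ofReal (Real.rpow_nonneg (norm_nonneg _) _)] using h2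
  let U : Lp ℝ p μ →ₗᵢ[ℝ] lp (fun _ : ℕ => Lp ℝ p μ) p :=
    { toFun := fun f => ⟨fun n => R n f, memℓp_gen (hN f).summable⟩
      map_add' := fun f g => lp.ext (funext fun n => map_add (R n) f g)
      map_smul' := fun r f => lp.ext (funext fun n => map_smul (R n) r f)
      norm_map' := fun f => by
        rw [lp.norm_eq_tsum_rpow ha]
        change (∑' n, ‖R n f‖ ^ a) ^ (1 / a) = _
        rw [(hN f).tsum_eq, one_div, Real.rpow_rpow_inv (norm_nonneg _) ha.ne'] }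
  refine ⟨(LinearIsometryEquiv.ofSurjective U fun g => ?_).toContinuousLinearEquiv⟩
  let F : Ω → ℝ := fun x => if h : ∃ n, (t n).symm x ∈ S then
    (d h.choose)⁻¹ * g h.choose ((t h.choose).symm x) else 0
  have hF : ∀ n, ∀ᵐ x ∂μ, d n * F (t n x) = g n x := fun n => hS.mono fun x hx => by
    have h : ∃ m, (t m).symm (t n x) ∈ S := ⟨n, by simpa using hx⟩
    have h1 : h.choose = n := hd _ _ _ h.choose_spec x hx (by simp)
    simp only [F, dif_pos h]
    rw [h1, MeasurableEquiv.symm_apply_apply, mul_inv_cancel_left₀ (hd0 n).ne']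
  have hm : MemLp F p μ := by
    refine ⟨?_, ?_⟩
    · rw [hsum, aestronglyMeasurable_sum_measure_iff]
      intro n
      refine AEStronglyMeasurable.smul_measure ?_ _
      rw [(t n).measurableEmbedding.aestronglyMeasurable_map_iff]
      refine ((Lp.aestronglyMeasurable (g n)).const_mul (d n)⁻¹).congr ((hF n).mono fun x hx => ?_)
      simp only [← hx, Function.comp, inv_mul_cancel_left₀ (hd0 n).ne']
    · rw [eLpNorm_lt_top_iff_lintegral_rpow_enorm_lt_top h0 hp, key]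
      have : ∀ n, ∫⁻ x, ‖d n * F (t n x)‖ₑ ^ a ∂μ = ENNReal.ofReal (‖g n‖ ^ a) := fun n => by
        rw [pel_norm hp]
        exact lintegral_congr_ae ((hF n).mono fun x hx => by simp only [hx, ha'])
      simp only [this]
      rw [← ENNReal.ofReal_tsum_of_nonneg (fun n => by positivity) ((lp.memℓp g).summable ha)]
      exact ENNReal.ofReal_lt_top
  refine ⟨hm.toLp F, lp.ext (funext fun n => Lp.ext ?_)⟩
  have h1 : ∀ᵐ x ∂μ.map (t n), hm.toLp F x = F x :=
    (Measure.absolutelyContinuous_of_le_smul (hle n)).ae_le hm.coeFn_toLp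
  filter_upwards [hR n (hm.toLp F), hF n, (hmp n).quasiMeasurePreserving.ae h1] with x a1 a2 a3
  rw [← a2, ← a3]
  exact a1

lemma pel_iso01 {p : ℝ≥0∞} [Fact (1 ≤ p)] (hp : p ≠ ⊤) :
    Nonempty (Lp ℝ p mu01 ≃L[ℝ] lp (fun _ : ℕ => Lp ℝ p mu01) p) := by
  let c : ℕ → ℝ := fun n => (1 / 2) ^ (n + 1)
  have hc : ∀ n, 0 < c n := fun n => by positivity
  let t : ℕ → ℝ ≃ᵐ ℝ := fun n =>
    (MeasurableEquiv.addLeft 1).trans (Homeomorph.mulLeft₀ (c n) (hc n).ne').toMeasurableEquiv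
  have ht : ∀ n x, t n x = c n * (1 + x) := fun _ _ => rfl
  let I : ℕ → Set ℝ := fun n => Set.Ioc ((1 / 2) ^ (n + 1)) ((1 / 2) ^ n)
  have hI : ∀ n x, t n x ∈ I n ↔ x ∈ Set.Ioc (0 : ℝ) 1 := fun n x => by
    have h1 : (1 / 2 : ℝ) ^ n = c n * 2 := by simp only [c]; rw [pow_succ]; ring
    have h2 := hc n
    simp only [ht, I, Set.mem_Ioc, h1]
    change c n < _ ∧ _ ↔ _
    constructor <;> rintro ⟨a, b⟩ <;> constructor <;> nlinarith
  have hdisj : ∀ m n, ∀ x ∈ I m, x ∈ I n → m = n := by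
    have : ∀ m n, m < n → ∀ x ∈ I m, x ∉ I n := fun m n h x h1 h2 =>
      absurd (h1.1.trans_le h2.2) (not_lt.2 (pow_le_pow_of_le_one (by norm_num) (by norm_num) h))
    intro m n x h1 h2
    rcases lt_trichotomy m n with h | h | h
    · exact absurd h2 (this m n h x h1)
    · exact h
    · exact absurd h1 (this n m h x h2)
  have hmu : mu01 = volume.restrict (Set.Ioc 0 1) := Measure.restrict_congr_set Ioc_ae_eq_Icc.symm
  refine pel_iso hp t c hc ?_ (Set.Ioc 0 1) ?_ fun m n x hx y hy h =>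
    hdisj m n _ ((hI m x).2 hx) (h ▸ (hI n y).2 hy)
  · have h1 : Set.Ioc (0 : ℝ) 1 = ⋃ n, I n := by
      ext x
      simp only [Set.mem_iUnion]
      refine ⟨fun h => exists_nat_pow_near_of_lt_one h.1 h.2 (by norm_num) (by norm_num), ?_⟩
      rintro ⟨n, h⟩
      exact ⟨lt_trans (by positivity) h.1, h.2.trans (pow_le_one₀ (by norm_num) (by norm_num))⟩
    have h2 : ∀ n, ENNReal.ofReal (c n) • mu01.map (t n) = volume.restrict (I n) := fun n => by
      have h3 : volume.map (t n) = ENNReal.ofReal |(c n)⁻¹| • volume := by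
        rw [← Real.map_volume_mul_left (hc n).ne']
        conv_rhs => rw [← map_add_left_eq_self volume (1 : ℝ)]
        rw [Measure.map_map (by fun_prop) (by fun_prop)]; rfl
      rw [hmu, show Set.Ioc (0 : ℝ) 1 = t n ⁻¹' I n from Set.ext fun x => (hI n x).symm,
        ← (t n).measurableEmbedding.restrict_map, h3, Measure.restrict_smul, smul_smul,
        ← ENNReal.ofReal_mul (hc n).le, abs_of_pos (inv_pos.2 (hc n)), mul_inv_cancel₀ (hc n).ne']
      simp
    simp only [h2]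
    rw [hmu, h1]
    exact Measure.restrict_iUnion (fun m n h => Set.disjoint_left.2 fun x a b => h (hdisj m n x a b))
      fun _ => measurableSet_Ioc
  · rw [hmu]; exact ae_restrict_mem measurableSet_Ioc

section
variable {E : Type} [NormedAddCommGroup E] [NormedSpace ℝ E] [CompleteSpace E] {p : ℝ≥0∞}
  [Fact (1 ≤ p)]

lemma pel_cont {F : Type} [NormedAddCommGroup F] [NormedSpace ℝ F] [CompleteSpace F]
    (T : F →ₗ[ℝ] lp (fun _ : ℕ => E) p) (h : ∀ n, Continuous fun x => T x n) : Continuous T := by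
  refine T.continuous_of_seq_closed_graph fun u x y h1 h2 => lp.ext (funext fun n => ?_)
  exact tendsto_nhds_unique (((lp.evalCLM ℝ (fun _ : ℕ => E) p n).continuous.tendsto y).comp h2)
    (((h n).tendsto x).comp h1)

lemma pel_absorb (hp : p ≠ ⊤) {X : Type} [NormedAddCommGroup X] [NormedSpace ℝ X]
    [CompleteSpace X] (A : X →L[ℝ] E) (B : E →L[ℝ] X) (hBA : ∀ x, B (A x) = x) :
    Nonempty ((lp (fun _ : ℕ => E) p × X) ≃L[ℝ] lp (fun _ : ℕ => E) p) := by
  have h0 : p ≠ 0 := (zero_lt_one.trans_le Fact.out).ne'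
  have ha := ENNReal.toReal_pos h0 hp
  have ev : ∀ n, Continuous fun f : lp (fun _ : ℕ => E) p => f n := fun n =>
    (lp.evalCLM ℝ (fun _ : ℕ => E) p n).continuous
  have sh : ∀ f : ℕ → E, Memℓp (fun n => f (n + 1)) p ↔ Memℓp f p := fun f => by
    rw [memℓp_gen_iff ha, memℓp_gen_iff ha]
    exact summable_nat_add_iff (f := fun n => ‖f n‖ ^ p.toReal) 1
  have mp : ∀ f : ℕ → E, Memℓp f p → Memℓp (fun n => A (B (f n))) p := fun f hf =>
    lp.memℓp (lp.mapCLM p (fun _ => A.comp B) (norm_nonneg (A.comp B)) (fun _ => le_rfl) ⟨f, hf⟩)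
  let φ : (ℕ → E) → X → ℕ → E := fun f x n => f n - A (B (f n)) +
    Nat.casesOn n (A x) fun k => A (B (f k))
  let Φ : (lp (fun _ : ℕ => E) p × X) →ₗ[ℝ] lp (fun _ : ℕ => E) p :=
    { toFun := fun z => ⟨φ z.1 z.2, ((lp.memℓp z.1).sub (mp _ (lp.memℓp z.1))).add
        ((sh _).1 (mp _ (lp.memℓp z.1)))⟩
      map_add' := fun z w => lp.ext (funext fun n => by
        change φ (z.1 + w.1) (z.2 + w.2) n = φ z.1 z.2 n + φ w.1 w.2 n
        cases n <;> simp [φ] <;> abel)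
      map_smul' := fun r z => lp.ext (funext fun n => by
        change φ (r • z.1) (r • z.2) n = r • φ z.1 z.2 n
        cases n <;> simp [φ, smul_sub]) }
  have hΦ : ∀ z n, Φ z n = φ z.1 z.2 n := fun _ _ => rfl
  have hc : Continuous Φ := pel_cont Φ fun n => by
    have h1 := fun k => (ev k).comp (continuous_fst (Y := X))
    have h2 := fun k => (A.comp B).continuous.comp (h1 k)
    cases n with
    | zero => exact ((h1 0).sub (h2 0)).add (A.continuous.comp continuous_snd)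
    | succ n => exact ((h1 _).sub (h2 _)).add (h2 n)
  refine ⟨(LinearEquiv.ofBijective Φ ⟨?_, fun g => ?_⟩).toContinuousLinearEquivOfContinuous hc⟩
  · rw [injective_iff_map_eq_zero]
    intro z hz
    have h1 : ∀ n, φ z.1 z.2 n = 0 := fun n => by rw [← hΦ, hz]; rfl
    have h2 : ∀ n, B (z.1 n) = 0 := fun n => by simpa [φ, hBA] using congrArg B (h1 (n + 1))
    have h3 : z.2 = 0 := by simpa [φ, hBA] using congrArg B (h1 0)
    refine Prod.ext (lp.ext (funext fun n => ?_)) h3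
    have := h1 n
    cases n <;> simpa [φ, h2, h3] using this
  · refine ⟨(⟨fun n => g n - A (B (g n)) + A (B (g (n + 1))), ((lp.memℓp g).sub
      (mp _ (lp.memℓp g))).add (mp _ ((sh _).2 (lp.memℓp g)))⟩, B (g 0)), lp.ext (funext fun n => ?_)⟩
    rw [hΦ]
    cases n <;> simp [φ, hBA]

end

/-- The decomposition method for `L_p[0,1]`. -/
theorem pelczynski (p : ℝ≥0∞) [Fact (1 ≤ p)] (hp : p ≠ ⊤)
    (X : Type) [NormedAddCommGroup X] [NormedSpace ℝ X] [CompleteSpace X]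
    (A : X →L[ℝ] Lp ℝ p mu01) (B : Lp ℝ p mu01 →L[ℝ] X) (hBA : ∀ x, B (A x) = x)
    (A' : Lp ℝ p mu01 →L[ℝ] X) (B' : X →L[ℝ] Lp ℝ p mu01) (hBA' : ∀ f, B' (A' f) = f) :
    Nonempty (X ≃L[ℝ] Lp ℝ p mu01) := by
  obtain ⟨u⟩ := pel_iso01 hp
  obtain ⟨v⟩ := pel_absorb hp A B hBA
  obtain ⟨w⟩ := pel_absorb hp (ContinuousLinearMap.id ℝ (Lp ℝ p mu01)) (.id ℝ _) fun _ => rfl
  let v' : (Lp ℝ p mu01 × X) ≃L[ℝ] Lp ℝ p mu01 := ((u.prodCongr (.refl ℝ _)).trans v).trans u.symm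
  let w' : (Lp ℝ p mu01 × Lp ℝ p mu01) ≃L[ℝ] Lp ℝ p mu01 :=
    ((u.prodCongr (.refl ℝ _)).trans w).trans u.symm
  let z := ContinuousLinearEquiv.equivOfRightInverse B' A' hBA'
  exact ⟨(((z.trans (w'.symm.prodCongr (.refl ℝ _))).trans
    (ContinuousLinearEquiv.prodAssoc ℝ _ _ _)).trans
      ((ContinuousLinearEquiv.refl ℝ _).prodCongr z.symm)).trans v'⟩

end Pool.Agent.MP_fc1aea_an

end

-- part MP_fc1aea_an.Part
section

open MeasureTheory

namespace Pool.Agent.MP_fc1aea_an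

variable {Ω Λ : Type*} [MeasurableSpace Ω] (m : Measure Ω)

/-- The finite measurable partition given by a labelling. -/
def Rk (κ : SimpleFunc Ω Λ) (x y : Ω) : Prop := κ x = κ y

/-- Conditional expectation with respect to a finite partition. -/
noncomputable def av (κ : SimpleFunc Ω Λ) (f : Ω → ℝ) (x : Ω) : ℝ := ⨍ y in κ ⁻¹' {κ x}, f y ∂m

variable {m}

theorem Ms.exists_simpleFunc {κ : SimpleFunc Ω Λ} {f : Ω → ℝ} (h : Ms (Rk κ) f) :
    ∃ g : SimpleFunc Ω ℝ, ⇑g = f := by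
  classical
  refine ⟨κ.map fun l => if h : ∃ x, κ x = l then f h.choose else 0, funext fun x => ?_⟩
  have hx : ∃ y, κ y = κ x := ⟨x, rfl⟩
  simp only [SimpleFunc.map_apply, dif_pos hx]
  exact h _ _ hx.choose_spec

theorem Ms.measurable {κ : SimpleFunc Ω Λ} {f : Ω → ℝ} (h : Ms (Rk κ) f) : Measurable f := by
  obtain ⟨g, rfl⟩ := h.exists_simpleFunc
  exact g.measurable

theorem Ms.memLp [IsFiniteMeasure m] {κ : SimpleFunc Ω Λ} {f : Ω → ℝ} (h : Ms (Rk κ) f)
    (p : ENNReal) : MemLp f p m := by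
  obtain ⟨g, rfl⟩ := h.exists_simpleFunc
  exact g.memLp_of_isFiniteMeasure p m

theorem Ms.integrable [IsFiniteMeasure m] {κ : SimpleFunc Ω Λ} {f : Ω → ℝ} (h : Ms (Rk κ) f) :
    Integrable f m := memLp_one_iff_integrable.1 (h.memLp 1)

theorem Ms.integrable_mul [IsFiniteMeasure m] {κ : SimpleFunc Ω Λ} {φ f : Ω → ℝ}
    (h : Ms (Rk κ) φ) (hf : Integrable f m) : Integrable (fun x => φ x * f x) m :=
  memLp_one_iff_integrable.1 ((memLp_one_iff_integrable.2 hf).mul' (h.memLp ⊤))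

theorem integral_eq_sum_fiber (κ : SimpleFunc Ω Λ) {f : Ω → ℝ} (hf : Integrable f m) :
    ∫ x, f x ∂m = ∑ l ∈ κ.range, ∫ x in κ ⁻¹' {l}, f x ∂m := by
  classical
  have h1 : ∀ l ∈ κ.range, ∫ x in κ ⁻¹' {l}, f x ∂m = ∫ x, (κ ⁻¹' {l}).indicator f x ∂m :=
    fun l _ => (integral_indicator (κ.measurableSet_fiber l)).symm
  rw [Finset.sum_congr rfl h1,
    ← integral_finsetSum _ fun l _ => hf.indicator (κ.measurableSet_fiber l)]
  congr 1
  funext x
  rw [Finset.sum_eq_single (κ x)]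
  · simp
  · intro l _ hl
    exact Set.indicator_of_notMem (by simpa using hl.symm) _
  · exact fun h => absurd (κ.mem_range_self x) h

theorem Ms.setIntegral_mul {κ : SimpleFunc Ω Λ} {φ : Ω → ℝ} (h : Ms (Rk κ) φ) (f : Ω → ℝ)
    (x : Ω) : ∫ y in κ ⁻¹' {κ x}, φ y * f y ∂m = φ x * ∫ y in κ ⁻¹' {κ x}, f y ∂m := by
  rw [← integral_const_mul]
  refine setIntegral_congr_fun (κ.measurableSet_fiber _) fun y hy => ?_
  simp only [h y x hy]

theorem exists_functional (m : Measure Ω) [IsProbabilityMeasure m] (κ : SimpleFunc Ω Λ) :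
    ∃ I : (Ω → ℝ) →ₗ[ℝ] ℝ, (∀ f : Ω → ℝ, (∀ x, 0 ≤ f x) → 0 ≤ I f) ∧
      ∀ f, Ms (Rk κ) f → I f = ∫ x, f x ∂m := by
  have : Nonempty Ω := nonempty_of_isProbabilityMeasure m
  refine ⟨∑ l ∈ κ.range, m.real (κ ⁻¹' {l}) • LinearMap.proj (Function.invFun κ l), ?_, ?_⟩
  · intro f hf
    simp only [LinearMap.coe_sum, Finset.sum_apply, LinearMap.smul_apply, LinearMap.proj_apply,
      smul_eq_mul]
    exact Finset.sum_nonneg fun l _ => mul_nonneg measureReal_nonneg (hf _)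
  · intro f hf
    rw [integral_eq_sum_fiber κ hf.integrable]
    simp only [LinearMap.coe_sum, Finset.sum_apply, LinearMap.smul_apply, LinearMap.proj_apply,
      smul_eq_mul]
    refine Finset.sum_congr rfl fun l hl => ?_
    have hl' : κ (Function.invFun κ l) = l := Function.invFun_eq (SimpleFunc.mem_range.1 hl)
    have := hf.setIntegral_mul (m := m) (fun _ => 1) (Function.invFun κ l)
    rw [hl'] at this
    simp only [mul_one] at this
    rw [this]
    simp [mul_comm]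

theorem ms_av (κ : SimpleFunc Ω Λ) (f : Ω → ℝ) : Ms (Rk κ) (av m κ f) := fun x y h => by
  unfold av
  rw [show κ x = κ y from h]

theorem setIntegral_av [IsFiniteMeasure m] (κ : SimpleFunc Ω Λ) (f : Ω → ℝ) (x : Ω) :
    ∫ y in κ ⁻¹' {κ x}, av m κ f y ∂m = ∫ y in κ ⁻¹' {κ x}, f y ∂m := by
  have := (ms_av (m := m) κ f).setIntegral_mul (m := m) (fun _ => 1) x
  simp only [mul_one] at this
  rw [this, setIntegral_const, smul_eq_mul, mul_one, mul_comm]
  exact measure_smul_setAverage f (measure_ne_top m _)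

theorem integral_mul_av [IsFiniteMeasure m] {κ : SimpleFunc Ω Λ} {φ f : Ω → ℝ}
    (hφ : Ms (Rk κ) φ) (hf : Integrable f m) :
    ∫ x, φ x * av m κ f x ∂m = ∫ x, φ x * f x ∂m := by
  rw [integral_eq_sum_fiber κ (hφ.integrable_mul hf),
    integral_eq_sum_fiber κ (hφ.integrable_mul (ms_av κ f).integrable)]
  refine Finset.sum_congr rfl fun l hl => ?_
  obtain ⟨x, rfl⟩ := SimpleFunc.mem_range.1 hl
  rw [hφ.setIntegral_mul, hφ.setIntegral_mul, setIntegral_av]

theorem av_nonneg (κ : SimpleFunc Ω Λ) {f : Ω → ℝ} (hf : 0 ≤ᵐ[m] f) (x : Ω) : 0 ≤ av m κ f x := by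
  unfold av
  rw [setAverage_eq]
  exact smul_nonneg (inv_nonneg.2 measureReal_nonneg)
    (integral_nonneg_of_ae (ae_restrict_of_ae hf))

theorem av_congr (κ : SimpleFunc Ω Λ) {f g : Ω → ℝ} (h : f =ᵐ[m] g) : av m κ f = av m κ g := by
  funext x
  unfold av
  exact average_congr (ae_restrict_of_ae h)

theorem av_sum {ι : Type*} (κ : SimpleFunc Ω Λ) (s : Finset ι) (c : ι → ℝ) {f : ι → Ω → ℝ}
    (hf : ∀ i ∈ s, Integrable (f i) m) (x : Ω) :
    av m κ (fun y => ∑ i ∈ s, c i * f i y) x = ∑ i ∈ s, c i * av m κ (f i) x := by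
  unfold av
  simp only [setAverage_eq, smul_eq_mul]
  rw [integral_finsetSum _ fun i hi => ((hf i hi).const_mul _).restrict, Finset.mul_sum]
  refine Finset.sum_congr rfl fun i _ => ?_
  rw [integral_const_mul]; ring

theorem abs_rpow_tangent {t : ℝ} (ht : 1 ≤ t) (a b : ℝ) :
    |a| ^ t + t * |a| ^ (t - 1) * SignType.sign a * (b - a) ≤ |b| ^ t := by
  have h := rpow_tangent ht (abs_nonneg a) (abs_nonneg b)
  have h1 : (SignType.sign a : ℝ) * (b - a) ≤ |b| - |a| := by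
    rcases lt_trichotomy a 0 with h | h | h
    · rw [sign_neg h, abs_of_neg h]; simp only [SignType.coe_neg_one]; linarith [neg_abs_le b]
    · subst h; simp
    · rw [sign_pos h, abs_of_pos h]; simp only [SignType.coe_one]; linarith [le_abs_self b]
  have h2 : 0 ≤ t * |a| ^ (t - 1) := by positivity
  nlinarith [mul_le_mul_of_nonneg_left h1 h2]

theorem integral_abs_av_rpow_le [IsFiniteMeasure m] (κ : SimpleFunc Ω Λ) {t : ℝ} (ht : 1 ≤ t)
    {f : Ω → ℝ} (hf : Integrable f m) (hft : Integrable (fun x => |f x| ^ t) m) :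
    ∫ x, |av m κ f x| ^ t ∂m ≤ ∫ x, |f x| ^ t ∂m := by
  set φ : Ω → ℝ := fun x => t * |av m κ f x| ^ (t - 1) * SignType.sign (av m κ f x) with hφ
  have h1 : Ms (Rk κ) φ := fun x y h => by simp only [hφ, ms_av κ f x y h]
  have h2 : Ms (Rk κ) fun x => |av m κ f x| ^ t := fun x y h => by simp only [ms_av κ f x y h]
  have h3 := h1.integrable_mul hf
  have h4 := h1.integrable_mul (ms_av (m := m) κ f).integrable (m := m)
  have h5 : Integrable (fun x => φ x * f x - φ x * av m κ f x) m := h3.sub h4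
  calc _ = ∫ x, (|av m κ f x| ^ t + (φ x * f x - φ x * av m κ f x)) ∂m := by
        rw [integral_add h2.integrable h5, integral_sub h3 h4, integral_mul_av h1 hf]; ring
    _ ≤ _ := by
        refine integral_mono (h2.integrable.add h5) hft fun x => ?_
        have := abs_rpow_tangent ht (av m κ f x) (f x)
        simp only [hφ]
        linarith

end Pool.Agent.MP_fc1aea_an

end

-- part MP_fc1aea_an.Realize
section

open MeasureTheory Filter Topology
open scoped ENNReal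

namespace Pool.Agent.MP_fc1aea_an

open scoped symmDiff

theorem realize_chaos {α : Type*} [DecidableEq α] (B : α → α → ℝ) (hB : ∀ i j, B i j = B j i)
    (U : Finset α) (σ : Finset α) :
    T (1 / 2) U (fun s => (∑ i ∈ U, ∑ j ∈ U, sg s i * sg s j * B i j - ∑ i ∈ U, B i i) ^ 2) σ
      ≤ 4 * ∑ i ∈ U, ∑ j ∈ U, B i j ^ 2 := by
  induction U using Finset.induction_on generalizing σ with
  | empty => simp [T_empty]
  | insert w U hw ih =>
    set h : Finset α → ℝ :=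
      fun s => ∑ i ∈ U, ∑ j ∈ U, sg s i * sg s j * B i j - ∑ i ∈ U, B i i with hh
    have e : ∀ s, ∑ i ∈ insert w U, ∑ j ∈ insert w U, sg s i * sg s j * B i j
        - ∑ i ∈ insert w U, B i i = h s + 2 * sg s w * lin U (B w) s := by
      intro s
      simp only [Finset.sum_insert hw, Finset.sum_add_distrib, hh, lin]
      have e1 : ∑ j ∈ U, sg s w * sg s j * B w j = sg s w * ∑ j ∈ U, sg s j * B w j := by
        rw [Finset.mul_sum]; exact Finset.sum_congr rfl fun j _ => by ring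
      have e2 : ∑ j ∈ U, sg s j * sg s w * B j w = sg s w * ∑ j ∈ U, sg s j * B w j := by
        rw [Finset.mul_sum]; exact Finset.sum_congr rfl fun j _ => by rw [hB j w]; ring
      have e3 : sg s w * sg s w = 1 := by rw [← pow_two, sg_sq]
      rw [e1, e2, e3]; ring
    have hsg : ∀ s, ∀ j ∈ U, sg (s ∆ {w}) j = sg s j := by
      intro s j hj
      have : w ≠ j := fun h => hw (h ▸ hj)
      exact inv_sg this s
    have hinv : ∀ s, h (s ∆ {w}) = h s := by
      intro s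
      simp only [hh]
      congr 1
      exact Finset.sum_congr rfl fun i hi => Finset.sum_congr rfl fun j hj => by
        rw [hsg s i hi, hsg s j hj]
    have linv : ∀ s, lin U (B w) (s ∆ {w}) = lin U (B w) s := by
      intro s
      simp only [lin]
      exact Finset.sum_congr rfl fun j hj => by rw [hsg s j hj]
    simp only [e]
    rw [T_insert _ hw, T_shift, ← T_smul, ← T_smul, ← T_add]
    have e4 : (fun s => (1 - 1 / 2 : ℝ) • (h s + 2 * sg s w * lin U (B w) s) ^ 2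
        + (1 / 2 : ℝ) • (h (s ∆ {w}) + 2 * sg (s ∆ {w}) w * lin U (B w) (s ∆ {w})) ^ 2)
        = fun s => h s ^ 2 + 4 * lin U (B w) s ^ 2 := by
      funext s
      rw [hinv, linv, sg_flip]
      have := sg_sq s w
      simp only [smul_eq_mul]
      nlinarith
    rw [e4, T_add, T_mul, M_lin_sq]
    have e5 := ih σ
    simp only [Finset.sum_insert hw, Finset.sum_add_distrib]
    have e6 : 0 ≤ ∑ j ∈ U, B j w ^ 2 := Finset.sum_nonneg fun _ _ => sq_nonneg _
    nlinarith [sq_nonneg (B w w)]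

section Abstract

variable {X Y : Type*} [NormedAddCommGroup X] [NormedSpace ℝ X] [NormedAddCommGroup Y]
  [NormedSpace ℝ Y]

theorem realize_cs (H : X →L[ℝ] X →L[ℝ] Y) (ν : Y →L[ℝ] ℝ)
    (hsym : ∀ x y, H x y = H y x) (hpos : ∀ x, 0 ≤ ν (H x x)) (x y : X) :
    ν (H x y) ^ 2 ≤ ν (H x x) * ν (H y y) := by
  have h : ∀ t : ℝ, 0 ≤ ν (H x x) * (t * t) + (2 * ν (H x y)) * t + ν (H y y) := by
    intro t
    have := hpos (t • x + y)
    simp only [map_add, map_smul, add_apply, smul_apply,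
      smul_eq_mul, hsym y x] at this
    nlinarith
  have := discrim_le_zero h
  unfold discrim at this
  nlinarith

theorem realize_blocks {Γ : Type*} (𝒢 : Finset Γ) (H : X →L[ℝ] X →L[ℝ] Y)
    (ν : Γ → Y →L[ℝ] ℝ) (lam : Γ → X →L[ℝ] ℝ) (hsym : ∀ x y, H x y = H y x)
    (hpos : ∀ G ∈ 𝒢, ∀ x, 0 ≤ ν G (H x x)) (hν : ∀ G ∈ 𝒢, ∀ s, ν G s ≤ ‖s‖) (s : Y)
    (hs : ∀ (F : Finset (X →L[ℝ] ℝ)) (η : ℝ), 0 < η → ∀ δ : ℝ, 0 < δ →
      ∃ (ι : Type) (I : Finset ι) (y : ι → X), ‖∑ i ∈ I, H (y i) (y i) - s‖ ≤ δ ∧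
        ∀ ξ ∈ F, ∑ i ∈ I, ξ (y i) ^ 2 ≤ η)
    {δ : ℝ} (hδ : 0 < δ) (M : ℕ) :
    ∃ (ι : Type) (I : Finset ι) (y : ι → X), ‖∑ i ∈ I, H (y i) (y i) - (M : ℝ) • s‖ ≤ M * δ ∧
      ∀ G ∈ 𝒢, ∑ i ∈ I, lam G (y i) ^ 2 ≤ M * δ ∧
        ∑ i ∈ I, ∑ j ∈ I, ν G (H (y i) (y j)) ^ 2 ≤ M * ((‖s‖ + δ) ^ 2 + 2 * δ) := by
  classical
  induction M with
  | zero => exact ⟨Unit, ∅, fun _ => 0, by simp, by simp⟩
  | succ M ih =>
    obtain ⟨ι, I, y, h1, h2⟩ := ih
    have hc : (0 : ℝ) < I.card + 1 := by positivity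
    obtain ⟨κ, J, z, h3, h4⟩ := hs (𝒢.image lam ∪
      (𝒢 ×ˢ I).image fun Gi => (ν Gi.1).comp (H (y Gi.2))) (δ / (I.card + 1)) (by positivity) δ hδ
    have hle : δ / (I.card + 1) ≤ δ := div_le_self hδ.le (by linarith [(I.card.cast_nonneg : (0 : ℝ) ≤ I.card)])
    refine ⟨ι ⊕ κ, I.disjSum J, Sum.elim y z, ?_, fun G hG => ⟨?_, ?_⟩⟩
    · simp only [Finset.sum_disjSum, Sum.elim_inl, Sum.elim_inr]
      have e : ∑ i ∈ I, H (y i) (y i) + ∑ j ∈ J, H (z j) (z j) - ((M + 1 : ℕ) : ℝ) • s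
          = (∑ i ∈ I, H (y i) (y i) - (M : ℝ) • s) + (∑ j ∈ J, H (z j) (z j) - s) := by
        push_cast
        rw [add_smul, one_smul]; abel
      rw [e]
      refine (norm_add_le _ _).trans ?_
      push_cast
      linarith
    · simp only [Finset.sum_disjSum, Sum.elim_inl, Sum.elim_inr]
      have := h4 (lam G) (Finset.mem_union_left _ (Finset.mem_image_of_mem _ hG))
      have := (h2 G hG).1
      push_cast
      linarith
    · simp only [Finset.sum_disjSum, Sum.elim_inl, Sum.elim_inr, Finset.sum_add_distrib]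
      have e1 : ∑ i ∈ I, ∑ j ∈ J, ν G (H (y i) (z j)) ^ 2 ≤ δ := by
        calc _ ≤ ∑ i ∈ I, δ / (I.card + 1) := by
              refine Finset.sum_le_sum fun i hi => ?_
              exact h4 ((ν G).comp (H (y i))) (Finset.mem_union_right _
                (Finset.mem_image.2 ⟨(G, i), Finset.mem_product.2 ⟨hG, hi⟩, rfl⟩))
          _ = I.card * (δ / (I.card + 1)) := by rw [Finset.sum_const, nsmul_eq_mul]
          _ ≤ (I.card + 1) * (δ / (I.card + 1)) := by gcongr; linarith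
          _ = δ := by field_simp
      have e2 : ∑ j ∈ J, ∑ i ∈ I, ν G (H (z j) (y i)) ^ 2
          = ∑ i ∈ I, ∑ j ∈ J, ν G (H (y i) (z j)) ^ 2 := by
        rw [Finset.sum_comm]
        exact Finset.sum_congr rfl fun i _ => Finset.sum_congr rfl fun j _ => by rw [hsym]
      have e3 : ∑ j ∈ J, ∑ k ∈ J, ν G (H (z j) (z k)) ^ 2 ≤ (‖s‖ + δ) ^ 2 := by
        have e4 : ∑ j ∈ J, ν G (H (z j) (z j)) ≤ ‖s‖ + δ := by
          rw [← map_sum]
          refine (hν G hG _).trans ?_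
          have := norm_add_le s (∑ j ∈ J, H (z j) (z j) - s)
          rw [add_sub_cancel] at this
          linarith
        calc _ ≤ ∑ j ∈ J, ∑ k ∈ J, ν G (H (z j) (z j)) * ν G (H (z k) (z k)) :=
              Finset.sum_le_sum fun j _ => Finset.sum_le_sum fun k _ =>
                realize_cs H (ν G) hsym (hpos G hG) _ _
          _ = (∑ j ∈ J, ν G (H (z j) (z j))) ^ 2 := by rw [pow_two, Finset.sum_mul_sum]
          _ ≤ _ := pow_le_pow_left₀ (Finset.sum_nonneg fun j _ => hpos G hG _) e4 2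
      have := (h2 G hG).2
      rw [e2]
      push_cast
      linarith

theorem realize_family {Γ : Type*} (𝒢 : Finset Γ) (H : X →L[ℝ] X →L[ℝ] Y)
    (ν : Γ → Y →L[ℝ] ℝ) (lam : Γ → X →L[ℝ] ℝ) (hsym : ∀ x y, H x y = H y x)
    (hpos : ∀ G ∈ 𝒢, ∀ x, 0 ≤ ν G (H x x)) (hν : ∀ G ∈ 𝒢, ∀ s, ν G s ≤ ‖s‖) (s : Y)
    (hs : ∀ (F : Finset (X →L[ℝ] ℝ)) (η : ℝ), 0 < η → ∀ δ : ℝ, 0 < δ →
      ∃ (ι : Type) (I : Finset ι) (y : ι → X), ‖∑ i ∈ I, H (y i) (y i) - s‖ ≤ δ ∧
        ∀ ξ ∈ F, ∑ i ∈ I, ξ (y i) ^ 2 ≤ η)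
    {ε : ℝ} (hε : 0 < ε) :
    ∃ (ι : Type) (I : Finset ι) (y : ι → X), ‖∑ i ∈ I, H (y i) (y i) - s‖ ≤ ε ∧
      ∀ G ∈ 𝒢, ∑ i ∈ I, lam G (y i) ^ 2 ≤ ε ∧
        ∑ i ∈ I, ∑ j ∈ I, ν G (H (y i) (y j)) ^ 2 ≤ ε := by
  obtain ⟨M, hM⟩ := exists_nat_gt (((‖s‖ + ε) ^ 2 + 2 * ε) / ε)
  have hM0 : (0 : ℝ) < M := lt_of_le_of_lt (by positivity) hM
  obtain ⟨ι, I, y, h1, h2⟩ := realize_blocks 𝒢 H ν lam hsym hpos hν s hs hε M
  set c : ℝ := Real.sqrt (M : ℝ)⁻¹ with hc
  have hc2 : c * c = (M : ℝ)⁻¹ := Real.mul_self_sqrt (by positivity)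
  have hH : ∀ x x', H (c • x) (c • x') = (M : ℝ)⁻¹ • H x x' := by
    intro x x'
    simp only [map_smul, smul_apply, smul_smul, hc2]
  refine ⟨ι, I, fun i => c • y i, ?_, fun G hG => ⟨?_, ?_⟩⟩
  · simp only [hH]
    have e : ∑ i ∈ I, (M : ℝ)⁻¹ • H (y i) (y i) - s
        = (M : ℝ)⁻¹ • (∑ i ∈ I, H (y i) (y i) - (M : ℝ) • s) := by
      rw [smul_sub, smul_smul, inv_mul_cancel₀ hM0.ne', one_smul, Finset.smul_sum]
    rw [e, norm_smul, Real.norm_of_nonneg (by positivity), inv_mul_le_iff₀ hM0]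
    exact h1
  · simp only [map_smul, smul_eq_mul, mul_pow, pow_two c, hc2, ← Finset.mul_sum]
    rw [inv_mul_le_iff₀ hM0]
    exact (h2 G hG).1
  · simp only [hH]
    simp only [map_smul, smul_eq_mul, mul_pow, ← Finset.mul_sum]
    have h3 := (h2 G hG).2
    rw [div_lt_iff₀ hε] at hM
    rw [inv_pow, inv_mul_le_iff₀ (by positivity)]
    nlinarith

end Abstract

theorem realize_khintchine {p : ℝ≥0∞} (q : ℝ≥0∞) [Fact (1 ≤ p)] [Fact (1 ≤ q)]
    [ENNReal.HolderTriple p p q] (hq : q ≠ ⊤) {K : ℝ}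
    (hK : ∀ {α : Type} [DecidableEq α] (U : Finset α) (y : α → ℝ) (σ : Finset α),
      T (1 / 2) U (fun s => |lin U y s| ^ (2 * q.toReal)) σ ≤ K * (∑ v ∈ U, y v ^ 2) ^ q.toReal)
    {Ω : Type} [MeasurableSpace Ω] {m : Measure Ω} {ι : Type} [DecidableEq ι] (I : Finset ι)
    (f : ι → Lp ℝ p m) (σ : Finset ι) :
    T (1 / 2) I (fun s => ‖∑ i ∈ I, sg s i • f i‖ ^ (2 * q.toReal)) σ
      ≤ K * ‖∑ i ∈ I, sq q (f i)‖ ^ q.toReal := by
  have hp : p ≠ ⊤ := ne_top_of_half q p hq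
  have hpq := toReal_eq_two_mul q p
  have hae : ∀ s : Finset ι, (∑ i ∈ I, sg s i • f i : Lp ℝ p m)
      =ᵐ[m] fun x => lin I (fun i => f i x) s := by
    intro s
    have h1 : ∀ᵐ x ∂m, ∀ i ∈ I, (sg s i • f i : Lp ℝ p m) x = sg s i * f i x := by
      rw [Finset.eventually_all]
      intro i _
      filter_upwards [Lp.coeFn_smul (sg s i) (f i)] with x hx
      rw [hx]; rfl
    filter_upwards [Lp.coeFn_fun_finsetSum I fun i => sg s i • f i, h1] with x hx hx1
    rw [hx]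
    exact Finset.sum_congr rfl hx1
  have hint : ∀ s : Finset ι,
      Integrable (fun x => |lin I (fun i => f i x) s| ^ (2 * q.toReal)) m := by
    intro s
    have := Pool.Agent.Lib.LpDual.integrable_abs_rpow hp (∑ i ∈ I, sg s i • f i)
    rw [hpq] at this
    refine this.congr ?_
    filter_upwards [hae s] with x hx
    rw [hx]
  have hn : ∀ s : Finset ι, ‖∑ i ∈ I, sg s i • f i‖ ^ (2 * q.toReal)
      = ∫ x, |lin I (fun i => f i x) s| ^ (2 * q.toReal) ∂m := by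
    intro s
    have := Pool.Agent.Lib.LpDual.norm_rpow_eq hp (∑ i ∈ I, sg s i • f i)
    rw [hpq] at this
    rw [this]
    refine integral_congr_ae ?_
    filter_upwards [hae s] with x hx
    rw [hx]
  have hsq : (∑ i ∈ I, sq q (f i) : Lp ℝ q m) =ᵐ[m] fun x => ∑ i ∈ I, f i x ^ 2 := by
    have h1 : ∀ᵐ x ∂m, ∀ i ∈ I, (sq q (f i) : Lp ℝ q m) x = f i x ^ 2 := by
      rw [Finset.eventually_all]
      intro i _
      exact coeFn_sq q (f i)
    filter_upwards [Lp.coeFn_fun_finsetSum I fun i => sq q (f i), h1] with x hx hx1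
    rw [hx]
    exact Finset.sum_congr rfl hx1
  have hint2 : Integrable (fun x => (∑ i ∈ I, f i x ^ 2) ^ q.toReal) m := by
    refine (Pool.Agent.Lib.LpDual.integrable_abs_rpow hq (∑ i ∈ I, sq q (f i))).congr ?_
    filter_upwards [hsq] with x hx
    rw [hx, abs_of_nonneg (Finset.sum_nonneg fun _ _ => sq_nonneg _)]
  have hn2 : ‖∑ i ∈ I, sq q (f i)‖ ^ q.toReal = ∫ x, (∑ i ∈ I, f i x ^ 2) ^ q.toReal ∂m := by
    rw [Pool.Agent.Lib.LpDual.norm_rpow_eq hq]
    refine integral_congr_ae ?_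
    filter_upwards [hsq] with x hx
    rw [hx, abs_of_nonneg (Finset.sum_nonneg fun _ _ => sq_nonneg _)]
  simp only [hn]
  rw [hn2, ← integral_const_mul]
  have e : T (1 / 2) I (fun s => ∫ x, |lin I (fun i => f i x) s| ^ (2 * q.toReal) ∂m) σ
      = ∫ x, T (1 / 2) I (fun s => |lin I (fun i => f i x) s| ^ (2 * q.toReal)) σ ∂m := by
    simp only [T, smul_eq_mul]
    rw [integral_finsetSum _ fun τ _ => (hint _).const_mul _]
    exact Finset.sum_congr rfl fun τ _ => (integral_const_mul _ _).symm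
  rw [e]
  refine integral_mono ?_ (hint2.const_mul K) fun x => hK I (fun i => f i x) σ
  simp only [T, smul_eq_mul]
  exact integrable_finsetSum _ fun τ _ => (hint _).const_mul _

theorem realize_setIntegral_le {q : ℝ≥0∞} [Fact (1 ≤ q)] {Ω : Type} [MeasurableSpace Ω]
    {m : Measure Ω} [IsProbabilityMeasure m] (G : Set Ω) (s : Lp ℝ q m) :
    |∫ x in G, s x ∂m| ≤ ‖s‖ := by
  have hi : Integrable s m := (Lp.memLp s).integrable Fact.out
  have h1 : |∫ x in G, s x ∂m| ≤ ∫ x in G, ‖s x‖ ∂m :=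
    norm_integral_le_integral_norm (μ := m.restrict G) (fun x => s x)
  have h2 : ∫ x in G, ‖s x‖ ∂m ≤ ∫ x, ‖s x‖ ∂m :=
    setIntegral_le_integral hi.norm (Eventually.of_forall fun x => norm_nonneg _)
  have h3 : ∫ x, ‖s x‖ ∂m = (eLpNorm s 1 m).toReal := by
    rw [integral_norm_eq_lintegral_enorm hi.1, eLpNorm_one_eq_lintegral_enorm]
  have h4 : (eLpNorm s 1 m).toReal ≤ ‖s‖ := by
    rw [Lp.norm_def]
    exact ENNReal.toReal_mono (Lp.memLp s).2.ne
      (eLpNorm_le_eLpNorm_of_exponent_le Fact.out hi.1)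
  linarith

/-
TASK Realize.  r = q.toReal, p.toReal = 2 r (toReal_eq_two_mul), K = Khintchine constant (khintchine).
For G in the finite family let bG f g = int_G f g (a continuous bilinear form on Lp p: exists_setIntegral
composed with holderL), lG f = int_G f.
Step 1 (induction on M): for every del > 0 and M there is a finite family (iota, I, y) with
  | sum sq (T y) - M * s | <= M del  (norm of Lp q),   sum_i (lG (T y i))^2 <= M del,
  sum_{i,i'} (bG (T y i) (T y i'))^2 <= M (|s| + del)^2 + 2 M del   for all G.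
  To add a block take s' in SqC F del' with |s' - s| <= del, where F contains the functionals lG o T and
  bG (T y i) o T for the old i, and del' = del / (card I + 1).  Diagonal block (Hilbert-Schmidt):
  sum_{i,i'} (int_G f_i f_i')^2 <= (sum_i int_G f_i^2)^2 <= |s'|^2  (Cauchy-Schwarz; probability measure).
Step 2: u sigma = M^(-1/2) sum_i sg sigma i * y i.  Averaging with T (1/2) I over the signs:
  E |T u|^p <= K | M^(-1) sum sq |^r (khintchine pointwise, then integrate),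
  E (lG (T u))^2 = M^(-1) sum (lG ..)^2 <= del (M_lin_sq),
  for psi sigma = bG (T u) (T u): E psi = M^(-1) sum_i bG(y_i,y_i), and by `poincare`
  E (psi - E psi)^2 <= E sum_v (D v psi)^2 <= 4 M^(-2) sum_{i,i'} bG(y_i,y_i')^2
  (D v psi sigma = 2 M^(-1) sg sigma v * lin (I.erase v) (bG(y_v, y_.)) sigma, then M_lin_sq).
Step 3: exists_le_M for  |T u|^p + lam * sum_G ((lG (T u))^2 + (psi_G - int_G s)^2);
  choose lam = (K (|s|+1)^r + 1 + eta)/eta^2-ish first, then M large, then del small.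
-/
theorem realize {p : ℝ≥0∞} (q : ℝ≥0∞) [Fact (1 ≤ p)] [Fact (1 ≤ q)] [ENNReal.HolderTriple p p q]
    (hq : q ≠ ⊤) : ∃ K : ℝ, 1 ≤ K ∧
    ∀ {Ω : Type} [MeasurableSpace Ω] (m : Measure Ω) [IsProbabilityMeasure m]
      {X : Type} [NormedAddCommGroup X] [NormedSpace ℝ X] (T : X →L[ℝ] Lp ℝ p m)
      (s : Lp ℝ q m), s ∈ SqS q T → ∀ (𝒢 : Finset (Set Ω)), (∀ G ∈ 𝒢, MeasurableSet G) →
      ∀ η : ℝ, 0 < η → ∃ u : X, ‖T u‖ ^ (2 * q.toReal) ≤ K * ‖s‖ ^ q.toReal + η ∧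
        ∀ G ∈ 𝒢, |∫ x in G, T u x ∂m| ≤ η ∧
          |∫ x in G, T u x ^ 2 ∂m - ∫ x in G, s x ∂m| ≤ η := by
  classical
  have hr : 1 ≤ q.toReal := one_le_toReal hq
  obtain ⟨K, hK1, hK⟩ := khintchine hr
  refine ⟨K, hK1, ?_⟩
  intro Ω _ m _ X _ _ S s hs 𝒢 h𝒢 η hη
  have hν : ∀ G : Set Ω, ∃ ℓ : Lp ℝ q m →L[ℝ] ℝ, MeasurableSet G → ∀ f, ℓ f = ∫ x in G, f x ∂m := by
    intro G
    by_cases hG : MeasurableSet G
    · obtain ⟨ℓ, hℓ⟩ := exists_setIntegral (q := q) (m := m) hG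
      exact ⟨ℓ, fun _ => hℓ⟩
    · exact ⟨0, fun h => absurd h hG⟩
  have hl : ∀ G : Set Ω, ∃ ℓ : Lp ℝ p m →L[ℝ] ℝ, MeasurableSet G → ∀ f, ℓ f = ∫ x in G, f x ∂m := by
    intro G
    by_cases hG : MeasurableSet G
    · obtain ⟨ℓ, hℓ⟩ := exists_setIntegral (q := p) (m := m) hG
      exact ⟨ℓ, fun _ => hℓ⟩
    · exact ⟨0, fun h => absurd h hG⟩
  choose ν hν using hν
  choose l hl using hl
  set H : X →L[ℝ] X →L[ℝ] Lp ℝ q m :=
    ((ContinuousLinearMap.mul ℝ ℝ).holderL m p p q).bilinearComp S S with hH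
  have hH' : ∀ x y, H x y = (ContinuousLinearMap.mul ℝ ℝ).holder q (S x) (S y) := fun x y => rfl
  have hHd : ∀ x, H x x = sq q (S x) := fun x => rfl
  have hsym : ∀ x y, H x y = H y x := by
    intro x y
    rw [hH', hH']
    refine Lp.ext ?_
    filter_upwards [(ContinuousLinearMap.mul ℝ ℝ).coeFn_holder (r := q) (S x) (S y),
      (ContinuousLinearMap.mul ℝ ℝ).coeFn_holder (r := q) (S y) (S x)] with a h1 h2
    rw [h1, h2]
    exact mul_comm _ _
  have hνsq : ∀ G ∈ 𝒢, ∀ x, ν G (H x x) = ∫ a in G, S x a ^ 2 ∂m := by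
    intro G hG x
    rw [hν G (h𝒢 G hG), hHd]
    exact integral_congr_ae (ae_restrict_of_ae (coeFn_sq q (S x)))
  have hpos : ∀ G ∈ 𝒢, ∀ x, 0 ≤ ν G (H x x) := by
    intro G hG x
    rw [hνsq G hG]
    exact integral_nonneg fun _ => sq_nonneg _
  have hνle : ∀ G ∈ 𝒢, ∀ f, |ν G f| ≤ ‖f‖ := by
    intro G hG f
    rw [hν G (h𝒢 G hG)]
    exact realize_setIntegral_le G f
  have hs' : ∀ (F : Finset (X →L[ℝ] ℝ)) (η : ℝ), 0 < η → ∀ δ : ℝ, 0 < δ →
      ∃ (ι : Type) (I : Finset ι) (y : ι → X), ‖∑ i ∈ I, H (y i) (y i) - s‖ ≤ δ ∧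
        ∀ ξ ∈ F, ∑ i ∈ I, ξ (y i) ^ 2 ≤ η := by
    intro F η hη δ hδ
    obtain ⟨s', ⟨ι, I, y, rfl, hy⟩, hd⟩ := Metric.mem_closure_iff.1 (hs F η hη) δ hδ
    refine ⟨ι, I, y, ?_, hy⟩
    rw [dist_comm, dist_eq_norm] at hd
    exact hd.le
  set A : ℝ := K * ‖s‖ ^ q.toReal + η with hA
  have hA0 : 0 < A := by positivity
  set lam : ℝ := A / (η / 2) ^ 2 with hlam
  have hlam0 : 0 < lam := by positivity
  obtain ⟨ε, hε1, hε2, hε0⟩ : ∃ ε : ℝ,
      K * (‖s‖ + ε) ^ q.toReal + lam * (𝒢.card * (5 * ε)) < A ∧ ε < η / 2 ∧ 0 < ε := by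
    have hc : ContinuousAt (fun ε : ℝ => K * (‖s‖ + ε) ^ q.toReal + lam * (𝒢.card * (5 * ε))) 0 := by
      refine ContinuousAt.add (ContinuousAt.mul continuousAt_const ?_) (by fun_prop)
      exact ContinuousAt.rpow_const (by fun_prop) (Or.inr (by linarith))
    have h1 : ∀ᶠ ε in 𝓝 (0 : ℝ), K * (‖s‖ + ε) ^ q.toReal + lam * (𝒢.card * (5 * ε)) < A := by
      refine hc.eventually_lt continuousAt_const ?_
      simp [hA, hη]
    have h2 : ∀ᶠ ε in 𝓝 (0 : ℝ), ε < η / 2 := eventually_lt_nhds (by linarith)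
    have h3 : ∀ᶠ ε in 𝓝[>] (0 : ℝ), 0 < ε := self_mem_nhdsWithin
    exact (((h1.and h2).filter_mono nhdsWithin_le_nhds).and h3).exists.imp
      fun ε h => ⟨h.1.1, h.1.2, h.2⟩
  obtain ⟨ι, I, y, h1, h2⟩ := realize_family 𝒢 H ν (fun G => (l G).comp S) hsym hpos
    (fun G hG f => (le_abs_self _).trans (hνle G hG f)) s hs' hε0
  set u : Finset ι → X := fun σ => ∑ i ∈ I, sg σ i • y i with hu
  set Φ : Finset ι → ℝ := fun σ => ‖S (u σ)‖ ^ (2 * q.toReal) + lam * ∑ G ∈ 𝒢,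
    (l G (S (u σ)) ^ 2 + (ν G (H (u σ) (u σ)) - ∑ i ∈ I, ν G (H (y i) (y i))) ^ 2) with hΦ
  have hE : T (1 / 2) I Φ ∅ < A := by
    refine lt_of_le_of_lt ?_ hε1
    rw [hΦ, T_add, T_mul, T_sum]
    refine add_le_add ?_ (mul_le_mul_of_nonneg_left ?_ hlam0.le)
    · have e : (fun σ => ‖S (u σ)‖ ^ (2 * q.toReal))
          = fun σ => ‖∑ i ∈ I, sg σ i • S (y i)‖ ^ (2 * q.toReal) := by
        funext σ
        simp only [hu, map_sum, map_smul]
      rw [e]
      refine (realize_khintchine q hq hK I (fun i => S (y i)) ∅).trans ?_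
      refine mul_le_mul_of_nonneg_left (Real.rpow_le_rpow (norm_nonneg _) ?_ (by linarith))
        (by linarith)
      have := norm_add_le s (∑ i ∈ I, H (y i) (y i) - s)
      rw [add_sub_cancel] at this
      simp only [hHd] at this h1
      linarith
    · rw [← nsmul_eq_mul, ← Finset.sum_const]
      refine Finset.sum_le_sum fun G hG => ?_
      rw [T_add]
      have e1 : (fun σ => l G (S (u σ)) ^ 2)
          = fun σ => lin I (fun i => l G (S (y i))) σ ^ 2 := by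
        funext σ
        simp only [hu, map_sum, map_smul, lin, smul_eq_mul]
      have e2 : (fun σ => (ν G (H (u σ) (u σ)) - ∑ i ∈ I, ν G (H (y i) (y i))) ^ 2)
          = fun σ => (∑ i ∈ I, ∑ j ∈ I, sg σ i * sg σ j * ν G (H (y i) (y j))
            - ∑ i ∈ I, ν G (H (y i) (y i))) ^ 2 := by
        funext σ
        simp only [hu, map_sum, map_smul, sum_apply,
          smul_apply, smul_eq_mul, Finset.mul_sum]
        congr 2
        rw [Finset.sum_comm]
        exact Finset.sum_congr rfl fun i _ => Finset.sum_congr rfl fun j _ => by ring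
      rw [e1, e2, M_lin_sq]
      have e3 := realize_chaos (fun i j => ν G (H (y i) (y j))) (fun i j => by rw [hsym]) I ∅
      have e4 := (h2 G hG).1
      have e5 := (h2 G hG).2
      simp only [ContinuousLinearMap.comp_apply] at e4
      linarith
  obtain ⟨τ, -, hτ⟩ := exists_le_M I Φ ∅
  rw [empty_symmDiff'] at hτ
  have hΦA : Φ τ < A := lt_of_le_of_lt hτ hE
  have hsum0 : ∀ G ∈ 𝒢, 0 ≤ l G (S (u τ)) ^ 2
      + (ν G (H (u τ) (u τ)) - ∑ i ∈ I, ν G (H (y i) (y i))) ^ 2 := fun G _ => by positivity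
  have hn0 : 0 ≤ ‖S (u τ)‖ ^ (2 * q.toReal) := by positivity
  refine ⟨u τ, ?_, fun G hG => ?_⟩
  · have := mul_nonneg hlam0.le (Finset.sum_nonneg hsum0)
    simp only [hΦ] at hΦA
    linarith
  · have e1 := Finset.single_le_sum hsum0 hG
    have e2 : lam * (l G (S (u τ)) ^ 2
        + (ν G (H (u τ) (u τ)) - ∑ i ∈ I, ν G (H (y i) (y i))) ^ 2) ≤ lam * (η / 2) ^ 2 := by
      have e3 : lam * (η / 2) ^ 2 = A := by rw [hlam]; field_simp
      have e4 := mul_le_mul_of_nonneg_left e1 hlam0.le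
      simp only [hΦ] at hΦA
      linarith
    have e5 := le_of_mul_le_mul_left e2 hlam0
    have e6 : |l G (S (u τ))| ≤ η / 2 :=
      abs_le_of_sq_le_sq' (by nlinarith [sq_nonneg (ν G (H (u τ) (u τ))
        - ∑ i ∈ I, ν G (H (y i) (y i)))]) (by linarith) |> abs_le.2
    have e7 : |ν G (H (u τ) (u τ)) - ∑ i ∈ I, ν G (H (y i) (y i))| ≤ η / 2 :=
      abs_le_of_sq_le_sq' (by nlinarith [sq_nonneg (l G (S (u τ)))]) (by linarith) |> abs_le.2
    have e8 : |∑ i ∈ I, ν G (H (y i) (y i)) - ν G s| ≤ ε := by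
      rw [← map_sum, ← map_sub]
      exact (hνle G hG _).trans h1
    constructor
    · rw [← hl G (h𝒢 G hG)]
      linarith
    · rw [← hνsq G hG, ← hν G (h𝒢 G hG)]
      have := abs_sub_le (ν G (H (u τ) (u τ))) (∑ i ∈ I, ν G (H (y i) (y i))) (ν G s)
      linarith

end Pool.Agent.MP_fc1aea_an

end

-- part MP_fc1aea_an.MD
section

open MeasureTheory Filter Topology
open scoped ENNReal

namespace Pool.Agent.MP_fc1aea_an

/-- A filtration by finite partitions `κ`, martingale differences `d k` close to `T (u k)` whose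
conditional variances are those of `w k`. -/
structure MDData {Ω : Type} [MeasurableSpace Ω] (m : Measure Ω) {p q : ℝ≥0∞} [Fact (1 ≤ p)]
    [Fact (1 ≤ q)] {X : Type} [NormedAddCommGroup X] [NormedSpace ℝ X] (T : X →L[ℝ] Lp ℝ p m)
    (w : ℕ → Lp ℝ q m) (Z : ℕ → Set Ω) (K : ℝ) (η : ℕ → ℝ)
    (κ : ℕ → SimpleFunc Ω (List ℝ)) (u : ℕ → X) (d : ℕ → Ω → ℝ) (D : ℕ → Lp ℝ p m) : Prop where
  mono : ∀ k x y, Rk (κ (k + 1)) x y → Rk (κ k) x y
  sets : ∀ k x y, Rk (κ k) x y → (x ∈ Z k ↔ y ∈ Z k)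
  meas : ∀ k, Ms (Rk (κ (k + 1))) (d k)
  coe : ∀ k, D k =ᵐ[m] d k
  orth : ∀ k (φ : Ω → ℝ), Ms (Rk (κ k)) φ → ∫ x, φ x * d k x ∂m = 0
  close : ∀ k, ‖T (u k) - D k‖ ≤ η k
  norm_le : ∀ k, ∫ x, |d k x| ^ (2 * q.toReal) ∂m ≤ K * ‖w k‖ ^ q.toReal + η k
  var : ∀ k (ψ : Ω → ℝ), (∀ x, 0 ≤ ψ x) → Ms (Rk (κ k)) ψ →
    |∫ x, ψ x * d k x ^ 2 ∂m - ∫ x, ψ x * w k x ∂m| ≤ η k * ∫ x, ψ x ∂m

section Aux

variable {Ω : Type} [MeasurableSpace Ω] {m : Measure Ω} [IsProbabilityMeasure m]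

theorem md_integrable {t : ℝ≥0∞} [Fact (1 ≤ t)] (f : Lp ℝ t m) : Integrable f m :=
  (Lp.memLp f).integrable Fact.out

theorem md_abs_setIntegral_le {t : ℝ≥0∞} [Fact (1 ≤ t)] (f : Lp ℝ t m) (G : Set Ω) :
    |∫ x in G, f x ∂m| ≤ ‖f‖ := by
  have h1 : |∫ x in G, f x ∂m| ≤ ∫ x in G, ‖f x‖ ∂m :=
    norm_integral_le_integral_norm (μ := m.restrict G) fun x => f x
  have h2 : ∫ x in G, ‖f x‖ ∂m ≤ ∫ x, ‖f x‖ ∂m :=
    setIntegral_le_integral (md_integrable f).norm (Eventually.of_forall fun x => norm_nonneg _)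
  have h3 : ∫ x, ‖f x‖ ∂m ≤ ‖f‖ := by
    rw [integral_norm_eq_lintegral_enorm (Lp.aestronglyMeasurable f),
      ← eLpNorm_one_eq_lintegral_enorm, Lp.norm_def]
    exact ENNReal.toReal_mono (Lp.eLpNorm_ne_top f)
      (eLpNorm_le_eLpNorm_of_exponent_le Fact.out (Lp.aestronglyMeasurable f))
  linarith

theorem md_setIntegral_sub {t : ℝ≥0∞} [Fact (1 ≤ t)] (f g : Lp ℝ t m) (G : Set Ω) :
    |∫ x in G, f x ∂m - ∫ x in G, g x ∂m| ≤ ‖f - g‖ := by
  have h := md_abs_setIntegral_le (f - g) G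
  rw [integral_congr_ae (ae_restrict_of_ae (Lp.coeFn_sub f g))] at h
  rw [← integral_sub (md_integrable f).restrict (md_integrable g).restrict]
  exact h

theorem md_sq_sub {p : ℝ≥0∞} (q : ℝ≥0∞) [Fact (1 ≤ p)] [Fact (1 ≤ q)] [ENNReal.HolderTriple p p q]
    (f g : Lp ℝ p m) (G : Set Ω) :
    |∫ x in G, f x ^ 2 ∂m - ∫ x in G, g x ^ 2 ∂m| ≤ ‖f - g‖ * (‖f - g‖ + 2 * ‖g‖) := by
  rw [← integral_congr_ae (ae_restrict_of_ae (coeFn_sq q f)),
    ← integral_congr_ae (ae_restrict_of_ae (coeFn_sq q g))]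
  refine (md_setIntegral_sub _ _ G).trans ?_
  have e : sq q f - sq q g = (ContinuousLinearMap.mul ℝ ℝ).holder q (f - g) (f + g) := by
    apply Lp.ext
    filter_upwards [Lp.coeFn_sub (sq q f) (sq q g), coeFn_sq q f, coeFn_sq q g,
      (ContinuousLinearMap.mul ℝ ℝ).coeFn_holder (r := q) (f - g) (f + g), Lp.coeFn_sub f g,
      Lp.coeFn_add f g] with x h1 h2 h3 h4 h5 h6
    rw [h1, h4, h5, h6, Pi.sub_apply, h2, h3, ContinuousLinearMap.mul_apply', Pi.sub_apply,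
      Pi.add_apply]
    ring
  have h1 := (ContinuousLinearMap.mul ℝ ℝ).norm_holder_apply_apply_le (r := q) (f - g) (f + g)
  have h2 : ‖ContinuousLinearMap.mul ℝ ℝ‖ ≤ 1 := ContinuousLinearMap.opNorm_mul_le ℝ ℝ
  have h3 : ‖f + g‖ ≤ ‖f - g‖ + 2 * ‖g‖ := by
    calc ‖f + g‖ = ‖(f - g) + g + g‖ := by congr 1; abel
      _ ≤ ‖f - g‖ + ‖g‖ + ‖g‖ := norm_add₃_le
      _ = _ := by ring
  rw [e]
  calc _ ≤ _ := h1
    _ ≤ 1 * ‖f - g‖ * (‖f - g‖ + 2 * ‖g‖) := by gcongr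
    _ = _ := by ring

theorem md_exists_lower {ι : Type} (S : Finset ι) (a : ι → ℝ) (ha : ∀ i, 0 ≤ a i) :
    ∃ μ : ℝ, 0 < μ ∧ μ ≤ 1 ∧ ∀ i ∈ S, a i = 0 ∨ μ ≤ a i := by
  classical
  induction S using Finset.induction_on with
  | empty => exact ⟨1, one_pos, le_rfl, by simp⟩
  | insert j S _ ih =>
    obtain ⟨μ, h0, h1, h⟩ := ih
    rcases (ha j).eq_or_lt with hj | hj
    · refine ⟨μ, h0, h1, fun i hi => ?_⟩
      rcases Finset.mem_insert.1 hi with rfl | hi
      · exact Or.inl hj.symm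
      · exact h i hi
    · refine ⟨min μ (a j), lt_min h0 hj, (min_le_left _ _).trans h1, fun i hi => ?_⟩
      rcases Finset.mem_insert.1 hi with rfl | hi
      · exact Or.inr (min_le_right _ _)
      · exact (h i hi).imp id fun h' => (min_le_left _ _).trans h'

theorem md_sum_fibres (κ : SimpleFunc Ω (List ℝ)) {f g : Ω → ℝ} (hf : Integrable f m)
    (hg : Integrable g m) {η : ℝ}
    (h : ∀ x, |∫ y in κ ⁻¹' {κ x}, f y ∂m - ∫ y in κ ⁻¹' {κ x}, g y ∂m| ≤
      η * m.real (κ ⁻¹' {κ x})) (ψ : Ω → ℝ) (hψ0 : ∀ x, 0 ≤ ψ x) (hψ : Ms (Rk κ) ψ) :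
    |∫ x, ψ x * f x ∂m - ∫ x, ψ x * g x ∂m| ≤ η * ∫ x, ψ x ∂m := by
  rw [integral_eq_sum_fiber κ (hψ.integrable_mul hf), integral_eq_sum_fiber κ (hψ.integrable_mul hg),
    integral_eq_sum_fiber κ hψ.integrable, ← Finset.sum_sub_distrib, Finset.mul_sum]
  refine (Finset.abs_sum_le_sum_abs _ _).trans (Finset.sum_le_sum fun l hl => ?_)
  obtain ⟨x, rfl⟩ := SimpleFunc.mem_range.1 hl
  have e := hψ.setIntegral_mul (m := m) (fun _ => 1) x
  simp only [mul_one] at e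
  rw [hψ.setIntegral_mul, hψ.setIntegral_mul, e, setIntegral_const, smul_eq_mul, mul_one, ← mul_sub,
    abs_mul, abs_of_nonneg (hψ0 x), mul_left_comm]
  exact mul_le_mul_of_nonneg_left (h x) (hψ0 x)

end Aux

open Classical in
theorem md_ite_iff {a b : Prop} (h : (if a then (1 : ℝ) else 0) = if b then 1 else 0) : a ↔ b := by
  by_cases ha : a <;> by_cases hb : b <;> simp_all

theorem md_step {p : ℝ≥0∞} (q : ℝ≥0∞) [Fact (1 ≤ p)] [Fact (1 ≤ q)] [ENNReal.HolderTriple p p q]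
    (hq : q ≠ ⊤) : ∃ K : ℝ, 1 ≤ K ∧
    ∀ {Ω : Type} [MeasurableSpace Ω] (m : Measure Ω) [IsProbabilityMeasure m]
      {X : Type} [NormedAddCommGroup X] [NormedSpace ℝ X] (T : X →L[ℝ] Lp ℝ p m)
      (s : Lp ℝ q m), s ∈ SqS q T → ∀ (Z : Set Ω), MeasurableSet Z → ∀ η : ℝ, 0 < η →
      ∀ κ : SimpleFunc Ω (List ℝ),
      ∃ (κ' : SimpleFunc Ω (List ℝ)) (u : X) (d : Ω → ℝ) (D : Lp ℝ p m),
        (∀ x y, Rk κ' x y → Rk κ x y) ∧ (∀ x y, Rk κ' x y → (x ∈ Z ↔ y ∈ Z)) ∧ Ms (Rk κ') d ∧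
        D =ᵐ[m] d ∧ (∀ φ : Ω → ℝ, Ms (Rk κ) φ → ∫ x, φ x * d x ∂m = 0) ∧ ‖T u - D‖ ≤ η ∧
        ∫ x, |d x| ^ (2 * q.toReal) ∂m ≤ K * ‖s‖ ^ q.toReal + η ∧
        ∀ ψ : Ω → ℝ, (∀ x, 0 ≤ ψ x) → Ms (Rk κ) ψ →
          |∫ x, ψ x * d x ^ 2 ∂m - ∫ x, ψ x * s x ∂m| ≤ η * ∫ x, ψ x ∂m := by
  classical
  obtain ⟨K, hK, hreal⟩ := realize (p := p) q hq
  have hp : p ≠ ⊤ := ne_top_of_half q p hq
  have hr : 1 ≤ q.toReal := one_le_toReal hq
  have hP : 1 ≤ 2 * q.toReal := by linarith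
  have h2P : (1 : ℝ) ≤ 2 ^ (2 * q.toReal) := Real.one_le_rpow (by norm_num) (by linarith)
  refine ⟨2 ^ (2 * q.toReal) * K, by nlinarith, ?_⟩
  intro Ω _ m _ X _ _ T s hs Z hZ η hη κ
  obtain ⟨μ, hμ0, hμ1, hμ⟩ := md_exists_lower κ.range (fun l => m.real (κ ⁻¹' {l}))
    fun _ => measureReal_nonneg
  obtain ⟨A, hA⟩ : ∃ A, A = K * ‖s‖ ^ q.toReal + 1 := ⟨_, rfl⟩
  have hKs : 0 ≤ K * ‖s‖ ^ q.toReal := by positivity
  have hA1 : 1 ≤ A := by linarith
  obtain ⟨ε, hε0, hε1, hε2, hε3⟩ : ∃ ε : ℝ, 0 < ε ∧ ε ≤ 1 ∧ 2 ^ (2 * q.toReal) * (2 * ε) ≤ η ∧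
      ε * (2 + 2 * A) ≤ η * μ := by
    refine ⟨min 1 (min (η / 2 ^ (2 * q.toReal) / 2) (η * μ / (2 + 2 * A))), by positivity,
      min_le_left _ _, ?_, ?_⟩
    · rw [← le_div_iff₀' (by positivity), ← le_div_iff₀' (by norm_num)]
      exact (min_le_right _ _).trans (min_le_left _ _)
    · rw [← le_div_iff₀ (by positivity)]
      exact (min_le_right _ _).trans (min_le_right _ _)
  obtain ⟨η', hη'⟩ : ∃ η', η' = ε * μ / 3 := ⟨_, rfl⟩
  have hη'0 : 0 < η' := by rw [hη']; positivity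
  have hη'1 : 3 * η' ≤ ε := by rw [hη']; nlinarith
  obtain ⟨u, hu, hG⟩ := hreal m T s hs (κ.range.image fun l => κ ⁻¹' {l})
    (fun G hG => by
      obtain ⟨l, -, rfl⟩ := Finset.mem_image.1 hG
      exact κ.measurableSet_fiber l) η' hη'0
  have hG' := fun x => hG (κ ⁻¹' {κ x}) (Finset.mem_image_of_mem _ (κ.mem_range_self x))
  have hTu : ‖T u‖ ≤ A := by
    by_cases h : ‖T u‖ ≤ 1
    · exact h.trans hA1
    · have := Real.self_le_rpow_of_one_le (not_le.1 h).le hP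
      linarith
  obtain ⟨f, hf, hfp⟩ := (Lp.memLp (T u)).exists_simpleFunc_eLpNorm_sub_lt hp
    (ε := ENNReal.ofReal η') (by simpa using hη'0)
  have hF : ‖T u - hfp.toLp‖ ≤ η' := by
    rw [Lp.norm_def]
    refine ENNReal.toReal_le_of_le_ofReal hη'0.le (le_of_eq_of_le (eLpNorm_congr_ae ?_) hf.le)
    filter_upwards [Lp.coeFn_sub (T u) hfp.toLp, hfp.coeFn_toLp] with x h1 h2
    rw [h1, Pi.sub_apply, Pi.sub_apply, h2]
  have hfi : Integrable f m := hfp.integrable Fact.out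
  have hav : ∀ x, |av m κ f x| ≤ 2 * ε / 3 := by
    intro x
    unfold av
    rw [setAverage_eq, smul_eq_mul, abs_mul, abs_of_nonneg (inv_nonneg.2 measureReal_nonneg)]
    rcases hμ _ (κ.mem_range_self x) with h0 | h0
    · rw [h0, inv_zero, zero_mul]
      positivity
    · have h1 := md_setIntegral_sub (T u) hfp.toLp (κ ⁻¹' {κ x})
      rw [integral_congr_ae (ae_restrict_of_ae hfp.coeFn_toLp)] at h1
      have h2 : |∫ y in κ ⁻¹' {κ x}, f y ∂m| ≤ 2 * η' := by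
        have h3 := abs_le.1 (hG' x).1
        have h4 := abs_le.1 (h1.trans hF)
        rw [abs_le]
        constructor <;> linarith
      rw [inv_mul_le_iff₀ (hμ0.trans_le h0)]
      nlinarith
  have hVp : MemLp (av m κ f) p m := (ms_av κ f).memLp p
  have hV : ‖hVp.toLp‖ ≤ 2 * ε / 3 := by
    have := Lp.norm_le_of_ae_bound (f := hVp.toLp) (C := 2 * ε / 3) (by positivity) (by
      filter_upwards [hVp.coeFn_toLp] with x hx
      rw [hx]
      exact hav x)
    simpa [measureUnivNNReal] using this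
  have hD : ⇑(hfp.toLp - hVp.toLp) =ᵐ[m] fun x => f x - av m κ f x := by
    filter_upwards [Lp.coeFn_sub hfp.toLp hVp.toLp, hfp.coeFn_toLp, hVp.coeFn_toLp] with x h1 h2 h3
    rw [h1, Pi.sub_apply, h2, h3]
  have hclose : ‖T u - (hfp.toLp - hVp.toLp)‖ ≤ ε := by
    calc _ = ‖(T u - hfp.toLp) + hVp.toLp‖ := by congr 1; abel
      _ ≤ _ := norm_add_le _ _
      _ ≤ ε := by linarith
  generalize hfp.toLp - hVp.toLp = D at hD hclose
  let κ' : SimpleFunc Ω (List ℝ) :=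
    (f.pair ((SimpleFunc.piecewise Z hZ (SimpleFunc.const Ω (1 : ℝ))
      (SimpleFunc.const Ω 0)).pair κ)).map fun t => t.1 :: t.2.1 :: t.2.2
  have hκ' : ∀ x y, Rk κ' x y → f x = f y ∧ (x ∈ Z ↔ y ∈ Z) ∧ Rk κ x y := by
    intro x y h
    simp only [Rk, κ', SimpleFunc.map_apply, SimpleFunc.pair_apply, List.cons.injEq,
      SimpleFunc.piecewise_apply, SimpleFunc.const_apply] at h
    exact ⟨h.1, md_ite_iff h.2.1, h.2.2⟩
  refine ⟨κ', u, fun x => f x - av m κ f x, D, fun x y h => (hκ' x y h).2.2,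
    fun x y h => (hκ' x y h).2.1, fun x y h => ?_, hD, fun φ hφ => ?_, ?_, ?_, ?_⟩
  · simp only [(hκ' x y h).1, ms_av κ f x y (hκ' x y h).2.2]
  · simp only [mul_sub]
    rw [integral_sub (hφ.integrable_mul hfi) (hφ.integrable_mul (ms_av κ f).integrable),
      integral_mul_av hφ hfi, sub_self]
  · nlinarith
  · have e : ∫ x, |f x - av m κ f x| ^ (2 * q.toReal) ∂m = ‖D‖ ^ (2 * q.toReal) := by
      rw [← toReal_eq_two_mul q p, Pool.Agent.Lib.LpDual.norm_rpow_eq hp]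
      refine integral_congr_ae ?_
      filter_upwards [hD] with x hx
      rw [hx]
    have h1 : ‖D‖ ≤ ‖T u‖ + ε := by
      have := norm_sub_norm_le D (T u)
      rw [norm_sub_rev] at this
      linarith
    have h2 : ε ^ (2 * q.toReal) ≤ ε := Real.rpow_le_self_of_le_one hε0.le hε1 hP
    rw [e]
    calc _ ≤ (‖T u‖ + ε) ^ (2 * q.toReal) := Real.rpow_le_rpow (norm_nonneg _) h1 (by linarith)
      _ ≤ _ := add_rpow_le (by linarith) (norm_nonneg _) hε0.le
      _ ≤ 2 ^ (2 * q.toReal) * (K * ‖s‖ ^ q.toReal + 2 * ε) := by gcongr ?_ * ?_; linarith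
      _ ≤ _ := by nlinarith
  · have hD2 : (fun x => D x ^ 2) =ᵐ[m] fun x => (f x - av m κ f x) ^ 2 := by
      filter_upwards [hD] with x hx
      rw [hx]
    refine md_sum_fibres κ ((md_integrable (sq q D)).congr ((coeFn_sq q D).trans hD2))
      (md_integrable s) fun x => ?_
    rcases hμ _ (κ.mem_range_self x) with h0 | h0
    · have h1 : m (κ ⁻¹' {κ x}) = 0 := (measureReal_eq_zero_iff (measure_ne_top m _)).1 h0
      rw [setIntegral_measure_zero _ h1, setIntegral_measure_zero _ h1, h0]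
      simp
    · rw [← integral_congr_ae (ae_restrict_of_ae hD2)]
      have h1 := md_sq_sub q D (T u) (κ ⁻¹' {κ x})
      rw [norm_sub_rev D] at h1
      have h2 : ‖T u - D‖ * (‖T u - D‖ + 2 * ‖T u‖) ≤ ε * (1 + 2 * A) := by
        gcongr
        exact hclose.trans hε1
      have h3 := abs_le.1 (h1.trans h2)
      have h4 := abs_le.1 (hG' x).2
      have h5 : η * μ ≤ η * m.real (κ ⁻¹' {κ x}) := mul_le_mul_of_nonneg_left h0 hη.le
      rw [abs_le]
      constructor <;> nlinarith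

theorem exists_md {p : ℝ≥0∞} (q : ℝ≥0∞) [Fact (1 ≤ p)] [Fact (1 ≤ q)] [ENNReal.HolderTriple p p q]
    (hq : q ≠ ⊤) : ∃ K : ℝ, 1 ≤ K ∧
    ∀ {Ω : Type} [MeasurableSpace Ω] (m : Measure Ω) [IsProbabilityMeasure m]
      {X : Type} [NormedAddCommGroup X] [NormedSpace ℝ X] (T : X →L[ℝ] Lp ℝ p m)
      (w : ℕ → Lp ℝ q m), (∀ k, w k ∈ SqS q T) → ∀ (Z : ℕ → Set Ω), (∀ k, MeasurableSet (Z k)) →
      ∀ η : ℕ → ℝ, (∀ k, 0 < η k) →
      ∃ (κ : ℕ → SimpleFunc Ω (List ℝ)) (u : ℕ → X) (d : ℕ → Ω → ℝ) (D : ℕ → Lp ℝ p m),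
        MDData m T w Z K η κ u d D := by
  classical
  obtain ⟨K, hK, hstep⟩ := md_step (p := p) q hq
  refine ⟨K, hK, ?_⟩
  intro Ω _ m _ X _ _ T w hw Z hZ η hη
  choose F u d D h using fun k => hstep m T (w k) (hw k) (Z (k + 1)) (hZ _) (η k) (hη k)
  let κ : ℕ → SimpleFunc Ω (List ℝ) := fun k => Nat.rec
    ((SimpleFunc.piecewise (Z 0) (hZ 0) (SimpleFunc.const Ω (1 : ℝ))
      (SimpleFunc.const Ω 0)).map fun t => [t]) (fun k κ => F k κ) k
  refine ⟨κ, fun k => u k (κ k), fun k => d k (κ k), fun k => D k (κ k),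
    ⟨fun k => (h k (κ k)).1, fun k => ?_, fun k => (h k (κ k)).2.2.1, fun k => (h k (κ k)).2.2.2.1,
      fun k => (h k (κ k)).2.2.2.2.1, fun k => (h k (κ k)).2.2.2.2.2.1,
      fun k => (h k (κ k)).2.2.2.2.2.2.1, fun k => (h k (κ k)).2.2.2.2.2.2.2⟩⟩
  cases k with
  | zero =>
    intro x y hxy
    simp only [Rk, κ, Nat.rec_zero, SimpleFunc.map_apply, List.cons.injEq, and_true,
      SimpleFunc.piecewise_apply, SimpleFunc.const_apply] at hxy
    exact md_ite_iff hxy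
  | succ k => exact (h k (κ k)).2.1

end Pool.Agent.MP_fc1aea_an

end
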