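import Mathlib
import Pool.Agent.MP_fc1aea_an.Heap
import Pool.Agent.MP_fc1aea_an.Mg.Mart
import Pool.Agent.MP_fc1aea_an.Mg.Haar
import Pool.Agent.MP_fc1aea_an.Mg.MD

-- part MP_fc1aea_an.Tree
section

open MeasureTheory Filter Topology
open scoped ENNReal

namespace Pool.Agent.MP_fc1aea_an

/-- A dyadic tree of positive functions `w` and sets `Z`. -/
structure TreeData {Ω : Type*} [MeasurableSpace Ω] (m : Measure Ω) (q : ℝ≥0∞) [Fact (1 ≤ q)]
    (w : ℕ → Lp ℝ q m) (Z : ℕ → Set Ω) (κ C : ℝ) : Prop where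
  κ_pos : 0 < κ
  C_pos : 0 < C
  w_zero : w 0 = w 1
  Z_zero : Z 0 = Z 1
  nonneg : ∀ j, 0 ≤ w j
  add : ∀ j, 1 ≤ j → w j = w (2 * j) + w (2 * j + 1)
  meas : ∀ j, MeasurableSet (Z j)
  left : ∀ j, 1 ≤ j → Z (2 * j) ⊆ Z j
  right : ∀ j, 1 ≤ j → Z (2 * j + 1) ⊆ Z j
  disj : ∀ j, 1 ≤ j → Disjoint (Z (2 * j)) (Z (2 * j + 1))
  lower : ∀ j, κ * len j ≤ m.real (Z j)
  big : ∀ j, ∀ᵐ x ∂m, x ∈ Z j → κ ≤ w j x
  rho : ∀ j, ∫ x, |w 1 x| ^ (q.toReal - 1) * w j x ∂m ≤ C * len j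

/-- Recursion over the heap index. -/
theorem tree_rec {P : Type*} (root : P) (s0 s1 : ℕ → P → P) :
    ∃ node : ℕ → P, node 0 = root ∧ node 1 = root ∧
      ∀ j, 1 ≤ j → node (2 * j) = s0 j (node j) ∧ node (2 * j + 1) = s1 j (node j) := by
  let F : (j : ℕ) → ((i : ℕ) → i < j → P) → P := fun j ih =>
    if h : j ≤ 1 then root else
      if j % 2 = 0 then s0 (j / 2) (ih (j / 2) (by omega)) else s1 (j / 2) (ih (j / 2) (by omega))
  let node : ℕ → P := fun j => Nat.strongRecOn j F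
  have hn : ∀ j, node j = F j fun i _ => node i := fun j => Nat.strongRecOn_eq _ _
  refine ⟨node, by rw [hn]; simp [F], by rw [hn]; simp [F], fun j hj => ⟨?_, ?_⟩⟩
  · rw [hn]
    have h1 : ¬ 2 * j ≤ 1 := by omega
    have h2 : 2 * j % 2 = 0 := by omega
    have h3 : 2 * j / 2 = j := by omega
    simp only [F, dif_neg h1, if_pos h2, h3]
  · rw [hn]
    have h1 : ¬ 2 * j + 1 ≤ 1 := by omega
    have h2 : ¬ (2 * j + 1) % 2 = 0 := by omega
    have h3 : (2 * j + 1) / 2 = j := by omega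
    simp only [F, dif_neg h1, if_neg h2, h3]

/-- Induction over the heap index. -/
theorem tree_ind {p : ℕ → Prop} (h1 : p 1) (h2 : ∀ j, 1 ≤ j → p j → p (2 * j) ∧ p (2 * j + 1)) :
    ∀ j, 1 ≤ j → p j := by
  intro j
  induction j using Nat.strong_induction_on with
  | _ j ih =>
    intro hj
    rcases hj.eq_or_lt with rfl | hj
    · exact h1
    · have h := h2 (j / 2) (by omega) (ih _ (by omega) (by omega))
      rcases Nat.mod_two_eq_zero_or_one j with h3 | h3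
      · have : j = 2 * (j / 2) := by omega
        rw [this]; exact h.1
      · have : j = 2 * (j / 2) + 1 := by omega
        rw [this]; exact h.2

/-- Greedy choice of signs balancing two families of reals. -/
theorem tree_balance (y z : ℕ → ℝ) (U : Finset ℕ) :
    ∃ A B : Finset ℕ, Disjoint A B ∧ A ∪ B = U ∧
      (∑ i ∈ A, y i - ∑ i ∈ B, y i) ^ 2 + (∑ i ∈ A, z i - ∑ i ∈ B, z i) ^ 2
        ≤ ∑ i ∈ U, (y i ^ 2 + z i ^ 2) := by
  induction U using Finset.induction_on with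
  | empty => exact ⟨∅, ∅, by simp, by simp, by simp⟩
  | insert w U hw ih =>
    obtain ⟨A, B, hd, hu, h⟩ := ih
    have hA : w ∉ A := fun h => hw (hu ▸ Finset.mem_union_left _ h)
    have hB : w ∉ B := fun h => hw (hu ▸ Finset.mem_union_right _ h)
    rw [Finset.sum_insert hw]
    rcases le_total ((∑ i ∈ A, y i - ∑ i ∈ B, y i) * y w + (∑ i ∈ A, z i - ∑ i ∈ B, z i) * z w) 0
      with h0 | h0
    · refine ⟨insert w A, B, Finset.disjoint_insert_left.2 ⟨hB, hd⟩,
        by rw [Finset.insert_union, hu], ?_⟩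
      rw [Finset.sum_insert hA, Finset.sum_insert hA]
      nlinarith
    · refine ⟨A, insert w B, Finset.disjoint_insert_right.2 ⟨hA, hd⟩,
        by rw [Finset.union_insert, hu], ?_⟩
      rw [Finset.sum_insert hB, Finset.sum_insert hB]
      nlinarith

open Classical in
/-- An additive function summed over the descendants of a set of cells. -/
theorem tree_sum_refine {M : Type*} [AddCommMonoid M] {w : ℕ → M}
    (hw : ∀ j, 1 ≤ j → w j = w (2 * j) + w (2 * j + 1)) {N N' : ℕ} (hN : N ≤ N') {B : Finset ℕ}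
    (hB : B ⊆ V N) :
    ∑ i ∈ B, w i = ∑ J ∈ (V N').filter (fun J => ∃ i ∈ B, Desc i J), w J := by
  have h1 : (V N').filter (fun J => ∃ i ∈ B, Desc i J) =
      B.biUnion fun i => (V N').filter (Desc i) := by
    ext J
    simp only [Finset.mem_filter, Finset.mem_biUnion]
    exact ⟨fun ⟨h, i, hi, hd⟩ => ⟨i, hi, h, hd⟩, fun ⟨i, hi, h, hd⟩ => ⟨h, i, hi, hd⟩⟩
  rw [h1, Finset.sum_biUnion]
  · exact Finset.sum_congr rfl fun i hi =>
      sum_desc (hB hi) hN fun _ j _ _ hj => hw j (one_le_of_mem_V hj)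
  · intro i hi k hk hik
    refine Finset.disjoint_left.2 fun J h1 h2 => hik ?_
    exact (Finset.mem_filter.1 h1).2.eq_of_mem_V (Finset.mem_filter.1 h2).2 (hB hi) (hB hk)

theorem tree_sum_le {y : ℕ → ℝ} (hy0 : ∀ j, 1 ≤ j → 0 ≤ y j)
    (hy : ∀ j, 1 ≤ j → y j = y (2 * j) + y (2 * j + 1)) {N : ℕ} {B : Finset ℕ} (hB : B ⊆ V N) :
    ∑ i ∈ B, y i ≤ y 1 := by
  rw [sum_V_eq (N := N) fun _ j _ hj => hy j (one_le_of_mem_V hj)]
  exact Finset.sum_le_sum_of_subset_of_nonneg hB fun i hi _ => hy0 i (one_le_of_mem_V hi)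

theorem tree_desc_le {y : ℕ → ℝ} (hy0 : ∀ j, 1 ≤ j → 0 ≤ y j)
    (hy : ∀ j, 1 ≤ j → y j = y (2 * j) + y (2 * j + 1)) {i d : ℕ} (hi : 1 ≤ i) (h : Desc i d) :
    y d ≤ y i := by
  have hd : 1 ≤ d := hi.trans h.le
  have h1 := (desc_iff (mem_V_log hi) (mem_V_log hd)).1 h
  rw [sum_desc (mem_V_log hi) h1.1 fun _ j _ _ hj => hy j (one_le_of_mem_V hj)]
  exact Finset.single_le_sum (f := y)
    (fun J hJ => hy0 J (one_le_of_mem_V (Finset.mem_filter.1 hJ).1))
    (Finset.mem_filter.2 ⟨mem_V_log hd, h⟩)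

open Classical in
/-- Splitting lemma. -/
theorem tree_split {y z : ℕ → ℝ} (hy0 : ∀ j, 1 ≤ j → 0 ≤ y j) (hz0 : ∀ j, 1 ≤ j → 0 ≤ z j)
    (hy : ∀ j, 1 ≤ j → y j = y (2 * j) + y (2 * j + 1))
    (hz : ∀ j, 1 ≤ j → z j = z (2 * j) + z (2 * j + 1))
    (hyt : Tendsto y atTop (𝓝 0)) (hzt : Tendsto z atTop (𝓝 0))
    {η : ℝ} (hη : 0 < η) {N : ℕ} {B : Finset ℕ} (hB : B ⊆ V N) :
    ∃ (N' : ℕ) (B0 B1 : Finset ℕ), N ≤ N' ∧ Disjoint B0 B1 ∧
      B0 ∪ B1 = (V N').filter (fun J => ∃ i ∈ B, Desc i J) ∧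
      |∑ i ∈ B0, y i - ∑ i ∈ B1, y i| ≤ η ∧ |∑ i ∈ B0, z i - ∑ i ∈ B1, z i| ≤ η := by
  have hy1 := hy0 1 le_rfl
  have hz1 := hz0 1 le_rfl
  set δ : ℝ := η ^ 2 / (y 1 + z 1 + 1) with hδ
  have hδ0 : 0 < δ := by positivity
  obtain ⟨N1, hN1⟩ := eventually_atTop.1
    ((hyt.eventually (gt_mem_nhds hδ0)).and (hzt.eventually (gt_mem_nhds hδ0)))
  set N' := max N N1 with hN'
  set U := (V N').filter (fun J => ∃ i ∈ B, Desc i J) with hU
  have hUV : U ⊆ V N' := Finset.filter_subset _ _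
  obtain ⟨B0, B1, hd, hu, h⟩ := tree_balance y z U
  have h2 : ∑ i ∈ U, (y i ^ 2 + z i ^ 2) ≤ δ * (∑ i ∈ U, y i + ∑ i ∈ U, z i) := by
    rw [← Finset.sum_add_distrib, Finset.mul_sum]
    refine Finset.sum_le_sum fun i hi => ?_
    have hi1 := one_le_of_mem_V (hUV hi)
    have hi2 : N1 ≤ i := (le_max_right N N1).trans (lt_of_mem_V (hUV hi)).le
    have := hN1 i hi2
    nlinarith [hy0 i hi1, hz0 i hi1, this.1, this.2]
  have h3 := tree_sum_le hy0 hy hUV
  have h4 := tree_sum_le hz0 hz hUV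
  have h5 : δ * (y 1 + z 1 + 1) = η ^ 2 := by rw [hδ]; field_simp
  have h6 : (∑ i ∈ B0, y i - ∑ i ∈ B1, y i) ^ 2 + (∑ i ∈ B0, z i - ∑ i ∈ B1, z i) ^ 2 ≤ η ^ 2 := by
    nlinarith
  refine ⟨N', B0, B1, le_max_left _ _, hd, hu, abs_le_of_sq_le_sq' ?_ hη.le |> abs_le.2,
    abs_le_of_sq_le_sq' ?_ hη.le |> abs_le.2⟩
  · nlinarith [sq_nonneg (∑ i ∈ B0, z i - ∑ i ∈ B1, z i)]
  · nlinarith [sq_nonneg (∑ i ∈ B0, y i - ∑ i ∈ B1, y i)]

open Classical in
/-- The combinatorial core: a tree of unions of cells with balanced masses. -/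
theorem tree_comb {y z : ℕ → ℝ} (hy0 : ∀ j, 1 ≤ j → 0 ≤ y j) (hz0 : ∀ j, 1 ≤ j → 0 ≤ z j)
    (hy : ∀ j, 1 ≤ j → y j = y (2 * j) + y (2 * j + 1))
    (hz : ∀ j, 1 ≤ j → z j = z (2 * j) + z (2 * j + 1))
    (hyt : Tendsto y atTop (𝓝 0)) (hzt : Tendsto z atTop (𝓝 0)) (hσ : 0 < y 1) :
    ∃ (lev : ℕ → ℕ) (B : ℕ → Finset ℕ), B 0 = {1} ∧ B 1 = {1} ∧ (∀ j, B j ⊆ V (lev j)) ∧
      (∀ j, 1 ≤ j → lev j ≤ lev (2 * j) ∧ lev (2 * j + 1) = lev (2 * j) ∧
        Disjoint (B (2 * j)) (B (2 * j + 1)) ∧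
        B (2 * j) ∪ B (2 * j + 1) = (V (lev (2 * j))).filter (fun J => ∃ i ∈ B j, Desc i J)) ∧
      (∀ j, y 1 / 2 * len j ≤ ∑ i ∈ B j, y i) ∧
      (∀ j, ∑ i ∈ B j, z i ≤ (z 1 + y 1) * len j) := by
  have key : ∀ (j : ℕ) (p : {p : ℕ × Finset ℕ // p.2 ⊆ V p.1}),
      ∃ p0 p1 : {p : ℕ × Finset ℕ // p.2 ⊆ V p.1}, p.1.1 ≤ p0.1.1 ∧ p1.1.1 = p0.1.1 ∧
        Disjoint p0.1.2 p1.1.2 ∧
        p0.1.2 ∪ p1.1.2 = (V p0.1.1).filter (fun J => ∃ i ∈ p.1.2, Desc i J) ∧
        |∑ i ∈ p0.1.2, y i - ∑ i ∈ p1.1.2, y i| ≤ y 1 * len j ^ 2 / 4 ∧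
        |∑ i ∈ p0.1.2, z i - ∑ i ∈ p1.1.2, z i| ≤ y 1 * len j ^ 2 / 4 := by
    intro j p
    have hη : 0 < y 1 * len j ^ 2 / 4 := by have := len_pos j; positivity
    obtain ⟨N', B0, B1, h1, h2, h3, h4, h5⟩ := tree_split hy0 hz0 hy hz hyt hzt hη p.2
    have h6 : B0 ∪ B1 ⊆ V N' := h3 ▸ Finset.filter_subset _ _
    exact ⟨⟨(N', B0), Finset.subset_union_left.trans h6⟩,
      ⟨(N', B1), Finset.subset_union_right.trans h6⟩, h1, rfl, h2, h3, h4, h5⟩
  choose s0 s1 hs using key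
  obtain ⟨node, hn0, hn1, hn⟩ := tree_rec (⟨(0, {1}), by simp [V_zero]⟩ :
    {p : ℕ × Finset ℕ // p.2 ⊆ V p.1}) s0 s1
  have hb : ∀ j, 1 ≤ j → y 1 * len j * (1 + len j) / 2 ≤ ∑ i ∈ (node j).1.2, y i ∧
      ∑ i ∈ (node j).1.2, z i ≤ (z 1 + y 1 * (1 - len j) / 2) * len j := by
    refine tree_ind ?_ fun j hj ih => ?_
    · rw [hn1, len_one]
      simp only [Finset.sum_singleton]
      constructor <;> linarith
    · obtain ⟨h1, h2, h3, h4, h5, h6⟩ := hs j (node j)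
      have e1 := tree_sum_refine hy h1 (node j).2
      have e2 := tree_sum_refine hz h1 (node j).2
      rw [← h4, Finset.sum_union h3] at e1 e2
      rw [(hn j hj).1, (hn j hj).2, len_two_mul hj, len_two_mul_add_one hj]
      rw [abs_le] at h5 h6
      obtain ⟨ih1, ih2⟩ := ih
      refine ⟨⟨?_, ?_⟩, ?_, ?_⟩ <;> nlinarith [h5.1, h5.2, h6.1, h6.2]
  have hlen : ∀ j, len j ≤ 1 := fun j =>
    inv_le_one_of_one_le₀ (one_le_pow₀ (by norm_num))
  have hb' : ∀ j, y 1 / 2 * len j ≤ ∑ i ∈ (node j).1.2, y i ∧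
      ∑ i ∈ (node j).1.2, z i ≤ (z 1 + y 1) * len j := by
    intro j
    rcases Nat.eq_zero_or_pos j with rfl | hj
    · have : len 0 = 1 := by simp [len]
      rw [hn0, this]
      simp only [Finset.sum_singleton]
      constructor <;> linarith
    · obtain ⟨h1, h2⟩ := hb j hj
      have h3 := len_pos j
      have h4 : 0 < y 1 * len j := mul_pos hσ h3
      constructor <;> nlinarith [mul_pos h4 h3]
  refine ⟨fun j => (node j).1.1, fun j => (node j).1.2, by simp [hn0], by simp [hn1],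
    fun j => (node j).2, fun j hj => ?_, fun j => (hb' j).1, fun j => (hb' j).2⟩
  obtain ⟨h1, h2, h3, h4, -⟩ := hs j (node j)
  simp only [(hn j hj).1, (hn j hj).2]
  exact ⟨h1, h2, h3, h4⟩

/-- Points at which arbitrarily deep descendants of the cell are large. -/
def tree_E {Ω : Type*} (W : ℕ → Ω → ℝ) (κ : ℝ) (j : ℕ) : Set Ω :=
  ⋂ N, ⋃ d, ⋃ (_ : N ≤ d ∧ Desc j d), {x | κ ≤ W d x}

theorem tree_mem_E {Ω : Type*} {W : ℕ → Ω → ℝ} {κ : ℝ} {j : ℕ} {x : Ω} :
    x ∈ tree_E W κ j ↔ ∀ N, ∃ d, (N ≤ d ∧ Desc j d) ∧ κ ≤ W d x := by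
  simp [tree_E]

theorem tree_E_children {Ω : Type*} {W : ℕ → Ω → ℝ} {κ : ℝ} {j : ℕ} {x : Ω}
    (h : x ∈ tree_E W κ j) (h0 : x ∉ tree_E W κ (2 * j)) : x ∈ tree_E W κ (2 * j + 1) := by
  rw [tree_mem_E] at h h0 ⊢
  push Not at h0
  obtain ⟨N0, hN0⟩ := h0
  intro N
  obtain ⟨d, ⟨h1, h2⟩, h3⟩ := h (max (max N N0) (j + 1))
  have h4 : N ≤ d := ((le_max_left _ _).trans (le_max_left _ _)).trans h1
  have h5 : N0 ≤ d := ((le_max_right _ _).trans (le_max_left _ _)).trans h1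
  have h6 : j + 1 ≤ d := (le_max_right _ _).trans h1
  rcases desc_iff_children.1 h2 with h7 | h7 | h7
  · omega
  · exact absurd (hN0 d ⟨h5, h7⟩) (not_lt.2 h3)
  · exact ⟨d, ⟨h4, h7⟩, h3⟩

/-- The atoms. -/
theorem tree_atoms {Ω : Type*} [MeasurableSpace Ω] (W : ℕ → Ω → ℝ) (hW : ∀ j, Measurable (W j))
    (κ : ℝ) : ∃ S : ℕ → Set Ω, S 1 = tree_E W κ 1 ∧
      (∀ j, 1 ≤ j → MeasurableSet (S j) ∧ S j ⊆ tree_E W κ j) ∧
      (∀ j, 1 ≤ j → S (2 * j) ∪ S (2 * j + 1) = S j ∧ Disjoint (S (2 * j)) (S (2 * j + 1))) := by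
  have hE : ∀ j, MeasurableSet (tree_E W κ j) := fun j =>
    MeasurableSet.iInter fun N => MeasurableSet.iUnion fun d => MeasurableSet.iUnion fun _ =>
      measurableSet_le measurable_const (hW d)
  obtain ⟨S, -, h1, h2⟩ := tree_rec (tree_E W κ 1) (fun j s => s ∩ tree_E W κ (2 * j))
    (fun j s => s \ tree_E W κ (2 * j))
  refine ⟨S, h1, tree_ind ?_ fun j hj ih => ?_, fun j hj => ?_⟩
  · rw [h1]; exact ⟨hE 1, subset_rfl⟩
  · rw [(h2 j hj).1, (h2 j hj).2]
    exact ⟨⟨ih.1.inter (hE _), Set.inter_subset_right⟩, ih.1.diff (hE _),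
      fun x hx => tree_E_children (ih.2 hx.1) hx.2⟩
  · rw [(h2 j hj).1, (h2 j hj).2]
    exact ⟨Set.inter_union_sdiff _ _, Set.disjoint_left.2 fun x h h' => h'.2 h.2⟩

section Atoms

variable {Ω : Type*} {S : ℕ → Set Ω}

open Classical in
theorem tree_ind_add
    (hS : ∀ j, 1 ≤ j → S (2 * j) ∪ S (2 * j + 1) = S j ∧ Disjoint (S (2 * j)) (S (2 * j + 1)))
    (x : Ω) (j : ℕ) (hj : 1 ≤ j) : (if x ∈ S j then (1 : ℝ) else 0) =
      (if x ∈ S (2 * j) then (1 : ℝ) else 0) + (if x ∈ S (2 * j + 1) then (1 : ℝ) else 0) := by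
  have h1 : x ∈ S j ↔ x ∈ S (2 * j) ∨ x ∈ S (2 * j + 1) := by rw [← (hS j hj).1]; rfl
  have h2 : x ∈ S (2 * j) → x ∉ S (2 * j + 1) := fun h => Set.disjoint_left.1 (hS j hj).2 h
  by_cases a : x ∈ S (2 * j) <;> by_cases b : x ∈ S (2 * j + 1) <;> simp_all

theorem tree_S_sub
    (hS : ∀ j, 1 ≤ j → S (2 * j) ∪ S (2 * j + 1) = S j ∧ Disjoint (S (2 * j)) (S (2 * j + 1)))
    {i d : ℕ} (hi : 1 ≤ i) (h : Desc i d) : S d ⊆ S i := by
  classical
  intro x hx
  have := tree_desc_le (y := fun j => if x ∈ S j then (1 : ℝ) else 0)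
    (fun j _ => by split_ifs <;> norm_num) (tree_ind_add hS x) hi h
  by_contra hx'
  simp only [if_pos hx, if_neg hx'] at this
  norm_num at this

theorem tree_S_disj
    (hS : ∀ j, 1 ≤ j → S (2 * j) ∪ S (2 * j + 1) = S j ∧ Disjoint (S (2 * j)) (S (2 * j + 1)))
    {N i k : ℕ} (hi : i ∈ V N) (hk : k ∈ V N) (hik : i ≠ k) : Disjoint (S i) (S k) := by
  classical
  refine Set.disjoint_left.2 fun x h1 h2 => ?_
  have := tree_sum_le (y := fun j => if x ∈ S j then (1 : ℝ) else 0)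
    (fun j _ => by split_ifs <;> norm_num) (tree_ind_add hS x) (N := N) (B := {i, k})
    (Finset.insert_subset hi (Finset.singleton_subset_iff.2 hk))
  rw [Finset.sum_pair hik] at this
  simp only [if_pos h1, if_pos h2] at this
  split_ifs at this <;> norm_num at this

end Atoms

theorem tree_pointwise {y : ℕ → ℝ} (hy0 : ∀ j, 1 ≤ j → 0 ≤ y j)
    (hy : ∀ j, 1 ≤ j → y j = y (2 * j) + y (2 * j + 1)) {r b : ℝ} (hr : 1 < r) (N : ℕ)
    (hb : ∀ j ∈ V N, y j ≤ b) : ∑ j ∈ V N, y j ^ r ≤ b ^ (r - 1) * y 1 := by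
  rw [sum_V_eq (N := N) fun _ j _ hj => hy j (one_le_of_mem_V hj), Finset.mul_sum]
  refine Finset.sum_le_sum fun j hj => ?_
  have h0 := hy0 j (one_le_of_mem_V hj)
  have h1 : y j ^ r = y j ^ (r - 1) * y j := by
    rw [← Real.rpow_add_one' h0 (by linarith)]; congr 1; ring
  rw [h1]
  exact mul_le_mul_of_nonneg_right (Real.rpow_le_rpow h0 (hb j hj) (by linarith)) h0

/-- The set of points with large deep descendants has positive measure. -/
theorem tree_E_pos {Ω : Type} [MeasurableSpace Ω] (m : Measure Ω) [IsProbabilityMeasure m]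
    (q : ℝ≥0∞) [Fact (1 ≤ q)] (hq1 : 1 < q) (hq : q ≠ ⊤) (W : ℕ → Lp ℝ q m)
    (h0 : ∀ j, 0 ≤ W j)
    (hae : ∀ᵐ x ∂m, ∀ j, 0 ≤ W j x ∧ (1 ≤ j → W j x = W (2 * j) x + W (2 * j + 1) x))
    (c₀ : ℝ) (hc₀ : 0 < c₀) (hc : ∀ N, c₀ ≤ ∑ j ∈ V N, ‖W j‖ ^ q.toReal) :
    ∃ κ : ℝ, 0 < κ ∧ 0 < m.real (tree_E (fun j x => W j x) κ 1) := by
  have hr := one_lt_toReal hq1 hq
  set r := q.toReal with hrdef
  have hint : ∀ j, Integrable (W j) m := fun j => (Lp.memLp (W j)).integrable (Fact.out)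
  have hintr : ∀ j, Integrable (fun x => W j x ^ r) m := fun j =>
    (Pool.Agent.Lib.LpDual.integrable_abs_rpow hq (W j)).congr (by
      filter_upwards [hae] with x hx
      rw [abs_of_nonneg (hx j).1])
  set I := ∫ x, W 1 x ∂m with hI
  have hI0 : 0 ≤ I := integral_nonneg_of_ae (by filter_upwards [hae] with x hx using (hx 1).1)
  set t : ℝ := c₀ / (2 * (I + 1)) with ht
  have ht0 : 0 < t := by positivity
  set κ : ℝ := t ^ (r - 1)⁻¹ with hκ
  have hκ0 : 0 < κ := Real.rpow_pos_of_pos ht0 _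
  have hκt : κ ^ (r - 1) = t := Real.rpow_inv_rpow ht0.le (by linarith)
  have htI : t * I < c₀ := by
    have : t * (2 * (I + 1)) = c₀ := by rw [ht]; field_simp
    nlinarith
  refine ⟨κ, hκ0, ?_⟩
  by_contra hcon
  have hz : m (tree_E (fun j x => W j x) κ 1) = 0 := by
    have h1 : m.real (tree_E (fun j x => W j x) κ 1) = 0 :=
      le_antisymm (not_lt.1 hcon) measureReal_nonneg
    exact (measureReal_eq_zero_iff (measure_ne_top _ _)).1 h1
  let G : ℕ → Set Ω := fun N => ⋃ d, ⋃ (_ : N ≤ d ∧ Desc 1 d), {x | κ ≤ W d x}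
  have hGm : ∀ N, MeasurableSet (G N) := fun N =>
    MeasurableSet.iUnion fun d => MeasurableSet.iUnion fun _ =>
      measurableSet_le measurable_const (Lp.stronglyMeasurable (W d)).measurable
  have hGa : Antitone G := by
    intro N N' hN x hx
    simp only [G, Set.mem_iUnion] at hx ⊢
    obtain ⟨d, hd, h⟩ := hx
    exact ⟨d, ⟨hN.trans hd.1, hd.2⟩, h⟩
  have hlim := tendsto_setIntegral_of_antitone (f := fun x => W 1 x ^ r) (μ := m) hGm hGa
    ⟨0, (hintr 1).integrableOn⟩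
  have hE : ⋂ N, G N = tree_E (fun j x => W j x) κ 1 := rfl
  rw [hE, setIntegral_measure_zero _ hz] at hlim
  have hle : ∀ N, c₀ - t * I ≤ ∫ x in G N, W 1 x ^ r ∂m := by
    intro N
    have h1 : ∑ j ∈ V N, ‖W j‖ ^ r = ∫ x, ∑ j ∈ V N, W j x ^ r ∂m := by
      rw [integral_finsetSum _ fun j _ => hintr j]
      exact Finset.sum_congr rfl fun j _ => norm_rpow_of_nonneg hq (h0 j)
    have h2 : ∫ x, ∑ j ∈ V N, W j x ^ r ∂m ≤
        ∫ x, (t * W 1 x + (G N).indicator (fun x => W 1 x ^ r) x) ∂m := by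
      refine integral_mono_ae (integrable_finsetSum _ fun j _ => hintr j)
        (((hint 1).const_mul t).add ((hintr 1).indicator (hGm N))) ?_
      filter_upwards [hae] with x hx
      have hx0 : ∀ j, 1 ≤ j → 0 ≤ W j x := fun j _ => (hx j).1
      have hx1 : ∀ j, 1 ≤ j → W j x = W (2 * j) x + W (2 * j + 1) x := fun j hj => (hx j).2 hj
      by_cases hG : x ∈ G N
      · rw [Set.indicator_of_mem hG]
        have h3 := tree_pointwise (y := fun j => W j x) hx0 hx1 hr N (b := W 1 x) fun j hj =>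
          tree_desc_le (y := fun j => W j x) hx0 hx1 le_rfl (desc_one (one_le_of_mem_V hj))
        have h4 : W 1 x ^ r = W 1 x ^ (r - 1) * W 1 x := by
          rw [← Real.rpow_add_one' (hx 1).1 (by linarith)]; congr 1; ring
        have h5 := mul_nonneg ht0.le (hx 1).1
        linarith
      · rw [Set.indicator_of_notMem hG, add_zero, ← hκt]
        refine tree_pointwise (y := fun j => W j x) hx0 hx1 hr N fun j hj => ?_
        by_contra h3
        refine hG ?_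
        simp only [G, Set.mem_iUnion]
        exact ⟨j, ⟨(lt_of_mem_V hj).le, desc_one (one_le_of_mem_V hj)⟩, (not_le.1 h3).le⟩
    rw [integral_add ((hint 1).const_mul t) ((hintr 1).indicator (hGm N)), integral_const_mul,
      integral_indicator (hGm N)] at h2
    have := hc N
    linarith
  have := ge_of_tendsto' hlim hle
  linarith

theorem exists_tree {Ω : Type} [MeasurableSpace Ω] (m : Measure Ω) [IsProbabilityMeasure m]
    (q : ℝ≥0∞) [Fact (1 ≤ q)] (hq1 : 1 < q) (hq : q ≠ ⊤) (W : ℕ → Lp ℝ q m)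
    (h0 : ∀ j, 0 ≤ W j) (hadd : ∀ j, 1 ≤ j → W j = W (2 * j) + W (2 * j + 1))
    (c₀ : ℝ) (hc₀ : 0 < c₀) (hc : ∀ N, c₀ ≤ ∑ j ∈ V N, ‖W j‖ ^ q.toReal)
    (hsmall : Tendsto (fun j => ‖W j‖) atTop (𝓝 0))
    (𝒮 : AddSubmonoid (Lp ℝ q m)) (hW : ∀ j, W j ∈ 𝒮) :
    ∃ (w : ℕ → Lp ℝ q m) (Z : ℕ → Set Ω) (κ C : ℝ), TreeData m q w Z κ C ∧ ∀ j, w j ∈ 𝒮 := by
  classical
  have hae : ∀ᵐ x ∂m, ∀ j, 0 ≤ W j x ∧ (1 ≤ j → W j x = W (2 * j) x + W (2 * j + 1) x) := by
    rw [ae_all_iff]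
    intro j
    by_cases hj : 1 ≤ j
    · have h1 : W j =ᵐ[m] W (2 * j) + W (2 * j + 1) := by
        conv_lhs => rw [hadd j hj]
        exact Lp.coeFn_add _ _
      filter_upwards [(Lp.coeFn_nonneg (W j)).2 (h0 j), h1] with x hx hx'
      exact ⟨hx, fun _ => hx'⟩
    · filter_upwards [(Lp.coeFn_nonneg (W j)).2 (h0 j)] with x hx
      exact ⟨hx, fun h => absurd h hj⟩
  obtain ⟨κ, hκ, hE⟩ := tree_E_pos m q hq1 hq W h0 hae c₀ hc₀ hc
  obtain ⟨S, hS1, hSm, hS⟩ := tree_atoms (fun j x => W j x)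
    (fun j => (Lp.stronglyMeasurable (W j)).measurable) κ
  have hbig : ∀ᵐ x ∂m, ∀ j, 1 ≤ j → x ∈ S j → κ ≤ W j x := by
    filter_upwards [hae] with x hx j hj hxj
    obtain ⟨d, hd, h⟩ := tree_mem_E.1 ((hSm j hj).2 hxj) 0
    exact h.trans (tree_desc_le (y := fun j => W j x) (fun j _ => (hx j).1)
      (fun j hj => (hx j).2 hj) hj hd.2)
  obtain ⟨ℓ, hℓ⟩ := exists_test hq1 hq (W 1) (B := Set.univ) MeasurableSet.univ
  obtain ⟨ℓ₁, hℓ₁⟩ := exists_setIntegral (m := m) (q := q) (B := Set.univ) MeasurableSet.univ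
  simp only [Measure.restrict_univ] at hℓ hℓ₁
  have hW0 : Tendsto W atTop (𝓝 0) := tendsto_zero_iff_norm_tendsto_zero.2 hsmall
  have hzt : Tendsto (fun j => ℓ (W j)) atTop (𝓝 0) := by
    simpa [Function.comp_def] using (ℓ.continuous.tendsto 0).comp hW0
  have hzt1 : Tendsto (fun j => κ⁻¹ * ℓ₁ (W j)) atTop (𝓝 0) := by
    have : Tendsto (fun j => ℓ₁ (W j)) atTop (𝓝 0) := by
      simpa [Function.comp_def] using (ℓ₁.continuous.tendsto 0).comp hW0
    simpa using this.const_mul κ⁻¹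
  have hyt : Tendsto (fun j => m.real (S j)) atTop (𝓝 0) := by
    refine squeeze_zero' (Eventually.of_forall fun j => measureReal_nonneg) ?_ hzt1
    filter_upwards [eventually_ge_atTop 1] with j hj
    have h1 := mul_meas_ge_le_integral_of_nonneg ((Lp.coeFn_nonneg (W j)).2 (h0 j))
      ((Lp.memLp (W j)).integrable (Fact.out)) κ
    have h2 : m.real (S j) ≤ m.real {x | κ ≤ W j x} := by
      refine ENNReal.toReal_mono (measure_ne_top _ _) (measure_mono_ae ?_)
      filter_upwards [hbig] with x hx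
      exact hx j hj
    rw [hℓ₁, ← div_eq_inv_mul, le_div_iff₀ hκ]
    nlinarith
  have hz0 : ∀ j, 0 ≤ ℓ (W j) := fun j => by
    rw [hℓ]
    refine integral_nonneg_of_ae ?_
    filter_upwards [hae] with x hx
    exact mul_nonneg (Real.rpow_nonneg (abs_nonneg _) _) (hx j).1
  have hσ : 0 < m.real (S 1) := by rw [hS1]; exact hE
  obtain ⟨lev, B, hB0, hB1, hBV, hB, hy, hz⟩ := tree_comb (y := fun j => m.real (S j))
    (z := fun j => ℓ (W j)) (fun j _ => measureReal_nonneg) (fun j _ => hz0 j)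
    (fun j hj => by
      rw [← measureReal_union (hS j hj).2 (hSm _ (by omega)).1, (hS j hj).1])
    (fun j hj => by rw [← map_add, ← hadd j hj]) hyt hzt hσ
  have hB1le : ∀ j, ∀ i ∈ B j, 1 ≤ i := fun j i hi => one_le_of_mem_V (hBV j hi)
  have hsub : ∀ j, 1 ≤ j → ∀ J ∈ B (2 * j) ∪ B (2 * j + 1), S J ⊆ ⋃ i ∈ B j, S i := by
    intro j hj J hJ
    rw [(hB j hj).2.2.2] at hJ
    obtain ⟨i, hi, hd⟩ := (Finset.mem_filter.1 hJ).2
    exact (tree_S_sub hS (hB1le j i hi) hd).trans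
      (Set.subset_biUnion_of_mem (u := S) (Finset.mem_coe.2 hi))
  refine ⟨fun j => ∑ i ∈ B j, W i, fun j => ⋃ i ∈ B j, S i, min κ (m.real (S 1) / 2),
    ℓ (W 1) + m.real (S 1), ⟨lt_min hκ (by linarith), by linarith [hz0 1], by rw [hB0, hB1],
      by rw [hB0, hB1], fun j => Finset.sum_nonneg fun i _ => h0 i, fun j hj => ?_,
      fun j => Finset.measurableSet_biUnion _ fun i hi => (hSm i (hB1le j i hi)).1,
      fun j hj => ?_, fun j hj => ?_, fun j hj => ?_, fun j => ?_, fun j => ?_, fun j => ?_⟩,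
    fun j => 𝒮.sum_mem fun i _ => hW i⟩
  · rw [tree_sum_refine hadd (hB j hj).1 (hBV j), ← (hB j hj).2.2.2,
      Finset.sum_union (hB j hj).2.2.1]
  · exact Set.iUnion₂_subset fun J hJ => hsub j hj J (Finset.mem_union_left _ hJ)
  · exact Set.iUnion₂_subset fun J hJ => hsub j hj J (Finset.mem_union_right _ hJ)
  · refine Set.disjoint_iUnion₂_left.2 fun i hi => Set.disjoint_iUnion₂_right.2 fun k hk => ?_
    refine tree_S_disj hS (hBV _ hi) ((hB j hj).2.1 ▸ hBV _ hk) fun h => ?_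
    exact Finset.disjoint_left.1 (hB j hj).2.2.1 hi (h ▸ hk)
  · rw [measureReal_biUnion_finset (fun i hi k hk hik => tree_S_disj hS (hBV j hi) (hBV j hk) hik)
      fun i hi => (hSm i (hB1le j i hi)).1]
    exact (mul_le_mul_of_nonneg_right (min_le_right _ _) (len_pos j).le).trans (hy j)
  · filter_upwards [hbig, hae, Lp.coeFn_fun_finsetSum (B j) W] with x hx hx' hx'' hxj
    obtain ⟨i, hi, hxi⟩ := Set.mem_iUnion₂.1 hxj
    rw [hx'']
    exact (min_le_left _ _).trans ((hx i (hB1le j i hi) hxi).trans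
      (Finset.single_le_sum (f := fun i => W i x) (fun k _ => (hx' k).1) hi))
  · have h1 : ∑ i ∈ B 1, W i = W 1 := by rw [hB1, Finset.sum_singleton]
    rw [h1, ← hℓ, map_sum]
    exact hz j

end Pool.Agent.MP_fc1aea_an

end

-- part MP_fc1aea_an.SysA
section

open MeasureTheory Filter Topology Finset
open scoped ENNReal

namespace Pool.Agent.MP_fc1aea_an

theorem sysA_desc {M : Type*} [AddCommMonoid M] {w : ℕ → M} (h0 : w 0 = w 1)
    (hw : ∀ j, 1 ≤ j → w j = w (2 * j) + w (2 * j + 1)) {N k : ℕ} (hk : k < 2 ^ N) :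
    w k = ∑ J ∈ V N, if Desc k J then w J else 0 := by
  rcases Nat.eq_zero_or_pos k with rfl | h
  · rw [h0, sum_V_eq (N := N) fun _ j _ hj => hw j (one_le_of_mem_V hj)]
    refine sum_congr rfl fun J _ => (if_pos ⟨J, Nat.div_eq_of_lt ?_⟩).symm
    exact Nat.lt_two_pow_self
  · rw [sum_desc (mem_V_log h) (Nat.log_lt_of_lt_pow h.ne' hk).le
      fun _ j _ _ hj => hw j (one_le_of_mem_V hj), sum_filter]

theorem sysA_len {N k : ℕ} (hk : k < 2 ^ N) :
    len k = ∑ J ∈ V N, if Desc k J then len J else 0 :=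
  sysA_desc (by simp [len]) (fun _ => len_add) hk

theorem sysA_swap {M : Type*} [AddCommMonoid M] [Module ℝ M] {w : ℕ → M} (h0 : w 0 = w 1)
    (hw : ∀ j, 1 ≤ j → w j = w (2 * j) + w (2 * j + 1)) (N : ℕ) (c : ℕ → ℝ) :
    ∑ k ∈ range (2 ^ N), c k • w k =
      ∑ J ∈ V N, (∑ k ∈ range (2 ^ N), if Desc k J then c k else 0) • w J := by
  simp only [sum_smul]
  rw [sum_comm]
  refine sum_congr rfl fun k hk => ?_
  rw [sysA_desc h0 hw (mem_range.1 hk), smul_sum]
  refine sum_congr rfl fun J _ => ?_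
  split_ifs <;> simp

theorem sysA_sum_rpow {ι : Type*} {r : ℝ} (hr : 1 ≤ r) (s : Finset ι) (x : ι → ℝ)
    (hx : ∀ i, 0 ≤ x i) : ∑ i ∈ s, x i ^ r ≤ (∑ i ∈ s, x i) ^ r := by
  classical
  induction s using Finset.induction_on with
  | empty => simp only [sum_empty]; positivity
  | insert i s hi ih =>
    rw [sum_insert hi, sum_insert hi]
    exact (add_le_add le_rfl ih).trans
      (Real.add_rpow_le_rpow_add (hx i) (sum_nonneg fun j _ => hx j) hr)

theorem sysA_sqf_nonneg (N : ℕ) (a : ℕ → ℝ) (J : ℕ) : 0 ≤ sqf N a J :=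
  sum_nonneg fun k _ => by split_ifs <;> positivity

theorem sysA_diag {r : ℝ} (hr : 1 ≤ r) (N : ℕ) (a : ℕ → ℝ) :
    ∑ k ∈ range (2 ^ N), (a k ^ 2) ^ r * len k ≤ ∑ J ∈ V N, len J * sqf N a J ^ r := by
  have h := sysA_swap (w := len) (by simp [len]) (fun _ => len_add) N fun k => (a k ^ 2) ^ r
  simp only [smul_eq_mul] at h
  rw [h]
  refine sum_le_sum fun J _ => ?_
  rw [mul_comm]
  refine mul_le_mul_of_nonneg_left (le_trans (le_of_eq ?_) (sysA_sum_rpow hr _ _ fun k => ?_))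
    (len_pos J).le
  · refine sum_congr rfl fun k _ => ?_
    split_ifs
    · rfl
    · rw [Real.zero_rpow (by linarith)]
  · split_ifs <;> positivity

theorem sysA_len_le (k : ℕ) : len k ≤ 1 :=
  inv_le_one_of_one_le₀ (one_le_pow₀ (by norm_num))

theorem sysA_eta {r : ℝ} (hr : 1 ≤ r) (N : ℕ) (a η : ℕ → ℝ) (h0 : ∀ k, 0 < η k)
    (hη : ∀ k, η k ≤ (1 / 2) ^ (k + 1) * len k) :
    (∑ k ∈ range (2 ^ N), a k ^ 2 * η k) ^ r ≤ ∑ J ∈ V N, len J * sqf N a J ^ r := by
  set Q := ∑ J ∈ V N, len J * sqf N a J ^ r with hQ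
  have hQ0 : 0 ≤ Q := sum_nonneg fun J _ =>
    mul_nonneg (len_pos J).le (Real.rpow_nonneg (sysA_sqf_nonneg N a J) _)
  have h1 : ∀ k ∈ range (2 ^ N), a k ^ 2 * len k ≤ Q ^ r⁻¹ := by
    intro k hk
    have hl := len_pos k
    rw [Real.le_rpow_inv_iff_of_pos (by positivity) hQ0 (by linarith),
      Real.mul_rpow (by positivity) hl.le]
    refine le_trans ?_ ((single_le_sum (f := fun k => (a k ^ 2) ^ r * len k)
      (fun j _ => by have := len_pos j; positivity) hk).trans (sysA_diag hr N a))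
    refine mul_le_mul_of_nonneg_left ?_ (by positivity)
    simpa using Real.rpow_le_rpow_of_exponent_ge hl (sysA_len_le k) hr
  have h2 : ∀ n : ℕ, ∑ k ∈ range n, (1 / 2 : ℝ) ^ (k + 1) = 1 - (1 / 2) ^ n := by
    intro n
    induction n with
    | zero => simp
    | succ n ih => rw [sum_range_succ, ih]; ring
  have h3 : ∑ k ∈ range (2 ^ N), a k ^ 2 * η k ≤ Q ^ r⁻¹ := by
    calc _ ≤ ∑ k ∈ range (2 ^ N), Q ^ r⁻¹ * (1 / 2) ^ (k + 1) := by
          refine sum_le_sum fun k hk => ?_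
          calc _ ≤ a k ^ 2 * ((1 / 2) ^ (k + 1) * len k) :=
                mul_le_mul_of_nonneg_left (hη k) (sq_nonneg _)
            _ = a k ^ 2 * len k * (1 / 2) ^ (k + 1) := by ring
            _ ≤ _ := mul_le_mul_of_nonneg_right (h1 k hk) (by positivity)
      _ ≤ _ := by
          rw [← mul_sum, h2]
          exact mul_le_of_le_one_right (Real.rpow_nonneg hQ0 _) (sub_le_self _ (by positivity))
  exact (Real.le_rpow_inv_iff_of_pos
    (sum_nonneg fun k _ => mul_nonneg (sq_nonneg _) (h0 k).le) hQ0 (by linarith)).1 h3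

theorem sysA_jensen {ι : Type*} {r : ℝ} (hr : 1 ≤ r) (s : Finset ι) (S w : ι → ℝ)
    (hS : ∀ i, 0 ≤ S i) (hw : ∀ i, 0 ≤ w i) :
    (∑ i ∈ s, S i * w i) ^ r ≤ (∑ i ∈ s, w i) ^ (r - 1) * ∑ i ∈ s, S i ^ r * w i := by
  have h := Real.inner_le_weight_mul_Lp_of_nonneg s hr w S hw hS
  have h1 : 0 ≤ ∑ i ∈ s, w i := sum_nonneg fun i _ => hw i
  have h2 : 0 ≤ ∑ i ∈ s, w i * S i ^ r :=
    sum_nonneg fun i _ => mul_nonneg (hw i) (Real.rpow_nonneg (hS i) _)
  have h3 := Real.rpow_le_rpow (sum_nonneg fun i _ => mul_nonneg (hw i) (hS i)) h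
    (by linarith : 0 ≤ r)
  rw [Real.mul_rpow (Real.rpow_nonneg h1 _) (Real.rpow_nonneg h2 _), ← Real.rpow_mul h1,
    Real.rpow_inv_rpow h2 (by linarith), sub_mul, one_mul, inv_mul_cancel₀ (by linarith)] at h3
  simpa only [mul_comm] using h3

theorem sysA_coe_sum {Ω ι : Type*} [MeasurableSpace Ω] {m : Measure Ω} {p : ℝ≥0∞} (s : Finset ι)
    (c : ι → ℝ) (g : ι → Lp ℝ p m) :
    ⇑(∑ i ∈ s, c i • g i) =ᵐ[m] fun x => ∑ i ∈ s, c i * g i x := by
  filter_upwards [Lp.coeFn_fun_finsetSum s fun i => c i • g i,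
    (eventually_all_finset s).2 fun i _ => Lp.coeFn_smul (c i) (g i)] with x h1 h2
  rw [h1]
  exact sum_congr rfl fun i hi => h2 i hi

theorem sysA_norm {Ω : Type*} [MeasurableSpace Ω] {m : Measure Ω} {q : ℝ≥0∞} [Fact (1 ≤ q)]
    (hq1 : 1 < q) (hq : q ≠ ⊤) {w : ℕ → Lp ℝ q m} {Z : ℕ → Set Ω} {κ₀ C : ℝ}
    (h : TreeData m q w Z κ₀ C) (k : ℕ) : ‖w k‖ ^ q.toReal ≤ C * len k := by
  have hr := one_lt_toReal hq1 hq
  have h1 : w k ≤ w 1 := by
    rw [sysA_desc h.w_zero h.add (Nat.lt_two_pow_self (n := k)),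
      sum_V_eq (w := w) (N := k) fun _ j _ hj => h.add j (one_le_of_mem_V hj)]
    refine sum_le_sum fun J _ => ?_
    split_ifs
    · exact le_rfl
    · exact h.nonneg J
  rw [Lib.LpDual.norm_rpow_eq hq]
  refine le_trans (integral_mono_ae (Lib.LpDual.integrable_abs_rpow hq _)
    (integrable_test hq1 hq _ _) ?_) (h.rho k)
  filter_upwards [(Lp.coeFn_le _ _).2 h1, (Lp.coeFn_nonneg _).2 (h.nonneg k)] with x h2 h3
  have h4 : 0 ≤ w k x := h3
  rw [abs_of_nonneg h4, abs_of_nonneg (h4.trans h2)]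
  calc w k x ^ q.toReal = w k x ^ (q.toReal - 1) * w k x := by
        rw [Real.rpow_sub_one' h4 (by linarith)]
        rcases h4.eq_or_lt with h5 | h5
        · rw [← h5, Real.zero_rpow (by linarith)]; simp
        · field_simp
    _ ≤ _ := mul_le_mul_of_nonneg_right (Real.rpow_le_rpow h4 h2 (by linarith)) h4

theorem sysA_var {Ω : Type*} [MeasurableSpace Ω] {m : Measure Ω} {q : ℝ≥0∞} [Fact (1 ≤ q)]
    (hq1 : 1 < q) (hq : q ≠ ⊤) {w : ℕ → Lp ℝ q m} {Z : ℕ → Set Ω} {κ₀ C : ℝ}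
    (h : TreeData m q w Z κ₀ C) (N : ℕ) (a : ℕ → ℝ) :
    ∫ x, |(∑ k ∈ range (2 ^ N), a k ^ 2 • w k) x| ^ q.toReal ∂m ≤
      C * ∑ J ∈ V N, len J * sqf N a J ^ q.toReal := by
  have hr := one_lt_toReal hq1 hq
  have h1 : ∀ J ∈ V N, Integrable
      (fun x => sqf N a J ^ q.toReal * (|w 1 x| ^ (q.toReal - 1) * w J x)) m :=
    fun J _ => (integrable_test hq1 hq _ _).const_mul _
  calc _ ≤ ∫ x, ∑ J ∈ V N, sqf N a J ^ q.toReal * (|w 1 x| ^ (q.toReal - 1) * w J x) ∂m := by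
        refine integral_mono_ae (Lib.LpDual.integrable_abs_rpow hq _) (integrable_finsetSum _ h1) ?_
        have e1 := sum_V_eq (w := w) (N := N) fun _ j _ hj => h.add j (one_le_of_mem_V hj)
        have e2 : w 1 =ᵐ[m] fun x => ∑ J ∈ V N, w J x := by
          rw [e1]
          exact Lp.coeFn_fun_finsetSum _ _
        rw [sysA_swap h.w_zero h.add]
        filter_upwards [sysA_coe_sum (V N) (sqf N a) w, e2,
          ae_all_iff.2 fun J => (Lp.coeFn_nonneg _).2 (h.nonneg J)] with x h2 h3 h4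
        have h5 : ∀ J, 0 ≤ w J x := h4
        have h6 := sysA_jensen hr.le (V N) (sqf N a) (fun J => w J x) (sysA_sqf_nonneg N a) h5
        rw [← h3, mul_sum] at h6
        change |(∑ J ∈ V N, sqf N a J • w J) x| ^ q.toReal ≤ _
        rw [h2, abs_of_nonneg (sum_nonneg fun J _ => mul_nonneg (sysA_sqf_nonneg N a J) (h5 J)),
          abs_of_nonneg (h5 1)]
        exact h6.trans (le_of_eq (sum_congr rfl fun J _ => by ring))
    _ ≤ _ := by
        rw [integral_finsetSum _ h1, mul_sum]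
        refine sum_le_sum fun J _ => ?_
        rw [integral_const_mul]
        calc _ ≤ sqf N a J ^ q.toReal * (C * len J) := mul_le_mul_of_nonneg_left (h.rho J)
              (Real.rpow_nonneg (sysA_sqf_nonneg N a J) _)
          _ = _ := by ring

theorem sysA_int {Ω Λ : Type*} [MeasurableSpace Ω] {m : Measure Ω} [IsFiniteMeasure m]
    {κ : SimpleFunc Ω Λ} {ψ f : Ω → ℝ} (hψ : Ms (Rk κ) ψ) (hf : Integrable f m) (c e : ℝ) :
    ∫ x, ψ x * (c * (av m κ f x + e)) ∂m = c * (∫ x, ψ x * f x ∂m + e * ∫ x, ψ x ∂m) := by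
  rw [← integral_mul_av hψ hf, ← integral_const_mul e,
    ← integral_add (hψ.integrable_mul (ms_av κ f).integrable) (hψ.integrable.const_mul e),
    ← integral_const_mul]
  exact integral_congr_ae (Eventually.of_forall fun x => by ring)

/-
TASK SysA (upper bound; uses bdg, dual_doob of Mart.lean as black boxes, Part.lean, Heap.lean).
n = 2^N, r = q.toReal, Q = sum_J len J * sqf N a J ^ r.  Filt with I from exists_functional m (kap n),
R k = Rk (kap k); functions measurable for R k, k <= n, have I f = integral f.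
bdg with d k := a k * d k, v k := a k^2 (av (kap k) (w k) + eta k); dual_doob with
phi k := a k^2 (av (kap n) (w k) + eta k) (integral_mul_av); av_sum, integral_abs_av_rpow_le, add_rpow_le.
sum_k a k^2 w k = sum_{J in V N} sqf N a J * w J a.e. (sum_desc; w 0 = w 1, desc_one), Jensen
(sum_J S_J w_J)^r <= w_1^(r-1) sum_J S_J^r w_J with w_1 = sum_J w_J, and TreeData.rho.
|a k|^(2r) len k <= Q (sum_len_desc) so a k^2 eta k <= Q^(1/r) (1/2)^(k+1).
|w k|^r <= int w_1^(r-1) w_k <= C len k, and sum_k |a k|^(2r) len k <= Q since sum of x^r <= (sum x)^r.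
-/
theorem system_upper {p : ℝ≥0∞} (q : ℝ≥0∞) [Fact (1 ≤ p)] [Fact (1 ≤ q)]
    [ENNReal.HolderTriple p p q] (hq1 : 1 < q) (hq : q ≠ ⊤) (K C : ℝ) (hK : 1 ≤ K) :
    ∃ C' : ℝ, 1 ≤ C' ∧
    ∀ {Ω : Type} [MeasurableSpace Ω] (m : Measure Ω) [IsProbabilityMeasure m]
      {X : Type} [NormedAddCommGroup X] [NormedSpace ℝ X] (T : X →L[ℝ] Lp ℝ p m)
      (w : ℕ → Lp ℝ q m) (Z : ℕ → Set Ω) (κ₀ : ℝ), TreeData m q w Z κ₀ C →
      ∀ (η : ℕ → ℝ), (∀ k, 0 < η k) → (∀ k, η k ≤ (1 / 2) ^ (k + 1) * len k) →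
      ∀ (κ : ℕ → SimpleFunc Ω (List ℝ)) (u : ℕ → X) (d : ℕ → Ω → ℝ) (D : ℕ → Lp ℝ p m),
        MDData m T w Z K η κ u d D → ∀ (N : ℕ) (a : ℕ → ℝ),
        ‖∑ k ∈ range (2 ^ N), a k • D k‖ ^ (2 * q.toReal)
          ≤ C' * ∑ J ∈ V N, len J * sqf N a J ^ q.toReal := by
  have hr := one_lt_toReal hq1 hq
  obtain ⟨Cb, hCb, hb⟩ := bdg hr.le
  obtain ⟨Cd, hCd, hd⟩ := dual_doob hr.le
  refine ⟨max 1 (Cb * (Cd * (2 ^ q.toReal * (C + 1)) + (K * C + 1))), le_max_left _ _, ?_⟩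
  intro Ω _ m _ X _ _ T w Z κ₀ hT η hη0 hη κ u d D hM N a
  set r := q.toReal with hrq
  set n := 2 ^ N with hn
  set Q := ∑ J ∈ V N, len J * sqf N a J ^ r with hQ
  have hQ0 : 0 ≤ Q := sum_nonneg fun J _ =>
    mul_nonneg (len_pos J).le (Real.rpow_nonneg (sysA_sqf_nonneg N a J) _)
  have hC := hT.C_pos
  obtain ⟨I, hI, hI'⟩ := exists_functional m (κ n)
  let F : Filt Ω := ⟨I, hI, fun k => Rk (κ k), hM.mono⟩
  have up : ∀ {k l : ℕ}, k ≤ l → ∀ {f : Ω → ℝ}, Ms (Rk (κ k)) f → Ms (Rk (κ l)) f := by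
    intro k l hkl f hf
    induction l, hkl using Nat.le_induction with
    | base => exact hf
    | succ l _ ih => exact fun x y h => ih x y (hM.mono l x y h)
  have hw : ∀ k, Integrable (w k) m := fun k => (Lp.memLp (w k)).integrable hq1.le
  have hw0 : ∀ k l x, 0 ≤ a k ^ 2 * (av m (κ l) (w k) x + η k) := fun k l x =>
    mul_nonneg (sq_nonneg _)
      (add_nonneg (av_nonneg _ ((Lp.coeFn_nonneg _).2 (hT.nonneg k)) x) (hη0 k).le)
  have hwm : ∀ k l, Ms (Rk (κ l)) fun x => a k ^ 2 * (av m (κ l) (w k) x + η k) :=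
    fun k l x y h => by simp only [ms_av (κ l) (w k) x y h]
  have hdm : ∀ k < n, Ms (Rk (κ n)) (d k) := fun k hk => up hk (hM.meas k)
  have hv : ∀ k < n, ∀ l, k ≤ l → l ≤ n → ∀ ψ : Ω → ℝ, Ms (Rk (κ k)) ψ →
      I (fun x => ψ x * (a k ^ 2 * (av m (κ l) (w k) x + η k))) =
        a k ^ 2 * (∫ x, ψ x * w k x ∂m + η k * ∫ x, ψ x ∂m) := by
    intro k hk l h1 h2 ψ hψ
    rw [hI' _ fun x y h => by simp only [up hk.le hψ x y h, up h2 (hwm k l) x y h],
      sysA_int (up h1 hψ) (hw k)]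
  have h1 := hb F n (fun k x => a k * d k x) (fun k x => a k ^ 2 * (av m (κ k) (w k) x + η k))
    ⟨fun k _ x y h => by simp only [hM.meas k x y h], fun k hk φ hφ => by
      change I _ = 0
      rw [hI' _ fun x y h => by simp only [up hk.le hφ x y h, hdm k hk x y h]]
      simp only [mul_left_comm _ (a k)]
      rw [integral_const_mul, hM.orth k φ hφ, mul_zero]⟩
    (fun k _ x => hw0 k k x) (fun k _ => hwm k k) fun k hk ψ h0 hψ => by
      change I _ ≤ I _
      rw [hv k hk k le_rfl hk.le ψ hψ,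
        hI' _ fun x y h => by simp only [up hk.le hψ x y h, hdm k hk x y h]]
      simp only [mul_pow, mul_left_comm _ (a k ^ 2)]
      rw [integral_const_mul]
      refine mul_le_mul_of_nonneg_left ?_ (sq_nonneg _)
      linarith [(abs_le.1 (hM.var k ψ h0 hψ)).2]
  have h2 := hd F n (fun k x => a k ^ 2 * (av m (κ k) (w k) x + η k))
    (fun k x => a k ^ 2 * (av m (κ n) (w k) x + η k)) (fun k _ x => hw0 k k x)
    (fun k _ x => hw0 k n x) (fun k _ => hwm k k) fun k hk ψ _ hψ => by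
      change I _ ≤ I _
      rw [hv k hk k le_rfl hk.le ψ hψ, hv k hk n hk.le le_rfl ψ hψ]
  have h3 : I (fun x => (∑ k ∈ range n, a k ^ 2 * (av m (κ n) (w k) x + η k)) ^ r) ≤
      2 ^ r * (C + 1) * Q := by
    set f := ∑ k ∈ range n, a k ^ 2 • w k with hf
    set e := ∑ k ∈ range n, a k ^ 2 * η k with he
    have he0 : 0 ≤ e := sum_nonneg fun k _ => mul_nonneg (sq_nonneg _) (hη0 k).le
    have e1 : ∀ x, ∑ k ∈ range n, a k ^ 2 * (av m (κ n) (w k) x + η k) = av m (κ n) f x + e := by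
      intro x
      rw [av_congr _ (sysA_coe_sum _ _ _), av_sum _ _ _ fun k _ => hw k, he, ← sum_add_distrib]
      exact sum_congr rfl fun k _ => by ring
    have m1 : Ms (Rk (κ n)) fun x => (av m (κ n) f x + e) ^ r :=
      fun x y h => by simp only [ms_av (κ n) f x y h]
    have m2 : Ms (Rk (κ n)) fun x => |av m (κ n) f x| ^ r :=
      fun x y h => by simp only [ms_av (κ n) f x y h]
    simp only [e1]
    rw [hI' _ m1]
    have i2 : Integrable (fun x => |av m (κ n) f x| ^ r + e ^ r) m :=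
      m2.integrable.add (integrable_const _)
    calc _ ≤ ∫ x, 2 ^ r * (|av m (κ n) f x| ^ r + e ^ r) ∂m := by
          refine integral_mono m1.integrable (i2.const_mul _) fun x => ?_
          refine le_trans (Real.rpow_le_rpow ?_ (add_le_add (le_abs_self _) le_rfl) (by linarith))
            (add_rpow_le (by linarith) (abs_nonneg _) he0)
          rw [← e1]
          exact sum_nonneg fun k _ => hw0 k n x
      _ ≤ _ := by
          rw [integral_const_mul, integral_add m2.integrable (integrable_const _), mul_assoc]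
          refine mul_le_mul_of_nonneg_left ?_ (by positivity)
          have b1 := (integral_abs_av_rpow_le (κ n) hr.le ((Lp.memLp f).integrable hq1.le)
            (Lib.LpDual.integrable_abs_rpow hq f)).trans (sysA_var hq1 hq hT N a)
          have b2 := sysA_eta hr.le N a η hη0 hη
          simp only [integral_const, probReal_univ, one_smul]
          linarith
  have h4 : ∑ k ∈ range n, I (fun x => |a k * d k x| ^ (2 * r)) ≤ (K * C + 1) * Q := by
    refine le_trans (sum_le_sum fun k hk => ?_) (le_trans (le_of_eq (mul_sum _ _ _).symm)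
      (mul_le_mul_of_nonneg_left (sysA_diag hr.le N a) (by positivity)))
    rw [hI' _ fun x y h => by simp only [hdm k (mem_range.1 hk) x y h]]
    simp only [abs_mul, Real.mul_rpow (abs_nonneg _) (abs_nonneg _)]
    rw [integral_const_mul, abs_rpow_two_mul, mul_left_comm]
    refine mul_le_mul_of_nonneg_left ((hM.norm_le k).trans ?_) (by positivity)
    have b1 := mul_le_mul_of_nonneg_left (sysA_norm hq1 hq hT k) (by linarith : 0 ≤ K)
    have b2 : η k ≤ len k := (hη k).trans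
      (mul_le_of_le_one_left (len_pos k).le (pow_le_one₀ (by norm_num) (by norm_num)))
    linarith
  have h5 : ‖∑ k ∈ range n, a k • D k‖ ^ (2 * r) =
      I (fun x => |∑ k ∈ range n, a k * d k x| ^ (2 * r)) := by
    rw [hI' _ fun x y h => by
      simp only [sum_congr rfl fun k hk => congrArg (a k * ·) (hdm k (mem_range.1 hk) x y h)],
      ← toReal_eq_two_mul q p, Lib.LpDual.norm_rpow_eq (ne_top_of_half q p hq)]
    refine integral_congr_ae ?_
    filter_upwards [sysA_coe_sum (range n) a D, ae_all_iff.2 hM.coe] with x e1 e2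
    simp only [e1, e2]
  rw [h5]
  refine le_trans h1 (le_trans ?_ (mul_le_mul_of_nonneg_right (le_max_right _ _) hQ0))
  rw [mul_assoc]
  refine mul_le_mul_of_nonneg_left ?_ (by linarith)
  have h6 := h2.trans (mul_le_mul_of_nonneg_left h3 (by linarith))
  change I _ + ∑ k ∈ range n, I _ ≤ _
  change I _ ≤ _ at h6
  linarith

end Pool.Agent.MP_fc1aea_an

end

-- part MP_fc1aea_an.SysB
section

open MeasureTheory Filter Topology Finset
open scoped ENNReal

namespace Pool.Agent.MP_fc1aea_an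

section SysB

variable {Ω : Type} [MeasurableSpace Ω] {m : Measure Ω}

theorem sysb_half {q : ℝ≥0∞} [Fact (1 ≤ q)] {w : ℕ → Lp ℝ q m} {Z : ℕ → Set Ω} {κ₀ C : ℝ}
    (h : TreeData m q w Z κ₀ C) {k : ℕ} (hk : 2 ≤ k) : Z k ⊆ Z (k / 2) := by
  rcases Nat.even_or_odd' k with ⟨j, hj | hj⟩
  · have e : k / 2 = j := by omega
    rw [e, hj]
    exact h.left j (by omega)
  · have e : k / 2 = j := by omega
    rw [e, hj]
    exact h.right j (by omega)

theorem sysb_subset {q : ℝ≥0∞} [Fact (1 ≤ q)] {w : ℕ → Lp ℝ q m} {Z : ℕ → Set Ω} {κ₀ C : ℝ}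
    (h : TreeData m q w Z κ₀ C) {i : ℕ} (hi : 1 ≤ i) (k : ℕ) (hd : Desc i k) : Z k ⊆ Z i := by
  induction k using Nat.strong_induction_on with
  | _ k ih =>
    rcases desc_iff_half.1 hd with h1 | h1
    · rw [h1]
    · have h2 := h1.le
      exact (sysb_half h (by omega)).trans (ih (k / 2) (by omega) h1)

theorem sysb_subset' {q : ℝ≥0∞} [Fact (1 ≤ q)] {w : ℕ → Lp ℝ q m} {Z : ℕ → Set Ω} {κ₀ C : ℝ}
    (h : TreeData m q w Z κ₀ C) {i k : ℕ} (hd : Desc i k) : Z k ⊆ Z i := by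
  rcases Nat.eq_zero_or_pos i with rfl | hi
  · rcases Nat.eq_zero_or_pos k with rfl | hk
    · exact subset_rfl
    · rw [h.Z_zero]
      exact sysb_subset h le_rfl k (desc_one hk)
  · exact sysb_subset h hi k hd

theorem sysb_desc {q : ℝ≥0∞} [Fact (1 ≤ q)] {w : ℕ → Lp ℝ q m} {Z : ℕ → Set Ω} {κ₀ C : ℝ}
    (h : TreeData m q w Z κ₀ C) {x : Ω} (n : ℕ) :
    ∀ i k, i + k ≤ n → 1 ≤ i → i ≤ k → x ∈ Z i → x ∈ Z k → Desc i k := by
  induction n with
  | zero => intro i k h1 h2; omega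
  | succ n ih =>
    intro i k h1 h2 h3 hi hk
    rcases h3.eq_or_lt with rfl | h4
    · exact Desc.refl _
    · have hk2 : x ∈ Z (k / 2) := sysb_half h (by omega) hk
      rcases le_total i (k / 2) with h5 | h5
      · exact (ih i (k / 2) (by omega) h2 h5 hi hk2).trans (desc_half k)
      · have h6 := ih (k / 2) i (by omega) (by omega) h5 hk2 hi
        rcases desc_iff_children.1 h6 with h7 | h7 | h7
        · rw [h7]; exact desc_half k
        · have h8 := h7.le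
          have e1 : i = 2 * (k / 2) := by omega
          have e2 : k = 2 * (k / 2) + 1 := by omega
          have h9 := h.disj (k / 2) (by omega)
          rw [← e1] at h9
          rw [e1, ← e2] at h9
          rw [← e1] at h9
          exact absurd hk (Set.disjoint_left.1 h9 hi)
        · have h8 := h7.le
          omega

theorem sysb_iff {q : ℝ≥0∞} [Fact (1 ≤ q)] {w : ℕ → Lp ℝ q m} {Z : ℕ → Set Ω} {κ₀ C : ℝ}
    (h : TreeData m q w Z κ₀ C) {x y : Ω} {i k : ℕ} (hik : i ≤ k) (hy : y ∈ Z k) (hx : x ∈ Z k)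
    (hi : x ∈ Z i) : y ∈ Z i := by
  rcases Nat.eq_zero_or_pos i with rfl | hi0
  · exact sysb_subset' h ⟨k, Nat.div_eq_of_lt Nat.lt_two_pow_self⟩ hy
  · exact sysb_subset' h (sysb_desc h _ i k le_rfl hi0 hik hi hx) hy

theorem sysb_mono {Λ : Type*} {κ : ℕ → SimpleFunc Ω Λ}
    (h : ∀ k x y, Rk (κ (k + 1)) x y → Rk (κ k) x y) {i k : ℕ} (hik : i ≤ k) {x y : Ω}
    (hxy : Rk (κ k) x y) : Rk (κ i) x y := by
  induction k, hik using Nat.le_induction with
  | base => exact hxy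
  | succ k _ ih => exact ih (h k x y hxy)

theorem sysb_ms {Λ : Type*} {κ : ℕ → SimpleFunc Ω Λ}
    (h : ∀ k x y, Rk (κ (k + 1)) x y → Rk (κ k) x y) {i k : ℕ} (hik : i ≤ k) {f : Ω → ℝ}
    (hf : Ms (Rk (κ i)) f) : Ms (Rk (κ k)) f :=
  fun x y hxy => hf x y (sysb_mono h hik hxy)

theorem sysb_functional [IsFiniteMeasure m] (p : ℝ≥0∞) [Fact (1 ≤ p)] {Λ : Type*}
    {κ : SimpleFunc Ω Λ} {f : Ω → ℝ} (hf : Ms (Rk κ) f) :
    ∃ b : Lp ℝ p m →L[ℝ] ℝ, ∀ g, b g = ∫ x, f x * g x ∂m := by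
  have hc : ENNReal.HolderConjugate p (ENNReal.conjExponent p) :=
    ENNReal.HolderConjugate.conjExponent (Fact.out)
  have hc' := hc.symm
  have : Fact (1 ≤ ENNReal.conjExponent p) := ⟨ENNReal.HolderConjugate.one_le _ p⟩
  have h := hf.memLp (m := m) (ENNReal.conjExponent p)
  refine ⟨Pool.Agent.Lib.LpDual.pair p h.toLp, fun g => ?_⟩
  rw [Pool.Agent.Lib.LpDual.pair_apply]
  refine integral_congr_ae ?_
  filter_upwards [h.coeFn_toLp] with x hx
  rw [hx]

/-- The indicator function of a set. -/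
noncomputable def sysbChi (A : Set Ω) (x : Ω) : ℝ := A.indicator (fun _ => 1) x

omit [MeasurableSpace Ω] in
theorem sysb_chi_mem {A : Set Ω} {x : Ω} (h : x ∈ A) : sysbChi A x = 1 := by
  simp [sysbChi, h]

omit [MeasurableSpace Ω] in
theorem sysb_chi_notMem {A : Set Ω} {x : Ω} (h : x ∉ A) : sysbChi A x = 0 := by
  simp [sysbChi, h]

omit [MeasurableSpace Ω] in
theorem sysb_chi_nonneg (A : Set Ω) (x : Ω) : 0 ≤ sysbChi A x := by
  by_cases h : x ∈ A
  · rw [sysb_chi_mem h]; norm_num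
  · rw [sysb_chi_notMem h]

omit [MeasurableSpace Ω] in
theorem sysb_chi_congr {A : Set Ω} {x y : Ω} (h : x ∈ A ↔ y ∈ A) : sysbChi A x = sysbChi A y := by
  by_cases hx : x ∈ A
  · rw [sysb_chi_mem hx, sysb_chi_mem (h.1 hx)]
  · rw [sysb_chi_notMem hx, sysb_chi_notMem (mt h.2 hx)]

theorem sysb_integral_chi {A : Set Ω} (hA : MeasurableSet A) :
    ∫ x, sysbChi A x ∂m = m.real A := by
  unfold sysbChi
  rw [integral_indicator hA]
  simp

theorem sysb_var [IsProbabilityMeasure m] {p q : ℝ≥0∞} [Fact (1 ≤ p)] [Fact (1 ≤ q)]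
    {X : Type} [NormedAddCommGroup X] [NormedSpace ℝ X] {T : X →L[ℝ] Lp ℝ p m}
    {w : ℕ → Lp ℝ q m} {Z : ℕ → Set Ω} {K C κ₀ : ℝ} (ht : TreeData m q w Z κ₀ C)
    {η : ℕ → ℝ} (hη : ∀ k, η k ≤ κ₀ / 2)
    {κ : ℕ → SimpleFunc Ω (List ℝ)} {u : ℕ → X} {d : ℕ → Ω → ℝ} {D : ℕ → Lp ℝ p m}
    (hM : MDData m T w Z K η κ u d D) (k : ℕ) :
    κ₀ / 2 * m.real (Z k) ≤ ∫ x, sysbChi (Z k) x * d k x ^ 2 ∂m := by
  have hχ : Ms (Rk (κ k)) (sysbChi (Z k)) := fun x y h => sysb_chi_congr (hM.sets k x y h)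
  have h1 := (abs_le.1 (hM.var k _ (sysb_chi_nonneg _) hχ)).1
  rw [sysb_integral_chi (ht.meas k)] at h1
  have hw : Integrable (w k) m := (Lp.memLp (w k)).integrable Fact.out
  have h2 : κ₀ * m.real (Z k) ≤ ∫ x, sysbChi (Z k) x * w k x ∂m := by
    rw [← sysb_integral_chi (ht.meas k), ← integral_const_mul]
    refine integral_mono_ae (hχ.integrable.const_mul _) (hχ.integrable_mul hw) ?_
    filter_upwards [ht.big k] with x hx
    by_cases h : x ∈ Z k
    · rw [sysb_chi_mem h]; linarith [hx h]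
    · rw [sysb_chi_notMem h]; simp
  have h3 : η k * m.real (Z k) ≤ κ₀ / 2 * m.real (Z k) :=
    mul_le_mul_of_nonneg_right (hη k) measureReal_nonneg
  linarith

theorem sysb_cs [IsFiniteMeasure m] {Λ : Type*} {κ κ' : SimpleFunc Ω Λ}
    (hκ : ∀ x y, Rk κ' x y → Rk κ x y) {χ d g : Ω → ℝ} (hχ : Ms (Rk κ) χ) (hχ0 : ∀ x, 0 ≤ χ x)
    (hd : Ms (Rk κ') d) (horth : ∀ φ : Ω → ℝ, Ms (Rk κ) φ → ∫ x, φ x * d x ∂m = 0)
    (hg : Integrable g m) {t : ℝ}
    (ht : ∫ x, χ x * d x * g x ∂m = t * ∫ x, χ x * d x ^ 2 ∂m) :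
    t ^ 2 * ∫ x, χ x * d x ^ 2 ∂m ≤ ∫ x, χ x * (av m κ' g x - av m κ g x) ^ 2 ∂m := by
  set e : Ω → ℝ := fun x => av m κ' g x - av m κ g x with he
  have hχ' : Ms (Rk κ') χ := fun x y h => hχ x y (hκ x y h)
  have hav : Ms (Rk κ') (av m κ g) := fun x y h => ms_av κ g x y (hκ x y h)
  have he' : Ms (Rk κ') e := fun x y h => by
    simp only [he, ms_av κ' g x y h, hav x y h]
  have hχd : Ms (Rk κ') fun x => χ x * d x := fun x y h => by
    simp only [hχ' x y h, hd x y h]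
  have i1 : Integrable (fun x => χ x * d x * av m κ' g x) m :=
    hχd.integrable_mul (ms_av κ' g).integrable
  have i2 : Integrable (fun x => χ x * d x * av m κ g x) m :=
    hχd.integrable_mul hav.integrable
  have h1 : ∫ x, χ x * d x * e x ∂m = t * ∫ x, χ x * d x ^ 2 ∂m := by
    have e1 : (fun x => χ x * d x * e x)
        = fun x => χ x * d x * av m κ' g x - χ x * d x * av m κ g x := by
      funext x; simp only [he]; ring
    have e2 : ∫ x, χ x * d x * av m κ g x ∂m = 0 := by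
      rw [← horth (fun x => χ x * av m κ g x) fun x y h => by
        simp only [hχ x y h, ms_av κ g x y h]]
      congr 1; funext x; ring
    rw [e1, integral_sub i1 i2, e2, integral_mul_av hχd hg, ht, sub_zero]
  have j1 : Integrable (fun x => χ x * e x ^ 2) m :=
    Ms.integrable (κ := κ') fun x y h => by simp only [hχ' x y h, he' x y h]
  have j2 : Integrable (fun x => χ x * d x * e x) m :=
    Ms.integrable (κ := κ') fun x y h => by simp only [hχ' x y h, he' x y h, hd x y h]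
  have j3 : Integrable (fun x => χ x * d x ^ 2) m :=
    Ms.integrable (κ := κ') fun x y h => by simp only [hχ' x y h, hd x y h]
  have h2 : 0 ≤ ∫ x, χ x * (e x - t * d x) ^ 2 ∂m :=
    integral_nonneg fun x => mul_nonneg (hχ0 x) (sq_nonneg _)
  have e3 : (fun x => χ x * (e x - t * d x) ^ 2)
      = fun x => (χ x * e x ^ 2 - 2 * t * (χ x * d x * e x)) + t ^ 2 * (χ x * d x ^ 2) := by
    funext x; ring
  have j4 : Integrable (fun x => χ x * e x ^ 2 - 2 * t * (χ x * d x * e x)) m :=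
    j1.sub (j2.const_mul _)
  rw [e3, integral_add j4 (j3.const_mul _), integral_sub j1 (j2.const_mul _), integral_const_mul,
    integral_const_mul, h1] at h2
  nlinarith

theorem sysb_lower [IsProbabilityMeasure m] {q : ℝ≥0∞} [Fact (1 ≤ q)] {w : ℕ → Lp ℝ q m}
    {Z : ℕ → Set Ω} {κ₀ C : ℝ} (ht : TreeData m q w Z κ₀ C) {r : ℝ} (hr : 0 ≤ r) (N : ℕ)
    (c : ℕ → ℝ)
    (hi : Integrable (fun x => (∑ k ∈ range (2 ^ N), c k ^ 2 * sysbChi (Z k) x) ^ r) m) :
    κ₀ * ∑ J ∈ V N, len J * sqf N c J ^ r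
      ≤ ∫ x, (∑ k ∈ range (2 ^ N), c k ^ 2 * sysbChi (Z k) x) ^ r ∂m := by
  have hs : ∀ J, 0 ≤ sqf N c J := fun J => Finset.sum_nonneg fun k _ => by
    split_ifs
    · positivity
    · exact le_rfl
  have i1 : ∀ J, Integrable (fun x => sqf N c J ^ r * sysbChi (Z J) x) m := fun J =>
    ((integrable_const (1 : ℝ)).indicator (ht.meas J)).const_mul _
  calc _ ≤ ∑ J ∈ V N, ∫ x, sqf N c J ^ r * sysbChi (Z J) x ∂m := by
        rw [Finset.mul_sum]
        refine Finset.sum_le_sum fun J _ => ?_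
        rw [integral_const_mul, sysb_integral_chi (ht.meas J)]
        have := mul_le_mul_of_nonneg_left (ht.lower J) (Real.rpow_nonneg (hs J) r)
        linarith
    _ = ∫ x, ∑ J ∈ V N, sqf N c J ^ r * sysbChi (Z J) x ∂m :=
        (integral_finsetSum _ fun J _ => i1 J).symm
    _ ≤ _ := by
        refine integral_mono (integrable_finsetSum _ fun J _ => i1 J) hi fun x => ?_
        have h0 : 0 ≤ ∑ k ∈ range (2 ^ N), c k ^ 2 * sysbChi (Z k) x :=
          Finset.sum_nonneg fun k _ => mul_nonneg (sq_nonneg _) (sysb_chi_nonneg _ _)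
        by_cases hx : ∃ J ∈ V N, x ∈ Z J
        · obtain ⟨J, hJ, hxJ⟩ := hx
          beta_reduce
          rw [Finset.sum_eq_single_of_mem J hJ, sysb_chi_mem hxJ, mul_one]
          · refine Real.rpow_le_rpow (hs J) (Finset.sum_le_sum fun k _ => ?_) hr
            split_ifs with h
            · rw [sysb_chi_mem (sysb_subset' ht h hxJ), mul_one]
            · exact mul_nonneg (sq_nonneg _) (sysb_chi_nonneg _ _)
          · intro J' hJ' hne
            rw [sysb_chi_notMem, mul_zero]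
            intro hxJ'
            rcases le_total J J' with h | h
            · exact hne ((sysb_desc ht _ J J' le_rfl (one_le_of_mem_V hJ) h hxJ hxJ').eq_of_mem_V
                (Desc.refl J') hJ hJ').symm
            · exact hne ((sysb_desc ht _ J' J le_rfl (one_le_of_mem_V hJ') h hxJ' hxJ).eq_of_mem_V
                (Desc.refl J) hJ' hJ)
        · beta_reduce
          rw [Finset.sum_eq_zero fun J hJ => by
            rw [sysb_chi_notMem fun h => hx ⟨J, hJ, h⟩, mul_zero]]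
          exact Real.rpow_nonneg h0 r

end SysB

/-
TASK SysB (the coefficient functionals; uses sqfn, dual_doob as black boxes, Part.lean, Heap.lean).
Nk = int_{Z k} d k^2 >= (kap0 - eta k) m(Z k) >= kap0/2 * m(Z k) > 0 (var with psi = indicator (Z k), big, lower).
b k g = int g * indicator (Z k) (d k) / Nk  (LpDual.pair with the conjugate exponent of p, Ms.memLp).
Biorthogonality from orth (phi = d j * indicator (Z k) for j < k, phi = indicator (Z k) * d k for j > k).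
For g put e k = av (kap (k+1)) g - av (kap k) g: martingale differences; int g 1_Z d = int e 1_Z d, so by
Cauchy-Schwarz (b k g)^2 m(Z k) <= (2/kap0) int_{Z k} e k^2.  Apply dual_doob with I from
exists_functional m (kap n), n = 2^N, the filtration R' k x y = forall i <= k, (x in Z i <-> y in Z i),
a k = (b k g)^2 * indicator (Z k), phi k = (2/kap0) e k^2.  An R' k-measurable psi is Rk (kap k)-measurable
and constant on Z k: lemma: Desc i k, 1 <= i -> Z k subset Z i; and (Z i inter Z k).Nonempty ->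
Desc i k or Desc k i (strong induction).  Then sqfn, telescoping, abs_add_rpow_le,
integral_abs_av_rpow_le; finally on Z J (J in V N, pairwise disjoint) sum_k a k >= sqf N (b . g) J and
kap0 * len J <= m.real (Z J).
-/
theorem system_lower {p : ℝ≥0∞} (q : ℝ≥0∞) [Fact (1 ≤ p)] [Fact (1 ≤ q)]
    [ENNReal.HolderTriple p p q] (hq1 : 1 < q) (hq : q ≠ ⊤) (κ₀ : ℝ) :
    ∃ C' : ℝ, 1 ≤ C' ∧
    ∀ {Ω : Type} [MeasurableSpace Ω] (m : Measure Ω) [IsProbabilityMeasure m]
      {X : Type} [NormedAddCommGroup X] [NormedSpace ℝ X] (T : X →L[ℝ] Lp ℝ p m)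
      (w : ℕ → Lp ℝ q m) (Z : ℕ → Set Ω) (K C : ℝ), TreeData m q w Z κ₀ C →
      ∀ (η : ℕ → ℝ), (∀ k, η k ≤ κ₀ / 2) →
      ∀ (κ : ℕ → SimpleFunc Ω (List ℝ)) (u : ℕ → X) (d : ℕ → Ω → ℝ) (D : ℕ → Lp ℝ p m),
        MDData m T w Z K η κ u d D → ∃ b : ℕ → Lp ℝ p m →L[ℝ] ℝ,
          (∀ k j, b k (D j) = if j = k then 1 else 0) ∧
          ∀ (N : ℕ) (g : Lp ℝ p m), ∑ J ∈ V N, len J * sqf N (fun k => b k g) J ^ q.toReal
            ≤ C' * ‖g‖ ^ (2 * q.toReal) := by
  have hr : 1 ≤ q.toReal := one_le_toReal hq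
  have hp2 : p.toReal = 2 * q.toReal := toReal_eq_two_mul q p
  have hp : p ≠ ⊤ := ne_top_of_half q p hq
  set r := q.toReal with hrdef
  obtain ⟨C₁, hC₁, hdoob⟩ := dual_doob hr
  obtain ⟨C₂, hC₂, hsq⟩ := sqfn hr
  refine ⟨max 1 (κ₀⁻¹ * (C₁ * ((2 / κ₀) ^ r * (C₂ * (2 ^ (2 * r) * 2))))), le_max_left _ _, ?_⟩
  intro Ω _ m _ X _ _ T w Z K C ht η hη κ u d D hM
  have hκ₀ := ht.κ_pos
  have hχ : ∀ k, Ms (Rk (κ k)) (sysbChi (Z k)) :=
    fun k x y h => sysb_chi_congr (hM.sets k x y h)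
  set Nk : ℕ → ℝ := fun k => ∫ x, sysbChi (Z k) x * d k x ^ 2 ∂m with hNk
  have hN1 : ∀ k, κ₀ / 2 * m.real (Z k) ≤ Nk k := fun k => sysb_var ht hη hM k
  have hZ : ∀ k, 0 < m.real (Z k) := fun k =>
    lt_of_lt_of_le (mul_pos hκ₀ (len_pos k)) (ht.lower k)
  have hN0 : ∀ k, 0 < Nk k := fun k =>
    lt_of_lt_of_le (mul_pos (by linarith) (hZ k)) (hN1 k)
  have hf : ∀ k, Ms (Rk (κ (k + 1))) fun x => (Nk k)⁻¹ * (sysbChi (Z k) x * d k x) :=
    fun k x y h => by simp only [hχ k x y (hM.mono k x y h), hM.meas k x y h]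
  choose b hb using fun k => sysb_functional (m := m) p (hf k)
  refine ⟨b, fun k j => ?_, fun N g => ?_⟩
  · have e1 : b k (D j) = ∫ x, (Nk k)⁻¹ * (sysbChi (Z k) x * d k x) * d j x ∂m := by
      rw [hb]
      refine integral_congr_ae ?_
      filter_upwards [hM.coe j] with x hx
      rw [hx]
    rw [e1]
    rcases lt_trichotomy j k with h | h | h
    · rw [if_neg h.ne, ← hM.orth k (fun x => (Nk k)⁻¹ * (sysbChi (Z k) x * d j x)) fun x y hxy => by
        simp only [hχ k x y hxy, sysb_ms hM.mono (Nat.succ_le_of_lt h) (hM.meas j) x y hxy]]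
      congr 1; funext x; ring
    · subst h
      rw [if_pos rfl, ← inv_mul_cancel₀ (hN0 j).ne']
      conv_rhs => rw [hNk]
      rw [← integral_const_mul]
      congr 1; funext x; ring
    · rw [if_neg h.ne']
      exact hM.orth j _ (sysb_ms hM.mono (Nat.succ_le_of_lt h) (hf k))
  · set n := 2 ^ N with hn
    have hg : Integrable g m := (Lp.memLp g).integrable Fact.out
    have hgr : Integrable (fun x => |g x| ^ (2 * r)) m := by
      rw [← hp2]; exact Pool.Agent.Lib.LpDual.integrable_abs_rpow hp g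
    have hgn : ‖g‖ ^ (2 * r) = ∫ x, |g x| ^ (2 * r) ∂m := by
      rw [← hp2]; exact Pool.Agent.Lib.LpDual.norm_rpow_eq hp g
    set e : ℕ → Ω → ℝ := fun k x => av m (κ (k + 1)) g x - av m (κ k) g x with he
    have hem : ∀ k, Ms (Rk (κ (k + 1))) (e k) := fun k x y h => by
      simp only [he, ms_av (κ (k + 1)) g x y h, ms_av (κ k) g x y (hM.mono k x y h)]
    have hcs : ∀ k, b k g ^ 2 * m.real (Z k)
        ≤ 2 / κ₀ * ∫ x, sysbChi (Z k) x * e k x ^ 2 ∂m := by
      intro k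
      have h1 : ∫ x, sysbChi (Z k) x * d k x * g x ∂m = b k g * Nk k := by
        rw [hb, mul_comm, ← integral_const_mul]
        congr 1; funext x
        field_simp [(hN0 k).ne']
      have h2 := sysb_cs (hM.mono k) (hχ k) (sysb_chi_nonneg _) (hM.meas k) (hM.orth k) hg h1
      have h3 := mul_le_mul_of_nonneg_left (hN1 k) (sq_nonneg (b k g))
      have h4 : b k g ^ 2 * m.real (Z k) = 2 / κ₀ * (b k g ^ 2 * (κ₀ / 2 * m.real (Z k))) := by
        field_simp
      rw [h4]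
      exact mul_le_mul_of_nonneg_left (h3.trans h2) (by positivity)
    obtain ⟨I, hI0, hI⟩ := exists_functional m (κ n)
    let F : Filt Ω := ⟨I, hI0, fun k => Rk (κ k), hM.mono⟩
    let F' : Filt Ω := ⟨I, hI0, fun k x y => ∀ i ≤ k, (x ∈ Z i ↔ y ∈ Z i),
      fun k x y h i hi => h i (Nat.le_succ_of_le hi)⟩
    have hF' : ∀ k (ψ : Ω → ℝ), Ms (F'.R k) ψ → Ms (Rk (κ k)) ψ := fun k ψ hψ x y h =>
      hψ x y fun i hi => hM.sets i x y (sysb_mono hM.mono hi h)
    have hMD : F.MD n e := by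
      refine ⟨fun k _ => hem k, fun k hk φ hφ => ?_⟩
      have hφ0 : Ms (Rk (κ k)) φ := hφ
      have hφ1 : Ms (Rk (κ (k + 1))) φ := sysb_ms hM.mono (Nat.le_succ k) hφ0
      have h1 : Ms (Rk (κ (k + 1))) fun x => φ x * e k x := fun x y h => by
        simp only [hφ1 x y h, hem k x y h]
      have e1 : (fun x => φ x * e k x)
          = fun x => φ x * av m (κ (k + 1)) g x - φ x * av m (κ k) g x := by
        funext x; simp only [he]; ring
      show I _ = 0
      rw [hI _ (sysb_ms hM.mono (Nat.succ_le_of_lt hk) h1), e1,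
        integral_sub (hφ1.integrable_mul (ms_av _ _).integrable)
          (hφ0.integrable_mul (ms_av _ _).integrable),
        integral_mul_av hφ1 hg, integral_mul_av hφ0 hg, sub_self]
    have h1 := hdoob F' n (fun k x => b k g ^ 2 * sysbChi (Z k) x) (fun k x => 2 / κ₀ * e k x ^ 2)
      (fun k _ x => mul_nonneg (sq_nonneg _) (sysb_chi_nonneg _ _))
      (fun k _ x => by positivity)
      (fun k _ x y h => by simp only [sysb_chi_congr (h k le_rfl)])
      (fun k hk ψ hψ0 hψ => by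
        have hψk := hF' k ψ hψ
        have hψ1 : Ms (Rk (κ (k + 1))) ψ := sysb_ms hM.mono (Nat.le_succ k) hψk
        have m1 : Ms (Rk (κ k)) fun x => ψ x * (b k g ^ 2 * sysbChi (Z k) x) := fun x y h => by
          simp only [hψk x y h, hχ k x y h]
        have m2 : Ms (Rk (κ (k + 1))) fun x => ψ x * (2 / κ₀ * e k x ^ 2) := fun x y h => by
          simp only [hψ1 x y h, hem k x y h]
        have m3 : Ms (Rk (κ (k + 1))) fun x => sysbChi (Z k) x * e k x ^ 2 := fun x y h => by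
          simp only [hχ k x y (hM.mono k x y h), hem k x y h]
        obtain ⟨y, hy⟩ : (Z k).Nonempty := by
          rcases (Z k).eq_empty_or_nonempty with h | h
          · have := hZ k
            rw [h] at this
            simp at this
          · exact h
        have hc : ∀ x ∈ Z k, ψ x = ψ y := fun x hx => hψ x y fun i hi =>
          ⟨sysb_iff ht hi hy hx, sysb_iff ht hi hx hy⟩
        show I _ ≤ I _
        rw [hI _ (sysb_ms hM.mono hk.le m1), hI _ (sysb_ms hM.mono (Nat.succ_le_of_lt hk) m2)]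
        calc _ = ψ y * (b k g ^ 2 * m.real (Z k)) := by
              rw [← sysb_integral_chi (ht.meas k), ← integral_const_mul, ← integral_const_mul]
              congr 1; funext x
              by_cases hx : x ∈ Z k
              · rw [hc x hx]
              · rw [sysb_chi_notMem hx]; simp
          _ ≤ ψ y * (2 / κ₀ * ∫ x, sysbChi (Z k) x * e k x ^ 2 ∂m) :=
              mul_le_mul_of_nonneg_left (hcs k) (hψ0 y)
          _ ≤ _ := by
              rw [← integral_const_mul, ← integral_const_mul]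
              refine integral_mono ((m3.integrable.const_mul _).const_mul _) m2.integrable
                fun x => ?_
              beta_reduce
              by_cases hx : x ∈ Z k
              · rw [hc x hx, sysb_chi_mem hx, one_mul]
              · rw [sysb_chi_notMem hx]
                have := hψ0 x
                simp only [zero_mul, mul_zero]
                positivity)
    have h2 := hsq F n e hMD
    have m4 : Ms (Rk (κ n)) fun x => (∑ k ∈ range n, b k g ^ 2 * sysbChi (Z k) x) ^ r :=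
      fun x y h => by
        beta_reduce
        rw [Finset.sum_congr rfl fun k hk => by
          rw [sysb_ms hM.mono (Finset.mem_range.1 hk).le (hχ k) x y h]]
    have h3 := sysb_lower ht (by linarith : 0 ≤ r) N (fun k => b k g) m4.integrable
    have e2 : (fun x => (∑ k ∈ range n, 2 / κ₀ * e k x ^ 2) ^ r)
        = (2 / κ₀) ^ r • fun x => (∑ k ∈ range n, e k x ^ 2) ^ r := by
      funext x
      rw [← Finset.mul_sum, Real.mul_rpow (by positivity)
        (Finset.sum_nonneg fun k _ => sq_nonneg _)]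
      rfl
    have e3 : (fun x => |∑ k ∈ range n, e k x| ^ (2 * r))
        = fun x => |av m (κ n) g x - av m (κ 0) g x| ^ (2 * r) := by
      funext x
      rw [Finset.sum_range_sub fun k => av m (κ k) g x]
    have m5 : Ms (Rk (κ n)) (av m (κ 0) g) := sysb_ms hM.mono (Nat.zero_le n) (ms_av _ _)
    have m6 : Ms (Rk (κ n)) fun x => |av m (κ n) g x - av m (κ 0) g x| ^ (2 * r) := fun x y h => by
      simp only [ms_av (κ n) g x y h, m5 x y h]
    have m7 : Ms (Rk (κ n)) fun x => |av m (κ n) g x| ^ (2 * r) := fun x y h => by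
      simp only [ms_av (κ n) g x y h]
    have m8 : Ms (Rk (κ n)) fun x => |av m (κ 0) g x| ^ (2 * r) := fun x y h => by
      simp only [m5 x y h]
    have h4 : ∫ x, |av m (κ n) g x - av m (κ 0) g x| ^ (2 * r) ∂m
        ≤ 2 ^ (2 * r) * 2 * ‖g‖ ^ (2 * r) := by
      have a1 := integral_abs_av_rpow_le (κ n) (by linarith : 1 ≤ 2 * r) hg hgr
      have a2 := integral_abs_av_rpow_le (κ 0) (by linarith : 1 ≤ 2 * r) hg hgr
      calc _ ≤ ∫ x, 2 ^ (2 * r) * (|av m (κ n) g x| ^ (2 * r) + |av m (κ 0) g x| ^ (2 * r)) ∂m := by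
            refine integral_mono m6.integrable ((m7.integrable.add m8.integrable).const_mul _)
              fun x => ?_
            have := abs_add_rpow_le (by linarith : 0 ≤ 2 * r) (av m (κ n) g x) (-av m (κ 0) g x)
            rwa [abs_neg, ← sub_eq_add_neg] at this
        _ ≤ _ := by
            rw [integral_const_mul, integral_add m7.integrable m8.integrable, hgn, mul_assoc]
            exact mul_le_mul_of_nonneg_left (by linarith) (by positivity)
    change I _ ≤ C₁ * I _ at h1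
    change I _ ≤ C₂ * I _ at h2
    rw [hI _ m4, e2, map_smul, smul_eq_mul] at h1
    rw [e3, hI _ m6] at h2
    have h5 : κ₀ * ∑ J ∈ V N, len J * sqf N (fun k => b k g) J ^ r
        ≤ C₁ * ((2 / κ₀) ^ r * (C₂ * (2 ^ (2 * r) * 2 * ‖g‖ ^ (2 * r)))) := by
      refine h3.trans (h1.trans ?_)
      refine mul_le_mul_of_nonneg_left (mul_le_mul_of_nonneg_left (h2.trans ?_) (by positivity))
        (by linarith)
      exact mul_le_mul_of_nonneg_left h4 (by linarith)
    calc _ ≤ κ₀⁻¹ * (C₁ * ((2 / κ₀) ^ r * (C₂ * (2 ^ (2 * r) * 2)))) * ‖g‖ ^ (2 * r) := by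
          rw [mul_assoc, le_inv_mul_iff₀ hκ₀]
          refine h5.trans (le_of_eq ?_)
          ring
      _ ≤ _ := mul_le_mul_of_nonneg_right (le_max_right _ _) (by positivity)

end Pool.Agent.MP_fc1aea_an

end

-- part MP_fc1aea_an.Main
section

open MeasureTheory Filter Topology
open scoped ENNReal

namespace Pool.Agent.MP_fc1aea_an

/-- A space uniformly homeomorphic to `L_p` is complemented in `L_p` (classical). -/
theorem complemented_in_Lp (p : ℝ≥0∞) [Fact (1 ≤ p)] (hp1 : 1 < p) (hp : p ≠ ⊤)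
    (X : Type) [NormedAddCommGroup X] [NormedSpace ℝ X] [CompleteSpace X]
    (e : UniformEquiv X (Lp ℝ p mu01)) :
    ∃ (A : X →L[ℝ] Lp ℝ p mu01) (B : Lp ℝ p mu01 →L[ℝ] X), ∀ x, B (A x) = x := by
  obtain ⟨ν, hν, L, Ψ, Φ, hΨ, hΦ, h⟩ := lip_factor p hp X e
  have : Fact (p ≠ ⊤) := ⟨hp⟩
  have : TopologicalSpace.SeparableSpace X :=
    e.symm.toHomeomorph.surjective.denseRange.separableSpace e.symm.toHomeomorph.continuous
  refine global_factor p hp1 hp X L fun E _ η hη => ?_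
  have := local_factor (Z := StrongDual ℝ (StrongDual ℝ X)) p hp ν L Ψ Φ
    (NormedSpace.inclusionInDoubleDual ℝ X) hΨ hΦ h E η hη
  exact this

/-- From an additive function with atoms to a complemented copy of `L_p`. -/
theorem factor_of_W {p : ℝ≥0∞} (q : ℝ≥0∞) [Fact (1 ≤ p)] [Fact (1 ≤ q)]
    [ENNReal.HolderTriple p p q] (hp1 : 1 < p) (hq1 : 1 < q) (hq : q ≠ ⊤)
    {Ω : Type} [MeasurableSpace Ω] (m : Measure Ω) [IsProbabilityMeasure m]
    {X : Type} [NormedAddCommGroup X] [NormedSpace ℝ X] [CompleteSpace X]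
    (T₀ : X →L[ℝ] Lp ℝ p m) (c : ℝ) (hT : ∀ x, ‖x‖ ≤ c * ‖T₀ x‖) (W : ℕ → Lp ℝ q m)
    (h0 : ∀ j, 0 ≤ W j) (hadd : ∀ j, 1 ≤ j → W j = W (2 * j) + W (2 * j + 1))
    (c₀ : ℝ) (hc₀ : 0 < c₀) (hc : ∀ N, c₀ ≤ ∑ j ∈ V N, ‖W j‖ ^ q.toReal)
    (hsmall : Tendsto (fun j => ‖W j‖) atTop (𝓝 0)) (hW : ∀ j, W j ∈ SqS q T₀) :
    ∃ (A : Lp ℝ p mu01 →L[ℝ] X) (B : X →L[ℝ] Lp ℝ p mu01), ∀ f, B (A f) = f := by
  obtain ⟨w, Z, κ₀, C, htree, hw⟩ := exists_tree m q hq1 hq W h0 hadd c₀ hc₀ hc hsmall _ hW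
  obtain ⟨K, hK, hmd⟩ := exists_md (p := p) q hq
  obtain ⟨C₁, hC₁, hup⟩ := system_upper (p := p) q hq1 hq K C hK
  obtain ⟨C₂, hC₂, hlow⟩ := system_lower (p := p) q hq1 hq κ₀
  refine factor_of_system p hp1 (ne_top_of_half q p hq) q.toReal (one_le_toReal hq)
    (toReal_eq_two_mul q p) T₀ c hT (max C₁ C₂) (le_max_of_le_left hC₁) fun η hη => ?_
  set η' : ℕ → ℝ := fun k => min (η k) (min ((1 / 2) ^ (k + 1) * len k) (κ₀ / 2)) with hη'
  have hη0 : ∀ k, 0 < η' k := fun k => lt_min (hη k)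
    (lt_min (mul_pos (by positivity) (len_pos k)) (half_pos htree.κ_pos))
  obtain ⟨κ, u, d, D, hD⟩ := hmd m T₀ w hw Z htree.meas η' hη0
  obtain ⟨b, hb1, hb2⟩ := hlow m T₀ w Z K C htree η'
    (fun k => (min_le_right _ _).trans (min_le_right _ _)) κ u d D hD
  refine ⟨u, D, b, fun k => (hD.close k).trans (min_le_left _ _), hb1, fun N a => ?_,
    fun N g => (hb2 N g).trans (mul_le_mul_of_nonneg_right (le_max_right _ _) (by positivity))⟩
  refine (hup m T₀ w Z κ₀ htree η' hη0 (fun k => (min_le_right _ _).trans (min_le_left _ _))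
    κ u d D hD N a).trans (mul_le_mul_of_nonneg_right (le_max_left _ _) ?_)
  refine Finset.sum_nonneg fun J _ => mul_nonneg (len_pos J).le (Real.rpow_nonneg ?_ _)
  exact Finset.sum_nonneg fun k _ => by split_ifs <;> positivity

/-- Uniform rigidity of `L_p[0,1]` for `2 < p < ∞`. -/
theorem rigidity (p : ℝ≥0∞) [Fact (1 ≤ p)] (hp2 : 2 < p) (hp : p ≠ ⊤)
    (X : Type) [NormedAddCommGroup X] [NormedSpace ℝ X] [CompleteSpace X]
    (e : UniformEquiv X (Lp ℝ p mu01)) : Nonempty (X ≃L[ℝ] Lp ℝ p mu01) := by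
  have hp1 : 1 < p := lt_trans (by norm_num) hp2
  set q := p / 2 with hqdef
  have hq1 : 1 < q := by
    rw [hqdef, ENNReal.lt_div_iff_mul_lt (by norm_num) (by norm_num), one_mul]; exact hp2
  have hq : q ≠ ⊤ := ENNReal.div_ne_top hp (by norm_num)
  have : Fact (1 ≤ q) := ⟨hq1.le⟩
  have : ENNReal.HolderTriple p p q := ⟨by
    rw [hqdef, ENNReal.inv_div (by norm_num) (by norm_num), ← two_mul, div_eq_mul_inv]⟩
  obtain ⟨A, B, hBA⟩ := complemented_in_Lp p hp1 hp X e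
  obtain ⟨L₁, hL₁, h₁⟩ := corson_klee e e.uniformContinuous
  obtain ⟨L₂, hL₂, h₂⟩ := corson_klee e.symm e.symm.uniformContinuous
  set L := (L₁ + L₂) * (1 + ‖A‖ + ‖B‖) with hL
  have hA := norm_nonneg A
  have hB := norm_nonneg B
  have hL1 : 1 ≤ L := by nlinarith
  obtain ⟨ε, hε, hW⟩ := exists_W (p := p) q hq1 hq hL1
  obtain ⟨st, hs1, hs2, -⟩ := exists_step p hp
  have hBle : ∀ x, ‖x‖ ≤ ‖B‖ * ‖A x‖ := fun x => by
    conv_lhs => rw [← hBA x]
    exact B.le_opNorm _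
  set t := L / ε with ht
  have ht0 : 0 < t := by positivity
  have htε : L ≤ ε * t := by rw [ht]; field_simp; rfl
  set F : Lp ℝ p mu01 → X := fun x => t⁻¹ • e.symm (t • x) with hF
  have hFn : ∀ x y, t * ‖F x - F y‖ = ‖e.symm (t • x) - e.symm (t • y)‖ := fun x y => by
    simp only [hF, ← smul_sub, norm_smul, Real.norm_of_nonneg (inv_pos.2 ht0).le]
    field_simp
  have hxn : ∀ x y : Lp ℝ p mu01, ‖t • x - t • y‖ = t * ‖x - y‖ := fun x y => by
    rw [← smul_sub, norm_smul, Real.norm_of_nonneg ht0.le]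
  obtain ⟨W, c₀, hc₀, w1, w2, w3, w4, w5⟩ := hW mu01
    ⟨st, by rw [← toReal_eq_two_mul q p]; exact hs1, hs2⟩ A F
    ((e.symm.uniformContinuous.comp (uniformContinuous_const_smul t)).const_smul t⁻¹)
    (fun x y => by
      have a1 := h₂ (t • x) (t • y)
      rw [← hFn, hxn] at a1
      have a2 : ‖A (F x) - A (F y)‖ ≤ ‖A‖ * ‖F x - F y‖ := by rw [← map_sub]; exact A.le_opNorm _
      have a3 : ‖A‖ * L₂ ≤ L := by nlinarith
      have a4 := norm_nonneg (x - y)
      refine le_of_mul_le_mul_left ?_ ht0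
      calc _ ≤ ‖A‖ * (t * ‖F x - F y‖) := by nlinarith
        _ ≤ ‖A‖ * L₂ * (t * ‖x - y‖) + ‖A‖ * L₂ := by nlinarith
        _ ≤ L * (t * ‖x - y‖) + ε * t :=
          add_le_add (mul_le_mul_of_nonneg_right a3 (by positivity)) (a3.trans htε)
        _ = _ := by ring)
    (fun x y => by
      have a1 := h₁ (e.symm (t • x)) (e.symm (t • y))
      rw [e.apply_symm_apply, e.apply_symm_apply, ← hFn, hxn] at a1
      have a2 := hBle (F x - F y)
      rw [map_sub] at a2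
      have a3 : L₁ * ‖B‖ ≤ L := by nlinarith
      have a4 := norm_nonneg (A (F x) - A (F y))
      have a5 : L₁ ≤ L := by nlinarith
      refine le_of_mul_le_mul_left ?_ ht0
      calc _ ≤ L₁ * (t * (‖B‖ * ‖A (F x) - A (F y)‖)) + L₁ := a1.trans (by gcongr)
        _ = L₁ * ‖B‖ * (t * ‖A (F x) - A (F y)‖) + L₁ := by ring
        _ ≤ L * (t * ‖A (F x) - A (F y)‖) + ε * t := by gcongr; exact a5.trans htε
        _ = _ := by ring)
  obtain ⟨A', B', h'⟩ := factor_of_W q hp1 hq1 hq mu01 A ‖B‖ hBle W w1 w2 c₀ hc₀ w3 w4 w5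
  exact pelczynski p hp X A B hBA A' B' h'

end Pool.Agent.MP_fc1aea_an

end
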